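import Pool.Agent.J4H22.Diag

/-!
# The questions asked by a job
-/

namespace Pool.Agent.J4H22

open Pool.Agent.NPC

/-- is the action a question? -/
def isAsk (x : EA) : Bool :=
  match x with
  | .inl (.inl _) => false
  | .inl (.inr _) => true
  | .inr _ => false

/-- The strings about which the job asks. -/
def asks (A : Oracle) (d : Code) (v : VI) (s : ℕ) : ℕ → PCf ES → List (List Bool)
  | 0, _ => []
  | t + 1, p => match stopB (d, v, s, t + 1) p.a p.b with
    | some _ => []
    | none => cond (isAsk (eact d v p.a p.b)) (p.w :: asks A d v s t ((simP d v).step A p))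
        (asks A d v s t ((simP d v).step A p))

/-- The strings about which a job asks. -/
def jasks (A : Oracle) (J : Job) : List (List Bool) :=
  asks A J.1 J.2.1 J.2.2.1 J.2.2.2 ⟨false, einit J.1, []⟩

theorem stopB_none {d : Code} {v : VI} {s t : ℕ} {p : PCf ES}
    (h : stopB (d, v, s, t) p.a p.b = none) :
    ecells p.b.2.2 ≤ s ∧ vd (eact d v p.a p.b) = none := by
  have hcells : ecells p.b.2.2 ≤ s := by
    by_contra hcon
    unfold stopB at h
    rw [if_pos (by simpa using hcon)] at h
    simp at h
  refine ⟨hcells, ?_⟩
  unfold stopB at h
  rw [if_neg (by simpa using hcells)] at h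
  simp only at h
  cases hv : vd (eact d v p.a p.b) with
  | none => rfl
  | some b => rw [hv] at h; simp at h

/-- one step does not depend on the oracle, unless it is a question -/
theorem step_congr {A A' : Oracle} {d : Code} {v : VI} {p : PCf ES}
    (h : isAsk (eact d v p.a p.b) = true → A p.w = A' p.w) :
    (simP d v).step A p = (simP d v).step A' p := by
  have hact : (simP d v).act (p.a, p.b) = epa (eact d v p.a p.b) := rfl
  have hnxt : (simP d v).nxt (p.a, p.b) = enxt v (eact d v p.a p.b) p.b := rfl
  unfold Proc.step
  rw [hact, hnxt]
  rcases hx : eact d v p.a p.b with (b | q) | ⟨y1, y2, y3, y4⟩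
  · rfl
  · rw [hx] at h
    simp only [epa]
    rw [h rfl]
  · cases y4 <;> rfl

/-- Locality: the result depends only on the answers to the questions asked. -/
theorem run_congr {A A' : Oracle} {d : Code} {v : VI} {s : ℕ} : ∀ (t : ℕ) (p : PCf ES),
    (∀ w ∈ asks A d v s t p, A w = A' w) → run A d v s t p = run A' d v s t p := by
  intro t
  induction t with
  | zero => intro p _; rfl
  | succ t ih =>
    intro p h
    unfold run
    unfold asks at h
    cases hst : stopB (d, v, s, t + 1) p.a p.b with
    | some r => rfl
    | none =>
      rw [hst] at h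
      simp only at h ⊢
      have h1 : (simP d v).step A p = (simP d v).step A' p := by
        refine step_congr fun ha => h p.w ?_
        rw [ha]
        simp
      rw [← h1]
      refine ih _ fun w hw => h w ?_
      cases isAsk (eact d v p.a p.b) with
      | false => exact hw
      | true => exact List.mem_cons_of_mem _ hw

theorem jres_congr {A A' : Oracle} {J : Job} (h : ∀ w ∈ jasks A J, A w = A' w) :
    jres A J = jres A' J := run_congr _ _ h

theorem asks_length {A : Oracle} {d : Code} {v : VI} {s : ℕ} : ∀ (t : ℕ) (p : PCf ES),
    (asks A d v s t p).length ≤ t := by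
  intro t
  induction t with
  | zero => intro p; exact le_rfl
  | succ t ih =>
    intro p
    unfold asks
    cases stopB (d, v, s, t + 1) p.a p.b with
    | some r => exact Nat.zero_le _
    | none =>
      simp only
      have h1 := ih ((simP d v).step A p)
      cases isAsk (eact d v p.a p.b) with
      | false => exact h1.trans (Nat.le_succ _)
      | true =>
        simp only [cond_true, List.length_cons]
        omega

theorem step_w {A : Oracle} {d : Code} {v : VI} (p : PCf ES) :
    ((simP d v).step A p).w.length ≤ p.w.length + 1 := by
  unfold Proc.step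
  split
  · omega
  · simp
  · simp
  · simp

/-- the first question from a configuration on, without oracle -/
def fask (d : Code) (v : VI) (s : ℕ) : ℕ → PCf ES → Option (List Bool)
  | 0, _ => none
  | t + 1, p => match stopB (d, v, s, 1) p.a p.b with
    | some _ => none
    | none => cond (isAsk (eact d v p.a p.b)) (some p.w)
        (fask d v s t ((simP d v).step (fun _ => false) p))

theorem fask_mono {d : Code} {v : VI} {s : ℕ} {w : List Bool} : ∀ (t : ℕ) (p : PCf ES),
    fask d v s t p = some w → fask d v s (t + 1) p = some w := by
  intro t
  induction t with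
  | zero => intro p h; simp [fask] at h
  | succ t ih =>
    intro p h
    unfold fask at h ⊢
    cases hst : stopB (d, v, s, 1) p.a p.b with
    | some r => rw [hst] at h; simp at h
    | none =>
      rw [hst] at h
      simp only at h ⊢
      cases ha : isAsk (eact d v p.a p.b) with
      | true => rw [ha] at h; exact h
      | false =>
        rw [ha] at h
        exact ih _ h

theorem fask_mono' {d : Code} {v : VI} {s : ℕ} {w : List Bool} {t t' : ℕ} (h : t ≤ t')
    {p : PCf ES} (hp : fask d v s t p = some w) : fask d v s t' p = some w := by
  obtain ⟨k, rfl⟩ := Nat.exists_eq_add_of_le h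
  induction k with
  | zero => exact hp
  | succ k ih => exact fask_mono _ _ (ih (by omega))

theorem fask_length {d : Code} {v : VI} {s : ℕ} {w : List Bool} : ∀ (t : ℕ) (p : PCf ES),
    fask d v s t p = some w → w.length + 1 ≤ p.w.length + t := by
  intro t
  induction t with
  | zero => intro p h; simp [fask] at h
  | succ t ih =>
    intro p h
    unfold fask at h
    cases hst : stopB (d, v, s, 1) p.a p.b with
    | some r => rw [hst] at h; simp at h
    | none =>
      rw [hst] at h
      simp only at h
      cases ha : isAsk (eact d v p.a p.b) with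
      | true =>
        rw [ha] at h
        simp only [cond_true, Option.some.injEq] at h
        subst h
        omega
      | false =>
        rw [ha] at h
        have h1 := ih _ h
        have h2 := step_w (A := fun _ => false) (d := d) (v := v) p
        omega

/-- The possible questions of a job; this set does not depend on the oracle. -/
def QS (J : Job) : Set (List Bool) :=
  {w | ∃ a e, EInv J.1 J.2.1 J.2.2.1 e ∧ fask J.1 J.2.1 J.2.2.1 J.2.2.2 ⟨a, e, []⟩ = some w}

theorem stopB_pos {d : Code} {v : VI} {s t : ℕ} {a : Bool} {e : ES} :
    stopB (d, v, s, t + 1) a e = stopB (d, v, s, 1) a e := by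
  unfold stopB
  simp

theorem asks_sub {A : Oracle} {d : Code} {v : VI} {s : ℕ} {w : List Bool} :
    ∀ (t : ℕ) (p : PCf ES), EInv d v s p.b → w ∈ asks A d v s t p →
      fask d v s t p = some w ∨
        ∃ a e, ∃ t' ≤ t, EInv d v s e ∧ fask d v s t' ⟨a, e, []⟩ = some w := by
  intro t
  induction t with
  | zero => intro p _ h; simp [asks] at h
  | succ t ih =>
    intro p hp h
    unfold asks at h
    cases hst : stopB (d, v, s, t + 1) p.a p.b with
    | some r => rw [hst] at h; simp at h
    | none =>
      rw [hst] at h
      simp only at h
      obtain ⟨hc, hvd⟩ := stopB_none hst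
      have hst' : stopB (d, v, s, 1) p.a p.b = none := by rw [← stopB_pos (t := t)]; exact hst
      have hb : ((simP d v).step A p).b = enxt v (eact d v p.a p.b) p.b := by
        rw [(step_eff (P := simP d v) (A := A) (c := p) (x := eact d v p.a p.b) rfl hvd).1]
        rfl
      have hinv : EInv d v s ((simP d v).step A p).b := by
        rw [hb]
        exact hp.next hc
      cases ha : isAsk (eact d v p.a p.b) with
      | true =>
        rw [ha] at h
        simp only [cond_true, List.mem_cons] at h
        rcases h with h | h
        · left
          unfold fask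
          rw [hst']
          simp only
          rw [ha, h]
          rfl
        · right
          have hw : ((simP d v).step A p).w = [] := by
            rcases hx : eact d v p.a p.b with (b | q) | y
            · rw [hx] at ha; simp [isAsk] at ha
            · unfold Proc.step
              have hact : (simP d v).act (p.a, p.b) = epa (eact d v p.a p.b) := rfl
              rw [hact, hx]
              rfl
            · rw [hx] at ha; simp [isAsk] at ha
          rcases ih _ hinv h with h1 | ⟨a, e, t', ht', h1, h2⟩
          · refine ⟨((simP d v).step A p).a, ((simP d v).step A p).b, t, Nat.le_succ _, hinv, ?_⟩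
            rw [← hw]
            exact h1
          · exact ⟨a, e, t', by omega, h1, h2⟩
      | false =>
        rw [ha] at h
        simp only [cond_false] at h
        rcases ih _ hinv h with h1 | ⟨a, e, t', ht', h1, h2⟩
        · left
          unfold fask
          rw [hst']
          simp only
          rw [ha]
          simp only [cond_false]
          rw [step_congr (A := fun _ => false) (A' := A) fun h3 => by rw [ha] at h3; simp at h3]
          exact h1
        · exact Or.inr ⟨a, e, t', by omega, h1, h2⟩

theorem jasks_sub {A : Oracle} {J : Job} {w : List Bool} (h : w ∈ jasks A J) : w ∈ QS J := by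
  rcases asks_sub _ _ (EInv.init _ _ _) h with h1 | ⟨a, e, t', ht', h1, h2⟩
  · exact ⟨false, _, EInv.init _ _ _, h1⟩
  · exact ⟨a, e, h1, fask_mono' ht' h2⟩

theorem QS_length {J : Job} {w : List Bool} (h : w ∈ QS J) : w.length < J.2.2.2 := by
  obtain ⟨a, e, _, h⟩ := h
  have := fask_length _ _ h
  simp only [List.length_nil] at this
  omega

/-! ### Counting -/

/-- `S` has at most `n` elements -/
def Small (S : Set (List Bool)) (n : ℕ) : Prop :=
  ∃ l : List (List Bool), l.length ≤ n ∧ ∀ w ∈ S, w ∈ l

theorem Small.mono {S : Set (List Bool)} {n m : ℕ} (h : Small S n) (hnm : n ≤ m) : Small S m := by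
  obtain ⟨l, hl, h⟩ := h
  exact ⟨l, hl.trans hnm, h⟩

theorem Small.union {S T : Set (List Bool)} {n m : ℕ} (h : Small S n) (h' : Small T m) :
    Small (S ∪ T) (n + m) := by
  obtain ⟨l, hl, h⟩ := h
  obtain ⟨l', hl', h'⟩ := h'
  refine ⟨l ++ l', by rw [List.length_append]; omega, ?_⟩
  rintro w (hw | hw)
  · exact List.mem_append_left _ (h w hw)
  · exact List.mem_append_right _ (h' w hw)

/-- all bit strings of length at most `n` -/
def allBits : ℕ → List (List Bool)
  | 0 => [[]]
  | n + 1 => [] :: (allBits n).flatMap fun l => [false :: l, true :: l]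

theorem allBits_length (n : ℕ) : (allBits n).length + 1 = 2 ^ (n + 1) := by
  induction n with
  | zero => rfl
  | succ n ih =>
    have h1 : ((allBits n).flatMap fun l => [false :: l, true :: l]).length =
        2 * (allBits n).length := by
      rw [List.length_flatMap]
      simp only [List.length_cons, List.length_nil, List.map_const', List.sum_replicate]
      simp
      ring
    unfold allBits
    rw [List.length_cons, h1, pow_succ]
    omega

theorem mem_allBits {n : ℕ} : ∀ {l : List Bool}, l.length ≤ n → l ∈ allBits n := by
  induction n with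
  | zero =>
    intro l hl
    rw [List.length_eq_zero_iff.1 (Nat.le_zero.1 hl)]
    simp [allBits]
  | succ n ih =>
    intro l hl
    unfold allBits
    cases l with
    | nil => simp
    | cons b l =>
      refine List.mem_cons_of_mem _ (List.mem_flatMap.2 ⟨l, ih (by simpa using hl), ?_⟩)
      cases b <;> simp

/-- the elements of size at most `B`, as a list -/
def ofSize (α : Type) [TEnc α] [TDec α] (B : ℕ) : List α :=
  (allBits B).filterMap (unbits α)

theorem mem_ofSize {α : Type} [TEnc α] [TDec α] {B : ℕ} {a : α} (h : sz a ≤ B) :
    a ∈ ofSize α B := by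
  unfold ofSize
  rw [List.mem_filterMap]
  exact ⟨bits a, mem_allBits h, unbits_bits a⟩

theorem ofSize_length (α : Type) [TEnc α] [TDec α] (B : ℕ) :
    (ofSize α B).length ≤ 2 ^ (B + 1) := by
  have h1 := List.length_filterMap_le (unbits α) (allBits B)
  have h2 := allBits_length B
  unfold ofSize
  omega

/-- The number of possible questions. -/
theorem QS_small : ∃ q : Polynomial ℕ, ∀ J : Job,
    Small (QS J) (2 ^ q.eval (sz J.1 + sz J.2.1 + J.2.2.1)) := by
  obtain ⟨q, hq⟩ := EInv.size
  refine ⟨q + 2, fun J => ?_⟩
  set B := q.eval (sz J.1 + sz J.2.1 + J.2.2.1) with hB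
  refine ⟨((ofSize ES B).flatMap fun e => [fask J.1 J.2.1 J.2.2.1 J.2.2.2 ⟨false, e, []⟩,
    fask J.1 J.2.1 J.2.2.1 J.2.2.2 ⟨true, e, []⟩]).filterMap id, ?_, ?_⟩
  · refine (List.length_filterMap_le _ _).trans ?_
    rw [List.length_flatMap]
    simp only [List.length_cons, List.length_nil, List.map_const', List.sum_replicate]
    have h1 := ofSize_length ES B
    simp only [Polynomial.eval_add, Polynomial.eval_ofNat]
    rw [← hB, smul_eq_mul]
    have : 2 ^ (B + 2) = 2 ^ (B + 1) * 2 := pow_succ _ _
    omega
  · rintro w ⟨a, e, he, hw⟩
    rw [List.mem_filterMap]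
    refine ⟨some w, ?_, rfl⟩
    rw [List.mem_flatMap]
    refine ⟨e, mem_ofSize (hq _ _ _ _ he), ?_⟩
    cases a
    · rw [← hw]; simp
    · rw [← hw]; simp

/-- avoiding a small set -/
theorem Small.avoid {S : Set (List Bool)} {n m : ℕ} (h : Small S n) (f : ℕ → List Bool)
    (hf : Function.Injective f) (hnm : n < m) (b : ℕ) : ∃ c, b ≤ c ∧ c < b + m ∧ f c ∉ S := by
  by_contra hcon
  push Not at hcon
  obtain ⟨l, hl, h⟩ := h
  have h1 : ((List.range' b m).map f).Nodup := (List.nodup_range').map hf
  have h2 : ((List.range' b m).map f) ⊆ l := by
    intro w hw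
    obtain ⟨c, hc, rfl⟩ := List.mem_map.1 hw
    rw [List.mem_range'_1] at hc
    exact h _ (hcon c hc.1 hc.2)
  have h3 := (h1.subperm h2).length_le
  rw [List.length_map, List.length_range'] at h3
  omega

end Pool.Agent.J4H22
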