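import Pool.Agent.J4H22.Trans

/-!
# Hardness on average for tally sets
-/

namespace Pool.Agent.J4H22

open Pool.Agent.NPC

/-! ### Majority vote -/

/-- states: pad, current number, last number, count, number of all votes -/
abbrev MS : Type := List Bool × ℕ × ℕ × ℕ × ℕ

/-- the job -/
def mjJ (ty : Bool) (d : Code) (K : ℕ) (z : MS) : Job := tjob ty d K z.2.1 z.1.length

/-- the next state -/
def mjN (z : MS) (r : Bool) : MS ⊕ Bool :=
  cond (decide (z.2.2.1 ≤ z.2.1)) (.inr (decide (z.2.2.2.2 ≤ 2 * z.2.2.2.1)))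
    (.inl (z.1, z.2.1 + 1, z.2.2.1, cond r (z.2.2.2.1 + 1) z.2.2.2.1, z.2.2.2.2))

/-- the driver -/
def mjD (ty : Bool) (d : Code) (K : ℕ) : Driver (MS ⊕ Bool) where
  job z := match z with
    | .inl z => .inl (mjJ ty d K z)
    | .inr b => .inr b
  upd z := match z.1 with
    | .inl y => mjN y z.2
    | .inr b => .inr b

theorem mjD_poly (ty : Bool) (d : Code) (K : ℕ) : (mjD ty d K).IsPoly := by
  refine driver_poly (J := mjJ ty d K) (N := mjN) ?_ ?_ (fun _ => rfl) (fun _ => rfl)
    (fun _ _ => rfl) (fun _ _ => rfl)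
  · unfold mjJ
    exact P.tjob ty (NPC.Poly.const d) (UPoly.const K) (NPC.Poly.fst (NPC.Poly.snd NPC.Poly.id))
      (UPoly.length (NPC.Poly.fst NPC.Poly.id))
  · unfold mjN
    have h0 : NPC.Poly (fun z : MS × Bool => z.1) := NPC.Poly.fst NPC.Poly.id
    have h1 := NPC.Poly.fst h0
    have h2 := NPC.Poly.fst (NPC.Poly.snd h0)
    have h3 := NPC.Poly.fst (NPC.Poly.snd (NPC.Poly.snd h0))
    have h4 := NPC.Poly.fst (NPC.Poly.snd (NPC.Poly.snd (NPC.Poly.snd h0)))
    have h5 := NPC.Poly.snd (NPC.Poly.snd (NPC.Poly.snd (NPC.Poly.snd h0)))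
    exact NPC.Poly.cond (NPC.Poly.decide_le h3 h2)
      (NPC.Poly.inr (NPC.Poly.decide_le h5 (NPC.Poly.mul (NPC.Poly.const 2) h4)))
      (NPC.Poly.inl (NPC.Poly.pair h1 (NPC.Poly.pair (NPC.Poly.succ h2) (NPC.Poly.pair h3
        (NPC.Poly.pair (NPC.Poly.cond (NPC.Poly.snd NPC.Poly.id) (NPC.Poly.succ h4) h4) h5)))))

/-- number of votes -/
def votes (f : ℕ → Bool) (N E : ℕ) : ℕ := ∑ N' ∈ Finset.Ico N E, cond (f N') 1 0

theorem votes_self (f : ℕ → Bool) (N : ℕ) : votes f N N = 0 := by simp [votes]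

theorem votes_succ (f : ℕ → Bool) {N E : ℕ} (h : N < E) :
    votes f N E = cond (f N) 1 0 + votes f (N + 1) E := by
  unfold votes
  rw [Finset.sum_eq_sum_Ico_succ_bot h]

theorem mjD_reach {A : Oracle} {ty : Bool} {d : Code} {K : ℕ} {pad : List Bool}
    {E G B S T : ℕ}
    (hB : sz pad + 5 * sz E + sz G + 20 ≤ B) (hS : (params ty K pad.length).1 ≤ S)
    (hT : (params ty K pad.length).2 ≤ T) :
    ∀ (k N c : ℕ), N + k = E → c ≤ N →
      (mjD ty d K).Reach A B S T (k + 1) (.inl (pad, N, E, c, G))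
        (.inr (decide (G ≤ 2 * (c + votes (fun N' => jres A (tjob ty d K N' pad.length)) N E)))) := by
  have hszN : ∀ N c, N ≤ E → c ≤ N → sz (.inl (pad, N, E, c, G) : MS ⊕ Bool) ≤ B := by
    intro N c hN hc
    rw [sz_inl]
    simp only [sz_pair]
    have h1 := sz_nat_mono_le hN
    have h2 := sz_nat_mono_le (hc.trans hN)
    omega
  have hszb : ∀ b : Bool, sz (.inr b : MS ⊕ Bool) ≤ B := by
    intro b
    rw [sz_inr]
    have := sz_bool_le b
    omega
  intro k
  induction k with
  | zero =>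
    intro N c h1 h2
    obtain rfl : N = E := by omega
    have h3 := Driver.Reach.one (D := mjD ty d K) (A := A) (B := B) (S := S) (T := T)
      (x := .inl (pad, N, N, c, G)) (J := tjob ty d K N pad.length) rfl hS hT
      (hszN N c le_rfl h2)
    have e : (mjD ty d K).upd (.inl (pad, N, N, c, G), jres A (tjob ty d K N pad.length)) =
        .inr (decide (G ≤ 2 * c)) := by
      show mjN (pad, N, N, c, G) _ = _
      unfold mjN
      simp
    rw [e] at h3
    rw [votes_self, Nat.add_zero]
    exact h3 (hszb _)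
  | succ k ih =>
    intro N c h1 h2
    have hlt : N < E := by omega
    have h3 := Driver.Reach.one (D := mjD ty d K) (A := A) (B := B) (S := S) (T := T)
      (x := .inl (pad, N, E, c, G)) (J := tjob ty d K N pad.length) rfl hS hT
      (hszN N c hlt.le h2)
    have e : (mjD ty d K).upd (.inl (pad, N, E, c, G), jres A (tjob ty d K N pad.length)) =
        .inl (pad, N + 1, E, c + cond (jres A (tjob ty d K N pad.length)) 1 0, G) := by
      show mjN (pad, N, E, c, G) _ = _
      unfold mjN
      simp only [not_le.2 hlt, decide_false, cond_false]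
      cases jres A (tjob ty d K N pad.length) <;> rfl
    rw [e] at h3
    have hc : c + cond (jres A (tjob ty d K N pad.length)) 1 0 ≤ N + 1 := by
      cases jres A (tjob ty d K N pad.length)
      · simp only [cond_false]; omega
      · simp only [cond_true]; omega
    have h4 := ih (N + 1) _ (by omega) hc
    rw [votes_succ _ hlt, ← Nat.add_assoc]
    have h5 := (h3 (hszN _ _ (by omega) hc)).trans h4
    rw [Nat.add_comm 1] at h5
    exact h5

/-- the set given by the majority votes -/
def maj (p : Polynomial ℕ) (S : Set ℕ) : Set ℕ := by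
  classical
  exact {x | x ∈ Tal ∧ 2 ^ p.eval ((bin x).length + 1) - 2 ^ p.eval (bin x).length ≤
    2 * votes (fun N => decide (one N ∈ S)) (2 ^ p.eval (bin x).length)
      (2 ^ p.eval ((bin x).length + 1))}

theorem votes_congr {f g : ℕ → Bool} {N E : ℕ} (h : ∀ N', N ≤ N' → N' < E → f N' = g N') :
    votes f N E = votes g N E := by
  unfold votes
  refine Finset.sum_congr rfl fun N' hN' => ?_
  rw [Finset.mem_Ico] at hN'
  rw [h N' hN'.1 hN'.2]

theorem maj_mem {A : Oracle} {ty : Bool} {i : ℕ} {S : Set ℕ} {R : ℕ → ℕ} (h : Sim A ty S R)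
    {p r : Polynomial ℕ} (hp : StrictMono fun n : ℕ => p.eval n)
    (hR : ∀ n N, 1 ≤ n → N < 2 ^ p.eval (n + 1) → R N ≤ tw i (r.eval n))
    (hi : ty = true → 1 ≤ i) : maj p S ∈ C (some A) (cl ty i) := by
  classical
  obtain ⟨d, K, h⟩ := h
  replace h := h K le_rfl
  let ini : List Bool × List Bool → MS := fun z =>
    (z.2, 2 ^ p.eval z.1.length, 2 ^ p.eval (z.1.length + 1), 0,
      2 ^ p.eval (z.1.length + 1) - 2 ^ p.eval z.1.length)
  have hini : NPC.Poly ini := by
    have h1 : UPoly (fun z : List Bool × List Bool => z.1.length) :=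
      UPoly.length (NPC.Poly.fst NPC.Poly.id)
    have h2 := P.pow2 (UPoly.eval h1 p)
    have h3 := P.pow2 (UPoly.eval (UPoly.add h1 (UPoly.const 1)) p)
    exact NPC.Poly.pair (NPC.Poly.snd NPC.Poly.id) (NPC.Poly.pair h2 (NPC.Poly.pair h3
      (NPC.Poly.pair (NPC.Poly.const 0) (NPC.Poly.sub h3 h2))))
  let r' : Polynomial ℕ := r + p.comp (Polynomial.X + 1)
  refine mem_tal (fun x hx => hx.1) ty (mjD_poly ty d K) (fun _ => rfl) hini i r'
    (200 * (Polynomial.X + 1) +
    Polynomial.C (K + 1) * (Polynomial.X + 1) + 40 * (p.comp (Polynomial.X + 1) + 1))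
    fun n W hn hW => ?_
  set m := tw i (r'.eval n) with hm
  have e0 : (200 * (Polynomial.X + 1) + Polynomial.C (K + 1) * (Polynomial.X + 1) +
      40 * (p.comp (Polynomial.X + 1) + 1) : Polynomial ℕ).eval W =
      200 * (W + 1) + (K + 1) * (W + 1) + 40 * (p.eval (W + 1) + 1) := by
    simp [Polynomial.eval_comp]
  rw [e0]
  have e1 : ini (List.replicate n true, List.replicate m true) =
      (List.replicate m true, 2 ^ p.eval n, 2 ^ p.eval (n + 1), 0,
        2 ^ p.eval (n + 1) - 2 ^ p.eval n) := by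
    simp only [ini, List.length_replicate]
  have hlt : 2 ^ p.eval n ≤ 2 ^ p.eval (n + 1) :=
    Nat.pow_le_pow_right (by norm_num) (hp (Nat.lt_succ_self n)).le
  have hr'n : r'.eval n = r.eval n + p.eval (n + 1) := by
    simp [r', Polynomial.eval_comp]
  have hszE : sz (2 ^ p.eval (n + 1)) ≤ 4 * (p.eval (W + 1) + 1) + 1 := by
    have h1 := sz_nat_le (2 ^ p.eval (n + 1))
    rw [Nat.size_pow] at h1
    have h2 : p.eval (n + 1) ≤ p.eval (W + 1) := eval_mono p (by omega)
    omega
  have hszG : sz (2 ^ p.eval (n + 1) - 2 ^ p.eval n) ≤ 2 * sz (2 ^ p.eval (n + 1)) :=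
    sz_nat_mono_le (Nat.sub_le _ _)
  have h1 := mjD_reach (A := A) (ty := ty) (d := d) (K := K)
    (pad := List.replicate m true) (E := 2 ^ p.eval (n + 1))
    (G := 2 ^ p.eval (n + 1) - 2 ^ p.eval n)
    (B := 200 * (W + 1) + (K + 1) * (W + 1) + 40 * (p.eval (W + 1) + 1))
    (S := 200 * (W + 1) + (K + 1) * (W + 1) + 40 * (p.eval (W + 1) + 1))
    (T := (params ty K m).2) (by
      have h2 := sz_listBool_le (List.replicate m true)
      rw [List.length_replicate] at h2
      omega) (by
      rw [List.length_replicate]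
      refine (params_s_le ty K m).trans ?_
      have : (K + 1) * (m + 1) ≤ (K + 1) * (W + 1) := Nat.mul_le_mul_left _ (by omega)
      omega) (by rw [List.length_replicate]) (2 ^ p.eval (n + 1) - 2 ^ p.eval n)
      (2 ^ p.eval n) 0 (by omega) (Nat.zero_le _)
  rw [Nat.zero_add] at h1
  refine ⟨_, (params ty K m).2, _, ?_, by rw [e1]; exact h1, ?_⟩
  · rw [decide_eq_true_eq]
    have e2 : votes (fun N' => jres A (tjob ty d K N' (List.replicate m true).length))
        (2 ^ p.eval n) (2 ^ p.eval (n + 1)) = votes (fun N => decide (one N ∈ S))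
        (2 ^ p.eval n) (2 ^ p.eval (n + 1)) := by
      refine votes_congr fun N h2 h3 => ?_
      have hN1 : 1 ≤ N := (Nat.one_le_two_pow).trans h2
      rw [Bool.eq_iff_iff, decide_eq_true_eq, List.length_replicate]
      exact tjob_res (A := A) h hN1 ((hR n N hn h3).trans
          (tw_mono i (show r.eval n ≤ r'.eval n by omega)))
    rw [e2]
    unfold maj
    simp only [Set.mem_ofPred_eq, bin_one_length hn]
    exact ⟨fun h2 => ⟨one_Tal hn, h2⟩, fun h2 => h2.2⟩
  · rintro rfl
    have hi1 := hi rfl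
    constructor
    · have h2 : 2 ^ p.eval (n + 1) ≤ m := by
        rw [hm]
        obtain ⟨i', rfl⟩ : ∃ i', i = i' + 1 := ⟨i - 1, by omega⟩
        rw [tw_succ]
        refine Nat.pow_le_pow_right (by norm_num) ?_
        refine le_trans ?_ (le_tw i' _)
        omega
      have h3 : 2 ^ p.eval (n + 1) - 2 ^ p.eval n ≤ 2 ^ p.eval (n + 1) := Nat.sub_le _ _
      omega
    · show m ≤ _
      omega

/-! ### Closure properties -/

/-- The classes are closed under finite variations. -/
theorem mem_of_finite {A : Oracle} {ty : Bool} {i : ℕ} {L L' : Set ℕ}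
    (hL : L ∈ C (some A) (cl ty i)) (hf : {x | ¬ (x ∈ L ↔ x ∈ L')}.Finite) :
    L' ∈ C (some A) (cl ty i) := by
  classical
  obtain ⟨p, d, K, h⟩ := sim_cl hL
  let ys : List (List Bool) := hf.toFinset.toList.map bin
  let zs : List (List Bool) := (hf.toFinset.toList.filter fun x => decide (x ∈ L')).map bin
  let ini : List Bool × List Bool → Job ⊕ Bool := fun z =>
    cond (decide (z.1 ∈ ys)) (.inr (decide (z.1 ∈ zs)))
      (.inl (d, vs z.1, params ty K z.2.length))
  have hini : NPC.Poly ini := by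
    refine NPC.Poly.cond ((NPC.Poly.decide_mem (NPC.Poly.fst NPC.Poly.id)
      (NPC.Poly.const ys)).congr fun z => decide_eq_decide.2 Iff.rfl)
      (NPC.Poly.inr ((NPC.Poly.decide_mem (NPC.Poly.fst NPC.Poly.id)
      (NPC.Poly.const zs)).congr fun z => decide_eq_decide.2 Iff.rfl))
      (NPC.Poly.inl (NPC.Poly.pair (NPC.Poly.const d) (NPC.Poly.pair
        (P.vs (NPC.Poly.fst NPC.Poly.id))
        (P.params ty (UPoly.const K) (UPoly.length (NPC.Poly.snd NPC.Poly.id))))))
  refine mem_one ty hini i p (Polynomial.X + Polynomial.C K) fun x W hW => ?_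
  have hys : bin x ∈ ys ↔ ¬ (x ∈ L ↔ x ∈ L') := by
    simp only [ys, List.mem_map, Finset.mem_toList, Set.Finite.mem_toFinset, Set.mem_ofPred_eq]
    constructor
    · rintro ⟨y, h1, h2⟩
      rwa [← bin_injective h2]
    · exact fun h1 => ⟨x, h1, rfl⟩
  by_cases hx : bin x ∈ ys
  · left
    refine ⟨decide (bin x ∈ zs), ?_, ?_⟩
    · simp only [ini, hx, decide_true, cond_true]
    · rw [decide_eq_true_eq]
      simp only [zs, List.mem_map, List.mem_filter, Finset.mem_toList,
        Set.Finite.mem_toFinset, Set.mem_ofPred_eq, decide_eq_true_eq]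
      constructor
      · rintro ⟨y, ⟨_, h1⟩, h2⟩
        rwa [← bin_injective h2]
      · exact fun h1 => ⟨x, ⟨hys.1 hx, h1⟩, rfl⟩
  · right
    refine ⟨d, vs (bin x), K, tw i (p.eval (bin x).length), ?_, ?_, ?_, ?_⟩
    · simp only [ini, hx, decide_false, cond_false, List.length_replicate]
    · simp
    · simp only [Polynomial.eval_add, Polynomial.eval_X, Polynomial.eval_C]
      omega
    · rw [h K le_rfl x (vs (bin x)) _ (vs_list _) le_rfl]
      rw [hys, not_not] at hx
      exact hx

/-- The intersection with the tally inputs. -/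
theorem inter_Tal {A : Oracle} {ty : Bool} {i : ℕ} {L : Set ℕ}
    (hL : L ∈ C (some A) (cl ty i)) : L ∩ Tal ∈ C (some A) (cl ty i) := by
  obtain ⟨p, d, K, h⟩ := sim_cl hL
  let ini : List Bool × List Bool → Job ⊕ Bool := fun z =>
    cond (z.1.all fun b => b) (.inl (d, vs z.1, params ty K z.2.length)) (.inr false)
  have hini : NPC.Poly ini :=
    NPC.Poly.cond isTal_poly (NPC.Poly.inl (NPC.Poly.pair (NPC.Poly.const d) (NPC.Poly.pair
        (P.vs (NPC.Poly.fst NPC.Poly.id))
        (P.params ty (UPoly.const K) (UPoly.length (NPC.Poly.snd NPC.Poly.id))))))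
      (NPC.Poly.const _)
  refine mem_one ty hini i p (Polynomial.X + Polynomial.C K) fun x W hW => ?_
  by_cases hx : x ∈ Tal
  · right
    refine ⟨d, vs (bin x), K, tw i (p.eval (bin x).length), ?_, ?_, ?_, ?_⟩
    · simp only [ini, mem_Tal.1 hx, cond_true, List.length_replicate]
    · simp
    · simp only [Polynomial.eval_add, Polynomial.eval_X, Polynomial.eval_C]
      omega
    · rw [h K le_rfl x (vs (bin x)) _ (vs_list _) le_rfl]
      exact ⟨fun h1 => ⟨h1, hx⟩, fun h1 => h1.1⟩
  · left
    refine ⟨false, ?_, ?_⟩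
    · have h1 : ((bin x).all fun b => b) = false := by
        by_contra hcon
        exact hx (mem_Tal.2 (by simpa using hcon))
      simp only [ini, h1, cond_false]
    · simp only [Bool.false_eq_true, false_iff]
      exact fun h1 => hx h1.2

end Pool.Agent.J4H22
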