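import Pool.Agent.J4H22.Avg

/-!
# An average-case dichotomy
-/

namespace Pool.Agent.J4H22

open Pool.Agent.NPC

/-- For every `ε > 0` there are arbitrarily large `n` such that `S` and `T` differ on at least
`(1/2 - ε) n` of the tally inputs of length `1, …, n`. -/
def Far (S T : Set ℕ) : Prop :=
  ∀ ε : ℝ, 0 < ε → ∀ m : ℕ, ∃ n ≥ m,
    (1 / 2 - ε) * (n : ℝ) ≤ ({N : ℕ | 1 ≤ N ∧ N ≤ n ∧ ¬ (one N ∈ S ↔ one N ∈ T)}.ncard : ℝ)

/-- `C_{j+1}` contains a tally set that no set in `C_j` approximates. -/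
def Hard (o : Option Oracle) (j : ℕ) : Prop :=
  ∃ T ∈ C o (j + 1), T ⊆ Tal ∧ ∀ S ∈ C o j, Far S T

theorem votes_card (f : ℕ → Bool) (a b : ℕ) :
    votes f a b = ((Finset.Ico a b).filter fun N => f N = true).card := by
  unfold votes
  rw [Finset.card_filter]
  refine Finset.sum_congr rfl fun N _ => ?_
  cases f N <;> simp

open Classical in
theorem block_errors (S : Set ℕ) (t : Prop) {a b : ℕ}
    (h : ¬ ((b - a ≤ 2 * votes (fun N => decide (one N ∈ S)) a b) ↔ t)) :
    b - a ≤ 2 * ((Finset.Ico a b).filter fun N => ¬ (one N ∈ S ↔ t)).card := by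
  rw [votes_card] at h
  simp only [decide_eq_true_eq] at h
  by_cases ht : t
  · simp only [ht, iff_true] at h ⊢
    have h1 := Finset.card_filter_add_card_filter_not (s := Finset.Ico a b)
      (fun N => one N ∈ S)
    rw [Nat.card_Ico] at h1
    omega
  · simp only [ht, iff_false, not_not] at h ⊢
    exact h

theorem pull_block {p : Polynomial ℕ} (hp : StrictMono fun n : ℕ => p.eval n) {T : Set ℕ}
    {n N : ℕ} (hn : 1 ≤ n) (h1 : 2 ^ p.eval n ≤ N) (h2 : N < 2 ^ p.eval (n + 1)) :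
    one N ∈ pull p T ↔ one n ∈ T := by
  have hN1 : 1 ≤ N := (Nat.one_le_two_pow).trans h1
  have hu : uu p N = n := (uu_eq hp hn).2 ⟨h1, h2⟩
  constructor
  · intro h
    have := h.2.2
    rwa [bin_one_length hN1, hu] at this
  · intro h
    refine ⟨one_Tal hN1, ?_, ?_⟩
    · rw [bin_one_length hN1, hu]
      exact hn
    · rw [bin_one_length hN1, hu]
      exact h

theorem far_ineq {ε : ℝ} (hε : 0 < ε) {a E n e : ℕ} (hE : 2 ≤ E) (h1 : a * 2 ^ n ≤ E)
    (h2 : E - a ≤ 2 * e) (h3 : 1 / ε ≤ 2 ^ n) :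
    (1 / 2 - ε) * ((E - 1 : ℕ) : ℝ) ≤ (e : ℝ) := by
  have h4 : (a : ℝ) * 2 ^ n ≤ E := by exact_mod_cast h1
  have h5 : (a : ℝ) ≤ ε * E := by
    have h6 : 1 ≤ ε * 2 ^ n := by
      rw [div_le_iff₀ hε] at h3
      linarith
    have h7 : (0 : ℝ) ≤ a := Nat.cast_nonneg a
    calc (a : ℝ) = a * 1 := by ring
      _ ≤ a * (ε * 2 ^ n) := mul_le_mul_of_nonneg_left h6 h7
      _ = ε * (a * 2 ^ n) := by ring
      _ ≤ ε * E := mul_le_mul_of_nonneg_left h4 hε.le
  have h8 : (E : ℝ) - a ≤ 2 * e := by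
    have h9 : E ≤ 2 * e + a := by omega
    have h10 : (E : ℝ) ≤ 2 * e + a := by exact_mod_cast h9
    linarith
  have h11 : (2 : ℝ) ≤ E := by exact_mod_cast hE
  rw [Nat.cast_sub (by omega), Nat.cast_one]
  nlinarith [mul_nonneg hε.le (sub_nonneg.2 h11)]

/-- If the majority votes are wrong infinitely often, then the block version is far from `S`. -/
theorem far_of_maj {p : Polynomial ℕ} (hp : StrictMono fun n : ℕ => p.eval n)
    (hgap : ∀ n, p.eval n + n + 1 ≤ p.eval (n + 1)) {S T : Set ℕ} (hTal : T ⊆ Tal)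
    (hinf : {x | ¬ (x ∈ maj p S ↔ x ∈ T)}.Infinite) : Far S (pull p T) := by
  classical
  intro ε hε m
  obtain ⟨n0, hn0⟩ := pow_unbounded_of_one_lt (1 / ε) (show (1 : ℝ) < 2 by norm_num)
  -- a large length with a wrong majority
  obtain ⟨x, hx, hxn⟩ : ∃ x ∈ {x | ¬ (x ∈ maj p S ↔ x ∈ T)}, m + n0 < (bin x).length := by
    by_contra hcon
    refine hinf (((Set.finite_le_nat (m + n0)).image one).subset fun x hx => ?_)
    refine ⟨(bin x).length, not_lt.1 fun hlt => hcon ⟨x, hx, hlt⟩, ?_⟩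
    have hxTal : x ∈ Tal := by
      by_contra hxT
      refine hx ⟨fun h => absurd h.1 hxT, fun h => absurd (hTal h) hxT⟩
    exact (one_length hxTal).symm
  have hxTal : x ∈ Tal := by
    by_contra hxT
    exact hx ⟨fun h => absurd h.1 hxT, fun h => absurd (hTal h) hxT⟩
  set n := (bin x).length with hn
  have hn1 : 1 ≤ n := bin_length_pos x
  have hxe : x = one n := one_length hxTal
  set a' := 2 ^ p.eval n with ha'
  set E := 2 ^ p.eval (n + 1) with hE
  have hxmaj : x ∈ maj p S ↔ E - a' ≤ 2 * votes (fun N => decide (one N ∈ S)) a' E := by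
    unfold maj
    simp only [Set.mem_ofPred_eq, ← hn]
    exact ⟨fun h => h.2, fun h => ⟨hxTal, h⟩⟩
  have hx' : ¬ ((E - a' ≤ 2 * votes (fun N => decide (one N ∈ S)) a' E) ↔ one n ∈ T) := by
    rw [← hxmaj, ← hxe]
    exact hx
  have h5 := block_errors S (one n ∈ T) hx'
  have haE : a' * 2 ^ (n + 1) ≤ E := by
    rw [ha', hE, ← pow_add]
    exact Nat.pow_le_pow_right (by norm_num) (by have := hgap n; omega)
  have hE2 : 2 ≤ E := by
    have : 2 ^ 1 ≤ E := Nat.pow_le_pow_right (by norm_num) (by have := hgap n; omega)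
    simpa using this
  refine ⟨E - 1, ?_, ?_⟩
  · have h6 : p.eval (n + 1) < E := Nat.lt_two_pow_self
    have := hgap n
    omega
  · refine le_trans (far_ineq hε hE2 haE h5 (hn0.le.trans ?_)) ?_
    · exact pow_le_pow_right₀ (by norm_num) (by omega)
    · have h6 : ((Finset.Ico a' E).filter fun N => ¬ (one N ∈ S ↔ one n ∈ T)).card ≤
          {N : ℕ | 1 ≤ N ∧ N ≤ E - 1 ∧ ¬ (one N ∈ S ↔ one N ∈ pull p T)}.ncard := by
        rw [← Set.ncard_coe_finset]
        refine Set.ncard_le_ncard ?_ ((Set.finite_le_nat (E - 1)).subset fun N hN => hN.2.1)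
        intro N hN
        simp only [Finset.coe_filter, Finset.mem_Ico, Set.mem_ofPred_eq] at hN ⊢
        obtain ⟨⟨h7, h8⟩, h9⟩ := hN
        refine ⟨(Nat.one_le_two_pow).trans h7, by omega, ?_⟩
        rw [pull_block hp hn1 h7 h8]
        exact h9
      exact_mod_cast h6

/-- The block version of a set of high complexity is far from all sets of low complexity. -/
theorem exists_far {A : Oracle} {j l : ℕ} {T : Set ℕ} (hT : T ∈ C (some A) (l + 3))
    (hTal : T ⊆ Tal) (hnot : T ∉ C (some A) (j + 2)) :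
    ∃ T' ∈ C (some A) (l + 1), T' ⊆ Tal ∧ ∀ S ∈ C (some A) j, Far S T' := by
  classical
  obtain ⟨ty, i, hi⟩ := cl_cases l
  rw [show l + 3 = cl ty (i + 1) by rw [cl_add, ← hi]] at hT
  obtain ⟨p0, hp0⟩ := sim_cl hT
  set p : Polynomial ℕ := p0 + Polynomial.X ^ 2 with hpdef
  have hpe : ∀ n, p.eval n = p0.eval n + n ^ 2 := fun n => by simp [hpdef]
  have hgap : ∀ n, p.eval n + n + 1 ≤ p.eval (n + 1) := by
    intro n
    rw [hpe, hpe]
    have h1 : p0.eval n ≤ p0.eval (n + 1) := eval_mono p0 (by omega)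
    have h2 : (n + 1) ^ 2 = n ^ 2 + (2 * n + 1) := by ring
    omega
  have hp : StrictMono fun n : ℕ => p.eval n := strictMono_nat_of_lt_succ fun n => by
    have := hgap n
    omega
  refine ⟨pull p T, ?_, pull_Tal, fun S hS => ?_⟩
  · rw [hi]
    refine pull_mem hp0 hp fun n => ?_
    rw [← tw_succ']
    exact tw_mono _ (by rw [hpe]; omega)
  · obtain ⟨ty', a, h1, h2, h3⟩ := level A j
    obtain ⟨R, hR, _, h4⟩ := h3 S hS
    obtain ⟨r, hr⟩ := h4 p
    have hmaj := maj_mem hR hp (fun n N _ hN => hr n N hN) h2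
    exact far_of_maj hp hgap hTal (fun hfin => by
      rw [h1] at hnot
      exact hnot (mem_of_finite hmaj hfin))

/-- Equality on tally sets. -/
def TEq (A : Oracle) (j : ℕ) : Prop :=
  ∀ T ∈ C (some A) (j + 1), T ⊆ Tal → T ∈ C (some A) j

theorem TEq_of_not_hard {A : Oracle} {j : ℕ} (h : ¬ Hard (some A) j) : TEq A (j + 2) := by
  intro T hT hTal
  by_contra hnot
  exact h (exists_far hT hTal hnot)

theorem TEq.not_hard {A : Oracle} {j : ℕ} (h : TEq A j) : ¬ Hard (some A) j := by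
  rintro ⟨T, hT, hTal, hfar⟩
  obtain ⟨n, hn, h1⟩ := hfar T (h T hT hTal) (1 / 4) (by norm_num) 1
  have h2 : {N : ℕ | 1 ≤ N ∧ N ≤ n ∧ ¬ (one N ∈ T ↔ one N ∈ T)} = ∅ := by
    ext N
    simp
  rw [h2, Set.ncard_empty] at h1
  have h3 : (1 : ℝ) ≤ n := by exact_mod_cast hn
  norm_num at h1
  linarith

theorem TEq.up {A : Oracle} {j : ℕ} (h : TEq A j) (a : ℕ) : TEq A (j + 2 * a) := by
  induction a with
  | zero => exact h
  | succ a ih => exact TEq_of_not_hard ih.not_hard

/-- Equality on tally sets at one level gives hardness at the next level. -/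
theorem TEq.hard_succ {A : Oracle} {a : ℕ} (h : TEq A a) : Hard (some A) (a + 1) := by
  obtain ⟨T, hT, hTal, hinf, _, himm⟩ := exists_diag A (a + 2)
  have hnot : T ∉ C (some A) (a + 2) := fun hcon => hinf (himm T hcon (Or.inl le_rfl))
  obtain ⟨T', hT', hTal', hfar⟩ := exists_far (l := a + 1) hT hTal hnot
  refine ⟨T', hT', hTal', fun S hS => ?_⟩
  obtain ⟨ty, i, hi⟩ := cl_cases a
  have h1 : S ∩ Tal ∈ C (some A) (a + 1) := by
    rw [hi] at hS ⊢
    exact inter_Tal hS
  have h2 := hfar _ (h _ h1 Set.inter_subset_right)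
  intro ε hε m
  obtain ⟨n, hn, h3⟩ := h2 ε hε m
  refine ⟨n, hn, h3.trans (le_of_eq ?_)⟩
  congr 2
  ext N
  simp only [Set.mem_ofPred_eq]
  constructor
  · rintro ⟨h4, h5, h6⟩
    refine ⟨h4, h5, fun h7 => h6 ?_⟩
    rw [← h7]
    exact ⟨fun h8 => h8.1, fun h8 => ⟨h8, one_Tal h4⟩⟩
  · rintro ⟨h4, h5, h6⟩
    refine ⟨h4, h5, fun h7 => h6 ?_⟩
    rw [← h7]
    exact ⟨fun h8 => ⟨h8, one_Tal h4⟩, fun h8 => h8.1⟩

theorem avg_some (A : Oracle) {j k : ℕ} (h : Odd (j + k)) :
    Hard (some A) j ∨ Hard (some A) k := by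
  have key : ∀ j b, Hard (some A) j ∨ Hard (some A) (j + 2 * b + 1) := by
    intro j b
    by_contra hcon
    rw [not_or] at hcon
    obtain ⟨h1, h2⟩ := hcon
    have h3 : TEq A (j + 2 + 2 * b) := (TEq_of_not_hard h1).up b
    have h4 := h3.hard_succ
    have h5 : TEq A (j + 2 * b + 1 + 2) := TEq_of_not_hard h2
    rw [show j + 2 + 2 * b + 1 = j + 2 * b + 1 + 2 by ring] at h4
    exact h5.not_hard h4
  obtain ⟨m, hm⟩ := h
  rcases Nat.lt_or_ge j k with h1 | h1
  · have e : k = j + 2 * ((k - j) / 2) + 1 := by omega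
    rw [e]
    exact key _ _
  · have e : j = k + 2 * ((j - k) / 2) + 1 := by omega
    rw [e]
    exact (key _ _).symm

theorem avg (o : Option Oracle) {j k : ℕ} (h : Odd (j + k)) : Hard o j ∨ Hard o k := by
  cases o with
  | some A => exact avg_some A h
  | none =>
    have h1 := avg_some (fun _ => false) h
    unfold Hard at h1 ⊢
    simp only [C_none]
    exact h1

end Pool.Agent.J4H22
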