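import Pool.Agent.J4H22.Frame

/-!
# The test languages
-/

namespace Pool.Agent.J4H22

open Pool.Agent.NPC

/-- the string for the bit `j` of the key number `k` -/
def kb (k j : ℕ) : List Bool := false :: bits (Sum.inl (k, j) : (ℕ × ℕ) ⊕ ((ℕ × ℕ) ⊕ (ℕ × ℕ)))

/-- the string for the raw bit `j` of the number `n` -/
def rb (n j : ℕ) : List Bool :=
  false :: bits (Sum.inr (Sum.inl (n, j)) : (ℕ × ℕ) ⊕ ((ℕ × ℕ) ⊕ (ℕ × ℕ)))

/-- the hidden string `c` of the number `n` -/
def hb (n c : ℕ) : List Bool :=
  false :: bits (Sum.inr (Sum.inr (n, c)) : (ℕ × ℕ) ⊕ ((ℕ × ℕ) ⊕ (ℕ × ℕ)))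

theorem hb_inj {n c n' c' : ℕ} (h : hb n c = hb n' c') : n = n' ∧ c = c' := by
  unfold hb at h
  have h1 := bits_injective (List.cons.inj h).2
  simpa using h1

theorem rb_inj {n c n' c' : ℕ} (h : rb n c = rb n' c') : n = n' ∧ c = c' := by
  unfold rb at h
  have h1 := bits_injective (List.cons.inj h).2
  simpa using h1

theorem kb_inj {n c n' c' : ℕ} (h : kb n c = kb n' c') : n = n' ∧ c = c' := by
  unfold kb at h
  have h1 := bits_injective (List.cons.inj h).2
  simpa using h1

theorem rb_ne_hb (n c n' c' : ℕ) : rb n c ≠ hb n' c' := by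
  intro h
  have h1 := bits_injective (List.cons.inj h).2
  simp at h1

theorem kb_ne_hb (n c n' c' : ℕ) : kb n c ≠ hb n' c' := by
  intro h
  have h1 := bits_injective (List.cons.inj h).2
  simp at h1

theorem kb_ne_rb (n c n' c' : ℕ) : kb n c ≠ rb n' c' := by
  intro h
  have h1 := bits_injective (List.cons.inj h).2
  simp at h1

theorem hb_length (n c : ℕ) : (hb n c).length = sz n + sz c + 10 := by
  unfold hb
  rw [List.length_cons, bits_length, sz_inr, sz_inr, sz_pair]

theorem rb_length (n c : ℕ) : (rb n c).length = sz n + sz c + 8 := by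
  unfold rb
  rw [List.length_cons, bits_length, sz_inr, sz_inl, sz_pair]

theorem kb_length (n c : ℕ) : (kb n c).length = sz n + sz c + 4 := by
  unfold kb
  rw [List.length_cons, bits_length, sz_inl, sz_pair]

theorem P.bitsP {α β : Type} [TEnc α] [TEnc β] {f : α → β} (hf : NPC.Poly f) :
    NPC.Poly (fun a => bits (f a)) := by
  obtain ⟨c, p, h⟩ := PC.comp (g := fun x => x) (f := fun x : List Bool => x)
    (PC.id (ea := fun x : List Bool => x)) (PC.id (ea := fun x : List Bool => x))
  have h1 : PC (bits : α → List Bool) (fun x : List Bool => x) (fun a => bits (f a)) := by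
    obtain ⟨c, p, h⟩ := hf
    exact ⟨c, p, h⟩
  exact PC.comp (g := fun x => x) (f := fun a => bits (f a)) PC.rawIn h1

theorem P.kb {α : Type} [TEnc α] {m c : α → ℕ} (hm : NPC.Poly m) (hc : NPC.Poly c) :
    NPC.Poly (fun a => J4H22.kb (m a) (c a)) := by
  unfold J4H22.kb
  exact NPC.Poly.cons (NPC.Poly.const _) (P.bitsP (NPC.Poly.inl (NPC.Poly.pair hm hc)))

theorem P.rb {α : Type} [TEnc α] {m c : α → ℕ} (hm : NPC.Poly m) (hc : NPC.Poly c) :
    NPC.Poly (fun a => J4H22.rb (m a) (c a)) := by
  unfold J4H22.rb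
  exact NPC.Poly.cons (NPC.Poly.const _)
    (P.bitsP (NPC.Poly.inr (NPC.Poly.inl (NPC.Poly.pair hm hc))))

theorem P.hb {α : Type} [TEnc α] {m c : α → ℕ} (hm : NPC.Poly m) (hc : NPC.Poly c) :
    NPC.Poly (fun a => J4H22.hb (m a) (c a)) := by
  unfold J4H22.hb
  exact NPC.Poly.cons (NPC.Poly.const _)
    (P.bitsP (NPC.Poly.inr (NPC.Poly.inr (NPC.Poly.pair hm hc))))

/-- an explicit string as a virtual input -/
def vs (w : List Bool) : VI := (w, 0, false)

theorem vs_list (w : List Bool) : (vs w).list = w := by simp [vs, VI.list]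

theorem vs_len (w : List Bool) : vlen (vs w) = w.length := rfl

theorem P.vs {α : Type} [TEnc α] {w : α → List Bool} (hw : NPC.Poly w) :
    NPC.Poly (fun a => J4H22.vs (w a)) :=
  NPC.Poly.pair hw (NPC.Poly.const _)

/-- Membership of sets of tally inputs. -/
theorem mem_tal {A : Oracle} {L : Set ℕ} (hL : L ⊆ Tal) (ty : Bool) {σ : Type} [TEnc σ]
    {D : Driver (σ ⊕ Bool)} (hD : D.IsPoly) (hjob : ∀ b, D.job (.inr b) = .inr b)
    {ini : List Bool × List Bool → σ} (hi : NPC.Poly ini) (i : ℕ) (p q : Polynomial ℕ)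
    (h : ∀ (n W : ℕ), 1 ≤ n → W = tw i (p.eval n) + n →
      ∃ (t T : ℕ) (b : Bool), (b = true ↔ one n ∈ L) ∧
        D.Reach A (q.eval W) (q.eval W) T t
          (.inl (ini (List.replicate n true, List.replicate (tw i (p.eval n)) true))) (.inr b) ∧
        (ty = true → t ≤ q.eval W ∧ T ≤ q.eval W)) :
    L ∈ C (some A) (cl ty i) := by
  let ini' : List Bool × List Bool → σ ⊕ Bool := fun z =>
    cond (z.1.all fun b => b) (.inl (ini z)) (.inr false)
  have hini : NPC.Poly ini' :=
    NPC.Poly.cond isTal_poly (NPC.Poly.inl hi) (NPC.Poly.const _)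
  refine mem_cl ty hD hini i p (q + 5) fun x W hW => ?_
  by_cases hx : x ∈ Tal
  · obtain ⟨n, hn, rfl⟩ := hx
    rw [bin_one_length hn] at hW ⊢
    obtain ⟨t, T, b, h1, h2, h3⟩ := h n W hn hW
    refine ⟨t, T, .inr b, b, hjob b, h1, ?_, fun hty => ?_⟩
    · have e1 : ini' (bin (one n), List.replicate (tw i (p.eval n)) true) =
          .inl (ini (List.replicate n true, List.replicate (tw i (p.eval n)) true)) := by
        simp only [ini', mem_Tal.1 (one_Tal hn), cond_true]
        rw [bin_one hn]
      rw [e1]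
      exact h2.mono (by simp) (by simp) le_rfl
    · obtain ⟨h4, h5⟩ := h3 hty
      constructor <;> (simp only [Polynomial.eval_add]; omega)
  · refine ⟨0, 0, .inr false, false, hjob _, ?_, ?_, fun _ => ⟨by omega, by omega⟩⟩
    · simp only [Bool.false_eq_true, false_iff]
      exact fun h1 => hx (hL h1)
    · have h1 : ((bin x).all fun b => b) = false := by
        by_contra hcon
        exact hx (mem_Tal.2 (by simpa using hcon))
      have e1 : ini' (bin x, List.replicate (tw i (p.eval (bin x).length)) true) =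
          .inr false := by
        simp only [ini', h1, cond_false]
      rw [e1]
      refine Driver.Reach.refl ?_
      rw [sz_inr, sz_false]
      simp only [Polynomial.eval_add, Polynomial.eval_ofNat]
      omega

/-! ### The first test language -/

/-- the raw bits of the number `n` -/
def ys (A : Oracle) (n N : ℕ) : List Bool := (List.range N).map fun j => A (rb n j)

/-- The first test language: read `tw i n` raw bits, and ask about the hidden string given by
them. -/
def UE (A : Oracle) (i : ℕ) : Set ℕ :=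
  {x | x ∈ Tal ∧ A (hb (bin x).length (valB (ys A (bin x).length (tw i (bin x).length) ++
    [true]))) = true}

/-- states: pad, number, bits read -/
abbrev TE : Type := List Bool × ℕ × List Bool

/-- the job -/
noncomputable def teJ (z : TE) : Job :=
  qJob (vs (cond (decide (z.2.2.length < z.1.length)) (rb z.2.1 z.2.2.length)
    (hb z.2.1 (valB (z.2.2 ++ [true])))))

/-- the next state -/
def teN (z : TE) (r : Bool) : TE ⊕ Bool :=
  cond (decide (z.2.2.length < z.1.length)) (.inl (z.1, z.2.1, z.2.2 ++ [r])) (.inr r)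

/-- the driver -/
noncomputable def teD : Driver (TE ⊕ Bool) where
  job z := match z with
    | .inl z => .inl (teJ z)
    | .inr b => .inr b
  upd z := match z.1 with
    | .inl y => teN y z.2
    | .inr b => .inr b

theorem driver_poly {σ : Type} [TEnc σ] {D : Driver (σ ⊕ Bool)} {J : σ → Job}
    {N : σ → Bool → σ ⊕ Bool} (hJ : NPC.Poly J) (hN : NPC.Poly fun z : σ × Bool => N z.1 z.2)
    (h1 : ∀ z, D.job (.inl z) = .inl (J z)) (h2 : ∀ b, D.job (.inr b) = .inr b)
    (h3 : ∀ z r, D.upd (.inl z, r) = N z r) (h4 : ∀ b r, D.upd (.inr b, r) = .inr b) :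
    D.IsPoly := by
  constructor
  · refine (NPC.Poly.sumCases (o := fun z : σ ⊕ Bool => z)
      (g := fun _ z => (.inl (J z) : Job ⊕ Bool))
      (h := fun _ b => (.inr b : Job ⊕ Bool)) NPC.Poly.id
      (NPC.Poly.inl (hJ.comp (NPC.Poly.snd NPC.Poly.id)))
      (NPC.Poly.inr (NPC.Poly.snd NPC.Poly.id))).congr fun z => ?_
    cases z with
    | inl z => exact (h1 z).symm
    | inr b => exact (h2 b).symm
  · refine (NPC.Poly.sumCases (o := fun z : (σ ⊕ Bool) × Bool => z.1)
      (g := fun z w => N w z.2) (h := fun _ b => (.inr b : σ ⊕ Bool))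
      (NPC.Poly.fst NPC.Poly.id) (hN.comp (NPC.Poly.pair (NPC.Poly.snd NPC.Poly.id)
        (NPC.Poly.snd (NPC.Poly.fst NPC.Poly.id))))
      (NPC.Poly.inr (NPC.Poly.snd NPC.Poly.id))).congr fun z => ?_
    rcases z with ⟨z | b, r⟩
    · exact (h3 z r).symm
    · exact (h4 b r).symm

theorem teD_poly : teD.IsPoly := by
  refine driver_poly (J := teJ) (N := teN) ?_ ?_ (fun _ => rfl) (fun _ => rfl)
    (fun _ _ => rfl) (fun _ _ => rfl)
  · unfold teJ
    have h1 : NPC.Poly (fun z : TE => z.1) := NPC.Poly.fst NPC.Poly.id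
    have h2 : NPC.Poly (fun z : TE => z.2.1) := NPC.Poly.fst (NPC.Poly.snd NPC.Poly.id)
    have h3 : NPC.Poly (fun z : TE => z.2.2) := NPC.Poly.snd (NPC.Poly.snd NPC.Poly.id)
    exact P.qJob (P.vs (NPC.Poly.cond (NPC.Poly.decide_lt (NPC.Poly.length h3)
      (NPC.Poly.length h1)) (P.rb h2 (NPC.Poly.length h3))
      (P.hb h2 (NPC.Poly.valBits (NPC.Poly.append h3 (NPC.Poly.const _))))))
  · unfold teN
    have h0 : NPC.Poly (fun z : TE × Bool => z.1) := NPC.Poly.fst NPC.Poly.id
    have h1 := NPC.Poly.fst h0
    have h2 := NPC.Poly.fst (NPC.Poly.snd h0)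
    have h3 := NPC.Poly.snd (NPC.Poly.snd h0)
    have h4 : NPC.Poly (fun z : TE × Bool => z.2) := NPC.Poly.snd NPC.Poly.id
    exact NPC.Poly.cond (NPC.Poly.decide_lt (NPC.Poly.length h3) (NPC.Poly.length h1))
      (NPC.Poly.inl (NPC.Poly.pair h1 (NPC.Poly.pair h2
        (NPC.Poly.append h3 (NPC.Poly.cons h4 (NPC.Poly.const []))))))
      (NPC.Poly.inr h4)

theorem sz_nat_le' (n : ℕ) : sz n ≤ 4 * n + 1 := by
  have h1 := sz_nat_le n
  have h2 := NPC.Poly.size_le_self n
  omega

theorem sz_valB_le (l : List Bool) : sz (valB l) ≤ 4 * l.length + 1 := by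
  have h1 := sz_nat_le (valB l)
  have h2 := Nat.size_le.2 (valB_lt l)
  omega

theorem te_reach {A : Oracle} {pad : List Bool} {n B T : ℕ}
    (hB : 8 * pad.length + 4 * n + 30 ≤ B) (hT : 8 * pad.length + 4 * n + 30 ≤ T) :
    ∀ (m : ℕ) (acc : List Bool), acc.length + m = pad.length →
      teD.Reach A B 0 T (m + 1) (.inl (pad, n, acc))
        (.inr (A (hb n (valB (acc ++ (List.range' acc.length m).map (fun j => A (rb n j)) ++
          [true]))))) := by
  have hsz : ∀ acc : List Bool, acc.length ≤ pad.length →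
      sz (.inl (pad, n, acc) : TE ⊕ Bool) ≤ B := by
    intro acc hacc
    rw [sz_inl]
    simp only [sz_pair]
    have h1 := sz_listBool_le pad
    have h2 := sz_listBool_le acc
    have h3 := sz_nat_le' n
    omega
  intro m
  induction m with
  | zero =>
    intro acc hacc
    have hc : decide (acc.length < pad.length) = false := by simpa using (by omega)
    have e0 : teJ (pad, n, acc) = qJob (vs (hb n (valB (acc ++ [true])))) := by
      unfold teJ
      simp only [hc, cond_false]
    have e1 : jres A (teJ (pad, n, acc)) = A (hb n (valB (acc ++ [true]))) := by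
      rw [e0, qJob_res, vs_list]
    have h := Driver.Reach.one (D := teD) (A := A) (B := B) (S := 0) (T := T)
      (x := .inl (pad, n, acc)) (J := teJ (pad, n, acc)) rfl (by rw [e0]; exact le_rfl) (by
        rw [e0]
        show vlen (vs _) + 2 ≤ T
        rw [vs_len, hb_length]
        have h1 := sz_nat_le' n
        have h2 := sz_valB_le (acc ++ [true])
        rw [List.length_append, List.length_singleton] at h2
        omega) (hsz acc (by omega))
    have e2 : teD.upd (.inl (pad, n, acc), jres A (teJ (pad, n, acc))) =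
        .inr (A (hb n (valB (acc ++ [true])))) := by
      show teN (pad, n, acc) _ = _
      unfold teN
      simp only [hc, cond_false]
      rw [e1]
    rw [e2] at h
    simp only [List.range'_zero, List.map_nil, List.append_nil]
    refine h ?_
    rw [sz_inr]
    have := sz_bool_le (A (hb n (valB (acc ++ [true]))))
    omega
  | succ m ih =>
    intro acc hacc
    have hc : decide (acc.length < pad.length) = true := by simpa using (by omega)
    have e0 : teJ (pad, n, acc) = qJob (vs (rb n acc.length)) := by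
      unfold teJ
      simp only [hc, cond_true]
    have e1 : jres A (teJ (pad, n, acc)) = A (rb n acc.length) := by
      rw [e0, qJob_res, vs_list]
    have h := Driver.Reach.one (D := teD) (A := A) (B := B) (S := 0) (T := T)
      (x := .inl (pad, n, acc)) (J := teJ (pad, n, acc)) rfl (by rw [e0]; exact le_rfl) (by
        rw [e0]
        show vlen (vs _) + 2 ≤ T
        rw [vs_len, rb_length]
        have h1 := sz_nat_le' n
        have h2 := sz_nat_le' acc.length
        omega) (hsz acc (by omega))
    have e2 : teD.upd (.inl (pad, n, acc), jres A (teJ (pad, n, acc))) =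
        .inl (pad, n, acc ++ [A (rb n acc.length)]) := by
      show teN (pad, n, acc) _ = _
      unfold teN
      simp only [hc, cond_true]
      rw [e1]
    rw [e2] at h
    have h2 := ih (acc ++ [A (rb n acc.length)]) (by
      rw [List.length_append, List.length_singleton]
      omega)
    have h3 := (h (hsz _ (by rw [List.length_append, List.length_singleton]; omega))).trans h2
    rw [Nat.add_comm 1] at h3
    rw [List.length_append, List.length_singleton] at h3
    rw [List.range'_succ]
    simp only [List.map_cons]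
    convert h3 using 6
    simp

theorem UE_mem (A : Oracle) (i : ℕ) : UE A i ∈ C (some A) (2 * i + 1) := by
  have hini : NPC.Poly (fun z : List Bool × List Bool => ((z.2, z.1.length, []) : TE)) :=
    NPC.Poly.pair (NPC.Poly.snd NPC.Poly.id) (NPC.Poly.pair
      (NPC.Poly.length (NPC.Poly.fst NPC.Poly.id)) (NPC.Poly.const _))
  refine mem_tal (L := UE A i) (fun x hx => hx.1) true teD_poly (fun _ => rfl) hini i
    Polynomial.X (12 * Polynomial.X + 30) fun n W hn hW => ?_
  rw [Polynomial.eval_X] at hW ⊢
  have e0 : (12 * Polynomial.X + 30 : Polynomial ℕ).eval W = 12 * W + 30 := by simp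
  rw [e0]
  have h1 := te_reach (A := A) (pad := List.replicate (tw i n) true) (n := n)
    (B := 12 * W + 30) (T := 12 * W + 30) (by rw [List.length_replicate]; omega)
    (by rw [List.length_replicate]; omega) (tw i n) [] (by simp)
  refine ⟨tw i n + 1, 12 * W + 30, A (hb n (valB ([] ++ (List.range' 0 (tw i n)).map
    (fun j => A (rb n j)) ++ [true]))), ?_, ?_, fun _ => ⟨by omega, le_rfl⟩⟩
  swap
  · simp only [List.length_replicate]
    exact h1.mono le_rfl (Nat.zero_le _) le_rfl
  rw [List.nil_append]
  constructor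
  · intro h
    refine ⟨one_Tal hn, ?_⟩
    rw [bin_one_length hn]
    unfold ys
    rw [List.range_eq_range']
    exact h
  · intro h
    have h2 := h.2
    rw [bin_one_length hn] at h2
    unfold ys at h2
    rw [List.range_eq_range'] at h2
    exact h2

/-! ### The second test language -/

/-- The second test language: is one of the `2^(tw i n)` hidden strings in the oracle? -/
def UO (A : Oracle) (i : ℕ) : Set ℕ :=
  {x | x ∈ Tal ∧ ∃ c < 2 ^ tw i (bin x).length, A (hb (bin x).length c) = true}

/-- states: pad, number, counter -/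
abbrev TO : Type := List Bool × ℕ × ℕ

/-- the job -/
noncomputable def toJ (z : TO) : Job := qJob (vs (hb z.2.1 z.2.2))

/-- the next state -/
def toN (z : TO) (r : Bool) : TO ⊕ Bool :=
  cond r (.inr true) (cond (decide (z.2.2 + 1 < 2 ^ z.1.length)) (.inl (z.1, z.2.1, z.2.2 + 1))
    (.inr false))

/-- the driver -/
noncomputable def toD : Driver (TO ⊕ Bool) where
  job z := match z with
    | .inl z => .inl (toJ z)
    | .inr b => .inr b
  upd z := match z.1 with
    | .inl y => toN y z.2
    | .inr b => .inr b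

theorem toD_poly : toD.IsPoly := by
  refine driver_poly (J := toJ) (N := toN) ?_ ?_ (fun _ => rfl) (fun _ => rfl)
    (fun _ _ => rfl) (fun _ _ => rfl)
  · unfold toJ
    exact P.qJob (P.vs (P.hb (NPC.Poly.fst (NPC.Poly.snd NPC.Poly.id))
      (NPC.Poly.snd (NPC.Poly.snd NPC.Poly.id))))
  · unfold toN
    have h0 : NPC.Poly (fun z : TO × Bool => z.1) := NPC.Poly.fst NPC.Poly.id
    have h1 := NPC.Poly.fst h0
    have h2 := NPC.Poly.fst (NPC.Poly.snd h0)
    have h3 := NPC.Poly.snd (NPC.Poly.snd h0)
    exact NPC.Poly.cond (NPC.Poly.snd NPC.Poly.id) (NPC.Poly.const _)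
      (NPC.Poly.cond (NPC.Poly.decide_lt (NPC.Poly.succ h3) (P.pow2 (UPoly.length h1)))
        (NPC.Poly.inl (NPC.Poly.pair h1 (NPC.Poly.pair h2 (NPC.Poly.succ h3))))
        (NPC.Poly.const _))

theorem to_reach {A : Oracle} {pad : List Bool} {n B : ℕ}
    (hB : 8 * pad.length + 4 * n + 30 ≤ B) :
    ∀ (m c : ℕ), c + m + 1 = 2 ^ pad.length →
      ∃ t, ∃ b : Bool, (b = true ↔ ∃ c', c ≤ c' ∧ c' < 2 ^ pad.length ∧ A (hb n c') = true) ∧
        toD.Reach A B 0 B t (.inl (pad, n, c)) (.inr b) := by
  have hszc : ∀ c < 2 ^ pad.length, sz c ≤ 4 * pad.length + 1 := by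
    intro c hc
    have h1 := sz_nat_le c
    have h2 := Nat.size_le.2 hc
    omega
  have hsz : ∀ c < 2 ^ pad.length, sz (.inl (pad, n, c) : TO ⊕ Bool) ≤ B := by
    intro c hc
    rw [sz_inl]
    simp only [sz_pair]
    have h1 := sz_listBool_le pad
    have h2 := hszc c hc
    have h3 := sz_nat_le' n
    omega
  have hszb : ∀ b : Bool, sz (.inr b : TO ⊕ Bool) ≤ B := by
    intro b
    rw [sz_inr]
    have := sz_bool_le b
    omega
  have hone : ∀ c < 2 ^ pad.length, sz (toN (pad, n, c) (A (hb n c))) ≤ B →
      toD.Reach A B 0 B 1 (.inl (pad, n, c)) (toN (pad, n, c) (A (hb n c))) := by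
    intro c hc hs
    have e1 : jres A (toJ (pad, n, c)) = A (hb n c) := by
      unfold toJ
      rw [qJob_res, vs_list]
    have h := Driver.Reach.one (D := toD) (A := A) (B := B) (S := 0) (T := B)
      (x := .inl (pad, n, c)) (J := toJ (pad, n, c)) rfl le_rfl (by
        show vlen (vs _) + 2 ≤ B
        rw [vs_len, hb_length]
        have h1 := sz_nat_le' n
        have h2 := hszc c hc
        simp only
        omega) (hsz c hc)
    have e2 : toD.upd (.inl (pad, n, c), jres A (toJ (pad, n, c))) =
        toN (pad, n, c) (A (hb n c)) := by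
      rw [e1]
      rfl
    rw [e2] at h
    exact h hs
  intro m
  induction m with
  | zero =>
    intro c hc
    have hlt : c < 2 ^ pad.length := by omega
    have e : toN (pad, n, c) (A (hb n c)) = .inr (A (hb n c)) := by
      unfold toN
      simp only [show decide (c + 1 < 2 ^ pad.length) = false by simpa using (by omega),
        cond_false]
      cases A (hb n c) <;> rfl
    have h := hone c hlt (by rw [e]; exact hszb _)
    rw [e] at h
    refine ⟨1, _, ?_, h⟩
    constructor
    · exact fun h => ⟨c, le_rfl, hlt, h⟩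
    · rintro ⟨c', h1, h2, h3⟩
      obtain rfl : c' = c := by omega
      exact h3
  | succ m ih =>
    intro c hc
    have hlt : c < 2 ^ pad.length := by omega
    cases hA : A (hb n c) with
    | true =>
      have e : toN (pad, n, c) (A (hb n c)) = .inr true := by
        unfold toN
        rw [hA]
        rfl
      have h := hone c hlt (by rw [e]; exact hszb _)
      rw [e] at h
      exact ⟨1, true, by simp only [true_iff]; exact ⟨c, le_rfl, hlt, hA⟩, h⟩
    | false =>
      have e : toN (pad, n, c) (A (hb n c)) = .inl (pad, n, c + 1) := by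
        unfold toN
        rw [hA]
        simp only [show decide (c + 1 < 2 ^ pad.length) = true by simpa using (by omega),
          cond_true, cond_false]
      have h := hone c hlt (by rw [e]; exact hsz _ (by omega))
      rw [e] at h
      obtain ⟨t, b, hb, h2⟩ := ih (c + 1) (by omega)
      refine ⟨1 + t, b, ?_, h.trans h2⟩
      rw [hb]
      constructor
      · rintro ⟨c', h3, h4, h5⟩
        exact ⟨c', by omega, h4, h5⟩
      · rintro ⟨c', h3, h4, h5⟩
        refine ⟨c', ?_, h4, h5⟩
        rcases Nat.lt_or_ge c c' with h6 | h6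
        · omega
        · obtain rfl : c' = c := by omega
          rw [hA] at h5
          exact absurd h5 (by simp)

theorem UO_mem (A : Oracle) (i : ℕ) : UO A i ∈ C (some A) (2 * i + 2) := by
  have hini : NPC.Poly (fun z : List Bool × List Bool => ((z.2, z.1.length, 0) : TO)) :=
    NPC.Poly.pair (NPC.Poly.snd NPC.Poly.id) (NPC.Poly.pair
      (NPC.Poly.length (NPC.Poly.fst NPC.Poly.id)) (NPC.Poly.const _))
  refine mem_tal (L := UO A i) (fun x hx => hx.1) false toD_poly (fun _ => rfl) hini i
    Polynomial.X (12 * Polynomial.X + 30) fun n W hn hW => ?_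
  rw [Polynomial.eval_X] at hW ⊢
  have e0 : (12 * Polynomial.X + 30 : Polynomial ℕ).eval W = 12 * W + 30 := by simp
  rw [e0]
  have hpos : 1 ≤ 2 ^ tw i n := Nat.one_le_two_pow
  obtain ⟨t, b, hb, h1⟩ := to_reach (A := A) (pad := List.replicate (tw i n) true) (n := n)
    (B := 12 * W + 30) (by rw [List.length_replicate]; omega) (2 ^ tw i n - 1) 0
    (by rw [List.length_replicate]; omega)
  refine ⟨t, 12 * W + 30, b, ?_, ?_, fun h => by simp at h⟩
  swap
  · simp only [List.length_replicate]
    exact h1.mono le_rfl (Nat.zero_le _) le_rfl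
  rw [hb, List.length_replicate]
  constructor
  · rintro ⟨c, _, h2, h3⟩
    exact ⟨one_Tal hn, c, by rw [bin_one_length hn]; exact h2, by rw [bin_one_length hn]; exact h3⟩
  · rintro ⟨_, c, h2, h3⟩
    rw [bin_one_length hn] at h2 h3
    exact ⟨c, Nat.zero_le _, h2, h3⟩

end Pool.Agent.J4H22
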