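import Pool.Agent.J4H22.Growth
import Pool.Agent.J4H22.Tests

/-!
# Separations relative to generic oracles
-/

namespace Pool.Agent.J4H22

open Pool.Agent.NPC

/-- A countable family of closed sets without interior does not cover the space. -/
theorem baire_exists {ι : Type} [Countable ι] (B : ι → Set (List Bool → Bool))
    (hc : ∀ i, IsClosed (B i))
    (hn : ∀ i, ∀ a ∈ B i, ∀ F : Finset (List Bool), ∃ a', (∀ w ∈ F, a' w = a w) ∧ a' ∉ B i) :
    ∃ a, ∀ i, a ∉ B i := by
  by_contra hcon
  push Not at hcon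
  have hU : ⋃ i, B i = Set.univ := by
    apply Set.eq_univ_of_forall
    intro a
    obtain ⟨i, hi⟩ := hcon a
    exact Set.mem_iUnion.2 ⟨i, hi⟩
  obtain ⟨i, a, ha⟩ := nonempty_interior_of_iUnion_of_closed hc hU
  obtain ⟨F, u, h1, h2⟩ := isOpen_pi_iff.1 isOpen_interior a ha
  obtain ⟨a', h3, h4⟩ := hn i a (interior_subset ha) F
  refine h4 (interior_subset (h2 ?_))
  intro w hw
  rw [h3 w hw]
  exact (h1 w hw).2

section

variable {kind : List Bool → Kind}

theorem cont_local (kind : List Bool → Kind) (Φ : Oracle → Bool)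
    (h : ∀ A, ∃ l : List (List Bool), ∀ A' : Oracle, (∀ w ∈ l, A w = A' w) → Φ A = Φ A') :
    Continuous fun a => Φ (Af kind a) := by
  rw [continuous_iff_continuousAt]
  intro a0
  obtain ⟨l, hl⟩ := h (Af kind a0)
  have h1 : ∀ᶠ a in nhds a0, ∀ w ∈ l, Af kind a w = Af kind a0 w := by
    have h2 : ∀ w, ∀ᶠ a in nhds a0, Af kind a w = Af kind a0 w := by
      intro w
      have h3 := (cont_Af kind w).continuousAt (x := a0)
      unfold ContinuousAt at h3
      rw [nhds_discrete Bool, Filter.tendsto_pure] at h3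
      exact h3
    clear hl
    induction l with
    | nil => simp
    | cons w l ih =>
      filter_upwards [h2 w, ih] with x hx hx'
      intro w' hw'
      rcases List.mem_cons.1 hw' with rfl | hw'
      · exact hx
      · exact hx' w' hw'
  unfold ContinuousAt
  rw [nhds_discrete Bool, Filter.tendsto_pure]
  filter_upwards [h1] with a ha
  exact (hl _ fun w hw => (ha w hw).symm).symm

/-- the first test for the input of `n` ones -/
def te (A : Oracle) (i n : ℕ) : Bool := A (hb n (valB (ys A n (tw i n) ++ [true])))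

/-- the second test for the input of `n` ones -/
def tt (A : Oracle) (i n : ℕ) : Bool := (List.range (2 ^ tw i n)).any fun c => A (hb n c)

theorem UE_iff {A : Oracle} {i n : ℕ} (hn : 1 ≤ n) : one n ∈ UE A i ↔ te A i n = true := by
  unfold te
  constructor
  · rintro ⟨_, h⟩
    rw [bin_one_length hn] at h
    exact h
  · intro h
    refine ⟨one_Tal hn, ?_⟩
    rw [bin_one_length hn]
    exact h

theorem UO_iff {A : Oracle} {i n : ℕ} (hn : 1 ≤ n) : one n ∈ UO A i ↔ tt A i n = true := by
  unfold tt
  rw [List.any_eq_true]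
  constructor
  · rintro ⟨_, c, h1, h2⟩
    rw [bin_one_length hn] at h1 h2
    exact ⟨c, List.mem_range.2 h1, h2⟩
  · rintro ⟨c, h1, h2⟩
    refine ⟨one_Tal hn, c, ?_, ?_⟩
    · rw [bin_one_length hn]
      exact List.mem_range.1 h1
    · rw [bin_one_length hn]
      exact h2

theorem cont_te (kind : List Bool → Kind) (i n : ℕ) :
    Continuous fun a => te (Af kind a) i n := by
  refine cont_local kind (fun A => te A i n) fun A => ?_
  refine ⟨(List.range (tw i n)).map (rb n) ++ [hb n (valB (ys A n (tw i n) ++ [true]))],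
    fun A' h => ?_⟩
  have h1 : ys A n (tw i n) = ys A' n (tw i n) := by
    unfold ys
    refine List.map_congr_left fun j hj => h _ ?_
    exact List.mem_append_left _ (List.mem_map.2 ⟨j, hj, rfl⟩)
  simp only [te]
  rw [← h1]
  exact h _ (by simp)

theorem cont_tt (kind : List Bool → Kind) (i n : ℕ) :
    Continuous fun a => tt (Af kind a) i n := by
  refine cont_local kind (fun A => tt A i n) fun A => ?_
  refine ⟨(List.range (2 ^ tw i n)).map (hb n), fun A' h => ?_⟩
  simp only [tt]
  rw [Bool.eq_iff_iff, List.any_eq_true, List.any_eq_true]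
  constructor
  · rintro ⟨c, h1, h2⟩
    exact ⟨c, h1, by rw [← h _ (List.mem_map.2 ⟨c, h1, rfl⟩)]; exact h2⟩
  · rintro ⟨c, h1, h2⟩
    exact ⟨c, h1, by rw [h _ (List.mem_map.2 ⟨c, h1, rfl⟩)]; exact h2⟩

theorem cont_job (kind : List Bool → Kind) (J : Job) :
    Continuous fun a => jres (Af kind a) J :=
  cont_local kind (fun A => jres A J) fun A => ⟨jasks A J, fun _ h => jres_congr h⟩

/-- the free parts for which a given job decides the first test language -/
def BE (kind : List Bool → Kind) (i : ℕ) (d : Code) (K c : ℕ) : Set (List Bool → Bool) :=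
  {a | ∀ n, 1 ≤ n → jres (Af kind a) (tjob false d K n (Rf i c n)) = te (Af kind a) i n}

/-- the free parts for which a given job decides the second test language -/
def BO (kind : List Bool → Kind) (i : ℕ) (d : Code) (K c : ℕ) : Set (List Bool → Bool) :=
  {a | ∀ n, 1 ≤ n → jres (Af kind a) (tjob true d K n (tw i ((n + 2) ^ c))) =
    tt (Af kind a) i n}

theorem BE_closed (kind : List Bool → Kind) (i : ℕ) (d : Code) (K c : ℕ) :
    IsClosed (BE kind i d K c) := by
  have h : BE kind i d K c = ⋂ n, ⋂ (_ : 1 ≤ n),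
      {a | jres (Af kind a) (tjob false d K n (Rf i c n)) = te (Af kind a) i n} := by
    ext a
    simp [BE]
  rw [h]
  exact isClosed_iInter fun n => isClosed_iInter fun _ =>
    isClosed_eq (cont_job kind _) (cont_te kind i n)

theorem BO_closed (kind : List Bool → Kind) (i : ℕ) (d : Code) (K c : ℕ) :
    IsClosed (BO kind i d K c) := by
  have h : BO kind i d K c = ⋂ n, ⋂ (_ : 1 ≤ n),
      {a | jres (Af kind a) (tjob true d K n (tw i ((n + 2) ^ c))) = tt (Af kind a) i n} := by
    ext a
    simp [BO]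
  rw [h]
  exact isClosed_iInter fun n => isClosed_iInter fun _ =>
    isClosed_eq (cont_job kind _) (cont_tt kind i n)

theorem UE_not_mem {i : ℕ} {a : List Bool → Bool} (h : ∀ d K c, a ∉ BE kind i d K c) :
    UE (Af kind a) i ∉ C (some (Af kind a)) (2 * i) := by
  intro hcon
  obtain ⟨c, d, K, h1⟩ := sim_Rf hcon
  refine h d K c fun n hn => ?_
  have h2 := tjob_res (A := Af kind a) (h1 K le_rfl) hn (le_refl (Rf i c n))
  rw [UE_iff hn] at h2
  exact Bool.eq_iff_iff.2 h2

theorem UO_not_mem {i : ℕ} {a : List Bool → Bool} (h : ∀ d K c, a ∉ BO kind i d K c) :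
    UO (Af kind a) i ∉ C (some (Af kind a)) (2 * i + 1) := by
  intro hcon
  obtain ⟨p, hp⟩ := sim_time hcon
  obtain ⟨c, hc⟩ := poly_le_pow p
  obtain ⟨d, K, h1⟩ := hp
  refine h d K c fun n hn => ?_
  have h2 := tjob_res (A := Af kind a) (R := fun n => tw i (p.eval n)) (h1 K le_rfl) hn
    (r := tw i ((n + 2) ^ c)) (tw_mono i (hc n))
  rw [UO_iff hn] at h2
  exact Bool.eq_iff_iff.2 h2

/-- The condition for the first test: the codes that a machine of the lower class can ask about
code computations that cannot ask about strings of length `tw i n`. -/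
def FE (kind : List Bool → Kind) (i : ℕ) : Prop :=
  ∀ p : Polynomial ℕ, ∃ n1, ∀ n ≥ n1, ∀ w l J, kind w = .code l J → w.length < tw i (p.eval n) →
    ∀ w' ∈ QS J, w'.length < tw i n

/-- The condition for the second test. -/
def FO (kind : List Bool → Kind) (i : ℕ) : Prop :=
  ∀ p : Polynomial ℕ, ∃ n1, ∀ n ≥ n1, ∃ km,
    (∀ w l J, kind w = .code l J → w.length < tw i (p.eval n) → l ≤ km) ∧
    Small {w' | ∃ w l J, kind w = .code l J ∧ l ≤ km ∧ w' ∈ QS J} (2 ^ (tw i n - 1))

theorem exists_list (N m : ℕ) (h : m < 2 ^ N) : ∃ Y : List Bool, Y.length = N ∧ valB Y = m := by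
  have h1 := Nat.size_le.2 h
  refine ⟨m.bits ++ List.replicate (N - m.size) false, ?_, ?_⟩
  · rw [List.length_append, Nat.size_eq_bits_len, List.length_replicate]
    omega
  · rw [valB_append, valB_bits]
    have h2 : ∀ n, valB (List.replicate n false) = 0 := by
      intro n
      induction n with
      | zero => rfl
      | succ n ih => simp [List.replicate_succ, ih]
    rw [h2]
    omega

theorem far {n M : ℕ} (h : 2 ^ M ≤ n) : (∀ j, M < (rb n j).length) ∧
    ∀ c, M < (hb n c).length := by
  have h1 : M < n.size := Nat.lt_size.2 h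
  have h2 := size_le_sz n
  constructor
  · intro j
    rw [rb_length]
    omega
  · intro c
    rw [hb_length]
    omega

theorem denseE (hrb : ∀ n j, kind (rb n j) = .free) (hhb : ∀ n c, kind (hb n c) = .free) {i : ℕ}
    (hFE : FE kind i) (d : Code) (K c : ℕ) (a : List Bool → Bool) (F : Finset (List Bool)) :
    ∃ a', (∀ w ∈ F, a' w = a w) ∧ a' ∉ BE kind i d K c := by
  classical
  obtain ⟨q, hq⟩ := QS_small
  obtain ⟨p1, hp1⟩ := Rf_steps i c K
  obtain ⟨n1, hn1⟩ := hFE (p1 + Polynomial.X)
  obtain ⟨n2, hn2⟩ := Rf_small i c (sz d) q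
  let M := F.sup List.length
  obtain ⟨n, hn1', hn2', hnM, hn⟩ : ∃ n, n1 ≤ n ∧ n2 ≤ n ∧ 2 ^ M ≤ n ∧ 1 ≤ n :=
    ⟨n1 + (n2 + (2 ^ M + 1)), Nat.le_add_right _ _,
      (Nat.le_add_right _ _).trans (Nat.le_add_left _ _),
      ((Nat.le_add_right _ _).trans (Nat.le_add_left _ _)).trans (Nat.le_add_left _ _),
      ((Nat.le_add_left _ _).trans (Nat.le_add_left _ _)).trans (Nat.le_add_left _ _)⟩
  obtain ⟨hfar1, hfar2⟩ := far (n := n) (M := M) hnM
  set N := tw i n with hN
  set J := tjob false d K n (Rf i c n) with hJ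
  have hJt : J.2.2.2 = 2 ^ (K * (2 * Rf i c n + 1)) := rfl
  have hsmall : Small (QS J) (2 ^ q.eval (sz d + sz (([], n, true) : VI) + Rf i c n)) := hq J
  have hlt : 2 ^ q.eval (sz d + sz (([], n, true) : VI) + Rf i c n) < 2 ^ N :=
    Nat.pow_lt_pow_right (by norm_num) (hn2 n hn2')
  obtain ⟨m, _, hm, hav⟩ := hsmall.avoid (fun m => hb n (2 ^ N + m))
    (fun m m' h => by have := (hb_inj h).2; omega) hlt 0
  obtain ⟨Y, hY1, hY2⟩ := exists_list N m (by omega)
  have hc0 : valB (Y ++ [true]) = 2 ^ N + m := by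
    rw [valB_append, hY1, hY2]
    simp
    omega
  -- the change of the raw bits
  let a1 : List Bool → Bool := fun w =>
    if h : ∃ j, j < N ∧ w = rb n j then Y.getD h.choose false else a w
  have ha1 : ∀ j < N, a1 (rb n j) = Y.getD j false := by
    intro j hj
    have h : ∃ j', j' < N ∧ rb n j = rb n j' := ⟨j, hj, rfl⟩
    simp only [a1]
    rw [dif_pos h]
    rw [← (rb_inj h.choose_spec.2).2]
  let a2 : Bool → List Bool → Bool := fun b => Function.update a1 (hb n (2 ^ N + m)) b
  have ha2F : ∀ b, ∀ w ∈ F, a2 b w = a w := by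
    intro b w hw
    have hlen : w.length ≤ M := Finset.le_sup (f := List.length) hw
    have h1 : w ≠ hb n (2 ^ N + m) := by
      rintro rfl
      have := hfar2 (2 ^ N + m)
      omega
    have h2 : ¬ ∃ j, j < N ∧ w = rb n j := by
      rintro ⟨j, _, rfl⟩
      have := hfar1 j
      omega
    simp only [a2, a1]
    rw [Function.update_of_ne h1, dif_neg h2]
  have hys : ∀ b, ys (Af kind (a2 b)) n N = Y := by
    intro b
    unfold ys
    apply List.ext_getElem
    · simp [hY1]
    · intro j h1 h2
      simp only [List.length_map, List.length_range] at h1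
      simp only [List.getElem_map, List.getElem_range]
      rw [Af_free (hrb n j)]
      simp only [a2]
      rw [Function.update_of_ne (rb_ne_hb _ _ _ _), ha1 j h1, List.getD_eq_getElem?_getD,
        List.getElem?_eq_getElem h2]
      rfl
  have hte : ∀ b, te (Af kind (a2 b)) i n = b := by
    intro b
    unfold te
    rw [← hN, hys, hc0, Af_free (hhb _ _)]
    simp only [a2]
    rw [Function.update_self]
  have hlen0 : N < (hb n (2 ^ N + m)).length := by
    rw [hb_length]
    have h1 : N < (2 ^ N + m).size := Nat.lt_size.2 (by omega)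
    have h2 := size_le_sz (2 ^ N + m)
    omega
  have hres : jres (Af kind (a2 false)) J = jres (Af kind (a2 true)) J := by
    refine jres_congr fun w hw => ?_
    have hwQ := jasks_sub hw
    have hwl := QS_length hwQ
    rw [hJt] at hwl
    let G : Set (List Bool) := {w | w.length < max (2 ^ (K * (2 * Rf i c n + 1))) N ∧
      w ≠ hb n (2 ^ N + m)}
    refine Af_congr (G := G) ?_ ?_ w ⟨?_, ?_⟩
    · intro w hw
      simp only [a2]
      rw [Function.update_of_ne hw.2, Function.update_of_ne hw.2]
    · rintro w ⟨hw, _⟩ l J' hk w' hw'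
      have h1 := hn1 n hn1' w l J' hk (hw.trans_le (max_le ?_ ?_)) w' hw'
      · refine ⟨lt_max_of_lt_right h1, ?_⟩
        rintro rfl
        omega
      · refine (hp1 n).trans (tw_mono i ?_)
        simp
      · refine tw_mono i ?_
        simp
    · exact lt_max_of_lt_left hwl
    · rintro rfl
      exact hav hwQ
  refine ⟨a2 (!(jres (Af kind (a2 false)) J)), ha2F _, fun hcon => ?_⟩
  have h1 := hcon n hn
  rw [hte, ← hJ] at h1
  cases hb : jres (Af kind (a2 false)) J with
  | true =>
    rw [hb] at h1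
    simp only [Bool.not_true] at h1
    rw [hb] at h1
    simp at h1
  | false =>
    rw [hb] at h1
    simp only [Bool.not_false] at h1
    rw [← hres, hb] at h1
    simp at h1

theorem denseO (hwf : WF kind) (hhb : ∀ n c, kind (hb n c) = .free) {i : ℕ}
    (hFO : FO kind i) (d : Code) (K c : ℕ) (a : List Bool → Bool) (F : Finset (List Bool)) :
    ∃ a', (∀ w ∈ F, a' w = a w) ∧ a' ∉ BO kind i d K c := by
  classical
  obtain ⟨n1, hn1⟩ := hFO ((Polynomial.X + 2) ^ c)
  obtain ⟨n2, hn2⟩ := growth (2 * Polynomial.X + 2) ((Polynomial.X + 2) ^ c) i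
  let M := F.sup List.length
  obtain ⟨n, hn1', hn2', hnM, hn⟩ : ∃ n, n1 ≤ n ∧ n2 ≤ n ∧ 2 ^ M ≤ n ∧ 1 ≤ n :=
    ⟨n1 + (n2 + (2 ^ M + 1)), Nat.le_add_right _ _,
      (Nat.le_add_right _ _).trans (Nat.le_add_left _ _),
      ((Nat.le_add_right _ _).trans (Nat.le_add_left _ _)).trans (Nat.le_add_left _ _),
      ((Nat.le_add_left _ _).trans (Nat.le_add_left _ _)).trans (Nat.le_add_left _ _)⟩
  obtain ⟨_, hfar2⟩ := far (n := n) (M := M) hnM
  set N := tw i n with hN
  set R := tw i ((n + 2) ^ c) with hR
  set J := tjob true d K n R with hJ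
  have hJt : J.2.2.2 = R := rfl
  have hN1 : 1 ≤ N := hn.trans (le_tw i n)
  have hRN : R < 2 ^ (N - 1) := by
    have h1 := hn2 n hn2'
    simp only [Polynomial.eval_add, Polynomial.eval_mul, Polynomial.eval_ofNat,
      Polynomial.eval_X, Polynomial.eval_pow] at h1
    rw [tw_succ, ← hN, ← hR] at h1
    have h2 : 2 ^ N = 2 * 2 ^ (N - 1) := by
      rw [← pow_succ']
      congr 1
      omega
    omega
  obtain ⟨km, hkm1, hkm2⟩ := hn1 n hn1'
  let a1 : List Bool → Bool := fun w => if ∃ e, e < 2 ^ N ∧ w = hb n e then false else a w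
  have ha1F : ∀ w ∈ F, a1 w = a w := by
    intro w hw
    have hlen : w.length ≤ M := Finset.le_sup (f := List.length) hw
    simp only [a1]
    rw [if_neg]
    rintro ⟨e, _, rfl⟩
    have := hfar2 e
    omega
  by_cases hmem : a1 ∈ BO kind i d K c
  swap
  · exact ⟨a1, ha1F, hmem⟩
  have h1 := hmem n hn
  rw [← hR, ← hJ] at h1
  have htt : tt (Af kind a1) i n = false := by
    unfold tt
    rw [List.any_eq_false]
    intro e he
    rw [Af_free (hhb n e)]
    simp only [a1]
    rw [if_pos ⟨e, List.mem_range.1 he, rfl⟩]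
    simp
  rw [htt] at h1
  have hs1 : Small {w | w ∈ jasks (Af kind a1) J} R :=
    ⟨jasks (Af kind a1) J, asks_length _ _, fun w hw => hw⟩
  have hlt : R + 2 ^ (N - 1) < 2 ^ N := by
    have h2 : 2 ^ N = 2 * 2 ^ (N - 1) := by
      rw [← pow_succ']
      congr 1
      omega
    omega
  obtain ⟨e, _, he, hav⟩ := (hs1.union hkm2).avoid (hb n) (fun m m' h => (hb_inj h).2) hlt 0
  simp only [Set.mem_union, not_or] at hav
  obtain ⟨hav1, hav2⟩ := hav
  let a2 : List Bool → Bool := Function.update a1 (hb n e) true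
  have hres : jres (Af kind a1) J = jres (Af kind a2) J := by
    refine jres_congr fun w hw => ?_
    let G : Set (List Bool) := {w | w ≠ hb n e ∧ ∀ l J', kind w = .code l J' → l ≤ km}
    refine Af_congr (G := G) ?_ ?_ w ⟨?_, ?_⟩
    · intro w hw
      simp only [a2]
      rw [Function.update_of_ne hw.1]
    · rintro w ⟨_, hw⟩ l J' hk w' hw'
      refine ⟨?_, fun l' J'' hk' => ?_⟩
      · rintro rfl
        exact hav2 ⟨w, l, J', hk, hw l J' hk, hw'⟩
      · exact (hwf w l J' hk w' hw' l' J'' hk').le.trans (hw l J' hk)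
    · rintro rfl
      exact hav1 hw
    · intro l J' hk
      refine hkm1 w l J' hk ?_
      have h3 := QS_length (jasks_sub hw)
      rw [hJt] at h3
      simpa using h3
  refine ⟨a2, ?_, fun hcon => ?_⟩
  · intro w hw
    have hlen : w.length ≤ M := Finset.le_sup (f := List.length) hw
    simp only [a2]
    rw [Function.update_of_ne, ha1F w hw]
    rintro rfl
    have := hfar2 e
    omega
  · have h3 := hcon n hn
    rw [← hR, ← hJ, ← hres, h1] at h3
    have h4 : tt (Af kind a2) i n = true := by
      unfold tt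
      rw [List.any_eq_true]
      refine ⟨e, List.mem_range.2 (by rw [← hN]; omega), ?_⟩
      rw [Af_free (hhb n e)]
      simp only [a2]
      rw [Function.update_self]
    rw [h4] at h3
    simp at h3

end

end Pool.Agent.J4H22
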