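import Pool.Agent.J4H22.Coded

/-!
# The universal step is computable in polynomial time
-/

namespace Pool.Agent.J4H22

open Pool.Agent.NPC

namespace P

variable {α : Type} [TEnc α]

theorem vlen {v : α → VI} (hv : NPC.Poly v) : NPC.Poly (fun a => J4H22.vlen (v a)) :=
  NPC.Poly.add (NPC.Poly.length (NPC.Poly.fst hv)) (NPC.Poly.fst (NPC.Poly.snd hv))

theorem isym {v : α → VI} {h : α → ℕ} (hv : NPC.Poly v) (hh : NPC.Poly h) :
    NPC.Poly (fun a => J4H22.isym (v a) (h a)) := by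
  unfold J4H22.isym
  refine NPC.Poly.ite (NPC.Poly.decide_eq hh (NPC.Poly.const 0)) (NPC.Poly.const 0) ?_
  refine NPC.Poly.ite (NPC.Poly.decide_le hh (NPC.Poly.length (NPC.Poly.fst hv))) ?_ ?_
  · exact NPC.Poly.cond (NPC.Poly.getD (NPC.Poly.fst hv) (NPC.Poly.sub hh (NPC.Poly.const 1))
      (NPC.Poly.const false)) (NPC.Poly.const 3) (NPC.Poly.const 2)
  · refine NPC.Poly.ite (NPC.Poly.decide_le hh (NPC.Poly.add (NPC.Poly.length (NPC.Poly.fst hv))
      (NPC.Poly.fst (NPC.Poly.snd hv)))) ?_ (NPC.Poly.const 1)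
    exact NPC.Poly.cond (NPC.Poly.snd (NPC.Poly.snd hv)) (NPC.Poly.const 3) (NPC.Poly.const 2)

theorem look {d : α → Code} {k : α → Key} (hd : NPC.Poly d) (hk : NPC.Poly k) :
    NPC.Poly (fun a => J4H22.look (d a) (k a)) := by
  have h1 : NPC.Poly (fun a => ((d a).2.filter fun z => decide (z.1 = k a)).head?) :=
    NPC.Poly.head? (NPC.Poly.filter (p := fun a (z : Key × EA) => decide (z.1 = k a))
      (NPC.Poly.snd hd) (NPC.Poly.decide_eq (NPC.Poly.fst (NPC.Poly.snd NPC.Poly.id))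
        (hk.comp (NPC.Poly.fst NPC.Poly.id))))
  refine (NPC.Poly.optCases (g := fun _ => (Sum.inl (Sum.inl false) : EA))
    (h := fun _ (z : Key × EA) => z.2) h1 (NPC.Poly.const _)
    (NPC.Poly.snd (NPC.Poly.snd NPC.Poly.id))).congr fun a => ?_
  unfold J4H22.look
  cases ((d a).2.filter fun z => decide (z.1 = k a)).head? <;> rfl

theorem tpOp {t : α → TP} {u : α → ℕ × ℕ} (ht : NPC.Poly t) (hu : NPC.Poly u) :
    NPC.Poly (fun a => J4H22.tpOp (t a) (u a)) := by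
  unfold J4H22.tpOp
  have hl := NPC.Poly.fst ht
  have hr := NPC.Poly.snd (NPC.Poly.snd ht)
  have h1 := NPC.Poly.fst hu
  have h2 := NPC.Poly.snd hu
  refine NPC.Poly.ite (NPC.Poly.decide_eq h2 (NPC.Poly.const 0)) ?_ ?_
  · exact NPC.Poly.pair (NPC.Poly.tail hl) (NPC.Poly.pair
      (NPC.Poly.getD hl (NPC.Poly.const 0) (NPC.Poly.const 0)) (NPC.Poly.cons h1 hr))
  · refine NPC.Poly.ite (NPC.Poly.decide_eq h2 (NPC.Poly.const 1)) ?_ ?_
    · exact NPC.Poly.pair (NPC.Poly.cons h1 hl) (NPC.Poly.pair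
        (NPC.Poly.getD hr (NPC.Poly.const 0) (NPC.Poly.const 0)) (NPC.Poly.tail hr))
    · exact NPC.Poly.pair hl (NPC.Poly.pair h1 hr)

theorem hmove {n h m : α → ℕ} (hn : NPC.Poly n) (hh : NPC.Poly h) (hm : NPC.Poly m) :
    NPC.Poly (fun a => J4H22.hmove (n a) (h a) (m a)) := by
  unfold J4H22.hmove
  refine NPC.Poly.ite (NPC.Poly.decide_eq hm (NPC.Poly.const 0))
    (NPC.Poly.sub hh (NPC.Poly.const 1)) ?_
  exact NPC.Poly.ite (NPC.Poly.decide_eq hm (NPC.Poly.const 1))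
    (NPC.Poly.min (NPC.Poly.succ hh) (NPC.Poly.succ hn)) hh

theorem eact {d : α → Code} {v : α → VI} {b : α → Bool} {e : α → ES} (hd : NPC.Poly d)
    (hv : NPC.Poly v) (hb : NPC.Poly b) (he : NPC.Poly e) :
    NPC.Poly (fun a => J4H22.eact (d a) (v a) (b a) (e a)) := by
  unfold J4H22.eact
  refine look hd (NPC.Poly.pair ?_ (NPC.Poly.pair (isym hv (NPC.Poly.fst (NPC.Poly.snd he))) ?_))
  · exact NPC.Poly.cond hb (NPC.Poly.snd (NPC.Poly.fst he)) (NPC.Poly.fst (NPC.Poly.fst he))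
  · exact NPC.Poly.map (F := fun _ (t : TP) => t.2.1) (NPC.Poly.snd (NPC.Poly.snd he))
      (NPC.Poly.fst (NPC.Poly.snd (NPC.Poly.snd NPC.Poly.id)))

theorem enxtR {v : α → VI} {y : α → ℕ × ℕ × List (ℕ × ℕ) × Option Bool} {e : α → ES}
    (hv : NPC.Poly v) (hy : NPC.Poly y) (he : NPC.Poly e) :
    NPC.Poly (fun a => J4H22.enxtR (v a) (y a) (e a)) := by
  unfold J4H22.enxtR
  refine NPC.Poly.pair (NPC.Poly.pair (NPC.Poly.fst hy) (NPC.Poly.fst hy)) (NPC.Poly.pair ?_ ?_)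
  · exact hmove (vlen hv) (NPC.Poly.fst (NPC.Poly.snd he)) (NPC.Poly.fst (NPC.Poly.snd hy))
  · exact NPC.Poly.map (F := fun _ (z : TP × (ℕ × ℕ)) => J4H22.tpOp z.1 z.2)
      (NPC.Poly.zip (NPC.Poly.snd (NPC.Poly.snd he)) (NPC.Poly.fst (NPC.Poly.snd (NPC.Poly.snd hy))))
      (tpOp (NPC.Poly.fst (NPC.Poly.snd NPC.Poly.id)) (NPC.Poly.snd (NPC.Poly.snd NPC.Poly.id)))

theorem enxtL {y : α → Bool ⊕ (ℕ × ℕ)} {e : α → ES}
    (hy : NPC.Poly y) (he : NPC.Poly e) :
    NPC.Poly (fun a => J4H22.enxtL (y a) (e a)) := by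
  refine (NPC.Poly.sumCases (o := y)
      (g := fun a _ => e a) (h := fun a q => ((q, (e a).2) : ES))
      hy (he.comp (NPC.Poly.fst NPC.Poly.id)) ?_).congr
      fun a => ?_
  · exact NPC.Poly.pair (NPC.Poly.snd NPC.Poly.id)
        (NPC.Poly.snd (he.comp (NPC.Poly.fst NPC.Poly.id)))
  · unfold J4H22.enxtL
    cases y a <;> rfl

theorem enxt {v : α → VI} {x : α → EA} {e : α → ES} (hv : NPC.Poly v) (hx : NPC.Poly x)
    (he : NPC.Poly e) : NPC.Poly (fun a => J4H22.enxt (v a) (x a) (e a)) := by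
  refine (NPC.Poly.sumCases (o := x)
    (g := fun a y => J4H22.enxtL y (e a))
    (h := fun a (y : ℕ × ℕ × List (ℕ × ℕ) × Option Bool) => J4H22.enxtR (v a) y (e a)) hx
    (enxtL (NPC.Poly.snd NPC.Poly.id) (he.comp (NPC.Poly.fst NPC.Poly.id)))
    (enxtR (hv.comp (NPC.Poly.fst NPC.Poly.id)) (NPC.Poly.snd NPC.Poly.id)
      (he.comp (NPC.Poly.fst NPC.Poly.id)))).congr fun a => ?_
  rcases x a with (_ | _) | _ <;> rfl

theorem ecells {l : α → List TP} (hl : NPC.Poly l) :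
    NPC.Poly (fun a => J4H22.ecells (l a)) := by
  unfold J4H22.ecells
  refine NPC.Poly.sum (NPC.Poly.map (F := fun _ (t : TP) => t.1.length + 1 + t.2.2.length) hl ?_)
  have hz : NPC.Poly (fun z : α × TP => z.2) := NPC.Poly.snd NPC.Poly.id
  exact NPC.Poly.add (NPC.Poly.add (NPC.Poly.length (NPC.Poly.fst hz)) (NPC.Poly.const 1))
    (NPC.Poly.length (NPC.Poly.snd (NPC.Poly.snd hz)))

theorem einit {d : α → Code} (hd : NPC.Poly d) : NPC.Poly (fun a => J4H22.einit (d a)) := by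
  unfold J4H22.einit
  exact NPC.Poly.pair (NPC.Poly.const _) (NPC.Poly.pair (NPC.Poly.const _)
    (NPC.Poly.map (F := fun _ _ => (([], 0, []) : TP)) (NPC.Poly.fst hd) (NPC.Poly.const _)))

/-- building actions of processes -/
theorem pact {c1 c2 c3 c4 : α → Bool} {f : α → PAct} (h1 : NPC.Poly c1) (h2 : NPC.Poly c2)
    (h3 : NPC.Poly c3) (h4 : NPC.Poly c4) (h : ∀ a, (f a).code = (c1 a, c2 a, c3 a, c4 a)) :
    NPC.Poly f := by
  have h5 : NPC.Poly (fun a => (f a).code) :=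
    (NPC.Poly.pair h1 (NPC.Poly.pair h2 (NPC.Poly.pair h3 h4))).congr fun a => (h a).symm
  exact h5

theorem halt {b : α → Bool} (hb : NPC.Poly b) : NPC.Poly (fun a => PAct.halt (b a)) :=
  pact (NPC.Poly.const true) hb (NPC.Poly.const false) (NPC.Poly.const false) fun _ => rfl

theorem emit {b : α → Bool} (hb : NPC.Poly b) : NPC.Poly (fun a => PAct.emit (b a)) :=
  pact (NPC.Poly.const false) (NPC.Poly.const false) (NPC.Poly.const true) hb fun _ => rfl

theorem epa {x : α → EA} (hx : NPC.Poly x) : NPC.Poly (fun a => J4H22.epa (x a)) := by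
  have h1 : NPC.Poly (fun z : α × (Bool ⊕ (ℕ × ℕ)) =>
      (match z.2 with | .inl b => PAct.halt b | .inr _ => PAct.ask)) := by
    refine (NPC.Poly.sumCases (o := fun z : α × (Bool ⊕ (ℕ × ℕ)) => z.2)
      (g := fun _ b => PAct.halt b) (h := fun _ _ => PAct.ask)
      (NPC.Poly.snd NPC.Poly.id) (halt (NPC.Poly.snd NPC.Poly.id))
      (NPC.Poly.const _)).congr fun z => ?_
    rcases z with ⟨a, _ | _⟩ <;> rfl
  have h2 : NPC.Poly (fun z : α × (ℕ × ℕ × List (ℕ × ℕ) × Option Bool) =>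
      (match z.2.2.2.2 with | none => PAct.go | some b => PAct.emit b)) := by
    refine (NPC.Poly.optCases
      (o := fun z : α × (ℕ × ℕ × List (ℕ × ℕ) × Option Bool) => z.2.2.2.2)
      (g := fun _ => PAct.go) (h := fun _ b => PAct.emit b)
      (NPC.Poly.snd (NPC.Poly.snd (NPC.Poly.snd (NPC.Poly.snd NPC.Poly.id))))
      (NPC.Poly.const _) (emit (NPC.Poly.snd NPC.Poly.id))).congr fun z => ?_
    cases z.2.2.2.2 <;> rfl
  refine (NPC.Poly.sumCases (o := x)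
    (g := fun _ y => (match y with | .inl b => PAct.halt b | .inr _ => PAct.ask))
    (h := fun _ (y : ℕ × ℕ × List (ℕ × ℕ) × Option Bool) =>
      (match y.2.2.2 with | none => PAct.go | some b => PAct.emit b)) hx h1 h2).congr fun a => ?_
  unfold J4H22.epa
  rcases x a with (_ | _) | _ <;> rfl

end P

end Pool.Agent.J4H22
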