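import Pool.Agent.J4H22.Halt

/-!
# The classes of the hierarchy in terms of jobs
-/

namespace Pool.Agent.J4H22

open Pool.Agent.NPC

/-- The index of the class: `ty = true` for time, `ty = false` for space. -/
def cl (ty : Bool) (i : ℕ) : ℕ := cond ty (2 * i + 1) (2 * i + 2)

/-- The bounds for cells and steps of a job, for the resource bound `R`. -/
def params (ty : Bool) (K R : ℕ) : ℕ × ℕ := cond ty (K * (R + 1), R) (R, 2 ^ (K * (2 * R + 1)))

/-- The set `L` is decided by a coded machine with the resource bound `R`. -/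
def Sim (A : Oracle) (ty : Bool) (L : Set ℕ) (R : ℕ → ℕ) : Prop :=
  ∃ (d : Code) (K : ℕ), ∀ K' ≥ K, ∀ (x : ℕ) (v : VI) (r : ℕ), v.list = bin x →
    R (bin x).length ≤ r → (jres A (d, v, params ty K' r) = true ↔ x ∈ L)

theorem sim_time {A : Oracle} {L : Set ℕ} {i : ℕ} (h : L ∈ C (some A) (2 * i + 1)) :
    ∃ p : Polynomial ℕ, Sim A true L fun n => tw i (p.eval n) := by
  rw [exists_time] at h
  obtain ⟨M, p, _, h⟩ := h
  obtain ⟨d, eQ, eG, hd⟩ := exists_faithful M
  refine ⟨p, d, M.k, fun K' hK' x v r hv hr => ?_⟩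
  obtain ⟨n, hn, h1⟩ := h x
  obtain ⟨b, hb, hb'⟩ := verdict_of_correct h1
  have hnr : n ≤ r := hn.trans hr
  have h2 : jres A (d, v, params true K' r) = b := by
    refine jres_machine hd hv hnr hb fun i => ?_
    exact (space_of_time hb i).trans (Nat.mul_le_mul hK' (by omega))
  rw [h2]
  exact hb'

/-- a common treatment of the space bounded machines -/
theorem sim_space_aux {A : Oracle} {L : Set ℕ} {M : Machine} {R : ℕ → ℕ}
    (h : DecidesInSpace M A L R) (hlog : ∀ n, Nat.log 2 n ≤ R n) : Sim A false L R := by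
  obtain ⟨d, eQ, eG, hd⟩ := exists_faithful M
  obtain ⟨K, hK⟩ := halt_time M
  refine ⟨d, K, fun K' hK' x v r hv hr => ?_⟩
  obtain ⟨⟨n, h1⟩, h2⟩ := h x
  obtain ⟨b, hb, hb'⟩ := verdict_of_correct h1
  have hsp : ∀ i, M.space (M.conf A (bin x) i) ≤ r := fun i => (h2 i).trans hr
  obtain ⟨m, hm, b', hb''⟩ := hK A (bin x) r hsp ⟨n, b, hb⟩
  have e : b' = b := by
    have h3 := conf_after hb'' (max n m) (le_max_right _ _)
    have h4 := conf_after hb (max n m) (le_max_left _ _)
    rw [h3] at h4
    rw [← h4, hb''] at hb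
    exact verdict_inj hb
  subst e
  have h3 : jres A (d, v, params false K' r) = b' := by
    refine jres_machine hd hv (hm.trans ?_) hb'' hsp
    refine Nat.pow_le_pow_right (by norm_num) (Nat.mul_le_mul hK' ?_)
    have := hlog (bin x).length
    omega
  rw [h3]
  exact hb'

theorem sim_space {A : Oracle} {L : Set ℕ} {i : ℕ} (h : L ∈ C (some A) (2 * i + 2)) :
    ∃ p : Polynomial ℕ, Sim A false L fun n => tw i (p.eval n) := by
  rw [exists_space] at h
  obtain ⟨M, p, _, h⟩ := h
  refine ⟨p + Polynomial.X, sim_space_aux (M := M) (fun x => ⟨(h x).1, fun n => ?_⟩) ?_⟩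
  · refine ((h x).2 n).trans (tw_mono i ?_)
    simp
  · intro n
    refine le_trans ?_ (le_tw i _)
    have := Nat.log_le_self 2 n
    simp only [Polynomial.eval_add, Polynomial.eval_X]
    omega

theorem sim_log {A : Oracle} {L : Set ℕ} (h : L ∈ C (some A) 0) :
    ∃ c : ℕ, Sim A false L fun n => c * Nat.log 2 n + c := by
  obtain ⟨M, c, _, h⟩ := h
  refine ⟨c + 1, sim_space_aux (M := M) (fun x => ⟨(h x).1, fun n => ?_⟩) ?_⟩
  · refine ((h x).2 n).trans ?_
    have : (c + 1) * Nat.log 2 (bin x).length = c * Nat.log 2 (bin x).length +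
      Nat.log 2 (bin x).length := by ring
    simp only
    omega
  · intro n
    have : (c + 1) * Nat.log 2 n = c * Nat.log 2 n + Nat.log 2 n := by ring
    simp only [this]
    omega

theorem sim_cl {A : Oracle} {L : Set ℕ} {ty : Bool} {i : ℕ} (h : L ∈ C (some A) (cl ty i)) :
    ∃ p : Polynomial ℕ, Sim A ty L fun n => tw i (p.eval n) := by
  cases ty
  · exact sim_space h
  · exact sim_time h

theorem Sim.mono {A : Oracle} {L : Set ℕ} {ty : Bool} {R R' : ℕ → ℕ} (h : Sim A ty L R)
    (hR : ∀ n, R n ≤ R' n) : Sim A ty L R' := by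
  obtain ⟨d, K, h⟩ := h
  exact ⟨d, K, fun K' hK' x v r hv hr => h K' hK' x v r hv ((hR _).trans hr)⟩

section

variable {τ : Type} [TEnc τ]

/-- Membership in a class. -/
theorem mem_cl {A : Oracle} {L : Set ℕ} (ty : Bool) {D : Driver τ} (hD : D.IsPoly)
    {ini : List Bool × List Bool → τ} (hi : NPC.Poly ini) (i : ℕ) (p q : Polynomial ℕ)
    (h : ∀ (x W : ℕ), W = tw i (p.eval (bin x).length) + (bin x).length →
      ∃ (n T : ℕ) (y : τ) (v : Bool), D.job y = .inr v ∧ (v = true ↔ x ∈ L) ∧
        D.Reach A (q.eval W) (q.eval W) T n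
          (ini (bin x, List.replicate (tw i (p.eval (bin x).length)) true)) y ∧
        (ty = true → n ≤ q.eval W ∧ T ≤ q.eval W)) :
    L ∈ C (some A) (cl ty i) := by
  cases ty with
  | false =>
    refine mem_space hD hi i p q fun x W hW => ?_
    obtain ⟨n, T, y, v, h1, h2, h3, _⟩ := h x W hW
    exact ⟨n, T, y, v, h1, h2, h3⟩
  | true =>
    refine mem_time hD hi i p q fun x W hW => ?_
    obtain ⟨n, T, y, v, h1, h2, h3, h4⟩ := h x W hW
    obtain ⟨h5, h6⟩ := h4 rfl
    exact ⟨n, y, v, h5, h1, h2, h3.mono le_rfl le_rfl h6⟩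

end

/-! ### Drivers that run a single job -/

/-- the driver that runs one job -/
def oneD : Driver (Job ⊕ Bool) where
  job z := z
  upd z := .inr z.2

theorem oneD_poly : oneD.IsPoly :=
  ⟨NPC.Poly.id, NPC.Poly.inr (NPC.Poly.snd NPC.Poly.id)⟩

theorem params_s_le (ty : Bool) (K R : ℕ) : (params ty K R).1 ≤ (K + 1) * (R + 1) := by
  cases ty
  · show R ≤ _
    nlinarith
  · show K * (R + 1) ≤ _
    nlinarith

theorem params_t_le (K R : ℕ) : (params true K R).2 = R := rfl

/-- Membership in a class by a single job. -/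
theorem mem_one {A : Oracle} {L : Set ℕ} (ty : Bool)
    {ini : List Bool × List Bool → Job ⊕ Bool} (hi : NPC.Poly ini) (i : ℕ) (p q : Polynomial ℕ)
    (h : ∀ (x W : ℕ), W = tw i (p.eval (bin x).length) + (bin x).length →
      (∃ v, ini (bin x, List.replicate (tw i (p.eval (bin x).length)) true) = .inr v ∧
        (v = true ↔ x ∈ L)) ∨
      ∃ (d : Code) (v : VI) (K r : ℕ),
        ini (bin x, List.replicate (tw i (p.eval (bin x).length)) true) =
          .inl (d, v, params ty K r) ∧ K ≤ q.eval W ∧ r ≤ q.eval W ∧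
          (jres A (d, v, params ty K r) = true ↔ x ∈ L)) :
    L ∈ C (some A) (cl ty i) := by
  obtain ⟨c, hc⟩ := hi.sz_le
  refine mem_cl ty oneD_poly hi i p (c.comp (8 * Polynomial.X + 3) + 8 +
    (q + 1) * (q + 1) + q + 1) fun x W hW => ?_
  have h0 := hc (bin x, List.replicate (tw i (p.eval (bin x).length)) true)
  have h1 : sz (ini (bin x, List.replicate (tw i (p.eval (bin x).length)) true)) ≤
      c.eval (8 * W + 3) := by
    refine h0.trans (eval_mono c ?_)
    have h1 := sz_listBool_le (bin x)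
    have h2 := sz_listBool_le (List.replicate (tw i (p.eval (bin x).length)) true)
    rw [List.length_replicate] at h2
    rw [sz_pair]
    omega
  have e : (c.comp (8 * Polynomial.X + 3) + 8 + (q + 1) * (q + 1) + q + 1).eval W =
      c.eval (8 * W + 3) + 8 + (q.eval W + 1) * (q.eval W + 1) + q.eval W + 1 := by
    simp [Polynomial.eval_comp]
  rw [e]
  rcases h x W hW with ⟨v, hv, hv'⟩ | ⟨d, v, K, r, hJ, hK, hr, hv⟩
  · refine ⟨0, 0, .inr v, v, rfl, hv', ?_, fun _ => ⟨by omega, by omega⟩⟩
    rw [hv] at h1 ⊢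
    exact Driver.Reach.refl (by omega)
  · refine ⟨1, (params ty K r).2, .inr (jres A (d, v, params ty K r)), _, rfl, hv, ?_, ?_⟩
    · rw [hJ] at h1 ⊢
      refine Driver.Reach.one (D := oneD) (J := (d, v, params ty K r)) rfl ?_ le_rfl ?_ ?_
      · refine (params_s_le ty K r).trans ?_
        have : (K + 1) * (r + 1) ≤ (q.eval W + 1) * (q.eval W + 1) :=
          Nat.mul_le_mul (by omega) (by omega)
        omega
      · omega
      · show sz (.inr (jres A (d, v, params ty K r)) : Job ⊕ Bool) ≤ _
        rw [sz_inr]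
        have := sz_bool_le (jres A (d, v, params ty K r))
        omega
    · rintro rfl
      refine ⟨by omega, ?_⟩
      show r ≤ _
      omega

/-! ### Polynomial-time computable numbers -/

namespace P

variable {α : Type} [TEnc α]

theorem pow2 {m : α → ℕ} (hm : UPoly m) : NPC.Poly (fun a => 2 ^ m a) := by
  have h1 : NPC.Poly (fun a => List.replicate (m a) false) :=
    (NPC.Poly.map (F := fun _ (_ : Unit) => false) hm (NPC.Poly.const _)).congr fun a => by simp
  refine (NPC.Poly.valBits (NPC.Poly.append h1 (NPC.Poly.const [true]))).congr fun a => ?_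
  rw [valB_replicate_false]
  simp

theorem params (ty : Bool) {K R : α → ℕ} (hK : UPoly K) (hR : UPoly R) :
    NPC.Poly (fun a => J4H22.params ty (K a) (R a)) := by
  have h1 : UPoly (fun a => R a + 1) := UPoly.add hR (UPoly.const 1)
  have h2 : UPoly (fun a => K a * (2 * R a + 1)) :=
    UPoly.mul hK (UPoly.add (UPoly.mul (UPoly.const 2) hR) (UPoly.const 1))
  cases ty with
  | true => exact NPC.Poly.pair (UPoly.toPoly (UPoly.mul hK h1)) (UPoly.toPoly hR)
  | false => exact NPC.Poly.pair (UPoly.toPoly hR) (pow2 h2)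

end P

/-! ### Numbers with only ones in binary -/

/-- the number with `n` ones in binary -/
def one (n : ℕ) : ℕ := 2 ^ n - 1

theorem one_bits (n : ℕ) : (one n).bits = List.replicate n true := by
  induction n with
  | zero => rfl
  | succ n ih =>
    have h : one (n + 1) = Nat.bit true (one n) := by
      unfold one
      rw [Nat.bit_true, pow_succ]
      have : 1 ≤ 2 ^ n := Nat.one_le_two_pow
      simp only
      omega
    rw [h, Nat.bits_append_bit _ _ (fun _ => rfl), ih]
    rfl

theorem one_ne_zero' {n : ℕ} (h : 1 ≤ n) : one n ≠ 0 := by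
  unfold one
  have : 2 ^ 1 ≤ 2 ^ n := Nat.pow_le_pow_right (by norm_num) h
  omega

theorem bin_one {n : ℕ} (h : 1 ≤ n) : bin (one n) = List.replicate n true := by
  unfold bin
  rw [if_neg (one_ne_zero' h), one_bits, List.reverse_replicate]

theorem one_injective : Function.Injective one := by
  intro a b h
  unfold one at h
  have h1 : 1 ≤ 2 ^ a := Nat.one_le_two_pow
  have h2 : 1 ≤ 2 ^ b := Nat.one_le_two_pow
  exact Nat.pow_right_injective (le_refl 2) (by simp only; omega)

/-- The tally set: the positive numbers with only ones in binary. -/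
def Tal : Set ℕ := {x | ∃ n, 1 ≤ n ∧ x = one n}

theorem bin_injective : Function.Injective bin := by
  intro x y h
  have key : ∀ x : ℕ, valB (bin x).reverse = x := by
    intro x
    unfold bin
    split_ifs with hx
    · rw [hx]
      rfl
    · rw [List.reverse_reverse, valB_bits]
  rw [← key x, ← key y, h]

theorem mem_Tal {x : ℕ} : x ∈ Tal ↔ ((bin x).all fun b => b) = true := by
  constructor
  · rintro ⟨n, hn, rfl⟩
    rw [bin_one hn]
    simp
  · intro h
    have h1 : bin x = List.replicate (bin x).length true := by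
      rw [List.eq_replicate_iff]
      exact ⟨rfl, fun b hb => List.all_eq_true.1 h b hb⟩
    refine ⟨(bin x).length, bin_length_pos x, bin_injective ?_⟩
    rw [bin_one (bin_length_pos x)]
    exact h1

theorem one_length {x : ℕ} (h : x ∈ Tal) : x = one (bin x).length := by
  obtain ⟨n, hn, rfl⟩ := h
  rw [bin_one hn, List.length_replicate]

theorem isTal_poly : NPC.Poly (fun z : List Bool × List Bool => z.1.all fun b => b) :=
  NPC.Poly.all (p := fun _ b => b) (NPC.Poly.fst NPC.Poly.id) (NPC.Poly.snd NPC.Poly.id)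

end Pool.Agent.J4H22
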