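import Pool.Agent.J4H22.Mach

/-!
# Coded machines
-/

namespace Pool.Agent.J4H22

open Pool.Agent.NPC

/-- Virtual inputs: `(u, m, b)` stands for the string `u` followed by `m` copies of `b`. -/
abbrev VI : Type := List Bool × ℕ × Bool

/-- the string -/
def VI.list (v : VI) : List Bool := v.1 ++ List.replicate v.2.1 v.2.2

/-- its length -/
def vlen (v : VI) : ℕ := v.1.length + v.2.1

theorem VI.list_length (v : VI) : v.list.length = vlen v := by
  unfold VI.list vlen
  simp

/-- the code of the symbol in position `h` -/
def isym (v : VI) (h : ℕ) : ℕ :=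
  if h = 0 then 0 else
    if h ≤ v.1.length then cond (v.1.getD (h - 1) false) 3 2 else
      if h ≤ v.1.length + v.2.1 then cond v.2.2 3 2 else 1

/-- the codes of the symbols -/
def symCode : InSym → ℕ
  | .lend => 0
  | .rend => 1
  | .bit false => 2
  | .bit true => 3

theorem symCode_inj : Function.Injective symCode := by
  intro a b h
  match a, b with
  | .lend, .lend => rfl
  | .lend, .rend => simp [symCode] at h
  | .lend, .bit false => simp [symCode] at h
  | .lend, .bit true => simp [symCode] at h
  | .rend, .lend => simp [symCode] at h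
  | .rend, .rend => rfl
  | .rend, .bit false => simp [symCode] at h
  | .rend, .bit true => simp [symCode] at h
  | .bit false, .lend => simp [symCode] at h
  | .bit false, .rend => simp [symCode] at h
  | .bit false, .bit false => rfl
  | .bit false, .bit true => simp [symCode] at h
  | .bit true, .lend => simp [symCode] at h
  | .bit true, .rend => simp [symCode] at h
  | .bit true, .bit false => simp [symCode] at h
  | .bit true, .bit true => rfl

theorem isym_eq (v : VI) (h : ℕ) : isym v h = symCode (inSym v.list h) := by
  obtain ⟨u, m, b⟩ := v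
  cases h with
  | zero => rfl
  | succ h =>
    unfold isym inSym VI.list
    simp only [Nat.add_eq_zero_iff, one_ne_zero, and_false, if_false, Nat.add_sub_cancel]
    by_cases h1 : h + 1 ≤ u.length
    · rw [if_pos h1]
      have h2 : (u ++ List.replicate m b)[h]? = some (u[h]'(by omega)) := by
        rw [List.getElem?_append_left (by omega), List.getElem?_eq_getElem (by omega)]
      rw [h2]
      have h3 : u.getD h false = u[h]'(by omega) := by
        rw [List.getD_eq_getElem?_getD, List.getElem?_eq_getElem (by omega)]
        rfl
      rw [h3]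
      cases u[h]'(by omega) <;> rfl
    · rw [if_neg h1]
      by_cases h2 : h + 1 ≤ u.length + m
      · rw [if_pos h2]
        have h3 : (u ++ List.replicate m b)[h]? = some b := by
          rw [List.getElem?_append_right (by omega), List.getElem?_replicate,
            if_pos (by omega)]
        rw [h3]
        cases b <;> rfl
      · rw [if_neg h2]
        have h3 : (u ++ List.replicate m b)[h]? = none := by
          rw [List.getElem?_append_right (by omega), List.getElem?_replicate,
            if_neg (by omega)]
        rw [h3]
        rfl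

/-- Actions of coded machines. -/
abbrev EA : Type := (Bool ⊕ (ℕ × ℕ)) ⊕ (ℕ × ℕ × List (ℕ × ℕ) × Option Bool)

/-- Keys of the table: state, symbol of the input tape, symbols of the work tapes. -/
abbrev Key : Type := ℕ × ℕ × List ℕ

/-- Codes of machines: the number of tapes in unary and a table. -/
abbrev Code : Type := List Unit × List (Key × EA)

/-- Coded tapes. -/
abbrev TP : Type := List ℕ × ℕ × List ℕ

/-- look for a key in the table; reject if it is not there -/
def look (d : Code) (k : Key) : EA :=
  match (d.2.filter fun z => decide (z.1 = k)).head? with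
  | none => Sum.inl (Sum.inl false)
  | some z => z.2

/-- operation on a tape -/
def tpOp (t : TP) (u : ℕ × ℕ) : TP :=
  if u.2 = 0 then (t.1.tail, t.1.getD 0 0, u.1 :: t.2.2)
  else if u.2 = 1 then (u.1 :: t.1, t.2.2.getD 0 0, t.2.2.tail)
  else (t.1, u.1, t.2.2)

/-- movement of the head on the input tape -/
def hmove (n h m : ℕ) : ℕ := if m = 0 then h - 1 else if m = 1 then min (h + 1) (n + 1) else h

/-- Internal configurations: the states for the two answers, the position of the head, the
tapes. -/
abbrev ES : Type := (ℕ × ℕ) × ℕ × List TP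

/-- the action of the coded machine -/
def eact (d : Code) (v : VI) (a : Bool) (e : ES) : EA :=
  look d (cond a e.1.2 e.1.1, isym v e.2.1, e.2.2.map fun t => t.2.1)

/-- the next internal configuration, for a step -/
def enxtR (v : VI) (y : ℕ × ℕ × List (ℕ × ℕ) × Option Bool) (e : ES) : ES :=
  ((y.1, y.1), hmove (vlen v) e.2.1 y.2.1, (e.2.2.zip y.2.2.1).map fun z => tpOp z.1 z.2)

/-- the next internal configuration, if the machine has halted or asks -/
def enxtL (x : Bool ⊕ (ℕ × ℕ)) (e : ES) : ES :=
  match x with
  | .inl _ => e
  | .inr q => (q, e.2)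

/-- the next internal configuration -/
def enxt (v : VI) (x : EA) (e : ES) : ES :=
  match x with
  | .inl y => enxtL y e
  | .inr y => enxtR v y e

/-- the action as an action of a process -/
def epa (x : EA) : PAct :=
  match x with
  | .inl (.inl b) => .halt b
  | .inl (.inr _) => .ask
  | .inr y => match y.2.2.2 with
    | none => .go
    | some b => .emit b

/-- The coded machine as a process. -/
def simP (d : Code) (v : VI) : Proc ES where
  act z := epa (eact d v z.1 z.2)
  nxt z := enxt v (eact d v z.1 z.2) z.2

/-- the initial configuration -/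
def einit (d : Code) : ES := ((0, 0), 0, d.1.map fun _ => ([], 0, []))

/-- the number of cells -/
def ecells (l : List TP) : ℕ := (l.map fun t => t.1.length + 1 + t.2.2.length).sum

/-! ### Machines and coded machines -/

/-- codes of movements -/
def mvCode : Move → ℕ
  | .left => 0
  | .right => 1
  | .stay => 2

instance : Fintype InSym :=
  ⟨{.lend, .rend, .bit false, .bit true}, by
    intro x
    match x with
    | .lend => simp
    | .rend => simp
    | .bit false => simp
    | .bit true => simp⟩

/-- an injective coding of a finite type, with a prescribed element coded by `0` -/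
theorem exists_coding {α : Type} [Fintype α] (a : α) :
    ∃ f : α → ℕ, Function.Injective f ∧ f a = 0 := by
  classical
  refine ⟨fun x => if x = a then 0 else (Fintype.equivFin α x : ℕ) + 1, ?_, by simp⟩
  intro x y h
  simp only at h
  by_cases hx : x = a
  · by_cases hy : y = a
    · rw [hx, hy]
    · rw [if_pos hx, if_neg hy] at h
      omega
  · by_cases hy : y = a
    · rw [if_neg hx, if_pos hy] at h
      omega
    · rw [if_neg hx, if_neg hy] at h
      have h1 : (Fintype.equivFin α x : ℕ) = Fintype.equivFin α y := by omega
      exact (Fintype.equivFin α).injective (Fin.ext h1)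

section

variable {M : Machine} (eQ : M.Q → ℕ) (eG : M.Γ → ℕ)

/-- the code of a tape -/
def tcode (t : Tape M.Γ) : TP := (t.l.map eG, eG t.c, t.r.map eG)

/-- the code of an action -/
def acode : Action M.k M.Γ M.Q → EA
  | .accept => .inl (.inl true)
  | .reject => .inl (.inl false)
  | .ask q => .inl (.inr (eQ (q false), eQ (q true)))
  | .step q d w m e => .inr (eQ q, mvCode d, List.ofFn fun i => (eG (w i), mvCode (m i)), e)

/-- the configuration `c` of the machine is represented by `p` -/
structure Rel (c : Cfg M) (p : PCf ES) : Prop where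
  q : cond p.a p.b.1.2 p.b.1.1 = eQ c.q
  h : p.b.2.1 = c.h
  t : p.b.2.2 = List.ofFn fun i => tcode eG (c.tp i)
  w : p.w = c.w

/-- the code `d` is faithful -/
structure Faithful (d : Code) : Prop where
  k : d.1.length = M.k
  q : Function.Injective eQ
  g : Function.Injective eG
  q0 : eQ M.start = 0
  g0 : eG M.blank = 0
  look : ∀ (q : M.Q) (s : InSym) (g : Fin M.k → M.Γ),
    look d (eQ q, symCode s, List.ofFn fun i => eG (g i)) = acode eQ eG (M.δ q s g)

variable {eQ eG}

theorem Rel.act {d : Code} (hd : Faithful eQ eG d) {v : VI} {c : Cfg M} {p : PCf ES}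
    (h : Rel eQ eG c p) : eact d v p.a p.b = acode eQ eG (M.act v.list c) := by
  unfold eact
  rw [h.q, h.h, h.t, isym_eq, List.map_ofFn]
  exact hd.look _ _ _

theorem tcode_op (hg0 : eG M.blank = 0) (t : Tape M.Γ) (a : M.Γ) (m : Move) :
    tpOp (tcode eG t) (eG a, mvCode m) = tcode eG ((t.write a).move M.blank m) := by
  cases m with
  | left =>
    unfold tpOp tcode
    simp only [mvCode, Tape.write, Tape.move, if_true, List.map_cons]
    rw [List.map_tail]
    have : (List.map eG t.l).getD 0 0 = eG (t.l.headD M.blank) := by
      cases t.l <;> simp [hg0]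
    rw [this]
  | right =>
    unfold tpOp tcode
    simp only [mvCode, Tape.write, Tape.move, if_true, List.map_cons, one_ne_zero, if_false]
    rw [List.map_tail]
    have : (List.map eG t.r).getD 0 0 = eG (t.r.headD M.blank) := by
      cases t.r <;> simp [hg0]
    rw [this]
  | stay => rfl

theorem zip_ofFn {α β : Type} {k : ℕ} (f : Fin k → α) (g : Fin k → β) :
    (List.ofFn f).zip (List.ofFn g) = List.ofFn fun i => (f i, g i) := by
  apply List.ext_getElem
  · simp
  · intro i h1 h2
    simp

theorem Rel.step {d : Code} (hd : Faithful eQ eG d) {v : VI} {A : Oracle} {c : Cfg M}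
    {p : PCf ES} (h : Rel eQ eG c p) :
    Rel eQ eG (M.next A v.list c) ((simP d v).step A p) := by
  have h1 := h.act hd (v := v)
  have h2 : (simP d v).act (p.a, p.b) = epa (acode eQ eG (M.act v.list c)) := by
    rw [← h1]
    rfl
  have h3 : (simP d v).nxt (p.a, p.b) = enxt v (acode eQ eG (M.act v.list c)) p.b := by
    rw [← h1]
    rfl
  unfold Proc.step
  rw [h2, h3]
  unfold Machine.next
  cases hact : M.act v.list c with
  | accept => simpa [epa, acode] using h
  | reject => simpa [epa, acode] using h
  | ask q =>
    simp only [epa, acode, enxt, enxtL]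
    refine ⟨?_, h.h, h.t, rfl⟩
    rw [h.w]
    cases A c.w <;> rfl
  | step q dd w m e =>
    have key : Rel eQ eG ⟨q, moveHead v.list.length c.h dd,
        fun i => ((c.tp i).write (w i)).move M.blank (m i), c.w ++ e.toList⟩
        ⟨false, enxt v (acode eQ eG (Action.step q dd w m e)) p.b, p.w ++ e.toList⟩ := by
      refine ⟨rfl, ?_, ?_, by rw [h.w]⟩
      · simp only [acode, enxt, enxtR]
        rw [h.h, VI.list_length]
        cases dd <;> rfl
      · simp only [acode, enxt, enxtR]
        rw [h.t, zip_ofFn, List.map_ofFn]
        congr 1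
        funext i
        exact tcode_op hd.g0 _ _ _
    cases e with
    | none => simpa [epa, acode] using key
    | some b => simpa [epa, acode] using key

theorem Rel.init {d : Code} (hd : Faithful eQ eG d) :
    Rel eQ eG M.init ⟨false, einit d, []⟩ := by
  refine ⟨hd.q0.symm, rfl, ?_, rfl⟩
  unfold einit Machine.init tcode
  simp only [List.map_nil, hd.g0]
  apply List.ext_getElem
  · simp [hd.k]
  · intro i h1 h2
    simp

theorem Rel.cells {c : Cfg M} {p : PCf ES} (h : Rel eQ eG c p) :
    ecells p.b.2.2 = M.space c := by
  unfold ecells Machine.space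
  rw [h.t, List.map_ofFn, List.sum_ofFn]
  refine Finset.sum_congr rfl fun i _ => ?_
  simp [tcode, Tape.cells]

end

theorem head?_filter {α : Type} {p : α → Bool} {l : List α} {a : α} (ha : a ∈ l) (hp : p a = true)
    (h : ∀ b ∈ l, p b = true → b = a) : (l.filter p).head? = some a := by
  cases hl : l.filter p with
  | nil =>
    have : a ∈ l.filter p := List.mem_filter.2 ⟨ha, hp⟩
    rw [hl] at this
    simp at this
  | cons b t =>
    have h1 : b ∈ l.filter p := by rw [hl]; simp
    rw [List.mem_filter] at h1
    rw [List.head?_cons, h b h1.1 h1.2]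

/-- Every machine has a faithful code. -/
theorem exists_faithful (M : Machine) :
    ∃ (d : Code) (eQ : M.Q → ℕ) (eG : M.Γ → ℕ), Faithful eQ eG d := by
  classical
  haveI := M.finQ
  haveI := M.finΓ
  obtain ⟨eQ, hq, hq0⟩ := exists_coding M.start
  obtain ⟨eG, hg, hg0⟩ := exists_coding M.blank
  let key : M.Q × InSym × (Fin M.k → M.Γ) → Key := fun z =>
    (eQ z.1, symCode z.2.1, List.ofFn fun i => eG (z.2.2 i))
  have hkey : Function.Injective key := by
    intro z z' h
    simp only [key, Prod.mk.injEq] at h
    obtain ⟨h1, h2, h3⟩ := h
    have h4 := List.ofFn_injective h3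
    refine Prod.ext (hq h1) (Prod.ext (symCode_inj h2) ?_)
    funext i
    exact hg (congrFun h4 i)
  let F : M.Q × InSym × (Fin M.k → M.Γ) → Key × EA := fun z =>
    (key z, acode eQ eG (M.δ z.1 z.2.1 z.2.2))
  refine ⟨(List.replicate M.k (), (Finset.univ.toList).map F), eQ, eG,
    ⟨by simp, hq, hg, hq0, hg0, ?_⟩⟩
  intro q s g
  have h1 : (((Finset.univ.toList).map F).filter
      fun z => decide (z.1 = key (q, s, g))).head? = some (F (q, s, g)) := by
    refine head?_filter (List.mem_map.2 ⟨_, by simp, rfl⟩) (by simp [F]) ?_
    intro b hb hb'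
    obtain ⟨z, _, rfl⟩ := List.mem_map.1 hb
    have h2 : key z = key (q, s, g) := of_decide_eq_true hb'
    rw [hkey h2]
  unfold look
  show (match (List.filter (fun z => decide (z.1 = key (q, s, g)))
    ((Finset.univ.toList).map F)).head? with | none => _ | some z => z.2) = _
  rw [h1]

end Pool.Agent.J4H22
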