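import Pool.Agent.J4H22.Baire

/-!
# Oracles that code the computations of a class
-/

namespace Pool.Agent.J4H22

open Pool.Agent.NPC

/-- codes of computations: machine, factor, input, parameter -/
abbrev ZT : Type := Code × ℕ × List Bool × ℕ

/-- the string that codes a computation; the key depends only on the parameter -/
def cstr (key : ℕ → List Bool) (z : ZT) : List Bool := true :: (bits z ++ key z.2.2.2)

/-- the coded job -/
def zjob (ty : Bool) (i : ℕ) (z : ZT) : Job :=
  (z.1, vs z.2.2.1, params ty z.2.1 (tw i z.2.2.2))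

theorem bits_append_inj {α : Type} [TEnc α] {a b : α} {r s : List Bool}
    (h : bits a ++ r = bits b ++ s) : a = b ∧ r = s := by
  obtain ⟨h1, h2⟩ := T.enc_append_inj _ _ _ _ h
  exact ⟨TEnc.inj h1, h2⟩

theorem cstr_inj {key : ℕ → List Bool} {z z' : ZT} (h : cstr key z = cstr key z') : z = z' :=
  (bits_append_inj (List.cons.inj h).2).1

section

open Classical in
/-- The kinds of strings. -/
noncomputable def kindC (ty : Bool) (i : ℕ) (key : ℕ → List Bool) (valid : ZT → Prop)
    (w : List Bool) : Kind :=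
  if h : ∃ z, valid z ∧ w = cstr key z then .code h.choose.2.2.2 (zjob ty i h.choose)
  else if h : ∃ p : ℕ × ℕ, w = kb p.1 p.2 then .fixed ((key h.choose.1).getD h.choose.2 false)
  else .free

variable {ty : Bool} {i : ℕ} {key : ℕ → List Bool} {valid : ZT → Prop}

theorem kindC_code {z : ZT} (hz : valid z) :
    kindC ty i key valid (cstr key z) = .code z.2.2.2 (zjob ty i z) := by
  have h : ∃ z', valid z' ∧ cstr key z = cstr key z' := ⟨z, hz, rfl⟩
  unfold kindC
  rw [dif_pos h]
  have h1 : h.choose = z := (cstr_inj h.choose_spec.2).symm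
  rw [h1]

theorem kindC_inv {w : List Bool} {l : ℕ} {J : Job} (h : kindC ty i key valid w = .code l J) :
    ∃ z, valid z ∧ w = cstr key z ∧ l = z.2.2.2 ∧ J = zjob ty i z := by
  unfold kindC at h
  split_ifs at h with h1 h2
  · simp only [Kind.code.injEq] at h
    exact ⟨h1.choose, h1.choose_spec.1, h1.choose_spec.2, h.1.symm, h.2.symm⟩

theorem not_code {w : List Bool} : ¬ ∃ z, valid z ∧ (false :: w) = cstr key z := by
  rintro ⟨z, _, h⟩
  exact absurd (List.cons.inj h).1 (by simp)

theorem kindC_kb (k j : ℕ) :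
    kindC ty i key valid (kb k j) = .fixed ((key k).getD j false) := by
  have h : ∃ p : ℕ × ℕ, kb k j = kb p.1 p.2 := ⟨(k, j), rfl⟩
  unfold kindC
  rw [dif_neg (show ¬ ∃ z, valid z ∧ kb k j = cstr key z from not_code), dif_pos h]
  obtain ⟨h1, h2⟩ := kb_inj h.choose_spec
  rw [← h1, ← h2]

theorem kindC_rb (n j : ℕ) : kindC ty i key valid (rb n j) = .free := by
  unfold kindC
  rw [dif_neg (show ¬ ∃ z, valid z ∧ rb n j = cstr key z from not_code), dif_neg]
  rintro ⟨p, hp⟩
  exact kb_ne_rb _ _ _ _ hp.symm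

theorem kindC_hb (n c : ℕ) : kindC ty i key valid (hb n c) = .free := by
  unfold kindC
  rw [dif_neg (show ¬ ∃ z, valid z ∧ hb n c = cstr key z from not_code), dif_neg]
  rintro ⟨p, hp⟩
  exact kb_ne_hb _ _ _ _ hp.symm

end

/-! ### Codes for the time classes -/

/-- the keys: only padding -/
def keyE (i k : ℕ) : List Bool := List.replicate (tw i (k ^ 2)) true

/-- the kinds of strings if the computations of the time class are coded -/
noncomputable def kindE (i : ℕ) : List Bool → Kind := kindC true i (keyE i) fun _ => True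

theorem cstr_length (key : ℕ → List Bool) (z : ZT) :
    (key z.2.2.2).length < (cstr key z).length := by
  unfold cstr
  rw [List.length_cons, List.length_append]
  omega

theorem kindE_wf (i : ℕ) : WF (kindE i) := by
  intro w l J h w' hw' l' J' h'
  obtain ⟨z, _, rfl, rfl, rfl⟩ := kindC_inv h
  obtain ⟨z', _, rfl, rfl, rfl⟩ := kindC_inv h'
  have h1 : (cstr (keyE i) z').length < tw i z.2.2.2 := QS_length hw'
  have h2 := cstr_length (keyE i) z'
  unfold keyE at h2
  rw [List.length_replicate] at h2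
  have h3 : tw i (z'.2.2.2 ^ 2) < tw i z.2.2.2 := h2.trans h1
  have h4 : z'.2.2.2 ^ 2 < z.2.2.2 := (tw_strictMono i).lt_iff_lt.1 h3
  have h5 : z'.2.2.2 ≤ z'.2.2.2 ^ 2 := Nat.le_self_pow (by norm_num) _
  omega

theorem kindE_FE (i : ℕ) : FE (kindE (i + 1)) i := by
  intro p
  obtain ⟨n1, hn1⟩ := growth_sq Polynomial.X p i
  refine ⟨n1, fun n hn w l J hk hw w' hw' => ?_⟩
  obtain ⟨z, _, rfl, rfl, rfl⟩ := kindC_inv hk
  have h1 := cstr_length (keyE (i + 1)) z
  unfold keyE at h1
  rw [List.length_replicate, tw_succ'] at h1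
  have h2 : 2 ^ (z.2.2.2 ^ 2) < p.eval n := (tw_strictMono i).lt_iff_lt.1 (h1.trans hw)
  have h3 := hn1 n hn _ h2.le
  rw [Polynomial.eval_X] at h3
  have h4 : w'.length < tw (i + 1) z.2.2.2 := QS_length hw'
  rw [tw_succ'] at h4
  exact h4.trans h3

/-- Membership in a space class by a single job. -/
theorem mem_space_job {A : Oracle} {L : Set ℕ}
    {ini : List Bool × List Bool → Job} (hi : NPC.Poly ini) (i : ℕ) (p q : Polynomial ℕ)
    (h : ∀ (x W : ℕ), W = tw i (p.eval (bin x).length) + (bin x).length →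
      (ini (bin x, List.replicate (tw i (p.eval (bin x).length)) true)).2.2.1 ≤ q.eval W ∧
      (jres A (ini (bin x, List.replicate (tw i (p.eval (bin x).length)) true)) = true ↔
        x ∈ L)) :
    L ∈ C (some A) (2 * i + 2) := by
  obtain ⟨c, hc⟩ := hi.sz_le
  refine mem_cl false oneD_poly (NPC.Poly.inl hi) i p (c.comp (8 * Polynomial.X + 3) + 8 + q)
    fun x W hW => ?_
  obtain ⟨h1, h2⟩ := h x W hW
  have h0 := hc (bin x, List.replicate (tw i (p.eval (bin x).length)) true)
  have h3 : sz (ini (bin x, List.replicate (tw i (p.eval (bin x).length)) true)) ≤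
      c.eval (8 * W + 3) := by
    refine h0.trans (eval_mono c ?_)
    have h1 := sz_listBool_le (bin x)
    have h2 := sz_listBool_le (List.replicate (tw i (p.eval (bin x).length)) true)
    rw [List.length_replicate] at h2
    rw [sz_pair]
    omega
  set J := ini (bin x, List.replicate (tw i (p.eval (bin x).length)) true) with hJ
  have e : (c.comp (8 * Polynomial.X + 3) + 8 + q).eval W =
      c.eval (8 * W + 3) + 8 + q.eval W := by
    simp [Polynomial.eval_comp]
  rw [e]
  refine ⟨1, J.2.2.2, .inr (jres A J), _, rfl, h2, ?_, fun h => by simp at h⟩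
  refine Driver.Reach.one (D := oneD) (J := J) rfl (by omega) le_rfl ?_ ?_
  · rw [sz_inl]
    omega
  · show sz (.inr (jres A J) : Job ⊕ Bool) ≤ _
    rw [sz_inr]
    have := sz_bool_le (jres A J)
    omega

/-- The first collapse. -/
theorem collapseE (i : ℕ) (a : List Bool → Bool) :
    C (some (Af (kindE (i + 1)) a)) (2 * (i + 1) + 1) ⊆
      C (some (Af (kindE (i + 1)) a)) (2 * i + 2) := by
  intro L hL
  set A := Af (kindE (i + 1)) a with hA
  obtain ⟨p, d, K, h⟩ := sim_time hL
  let ini : List Bool × List Bool → Job := fun z =>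
    qJob (true :: bits ((d, K, z.1, p.eval z.1.length) : ZT), 2 ^ z.2.length, true)
  have hini : NPC.Poly ini := by
    refine P.qJob (NPC.Poly.pair (NPC.Poly.cons (NPC.Poly.const _) (P.bitsP (NPC.Poly.pair
      (NPC.Poly.const d) (NPC.Poly.pair (NPC.Poly.const K) (NPC.Poly.pair
        (NPC.Poly.fst NPC.Poly.id) (UPoly.toPoly (UPoly.eval (UPoly.length
          (NPC.Poly.fst NPC.Poly.id)) p))))))) (NPC.Poly.pair
          (P.pow2 (UPoly.length (NPC.Poly.snd NPC.Poly.id))) (NPC.Poly.const _)))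
  refine mem_space_job hini i (p ^ 2) 0 fun x W _ => ⟨Nat.zero_le _, ?_⟩
  simp only [ini, List.length_replicate, Polynomial.eval_pow]
  rw [qJob_res]
  have e : VI.list (true :: bits ((d, K, bin x, p.eval (bin x).length) : ZT),
      2 ^ tw i ((p.eval (bin x).length) ^ 2), true) =
      cstr (keyE (i + 1)) (d, K, bin x, p.eval (bin x).length) := rfl
  rw [e, hA, Af_code (kindE_wf _) (kindC_code trivial), ← hA]
  exact h K le_rfl x (vs (bin x)) _ (vs_list _) le_rfl

/-! ### Codes for the space classes -/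

/-- a list for a number, of length at least `N` -/
def lst (N m : ℕ) : List Bool := m.bits ++ List.replicate (N - m.size) false

theorem valB_lst (N m : ℕ) : valB (lst N m) = m := by
  unfold lst
  rw [valB_append, valB_bits]
  have h2 : ∀ n, valB (List.replicate n false) = 0 := by
    intro n
    induction n with
    | zero => rfl
    | succ n ih => simp [List.replicate_succ, ih]
  rw [h2]
  omega

theorem lst_length {N m : ℕ} (h : m < 2 ^ N) : (lst N m).length = N := by
  have h1 := Nat.size_le.2 h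
  unfold lst
  rw [List.length_append, Nat.size_eq_bits_len, List.length_replicate]
  omega

/-- the size condition on the codes -/
def okZ (z : ZT) : Prop := sz (z.1, z.2.1, z.2.2.1) ≤ z.2.2.2

/-- the possible questions of all coded computations up to a level -/
def Bad (i k : ℕ) : Set (List Bool) :=
  {w | ∃ z : ZT, okZ z ∧ z.2.2.2 ≤ k ∧ w ∈ QS (zjob false i z)}

theorem Bad_mono {i k l : ℕ} (h : k ≤ l) : Bad i k ⊆ Bad i l := by
  rintro w ⟨z, h1, h2, h3⟩
  exact ⟨z, h1, h2.trans h, h3⟩

theorem Small.flatMap {α : Type} {l : List α} {S : α → Set (List Bool)} {m : ℕ}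
    (h : ∀ a ∈ l, Small (S a) m) : Small {w | ∃ a ∈ l, w ∈ S a} (l.length * m) := by
  induction l with
  | nil => exact ⟨[], by simp, by simp⟩
  | cons a l ih =>
    obtain ⟨l1, h1, h2⟩ := h a (by simp)
    obtain ⟨l2, h3, h4⟩ := ih fun b hb => h b (List.mem_cons_of_mem _ hb)
    refine ⟨l1 ++ l2, ?_, ?_⟩
    · rw [List.length_append, List.length_cons, Nat.succ_mul]
      omega
    · rintro w ⟨b, hb, hw⟩
      rcases List.mem_cons.1 hb with rfl | hb
      · exact List.mem_append_left _ (h2 w hw)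
      · exact List.mem_append_right _ (h4 w ⟨b, hb, hw⟩)

theorem Small.sub {S T : Set (List Bool)} {m : ℕ} (h : Small T m) (hST : S ⊆ T) : Small S m := by
  obtain ⟨l, h1, h2⟩ := h
  exact ⟨l, h1, fun w hw => h2 w (hST hw)⟩

/-- The number of these questions. -/
theorem Bad_small (i : ℕ) : ∃ q : Polynomial ℕ, ∀ k, Small (Bad i k) (2 ^ q.eval (tw i k)) := by
  obtain ⟨q, hq⟩ := QS_small
  refine ⟨6 * Polynomial.X + 11 + q.comp (4 * Polynomial.X + 10), fun k => ?_⟩
  set m := 2 ^ (q.comp (4 * Polynomial.X + 10)).eval (tw i k) with hm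
  have h1 : Small {w | ∃ z ∈ ofSize ZT (6 * k + 10), w ∈ {w | okZ z ∧ z.2.2.2 ≤ k ∧
      w ∈ QS (zjob false i z)}} ((ofSize ZT (6 * k + 10)).length * m) := by
    refine Small.flatMap (S := fun z => {w | okZ z ∧ z.2.2.2 ≤ k ∧ w ∈ QS (zjob false i z)})
      fun z _ => ?_
    by_cases hz : okZ z ∧ z.2.2.2 ≤ k
    · obtain ⟨h2, h3⟩ := hz
      refine ((hq (zjob false i z)).mono ?_).sub fun w hw => hw.2.2
      rw [hm]
      refine Nat.pow_le_pow_right (by norm_num) ?_
      rw [Polynomial.eval_comp]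
      refine eval_mono q ?_
      simp only [Polynomial.eval_add, Polynomial.eval_mul, Polynomial.eval_X,
        Polynomial.eval_ofNat]
      show sz z.1 + sz (vs z.2.2.1) + tw i z.2.2.2 ≤ _
      unfold okZ at h2
      simp only [sz_pair] at h2
      have h4 : sz (vs z.2.2.1) = sz z.2.2.1 + sz (0 : ℕ) + 3 := by
        unfold vs
        simp only [sz_pair, sz_false]
        omega
      rw [sz_zero] at h4
      have h5 := tw_mono i h3
      have h6 := le_tw i k
      omega
    · refine ⟨[], by simp, fun w hw => absurd ⟨hw.1, hw.2.1⟩ hz⟩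
  refine (h1.mono ?_).sub ?_
  · have h2 := ofSize_length ZT (6 * k + 10)
    refine (Nat.mul_le_mul_right m h2).trans ?_
    rw [hm, ← pow_add]
    refine Nat.pow_le_pow_right (by norm_num) ?_
    simp only [Polynomial.eval_add, Polynomial.eval_mul, Polynomial.eval_X,
      Polynomial.eval_ofNat]
    have h3 := le_tw i k
    omega
  · rintro w ⟨z, h2, h3, h4⟩
    refine ⟨z, mem_ofSize ?_, h2, h3, h4⟩
    unfold okZ at h2
    obtain ⟨z1, z2, z3, z4⟩ := z
    simp only [sz_pair] at h2 ⊢
    simp only at h3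
    have h5 := sz_nat_le' z4
    omega

/-- the part of a string after the code, if the string has this form -/
noncomputable def tailOf (w : List Bool) : List Bool := by
  classical
  exact if h : ∃ (z : ZT) (Y : List Bool), w = true :: (bits z ++ Y) then h.choose_spec.choose
    else []

theorem tailOf_eq (z : ZT) (Y : List Bool) : tailOf (true :: (bits z ++ Y)) = Y := by
  classical
  have h : ∃ (z' : ZT) (Y' : List Bool), true :: (bits z ++ Y) = true :: (bits z' ++ Y') :=
    ⟨z, Y, rfl⟩
  unfold tailOf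
  rw [dif_pos h]
  exact (bits_append_inj (List.cons.inj h.choose_spec.choose_spec).2).2.symm

theorem exists_keys (i : ℕ) : ∃ (g : Polynomial ℕ) (key : ℕ → List Bool),
    (∀ k, k ^ 2 ≤ g.eval k) ∧ (∀ k, (key k).length = tw i (g.eval k)) ∧
      ∀ k (z : ZT), true :: (bits z ++ key k) ∉ Bad i k := by
  obtain ⟨q, hq⟩ := Bad_small i
  obtain ⟨u, hu⟩ := tw_absorb i q
  refine ⟨u + Polynomial.X ^ 2 + 1, ?_⟩
  have key : ∀ k, ∃ Y : List Bool, Y.length = tw i ((u + Polynomial.X ^ 2 + 1).eval k) ∧
      ∀ z : ZT, true :: (bits z ++ Y) ∉ Bad i k := by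
    intro k
    set N := tw i ((u + Polynomial.X ^ 2 + 1).eval k) with hN
    obtain ⟨l, hl, hBad⟩ := hq k
    have h1 : Small {Y | ∃ w ∈ Bad i k, Y = tailOf w} (2 ^ q.eval (tw i k)) :=
      ⟨l.map tailOf, by rwa [List.length_map], by
        rintro Y ⟨w, hw, rfl⟩
        exact List.mem_map.2 ⟨w, hBad w hw, rfl⟩⟩
    have hlt : 2 ^ q.eval (tw i k) < 2 ^ N := by
      refine Nat.pow_lt_pow_right (by norm_num) ((hu k).trans_lt (tw_strictMono i ?_))
      simp only [Polynomial.eval_add, Polynomial.eval_pow, Polynomial.eval_X,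
        Polynomial.eval_one]
      omega
    obtain ⟨m, _, hm, hav⟩ := h1.avoid (lst N) (fun a b h => by
      rw [← valB_lst N a, ← valB_lst N b, h]) hlt 0
    refine ⟨lst N m, lst_length (by omega), fun z hz => hav ⟨_, hz, (tailOf_eq _ _).symm⟩⟩
  choose Y hY using key
  refine ⟨Y, fun k => ?_, fun k => (hY k).1, fun k z => (hY k).2 z⟩
  simp only [Polynomial.eval_add, Polynomial.eval_pow, Polynomial.eval_X, Polynomial.eval_one]
  omega

/-- the kinds of strings if the computations of the space class are coded -/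
noncomputable def kindO (i : ℕ) (key : ℕ → List Bool) : List Bool → Kind :=
  kindC false i key okZ

theorem kindO_wf {i : ℕ} {key : ℕ → List Bool}
    (h : ∀ k (z : ZT), true :: (bits z ++ key k) ∉ Bad i k) : WF (kindO i key) := by
  intro w l J hk w' hw' l' J' hk'
  obtain ⟨z, hz, rfl, rfl, rfl⟩ := kindC_inv hk
  obtain ⟨z', hz', rfl, rfl, rfl⟩ := kindC_inv hk'
  by_contra hcon
  push Not at hcon
  exact h z'.2.2.2 z' ⟨z, hz, hcon, hw'⟩

theorem kindO_FO {i : ℕ} {g : Polynomial ℕ} {key : ℕ → List Bool} (hg : ∀ k, k ^ 2 ≤ g.eval k)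
    (hlen : ∀ k, (key k).length = tw (i + 1) (g.eval k)) : FO (kindO (i + 1) key) i := by
  intro p
  obtain ⟨q, hq⟩ := Bad_small (i + 1)
  obtain ⟨n1, hn1⟩ := growth_sq (q + 1) (p + 1) i
  refine ⟨n1, fun n hn => ?_⟩
  have hspec := Nat.findGreatest_spec (P := fun k => 2 ^ (k ^ 2) ≤ p.eval n + 1) (m := 0)
    (n := p.eval n + 1) (Nat.zero_le _) (by simp)
  set km := Nat.findGreatest (fun k => 2 ^ (k ^ 2) ≤ p.eval n + 1) (p.eval n + 1) with hkm
  refine ⟨km, fun w l J hk hw => ?_, ?_⟩
  · obtain ⟨z, _, rfl, rfl, rfl⟩ := kindC_inv hk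
    have h1 := cstr_length key z
    rw [hlen, tw_succ'] at h1
    have h2 : 2 ^ g.eval z.2.2.2 < p.eval n := (tw_strictMono i).lt_iff_lt.1 (h1.trans hw)
    have h3 : 2 ^ (z.2.2.2 ^ 2) ≤ 2 ^ g.eval z.2.2.2 := Nat.pow_le_pow_right (by norm_num) (hg _)
    refine Nat.le_findGreatest ?_ (by omega)
    have h4 : z.2.2.2 < 2 ^ z.2.2.2 := Nat.lt_two_pow_self
    have h5 : 2 ^ z.2.2.2 ≤ 2 ^ (z.2.2.2 ^ 2) :=
      Nat.pow_le_pow_right (by norm_num) (Nat.le_self_pow (by norm_num) _)
    omega
  · refine ((hq km).mono ?_).sub ?_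
    · have h1 := hn1 n hn km (by simpa using hspec)
      rw [← tw_succ'] at h1
      simp only [Polynomial.eval_add, Polynomial.eval_one] at h1
      exact Nat.pow_le_pow_right (by norm_num) (by omega)
    · rintro w' ⟨w, l, J, hk, hl, hw'⟩
      obtain ⟨z, hz, rfl, rfl, rfl⟩ := kindC_inv hk
      exact ⟨z, hz, hl, hw'⟩

end Pool.Agent.J4H22
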