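import Pool.Agent.J4H22.Codes

/-!
# The collapse of a space class to the time class below it
-/

namespace Pool.Agent.J4H22

open Pool.Agent.NPC

/-- states: pad, number of the key, first part of the last question, bits of the key read so far -/
abbrev TK : Type := List Bool × ℕ × List Bool × List Bool

/-- the job -/
noncomputable def tkJ (z : TK) : Job :=
  qJob (vs (cond (decide (z.2.2.2.length < z.1.length)) (kb z.2.1 z.2.2.2.length)
    (z.2.2.1 ++ z.2.2.2)))

/-- the next state -/
def tkN (z : TK) (r : Bool) : TK ⊕ Bool :=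
  cond (decide (z.2.2.2.length < z.1.length)) (.inl (z.1, z.2.1, z.2.2.1, z.2.2.2 ++ [r])) (.inr r)

/-- the driver -/
noncomputable def tkD : Driver (TK ⊕ Bool) where
  job z := match z with
    | .inl z => .inl (tkJ z)
    | .inr b => .inr b
  upd z := match z.1 with
    | .inl y => tkN y z.2
    | .inr b => .inr b

theorem tkD_poly : tkD.IsPoly := by
  refine driver_poly (J := tkJ) (N := tkN) ?_ ?_ (fun _ => rfl) (fun _ => rfl)
    (fun _ _ => rfl) (fun _ _ => rfl)
  · unfold tkJ
    have h1 : NPC.Poly (fun z : TK => z.1) := NPC.Poly.fst NPC.Poly.id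
    have h2 : NPC.Poly (fun z : TK => z.2.1) := NPC.Poly.fst (NPC.Poly.snd NPC.Poly.id)
    have h3 : NPC.Poly (fun z : TK => z.2.2.1) :=
      NPC.Poly.fst (NPC.Poly.snd (NPC.Poly.snd NPC.Poly.id))
    have h4 : NPC.Poly (fun z : TK => z.2.2.2) :=
      NPC.Poly.snd (NPC.Poly.snd (NPC.Poly.snd NPC.Poly.id))
    exact P.qJob (P.vs (NPC.Poly.cond (NPC.Poly.decide_lt (NPC.Poly.length h4)
      (NPC.Poly.length h1)) (P.kb h2 (NPC.Poly.length h4)) (NPC.Poly.append h3 h4)))
  · unfold tkN
    have h0 : NPC.Poly (fun z : TK × Bool => z.1) := NPC.Poly.fst NPC.Poly.id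
    have h1 := NPC.Poly.fst h0
    have h2 := NPC.Poly.fst (NPC.Poly.snd h0)
    have h3 := NPC.Poly.fst (NPC.Poly.snd (NPC.Poly.snd h0))
    have h4 := NPC.Poly.snd (NPC.Poly.snd (NPC.Poly.snd h0))
    have h5 : NPC.Poly (fun z : TK × Bool => z.2) := NPC.Poly.snd NPC.Poly.id
    exact NPC.Poly.cond (NPC.Poly.decide_lt (NPC.Poly.length h4) (NPC.Poly.length h1))
      (NPC.Poly.inl (NPC.Poly.pair h1 (NPC.Poly.pair h2 (NPC.Poly.pair h3
        (NPC.Poly.append h4 (NPC.Poly.cons h5 (NPC.Poly.const [])))))))
      (NPC.Poly.inr h5)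

theorem tk_reach {A : Oracle} {pad : List Bool} {k : ℕ} {u : List Bool} {B T : ℕ}
    (hB : 8 * pad.length + 4 * u.length + 4 * k + 30 ≤ B)
    (hT : 8 * pad.length + 4 * u.length + 4 * k + 30 ≤ T) :
    ∀ (m : ℕ) (acc : List Bool), acc.length + m = pad.length →
      tkD.Reach A B 0 T (m + 1) (.inl (pad, k, u, acc))
        (.inr (A (u ++ (acc ++ (List.range' acc.length m).map (fun j => A (kb k j)))))) := by
  have hsz : ∀ acc : List Bool, acc.length ≤ pad.length →
      sz (.inl (pad, k, u, acc) : TK ⊕ Bool) ≤ B := by
    intro acc hacc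
    rw [sz_inl]
    simp only [sz_pair]
    have h1 := sz_listBool_le pad
    have h2 := sz_listBool_le acc
    have h3 := sz_nat_le' k
    have h4 := sz_listBool_le u
    omega
  intro m
  induction m with
  | zero =>
    intro acc hacc
    have hc : decide (acc.length < pad.length) = false := by simpa using (by omega)
    have e0 : tkJ (pad, k, u, acc) = qJob (vs (u ++ acc)) := by
      unfold tkJ
      simp only [hc, cond_false]
    have e1 : jres A (tkJ (pad, k, u, acc)) = A (u ++ acc) := by
      rw [e0, qJob_res, vs_list]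
    have h := Driver.Reach.one (D := tkD) (A := A) (B := B) (S := 0) (T := T)
      (x := .inl (pad, k, u, acc)) (J := tkJ (pad, k, u, acc)) rfl (by rw [e0]; exact le_rfl) (by
        rw [e0]
        show vlen (vs _) + 2 ≤ T
        rw [vs_len, List.length_append]
        omega) (hsz acc (by omega))
    have e2 : tkD.upd (.inl (pad, k, u, acc), jres A (tkJ (pad, k, u, acc))) =
        .inr (A (u ++ acc)) := by
      show tkN (pad, k, u, acc) _ = _
      unfold tkN
      simp only [hc, cond_false]
      rw [e1]
    rw [e2] at h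
    simp only [List.range'_zero, List.map_nil, List.append_nil]
    refine h ?_
    rw [sz_inr]
    have := sz_bool_le (A (u ++ acc))
    omega
  | succ m ih =>
    intro acc hacc
    have hc : decide (acc.length < pad.length) = true := by simpa using (by omega)
    have e0 : tkJ (pad, k, u, acc) = qJob (vs (kb k acc.length)) := by
      unfold tkJ
      simp only [hc, cond_true]
    have e1 : jres A (tkJ (pad, k, u, acc)) = A (kb k acc.length) := by
      rw [e0, qJob_res, vs_list]
    have h := Driver.Reach.one (D := tkD) (A := A) (B := B) (S := 0) (T := T)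
      (x := .inl (pad, k, u, acc)) (J := tkJ (pad, k, u, acc)) rfl (by rw [e0]; exact le_rfl) (by
        rw [e0]
        show vlen (vs _) + 2 ≤ T
        rw [vs_len, kb_length]
        have h1 := sz_nat_le' k
        have h2 := sz_nat_le' acc.length
        omega) (hsz acc (by omega))
    have e2 : tkD.upd (.inl (pad, k, u, acc), jres A (tkJ (pad, k, u, acc))) =
        .inl (pad, k, u, acc ++ [A (kb k acc.length)]) := by
      show tkN (pad, k, u, acc) _ = _
      unfold tkN
      simp only [hc, cond_true]
      rw [e1]
    rw [e2] at h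
    have h2 := ih (acc ++ [A (kb k acc.length)]) (by
      rw [List.length_append, List.length_singleton]
      omega)
    have h3 := (h (hsz _ (by rw [List.length_append, List.length_singleton]; omega))).trans h2
    rw [Nat.add_comm 1] at h3
    rw [List.length_append, List.length_singleton] at h3
    have e3 : acc ++ (List.range' acc.length (m + 1)).map (fun j => A (kb k j)) =
        acc ++ [A (kb k acc.length)] ++
          (List.range' (acc.length + 1) m).map (fun j => A (kb k j)) := by
      rw [List.range'_succ, List.map_cons, List.append_assoc]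
      rfl
    rw [e3]
    exact h3

/-- The second collapse. -/
theorem collapseO {i : ℕ} {g : Polynomial ℕ} {key : ℕ → List Bool}
    (hlen : ∀ k, (key k).length = tw i (g.eval k))
    (hkey : ∀ k (z : ZT), true :: (bits z ++ key k) ∉ Bad i k) (a : List Bool → Bool) :
    C (some (Af (kindO i key) a)) (2 * i + 2) ⊆ C (some (Af (kindO i key) a)) (2 * i + 1) := by
  intro L hL
  set A := Af (kindO i key) a with hA
  obtain ⟨p, d, K, h⟩ := sim_space hL
  -- the parameter
  let p' : Polynomial ℕ := p + 4 * Polynomial.X + Polynomial.C (sz d + sz K + 10)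
  let zz : List Bool → ZT := fun x => (d, K, x, p'.eval x.length)
  let ini : List Bool × List Bool → TK ⊕ Bool := fun z =>
    .inl (z.2, p'.eval z.1.length, true :: bits (zz z.1), [])
  have hzz : NPC.Poly (fun z : List Bool × List Bool => zz z.1) :=
    NPC.Poly.pair (NPC.Poly.const d) (NPC.Poly.pair (NPC.Poly.const K) (NPC.Poly.pair
      (NPC.Poly.fst NPC.Poly.id) (UPoly.toPoly (UPoly.eval (UPoly.length
        (NPC.Poly.fst NPC.Poly.id)) p'))))
  have hini : NPC.Poly ini := by
    exact NPC.Poly.inl (NPC.Poly.pair (NPC.Poly.snd NPC.Poly.id) (NPC.Poly.pair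
      (UPoly.toPoly (UPoly.eval (UPoly.length (NPC.Poly.fst NPC.Poly.id)) p'))
      (NPC.Poly.pair (NPC.Poly.cons (NPC.Poly.const _) (P.bitsP hzz)) (NPC.Poly.const _))))
  refine mem_cl true tkD_poly hini i (g.comp p') (100 * (Polynomial.X + p' + 10 +
    Polynomial.C (sz d + sz K))) fun x W hW => ?_
  set n := (bin x).length with hn
  have e0 : (100 * (Polynomial.X + p' + 10 + Polynomial.C (sz d + sz K)) : Polynomial ℕ).eval W =
      100 * (W + p'.eval W + 10 + (sz d + sz K)) := by simp
  have hp'W : p'.eval n ≤ p'.eval W := eval_mono p' (by omega)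
  have hp'n : p'.eval n = p.eval n + 4 * n + (sz d + sz K + 10) := by
    simp [p']
  have hok : okZ (zz (bin x)) := by
    show sz (d, K, bin x) ≤ p'.eval n
    rw [sz_pair, sz_pair K]
    have := sz_listBool_le (bin x)
    omega
  rw [Polynomial.eval_comp] at hW ⊢
  set N := tw i (g.eval (p'.eval n)) with hN
  have hu : (true :: bits (zz (bin x))).length ≤ 4 * n + 4 * p'.eval n + sz d + sz K + 10 := by
    rw [List.length_cons, bits_length]
    have h0 : sz (zz (bin x)) = sz d + (sz K + (sz (bin x) + sz (p'.eval n) + 1) + 1) + 1 := by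
      simp only [zz, sz_pair]
      rfl
    have h1 := sz_listBool_le (bin x)
    have h2 := sz_nat_le' (p'.eval n)
    omega
  have h1 := tk_reach (A := A) (pad := List.replicate N true) (k := p'.eval n)
    (u := true :: bits (zz (bin x))) (B := 100 * (W + p'.eval W + 10 + (sz d + sz K)))
    (T := 100 * (W + p'.eval W + 10 + (sz d + sz K))) (by
      rw [List.length_replicate]
      omega) (by
      rw [List.length_replicate]
      omega) N [] (by simp)
  have hkeyeq : (List.range' 0 N).map (fun j => A (kb (p'.eval n) j)) = key (p'.eval n) := by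
    apply List.ext_getElem
    · rw [List.length_map, List.length_range', hlen]
    · intro j h2 h3
      rw [List.getElem_map, List.getElem_range', hA, Af_fixed (kind := kindO i key)
        (w := kb (p'.eval n) (0 + 1 * j)) (kindC_kb _ _)]
      rw [List.getD_eq_getElem?_getD, List.getElem?_eq_getElem (by simpa using h3)]
      simp
  have hres : A ((true :: bits (zz (bin x))) ++ ([] ++ (List.range' 0 N).map
      (fun j => A (kb (p'.eval n) j)))) = jres A (zjob false i (zz (bin x))) := by
    rw [hkeyeq, List.nil_append]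
    show A (cstr key (zz (bin x))) = _
    rw [hA, Af_code (kindO_wf hkey) (kindC_code hok)]
  rw [e0]
  refine ⟨N + 1, 100 * (W + p'.eval W + 10 + (sz d + sz K)), _, _, rfl, ?_,
    h1.mono le_rfl (Nat.zero_le _) le_rfl, fun _ => ⟨by omega, le_rfl⟩⟩
  rw [List.length_nil, hres]
  exact h K le_rfl x (vs (bin x)) _ (vs_list _) (tw_mono i (by
    show p.eval (bin x).length ≤ p'.eval (bin x).length
    rw [← hn]
    omega))

end Pool.Agent.J4H22
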