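import Pool.Agent.J4H22.XC

/-!
# Compilation of structured programs to Turing machines
-/

namespace Pool.Agent.J4H22

open Function (update)

namespace XC

/-- The labels (program points) of a program. -/
def Lbl {K : Type} : XC K → Type
  | skip => Unit
  | push _ _ => Bool
  | pop _ => Unit
  | seq c d => c.Lbl ⊕ d.Lbl
  | cases _ c₀ cf ct => Option (c₀.Lbl ⊕ (cf.Lbl ⊕ ct.Lbl))
  | loop _ c => Option c.Lbl
  | inCases cl cr cf ct => Option (cl.Lbl ⊕ (cr.Lbl ⊕ (cf.Lbl ⊕ ct.Lbl)))
  | inMove _ => Unit
  | emit _ => Unit
  | ask cf ct => Option (cf.Lbl ⊕ ct.Lbl)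

/-- There are finitely many labels. -/
@[instance_reducible] def lblFintype {K : Type} : (c : XC K) → Fintype c.Lbl
  | skip => inferInstanceAs (Fintype Unit)
  | push _ _ => inferInstanceAs (Fintype Bool)
  | pop _ => inferInstanceAs (Fintype Unit)
  | seq c d => @instFintypeSum c.Lbl d.Lbl c.lblFintype d.lblFintype
  | cases _ c₀ cf ct =>
    @instFintypeOption _ (@instFintypeSum c₀.Lbl (cf.Lbl ⊕ ct.Lbl) c₀.lblFintype
      (@instFintypeSum cf.Lbl ct.Lbl cf.lblFintype ct.lblFintype))
  | loop _ c => @instFintypeOption _ c.lblFintype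
  | inCases cl cr cf ct =>
    @instFintypeOption _ (@instFintypeSum cl.Lbl (cr.Lbl ⊕ (cf.Lbl ⊕ ct.Lbl)) cl.lblFintype
      (@instFintypeSum cr.Lbl (cf.Lbl ⊕ ct.Lbl) cr.lblFintype
        (@instFintypeSum cf.Lbl ct.Lbl cf.lblFintype ct.lblFintype)))
  | inMove _ => inferInstanceAs (Fintype Unit)
  | emit _ => inferInstanceAs (Fintype Unit)
  | ask cf ct => @instFintypeOption _ (@instFintypeSum cf.Lbl ct.Lbl cf.lblFintype ct.lblFintype)

instance {K : Type} (c : XC K) : Fintype c.Lbl := c.lblFintype

/-- The entry label. -/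
def entry {K : Type} : (c : XC K) → c.Lbl
  | skip => ()
  | push _ _ => false
  | pop _ => ()
  | seq c _ => Sum.inl c.entry
  | cases _ _ _ _ => none
  | loop _ _ => none
  | inCases _ _ _ _ => none
  | inMove _ => ()
  | emit _ => ()
  | ask _ _ => none

/-- the second label of a push -/
def entry2 {K : Type} (k : K) (b : Bool) : (push k b).Lbl := true

/-- go to the state `q` and change nothing else -/
def go {n : ℕ} {L : Type} (q : L) (g : Fin n → Option Bool) : Action n (Option Bool) L :=
  .step q .stay g (fun _ => .stay) none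

/-- The code of a program, for a given embedding of its labels and a given exit label. -/
def code {n : ℕ} {L : Type} : (c : XC (Fin n)) → (c.Lbl → L) → L → c.Lbl → InSym →
    (Fin n → Option Bool) → Action n (Option Bool) L
  | skip, _, exit, _, _, g => go exit g
  | push k b, emb, exit, l, _, g =>
    Bool.rec (.step (emb (entry2 k b)) .stay g (update (fun _ => Move.stay) k Move.right) none)
      (.step exit .stay (update g k (some b)) (fun _ => .stay) none) l
  | pop k, _, exit, _, _, g =>
    if g k = none then go exit g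
    else .step exit .stay (update g k none) (update (fun _ => Move.stay) k Move.left) none
  | seq c d, emb, exit, l, s, g =>
    Sum.rec (fun l => c.code (fun x => emb (Sum.inl x)) (emb (Sum.inr d.entry)) l s g)
      (fun l => d.code (fun x => emb (Sum.inr x)) exit l s g) l
  | cases k c₀ cf ct, emb, exit, l, s, g =>
    Option.rec (go (match g k with
          | none => emb (some (Sum.inl c₀.entry))
          | some false => emb (some (Sum.inr (Sum.inl cf.entry)))
          | some true => emb (some (Sum.inr (Sum.inr ct.entry)))) g)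
      (fun l => Sum.rec (fun l => c₀.code (fun x => emb (some (Sum.inl x))) exit l s g)
        (fun l => Sum.rec (fun l => cf.code (fun x => emb (some (Sum.inr (Sum.inl x)))) exit l s g)
          (fun l => ct.code (fun x => emb (some (Sum.inr (Sum.inr x)))) exit l s g) l) l) l
  | loop k c, emb, exit, l, s, g =>
    Option.rec (go (match g k with
          | none => exit
          | some _ => emb (some c.entry)) g)
      (fun l => c.code (fun x => emb (some x)) (emb none) l s g) l
  | inCases cl cr cf ct, emb, exit, l, s, g =>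
    Option.rec (go (match s with
          | .lend => emb (some (Sum.inl cl.entry))
          | .rend => emb (some (Sum.inr (Sum.inl cr.entry)))
          | .bit false => emb (some (Sum.inr (Sum.inr (Sum.inl cf.entry))))
          | .bit true => emb (some (Sum.inr (Sum.inr (Sum.inr ct.entry))))) g)
      (fun l => Sum.rec (fun l => cl.code (fun x => emb (some (Sum.inl x))) exit l s g)
        (fun l => Sum.rec (fun l => cr.code (fun x => emb (some (Sum.inr (Sum.inl x)))) exit l s g)
          (fun l => Sum.rec
            (fun l => cf.code (fun x => emb (some (Sum.inr (Sum.inr (Sum.inl x))))) exit l s g)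
            (fun l => ct.code (fun x => emb (some (Sum.inr (Sum.inr (Sum.inr x))))) exit l s g)
            l) l) l) l
  | inMove d, _, exit, _, _, g => .step exit d g (fun _ => .stay) none
  | emit b, _, exit, _, _, g => .step exit .stay g (fun _ => .stay) (some b)
  | ask cf ct, emb, exit, l, s, g =>
    Option.rec (.ask fun b => cond b (emb (some (Sum.inr ct.entry))) (emb (some (Sum.inl cf.entry))))
      (fun l => Sum.rec (fun l => cf.code (fun x => emb (some (Sum.inl x))) exit l s g)
        (fun l => ct.code (fun x => emb (some (Sum.inr x))) exit l s g) l) l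

end XC

/-- The stack `s` is represented by the tape `t`: the head is on the top of the stack, and below
the stack there is a blank. -/
def TR (H : ℕ) (s : List Bool) (t : Tape (Option Bool)) : Prop :=
  t.c :: t.l = s.map some ++ [none] ∧ ∃ j, t.r = List.replicate j none ∧ s.length + 1 + j ≤ H + 1

theorem TR.cells {H : ℕ} {s : List Bool} {t : Tape (Option Bool)} (h : TR H s t) :
    t.cells ≤ H + 1 := by
  obtain ⟨h1, j, h2, h3⟩ := h
  have h4 := congrArg List.length h1
  simp only [List.length_cons, List.length_append, List.length_map, List.length_nil] at h4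
  unfold Tape.cells
  rw [h2, List.length_replicate]
  omega

/-- Configurations of machines with `n` tapes over the alphabet `Option Bool`. -/
structure CF (n : ℕ) (L : Type) where
  q : L
  h : ℕ
  tp : Fin n → Tape (Option Bool)
  w : List Bool

/-- the space used -/
def CF.space {n : ℕ} {L : Type} (a : CF n L) : ℕ := ∑ i, (a.tp i).cells

/-- the transition functions -/
abbrev TF (n : ℕ) (L : Type) := L → InSym → (Fin n → Option Bool) → Action n (Option Bool) L

/-- the action -/
def ac {n : ℕ} {L : Type} (δ : TF n L) (x : List Bool) (c : CF n L) :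
    Action n (Option Bool) L := δ c.q (inSym x c.h) (fun i => (c.tp i).c)

/-- the next configuration -/
def nx {n : ℕ} {L : Type} (δ : TF n L) (A : Oracle) (x : List Bool) (c : CF n L) : CF n L :=
  match ac δ x c with
  | .accept => c
  | .reject => c
  | .step q d w m e => ⟨q, moveHead x.length c.h d,
      fun i => ((c.tp i).write (w i)).move none (m i), c.w ++ e.toList⟩
  | .ask q => ⟨q (A c.w), c.h, c.tp, []⟩

/-- `t` steps, with space at most `S`. -/
def Stp {n : ℕ} {L : Type} (δ : TF n L) (A : Oracle) (x : List Bool) (S t : ℕ) (a b : CF n L) :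
    Prop :=
  (nx δ A x)^[t] a = b ∧ ∀ i ≤ t, ((nx δ A x)^[i] a).space ≤ S

section

variable {n : ℕ} {L : Type} {δ : TF n L}

theorem Stp.trans {A : Oracle} {x : List Bool} {S t t' : ℕ} {a b c : CF n L}
    (h : Stp δ A x S t a b) (h' : Stp δ A x S t' b c) : Stp δ A x S (t + t') a c := by
  refine ⟨?_, ?_⟩
  · rw [add_comm, Function.iterate_add_apply, h.1, h'.1]
  · intro i hi
    rcases Nat.lt_or_ge t i with h1 | h1
    · obtain ⟨j, rfl⟩ := Nat.exists_eq_add_of_lt h1
      have e : t + j + 1 = (j + 1) + t := by ring
      rw [e, Function.iterate_add_apply, h.1]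
      exact h'.2 _ (by omega)
    · exact h.2 i h1

theorem Stp.one {A : Oracle} {x : List Bool} {S : ℕ} {a b : CF n L}
    (h : nx δ A x a = b) (ha : a.space ≤ S) (hb : b.space ≤ S) : Stp δ A x S 1 a b := by
  refine ⟨h, ?_⟩
  intro i hi
  rcases Nat.le_one_iff_eq_zero_or_eq_one.1 hi with rfl | rfl
  · exact ha
  · show (nx δ A x a).space ≤ S
    rw [h]
    exact hb

/-- The configuration `a` represents the state `σ` at the label `q`. -/
structure Rep (H : ℕ) (σ : St (Fin n)) (q : L) (a : CF n L) : Prop where
  hq : a.q = q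
  hh : a.h = σ.h
  hw : a.w = σ.w
  ht : ∀ i : Fin n, TR H (σ.s i) (a.tp i)

theorem Rep.space {H : ℕ} {σ : St (Fin n)} {q : L} {a : CF n L} (h : Rep H σ q a) :
    a.space ≤ n * (H + 1) := by
  unfold CF.space
  calc ∑ i : Fin n, (a.tp i).cells ≤ ∑ _i : Fin n, (H + 1) :=
        Finset.sum_le_sum fun i _ => (h.ht i).cells
    _ = n * (H + 1) := by simp

/-- the symbol on top of a represented stack -/
theorem Rep.sym {H : ℕ} {σ : St (Fin n)} {q : L} {a : CF n L} (h : Rep H σ q a)
    (i : Fin n) : (a.tp i).c = (σ.s i).head? := by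
  have h1 := (h.ht i).1
  cases hs : σ.s i with
  | nil =>
    rw [hs] at h1
    simp only [List.map_nil, List.nil_append, List.cons.injEq] at h1
    exact h1.1
  | cons b l =>
    rw [hs] at h1
    simp only [List.map_cons, List.cons_append, List.cons.injEq] at h1
    exact h1.1

/-- a step that changes nothing but the state -/
theorem next_go {A : Oracle} {x : List Bool} {a : CF n L} {q : L}
    (h : ac δ x a = XC.go q (fun i => (a.tp i).c)) :
    nx δ A x a = ⟨q, a.h, a.tp, a.w⟩ := by
  unfold nx
  rw [h]
  simp only [XC.go, Option.toList, List.append_nil, moveHead]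
  rfl

/-- the first step of a simulated command -/
theorem first {A : Oracle} {x : List Bool} {H t : ℕ} {σ σ' : St (Fin n)} {q0 q exit : L}
    {a : CF n L} (ha : Rep H σ q0 a)
    (h : ac δ x a = XC.go q (fun i => (a.tp i).c))
    (ih : ∀ a : CF n L, Rep H σ q a → ∃ b, Rep H σ' exit b ∧ Stp δ A x (n * (H + 1)) t a b) :
    ∃ b, Rep H σ' exit b ∧ Stp δ A x (n * (H + 1)) (t + 1) a b := by
  have hb : Rep H σ q (⟨q, a.h, a.tp, a.w⟩ : CF n L) := ⟨rfl, ha.hh, ha.hw, ha.ht⟩
  obtain ⟨e, he, h2⟩ := ih _ hb
  refine ⟨e, he, ?_⟩
  rw [Nat.add_comm t 1]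
  exact (Stp.one (next_go h) ha.space hb.space).trans h2

theorem code_correct {A : Oracle} {x : List Bool} {H : ℕ} {c : XC (Fin n)} {σ σ' : St (Fin n)}
    {t : ℕ} (h : XR A x H c σ σ' t) :
    ∀ (emb : c.Lbl → L) (exit : L), (∀ l, δ (emb l) = c.code emb exit l) →
      ∀ a : CF n L, Rep H σ (emb c.entry) a →
        ∃ b, Rep H σ' exit b ∧ Stp δ A x (n * (H + 1)) t a b := by
  induction h with
  | skip σ h =>
    intro emb exit hδ a ha
    have h1 : ac δ x a = XC.go exit (fun i => (a.tp i).c) := by
      unfold ac
      rw [ha.hq, hδ]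
      rfl
    have hb : Rep H σ exit (⟨exit, a.h, a.tp, a.w⟩ : CF n L) :=
      ⟨rfl, ha.hh, ha.hw, ha.ht⟩
    exact ⟨_, hb, Stp.one (next_go h1) ha.space hb.space⟩
  | push σ k b h h' =>
    intro emb exit hδ a ha
    have h1 : ac δ x a = Action.step (emb (XC.entry2 k b)) .stay (fun i => (a.tp i).c)
        (update (fun _ => Move.stay) k Move.right) none := by
      unfold ac
      rw [ha.hq, hδ]
      rfl
    -- the intermediate configuration
    let a1 : CF n L := ⟨emb (XC.entry2 k b), a.h,
      update a.tp k ⟨(a.tp k).c :: (a.tp k).l, none, (a.tp k).r.tail⟩, a.w⟩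
    have hr : (a.tp k).r.headD none = none := by
      obtain ⟨_, j, h2, _⟩ := ha.ht k
      rw [h2]
      cases j <;> simp [List.replicate_succ]
    have e1 : nx δ A x a = a1 := by
      unfold nx
      rw [h1]
      simp only [Option.toList, List.append_nil, moveHead, a1]
      congr 1
      funext i
      by_cases hi : i = k
      · subst hi
        rw [Function.update_self, Function.update_self]
        simp only [Tape.move, Tape.write, hr]
      · rw [Function.update_of_ne hi, Function.update_of_ne hi]
        rfl
    let a2 : CF n L := ⟨exit, a.h,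
      update a.tp k ⟨(a.tp k).c :: (a.tp k).l, some b, (a.tp k).r.tail⟩, a.w⟩
    have h2 : ac δ x a1 = Action.step exit .stay
        (update (fun i => (a1.tp i).c) k (some b)) (fun _ => .stay) none := by
      unfold ac
      rw [show a1.q = emb (XC.entry2 k b) from rfl, hδ]
      rfl
    have e2 : nx δ A x a1 = a2 := by
      unfold nx
      rw [h2]
      simp only [Option.toList, List.append_nil, moveHead, a1, a2]
      congr 1
      funext i
      by_cases hi : i = k
      · subst hi
        simp only [Function.update_self, Tape.move, Tape.write]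
      · simp only [Function.update_of_ne hi, Tape.move, Tape.write]
    have hb : Rep H ⟨update σ.s k (b :: σ.s k), σ.h, σ.w⟩ exit a2 := by
      refine ⟨rfl, ha.hh, ha.hw, ?_⟩
      intro i
      by_cases hi : i = k
      · subst hi
        simp only [a2, Function.update_self]
        obtain ⟨h3, j, h4, h5⟩ := ha.ht i
        refine ⟨?_, j - 1, ?_, ?_⟩
        · simp only [List.map_cons, List.cons_append, ← h3]
        · simp only [h4, List.tail_replicate]
        · have h6 := h' i
          rw [Function.update_self, List.length_cons] at h6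
          simp only [List.length_cons]
          omega
      · simp only [a2, Function.update_of_ne hi]
        exact ha.ht i
    have hs1 : a1.space = a2.space := by
      refine Finset.sum_congr rfl fun i _ => ?_
      by_cases hi : i = k
      · subst hi
        simp only [a1, a2, Function.update_self]
        rfl
      · simp only [a1, a2, Function.update_of_ne hi]
    exact ⟨a2, hb, (Stp.one e1 ha.space (hs1 ▸ hb.space)).trans
      (Stp.one e2 (hs1 ▸ hb.space) hb.space)⟩
  | pop σ k h =>
    intro emb exit hδ a ha
    have hsym := ha.sym k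
    by_cases hk : σ.s k = []
    · have h1 : ac δ x a = XC.go exit (fun i => (a.tp i).c) := by
        unfold ac
        rw [ha.hq, hδ]
        show (if (a.tp k).c = none then _ else _) = _
        rw [if_pos (by rw [hsym, hk]; rfl)]
      have hb : Rep H ⟨update σ.s k (σ.s k).tail, σ.h, σ.w⟩ exit
          (⟨exit, a.h, a.tp, a.w⟩ : CF n L) := by
        refine ⟨rfl, ha.hh, ha.hw, ?_⟩
        have e : update σ.s k (σ.s k).tail = σ.s := by
          rw [hk]
          simp only [List.tail_nil]
          rw [← hk, Function.update_eq_self]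
        simp only [e]
        exact ha.ht
      exact ⟨_, hb, Stp.one (next_go h1) ha.space hb.space⟩
    · obtain ⟨b, l, hbl⟩ := List.exists_cons_of_ne_nil hk
      have h1 : ac δ x a = Action.step exit .stay
          (update (fun i => (a.tp i).c) k none) (update (fun _ => Move.stay) k Move.left) none := by
        unfold ac
        rw [ha.hq, hδ]
        show (if (a.tp k).c = none then _ else _) = _
        rw [if_neg (by rw [hsym, hbl]; simp)]
      let a2 : CF n L := ⟨exit, a.h,
        update a.tp k ⟨(a.tp k).l.tail, (a.tp k).l.headD none, none :: (a.tp k).r⟩, a.w⟩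
      have e2 : nx δ A x a = a2 := by
        unfold nx
        rw [h1]
        simp only [Option.toList, List.append_nil, moveHead, a2]
        congr 1
        funext i
        by_cases hi : i = k
        · subst hi
          simp only [Function.update_self, Tape.move, Tape.write]
        · simp only [Function.update_of_ne hi, Tape.move, Tape.write]
      have hb : Rep H ⟨update σ.s k (σ.s k).tail, σ.h, σ.w⟩ exit a2 := by
        refine ⟨rfl, ha.hh, ha.hw, ?_⟩
        intro i
        by_cases hi : i = k
        · subst hi
          simp only [a2, Function.update_self]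
          obtain ⟨h3, j, h4, h5⟩ := ha.ht i
          rw [hbl] at h3 h5 ⊢
          simp only [List.map_cons, List.cons_append, List.cons.injEq] at h3
          refine ⟨?_, j + 1, ?_, ?_⟩
          · simp only [List.tail_cons, h3.2]
            cases l <;> simp
          · simp only [h4, List.replicate_succ]
          · simp only [List.length_cons, List.tail_cons] at h5 ⊢
            omega
        · simp only [a2, Function.update_of_ne hi]
          exact ha.ht i
      exact ⟨a2, hb, Stp.one e2 ha.space hb.space⟩
  | @seq c d σ σ' σ'' t t' _ _ ih₁ ih₂ =>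
    intro emb exit hδ a ha
    obtain ⟨b, hb, h1⟩ := ih₁ (fun x => emb (Sum.inl x)) (emb (Sum.inr d.entry))
      (fun l => hδ (Sum.inl l)) a ha
    obtain ⟨e, he, h2⟩ := ih₂ (fun x => emb (Sum.inr x)) exit (fun l => hδ (Sum.inr l)) b hb
    exact ⟨e, he, h1.trans h2⟩
  | @casesNil k c₀ cf ct σ σ' t hk _ ih =>
    intro emb exit hδ a ha
    refine first ha (q := emb (some (Sum.inl c₀.entry))) ?_
      (ih (fun x => emb (some (Sum.inl x))) exit (fun l => hδ (some (Sum.inl l))))
    unfold ac
    rw [ha.hq, hδ]
    show XC.go (match (a.tp k).c with | none => _ | some false => _ | some true => _) _ = _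
    rw [ha.sym k, hk]
    rfl
  | @casesFalse k c₀ cf ct σ σ' t l hk _ ih =>
    intro emb exit hδ a ha
    refine first ha (q := emb (some (Sum.inr (Sum.inl cf.entry)))) ?_
      (ih (fun x => emb (some (Sum.inr (Sum.inl x)))) exit
        (fun l => hδ (some (Sum.inr (Sum.inl l)))))
    unfold ac
    rw [ha.hq, hδ]
    show XC.go (match (a.tp k).c with | none => _ | some false => _ | some true => _) _ = _
    rw [ha.sym k, hk]
    rfl
  | @casesTrue k c₀ cf ct σ σ' t l hk _ ih =>
    intro emb exit hδ a ha
    refine first ha (q := emb (some (Sum.inr (Sum.inr ct.entry)))) ?_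
      (ih (fun x => emb (some (Sum.inr (Sum.inr x)))) exit
        (fun l => hδ (some (Sum.inr (Sum.inr l)))))
    unfold ac
    rw [ha.hq, hδ]
    show XC.go (match (a.tp k).c with | none => _ | some false => _ | some true => _) _ = _
    rw [ha.sym k, hk]
    rfl
  | @loopNil k c σ hk h =>
    intro emb exit hδ a ha
    have h1 : ac δ x a = XC.go exit (fun i => (a.tp i).c) := by
      unfold ac
      rw [ha.hq, hδ]
      show XC.go (match (a.tp k).c with | none => _ | some _ => _) _ = _
      rw [ha.sym k, hk]
      rfl
    have hb : Rep H σ exit (⟨exit, a.h, a.tp, a.w⟩ : CF n L) :=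
      ⟨rfl, ha.hh, ha.hw, ha.ht⟩
    exact ⟨_, hb, Stp.one (next_go h1) ha.space hb.space⟩
  | @loopCons k c σ σ' σ'' t t' hk _ _ ih₁ ih₂ =>
    intro emb exit hδ a ha
    obtain ⟨b, l, hbl⟩ := List.exists_cons_of_ne_nil hk
    refine first ha (q := emb (some c.entry)) (t := t + t') ?_ ?_
    · unfold ac
      rw [ha.hq, hδ]
      show XC.go (match (a.tp k).c with | none => _ | some _ => _) _ = _
      rw [ha.sym k, hbl]
      rfl
    · intro a' ha'
      obtain ⟨e, he, h2⟩ := ih₁ (fun x => emb (some x)) (emb none) (fun l => hδ (some l)) _ ha'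
      obtain ⟨f, hf, h3⟩ := ih₂ emb exit hδ e he
      exact ⟨f, hf, h2.trans h3⟩
  | @inL cl cr cf ct σ σ' t hk _ ih =>
    intro emb exit hδ a ha
    refine first ha (q := emb (some (Sum.inl cl.entry))) ?_
      (ih (fun x => emb (some (Sum.inl x))) exit (fun l => hδ (some (Sum.inl l))))
    unfold ac
    rw [ha.hq, hδ, ha.hh, hk]
    rfl
  | @inR cl cr cf ct σ σ' t hk _ ih =>
    intro emb exit hδ a ha
    refine first ha (q := emb (some (Sum.inr (Sum.inl cr.entry)))) ?_
      (ih (fun x => emb (some (Sum.inr (Sum.inl x)))) exit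
        (fun l => hδ (some (Sum.inr (Sum.inl l)))))
    unfold ac
    rw [ha.hq, hδ, ha.hh, hk]
    rfl
  | @inF cl cr cf ct σ σ' t hk _ ih =>
    intro emb exit hδ a ha
    refine first ha (q := emb (some (Sum.inr (Sum.inr (Sum.inl cf.entry))))) ?_
      (ih (fun x => emb (some (Sum.inr (Sum.inr (Sum.inl x))))) exit
        (fun l => hδ (some (Sum.inr (Sum.inr (Sum.inl l))))))
    unfold ac
    rw [ha.hq, hδ, ha.hh, hk]
    rfl
  | @inT cl cr cf ct σ σ' t hk _ ih =>
    intro emb exit hδ a ha
    refine first ha (q := emb (some (Sum.inr (Sum.inr (Sum.inr ct.entry))))) ?_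
      (ih (fun x => emb (some (Sum.inr (Sum.inr (Sum.inr x))))) exit
        (fun l => hδ (some (Sum.inr (Sum.inr (Sum.inr l))))))
    unfold ac
    rw [ha.hq, hδ, ha.hh, hk]
    rfl
  | inMove σ d h =>
    intro emb exit hδ a ha
    have h1 : ac δ x a = Action.step exit d (fun i => (a.tp i).c)
        (fun _ => .stay) none := by
      unfold ac
      rw [ha.hq, hδ]
      rfl
    have e2 : nx δ A x a = ⟨exit, moveHead x.length a.h d, a.tp, a.w⟩ := by
      unfold nx
      rw [h1]
      simp only [Option.toList, List.append_nil]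
      rfl
    have hb : Rep H ⟨σ.s, moveHead x.length σ.h d, σ.w⟩ exit
        (⟨exit, moveHead x.length a.h d, a.tp, a.w⟩ : CF n L) :=
      ⟨rfl, by simp only [ha.hh], ha.hw, ha.ht⟩
    exact ⟨_, hb, Stp.one e2 ha.space hb.space⟩
  | emit σ b h =>
    intro emb exit hδ a ha
    have h1 : ac δ x a = Action.step exit .stay (fun i => (a.tp i).c)
        (fun _ => .stay) (some b) := by
      unfold ac
      rw [ha.hq, hδ]
      rfl
    have e2 : nx δ A x a = ⟨exit, a.h, a.tp, a.w ++ [b]⟩ := by
      unfold nx
      rw [h1]
      simp only [Option.toList, moveHead]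
      rfl
    have hb : Rep H ⟨σ.s, σ.h, σ.w ++ [b]⟩ exit
        (⟨exit, a.h, a.tp, a.w ++ [b]⟩ : CF n L) :=
      ⟨rfl, ha.hh, by simp only [ha.hw], ha.ht⟩
    exact ⟨_, hb, Stp.one e2 ha.space hb.space⟩
  | @askF cf ct σ σ' t hk _ ih =>
    intro emb exit hδ a ha
    have h1 : ac δ x a = Action.ask fun b =>
        cond b (emb (some (Sum.inr ct.entry))) (emb (some (Sum.inl cf.entry))) := by
      unfold ac
      rw [ha.hq, hδ]
      rfl
    have e2 : nx δ A x a = ⟨emb (some (Sum.inl cf.entry)), a.h, a.tp, []⟩ := by
      unfold nx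
      rw [h1]
      simp only [ha.hw, hk, cond_false]
    have hb : Rep H ⟨σ.s, σ.h, []⟩ (emb (some (Sum.inl cf.entry)))
        (⟨emb (some (Sum.inl cf.entry)), a.h, a.tp, []⟩ : CF n L) :=
      ⟨rfl, ha.hh, rfl, ha.ht⟩
    obtain ⟨e, he, h2⟩ := ih (fun x => emb (some (Sum.inl x))) exit
      (fun l => hδ (some (Sum.inl l))) _ hb
    refine ⟨e, he, ?_⟩
    rw [Nat.add_comm t 1]
    exact (Stp.one e2 ha.space hb.space).trans h2
  | @askT cf ct σ σ' t hk _ ih =>
    intro emb exit hδ a ha
    have h1 : ac δ x a = Action.ask fun b =>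
        cond b (emb (some (Sum.inr ct.entry))) (emb (some (Sum.inl cf.entry))) := by
      unfold ac
      rw [ha.hq, hδ]
      rfl
    have e2 : nx δ A x a = ⟨emb (some (Sum.inr ct.entry)), a.h, a.tp, []⟩ := by
      unfold nx
      rw [h1]
      simp only [ha.hw, hk, cond_true]
    have hb : Rep H ⟨σ.s, σ.h, []⟩ (emb (some (Sum.inr ct.entry)))
        (⟨emb (some (Sum.inr ct.entry)), a.h, a.tp, []⟩ : CF n L) :=
      ⟨rfl, ha.hh, rfl, ha.ht⟩
    obtain ⟨e, he, h2⟩ := ih (fun x => emb (some (Sum.inr x))) exit
      (fun l => hδ (some (Sum.inr l))) _ hb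
    refine ⟨e, he, ?_⟩
    rw [Nat.add_comm t 1]
    exact (Stp.one e2 ha.space hb.space).trans h2

end

end Pool.Agent.J4H22
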