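import Pool.Agent.J4H22.Driver

/-!
# Drivers are carried out by machines
-/

namespace Pool.Agent.J4H22

open Pool.Agent.NPC

/-- all symbols on a tape have size at most `W` -/
def TOk (W : ℕ) (t : TP) : Prop :=
  (∀ c ∈ t.1, sz c ≤ W) ∧ sz t.2.1 ≤ W ∧ ∀ c ∈ t.2.2, sz c ≤ W

/-- the invariant of the internal configurations -/
structure EInv (d : Code) (v : VI) (s : ℕ) (e : ES) : Prop where
  q : sz e.1 ≤ 2 * sz d + 3
  h : e.2.1 ≤ vlen v + 1
  n : e.2.2.length ≤ d.1.length
  t : ∀ t ∈ e.2.2, TOk (sz d) t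
  c : ecells e.2.2 ≤ s + d.1.length

theorem sz_zero : sz (0 : ℕ) = 1 := rfl

theorem len_le_sz (d : Code) : d.1.length ≤ sz d := by
  have := length_lt_sz d.1
  have h : sz d = sz d.1 + sz d.2 + 1 := sz_pair d.1 d.2
  omega

theorem look_sz (d : Code) (k : Key) : sz (look d k) ≤ sz d + 5 := by
  unfold look
  cases h : (d.2.filter fun z => decide (z.1 = k)).head? with
  | none =>
    simp only [sz_inl, sz_false]
    omega
  | some z =>
    simp only
    have h1 : z ∈ d.2.filter fun z => decide (z.1 = k) := List.mem_of_mem_head? (by rw [h]; simp)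
    have h2 := sz_le_of_mem (List.mem_of_mem_filter h1)
    have h4 : sz d = sz d.1 + sz d.2 + 1 := sz_pair d.1 d.2
    have h5 : sz z = sz z.1 + sz z.2 + 1 := sz_pair z.1 z.2
    omega

theorem look_sz' (d : Code) (k : Key) {y : ℕ × ℕ × List (ℕ × ℕ) × Option Bool}
    (h : look d k = .inr y) : sz y + 4 ≤ sz d := by
  unfold look at h
  cases h' : (d.2.filter fun z => decide (z.1 = k)).head? with
  | none => rw [h'] at h; simp at h
  | some z =>
    rw [h'] at h
    simp only at h
    have h1 : z ∈ d.2.filter fun z => decide (z.1 = k) := List.mem_of_mem_head? (by rw [h']; simp)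
    have h2 := sz_le_of_mem (List.mem_of_mem_filter h1)
    have h3 : sz z.2 = sz y + 4 := by rw [h, sz_inr]
    have h4 : sz d = sz d.1 + sz d.2 + 1 := sz_pair d.1 d.2
    have h5 : sz z = sz z.1 + sz z.2 + 1 := sz_pair z.1 z.2
    omega

theorem sz_getD_le {W : ℕ} (hW : 1 ≤ W) (l : List ℕ) (h : ∀ c ∈ l, sz c ≤ W) :
    sz (l.getD 0 0) ≤ W := by
  cases l with
  | nil => exact hW
  | cons a l => exact h a (by simp)

theorem tpOp_ok {W : ℕ} (hW : 1 ≤ W) {t : TP} {u : ℕ × ℕ} (ht : TOk W t) (hu : sz u.1 ≤ W) :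
    TOk W (tpOp t u) := by
  obtain ⟨h1, h2, h3⟩ := ht
  unfold tpOp
  split_ifs
  · refine ⟨fun c hc => h1 c (List.mem_of_mem_tail hc), sz_getD_le hW _ h1, fun c hc => ?_⟩
    rcases List.mem_cons.1 hc with rfl | hc
    · exact hu
    · exact h3 c hc
  · refine ⟨fun c hc => ?_, sz_getD_le hW _ h3, fun c hc => h3 c (List.mem_of_mem_tail hc)⟩
    rcases List.mem_cons.1 hc with rfl | hc
    · exact hu
    · exact h1 c hc
  · exact ⟨h1, hu, h3⟩

theorem tpOp_cells (t : TP) (u : ℕ × ℕ) :
    (tpOp t u).1.length + 1 + (tpOp t u).2.2.length ≤ t.1.length + 1 + t.2.2.length + 1 := by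
  unfold tpOp
  split_ifs
  · simp only [List.length_tail, List.length_cons]
    omega
  · simp only [List.length_tail, List.length_cons]
    omega
  · simp only
    omega

theorem ecells_zip : ∀ (l : List TP) (u : List (ℕ × ℕ)),
    ecells ((l.zip u).map fun z => tpOp z.1 z.2) ≤ ecells l + l.length := by
  intro l
  induction l with
  | nil => intro u; simp [ecells]
  | cons t l ih =>
    intro u
    cases u with
    | nil => simp [ecells]
    | cons a u =>
      have h1 := ih u
      have h2 := tpOp_cells t a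
      simp only [ecells, List.zip_cons_cons, List.map_cons, List.sum_cons, List.length_cons] at h1 ⊢
      omega

theorem EInv.init (d : Code) (v : VI) (s : ℕ) : EInv d v s (einit d) := by
  refine ⟨by simp [einit, sz_zero], by simp [einit], by simp [einit], ?_, ?_⟩
  · intro t ht
    simp only [einit, List.mem_map] at ht
    obtain ⟨_, _, rfl⟩ := ht
    exact ⟨by simp, by rw [sz_zero]; exact sz_pos d, by simp⟩
  · have : ∀ l : List Unit, ecells (l.map fun _ => (([], 0, []) : TP)) = l.length := by
      intro l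
      induction l with
      | nil => rfl
      | cons a l ih =>
        simp only [ecells, List.map_cons, List.sum_cons, List.length_cons, List.length_nil] at ih ⊢
        omega
    show ecells (d.1.map fun _ => (([], 0, []) : TP)) ≤ _
    rw [this]
    omega

theorem EInv.next {d : Code} {v : VI} {s : ℕ} {e : ES} (h : EInv d v s e) {k : Key}
    (hc : ecells e.2.2 ≤ s) : EInv d v s (enxt v (look d k) e) := by
  cases hl : look d k with
  | inl x =>
    cases x with
    | inl b => exact h
    | inr q =>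
      have h1 := look_sz d k
      rw [hl, sz_inl, sz_inr] at h1
      refine ⟨?_, h.h, h.n, h.t, h.c⟩
      show sz q ≤ _
      omega
  | inr y =>
    have h1 := look_sz' d k hl
    obtain ⟨q, m, u, o⟩ := y
    simp only [sz_pair] at h1
    show EInv d v s (enxtR v (q, m, u, o) e)
    unfold enxtR
    refine ⟨?_, ?_, ?_, ?_, ?_⟩
    · simp only [sz_pair]
      omega
    · simp only
      have h2 := h.h
      unfold hmove
      split_ifs <;> omega
    · simp only [List.length_map, List.length_zip]
      exact (min_le_left _ _).trans h.n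
    · simp only
      intro t ht
      obtain ⟨z, hz, rfl⟩ := List.mem_map.1 ht
      obtain ⟨z1, z2⟩ := z
      have h3 := List.of_mem_zip hz
      refine tpOp_ok (sz_pos d) (h.t _ h3.1) ?_
      have h4 := sz_le_of_mem h3.2
      obtain ⟨z3, z4⟩ := z2
      rw [sz_pair] at h4
      simp only at h4 ⊢
      omega
    · simp only
      have h3 := ecells_zip e.2.2 u
      have h4 := h.n
      omega

/-- a bound for the size of the internal configurations -/
theorem EInv.size : ∃ q : Polynomial ℕ, ∀ d v s e, EInv d v s e →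
    sz e ≤ q.eval (sz d + sz v + s) := by
  obtain ⟨r, hr⟩ := (NPC.Poly.succ (P.vlen (NPC.Poly.id (α := VI)))).sz_le
  refine ⟨2 * Polynomial.X + 3 + 2 * r + (Polynomial.X * ((2 * Polynomial.X) * (Polynomial.X + 1)
    + Polynomial.X + 10) + 1) + 2, ?_⟩
  intro d v s e he
  set X := sz d + sz v + s with hX
  have h1 := he.q
  have h2 : sz e.2.1 ≤ 2 * r.eval X := by
    have h3 := sz_nat_mono_le he.h
    have h4 := hr v
    have h5 : r.eval (sz v) ≤ r.eval X := eval_mono r (by omega)
    omega
  have h3 : ∀ t ∈ e.2.2, sz t ≤ (2 * X) * (X + 1) + X + 9 := by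
    intro t ht
    obtain ⟨h4, h5, h6⟩ := he.t t ht
    have h7 := sz_le_length_mul t.1 (sz d) h4
    have h8 := sz_le_length_mul t.2.2 (sz d) h6
    have h9 : t.1.length + 1 + t.2.2.length ≤ ecells e.2.2 :=
      List.single_le_sum (by simp) _ (List.mem_map.2 ⟨t, ht, rfl⟩)
    have h10 := he.c
    have h11 := len_le_sz d
    have h12 : t.1.length + t.2.2.length ≤ 2 * X := by omega
    obtain ⟨t1, t2, t3⟩ := t
    rw [sz_pair, sz_pair]
    simp only at h5 h7 h8 h12 ⊢
    have h13 : t1.length * (sz d + 1) + t3.length * (sz d + 1) ≤ (2 * X) * (X + 1) := by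
      rw [← Nat.add_mul]
      exact Nat.mul_le_mul h12 (by omega)
    omega
  have h4 := sz_le_length_mul e.2.2 _ h3
  have h5 : e.2.2.length ≤ X := by
    have h6 := he.n
    have h11 := len_le_sz d
    omega
  have h6 : e.2.2.length * ((2 * X) * (X + 1) + X + 9 + 1) ≤
      X * ((2 * X) * (X + 1) + X + 10) := Nat.mul_le_mul_right _ h5
  have e1 : (2 * Polynomial.X + 3 + 2 * r + (Polynomial.X * ((2 * Polynomial.X) *
      (Polynomial.X + 1) + Polynomial.X + 10) + 1) + 2 : Polynomial ℕ).eval X =
      2 * X + 3 + 2 * r.eval X + (X * ((2 * X) * (X + 1) + X + 10) + 1) + 2 := by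
    simp
  rw [e1]
  have e2 : sz e = sz e.1 + sz e.2 + 1 := sz_pair e.1 e.2
  have e3 : sz e.2 = sz e.2.1 + sz e.2.2 + 1 := sz_pair e.2.1 e.2.2
  omega

/-- the effect of an action on the answer and on the oracle tape -/
def eff (A : Oracle) (x : EA) (w : List Bool) : Bool × List Bool :=
  match epa x with
  | .halt _ => (false, w)
  | .ask => (A w, [])
  | .emit e => (false, w ++ [e])
  | .go => (false, w)

theorem step_eff {β : Type} {P : Proc β} {A : Oracle} {c : PCf β} {x : EA}
    (h : P.act (c.a, c.b) = epa x) (hx : vd x = none) :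
    P.step A c = ⟨(eff A x c.w).1, P.nxt (c.a, c.b), (eff A x c.w).2⟩ ∧ P.Live c := by
  rcases x with (b | q) | ⟨y1, y2, y3, y4⟩
  · simp [vd] at hx
  · refine ⟨?_, fun v => ?_⟩
    · unfold Proc.step eff
      rw [h]
      rfl
    · rw [h]
      simp [epa]
  · cases y4 with
    | none =>
      refine ⟨?_, fun v => ?_⟩
      · unfold Proc.step eff
        rw [h]
        rfl
      · rw [h]
        simp [epa]
    | some b =>
      refine ⟨?_, fun v => ?_⟩
      · unfold Proc.step eff
        rw [h]
        rfl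
      · rw [h]
        simp [epa]

namespace Driver

variable {τ : Type} [TEnc τ] (D : Driver τ)

theorem run_path (A : Oracle) (x : τ) (d : Code) (v : VI) (s : ℕ) {B : ℕ}
    (hB : ∀ t' t e, t' ≤ t → EInv d v s e → sz ((x, some ((d, v, s, t'), e)) : DS τ) ≤
      B + 2 * sz t)
    (hB2 : ∀ r, sz ((D.upd (x, r), none) : DS τ) ≤ B) (T : ℕ) :
    ∀ t (p : PCf ES), t ≤ T → EInv d v s p.b →
    ∃ n ≤ t + 1, ∃ a', D.proc.Path A (B + 2 * sz T) n ⟨p.a, (x, some ((d, v, s, t), p.b)), p.w⟩
      ⟨a', (D.upd (x, run A d v s t p), none), []⟩ := by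
  intro t
  induction t with
  | zero =>
    intro p ht hp
    have h1 : ∃ r, stopB (d, v, s, 0) p.a p.b = some r := by
      unfold stopB
      by_cases h0 : s < ecells p.b.2.2
      · rw [if_pos h0]
        exact ⟨_, rfl⟩
      · rw [if_neg h0]
        simp only
        cases vd (eact d v p.a p.b) with
        | none => exact ⟨false, by simp⟩
        | some b => exact ⟨b, rfl⟩
    obtain ⟨r, hr⟩ := h1
    have h2 : run A d v s 0 p = r := by
      unfold run
      rw [hr]
      rfl
    rw [h2]
    have h3 : D.proc.act (p.a, (x, some ((d, v, s, 0), p.b))) = .ask := by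
      show runAct p.a ((d, v, s, 0), p.b) = _
      unfold runAct
      rw [hr]
    have h4 : D.proc.nxt (p.a, (x, some ((d, v, s, 0), p.b))) = (D.upd (x, r), none) := by
      show D.runNxt p.a x ((d, v, s, 0), p.b) = _
      unfold runNxt
      rw [hr]
    refine ⟨1, by omega, A p.w, Proc.Path.one ?_ ?_ ?_ ?_⟩
    · rw [Proc.step_ask h3, h4]
    · intro w
      rw [h3]
      simp
    · exact hB 0 T _ (by omega) hp
    · exact (hB2 r).trans (Nat.le_add_right _ _)
  | succ t ih =>
    intro p ht hp
    cases hr : stopB (d, v, s, t + 1) p.a p.b with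
    | some r =>
      have h2 : run A d v s (t + 1) p = r := by
        unfold run
        rw [hr]
      rw [h2]
      have h3 : D.proc.act (p.a, (x, some ((d, v, s, t + 1), p.b))) = .ask := by
        show runAct p.a ((d, v, s, t + 1), p.b) = _
        unfold runAct
        rw [hr]
      have h4 : D.proc.nxt (p.a, (x, some ((d, v, s, t + 1), p.b))) = (D.upd (x, r), none) := by
        show D.runNxt p.a x ((d, v, s, t + 1), p.b) = _
        unfold runNxt
        rw [hr]
      refine ⟨1, by omega, A p.w, Proc.Path.one ?_ ?_ ?_ ?_⟩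
      · rw [Proc.step_ask h3, h4]
      · intro w
        rw [h3]
        simp
      · exact hB _ T _ ht hp
      · exact (hB2 r).trans (Nat.le_add_right _ _)
    | none =>
      have h2 : run A d v s (t + 1) p = run A d v s t ((simP d v).step A p) := by
        conv_lhs => unfold run
        rw [hr]
      rw [h2]
      have h3 : D.proc.act (p.a, (x, some ((d, v, s, t + 1), p.b))) =
          epa (eact d v p.a p.b) := by
        show runAct p.a ((d, v, s, t + 1), p.b) = _
        unfold runAct
        rw [hr]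
      have h4 : D.proc.nxt (p.a, (x, some ((d, v, s, t + 1), p.b))) =
          (x, some ((d, v, s, t), enxt v (eact d v p.a p.b) p.b)) := by
        show D.runNxt p.a x ((d, v, s, t + 1), p.b) = _
        unfold runNxt
        rw [hr]
        rfl
      have hcells : ecells p.b.2.2 ≤ s := by
        by_contra hcon
        unfold stopB at hr
        rw [if_pos (by simpa using hcon)] at hr
        simp at hr
      have hvd : vd (eact d v p.a p.b) = none := by
        unfold stopB at hr
        rw [if_neg (by simpa using hcells)] at hr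
        simp only at hr
        cases hv : vd (eact d v p.a p.b) with
        | none => rfl
        | some b => rw [hv] at hr; simp at hr
      have hp' : EInv d v s (enxt v (eact d v p.a p.b) p.b) := hp.next hcells
      have hs1 := (step_eff (P := simP d v) (A := A) (c := p) (x := eact d v p.a p.b) rfl hvd).1
      have hs2 := step_eff (P := D.proc) (A := A)
        (c := ⟨p.a, (x, some ((d, v, s, t + 1), p.b)), p.w⟩) h3 hvd
      have hb : ((simP d v).step A p).b = enxt v (eact d v p.a p.b) p.b := by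
        rw [hs1]
        rfl
      have hstep2 : D.proc.step A ⟨p.a, (x, some ((d, v, s, t + 1), p.b)), p.w⟩ =
          ⟨((simP d v).step A p).a, (x, some ((d, v, s, t), ((simP d v).step A p).b)),
            ((simP d v).step A p).w⟩ := by
        rw [hs2.1]
        simp only [h4]
        rw [hs1]
        rfl
      obtain ⟨n, hn, a', h5⟩ := ih ((simP d v).step A p) (by omega) (by rw [hb]; exact hp')
      have h6 : D.proc.Path A (B + 2 * sz T) 1 ⟨p.a, (x, some ((d, v, s, t + 1), p.b)), p.w⟩
          ⟨((simP d v).step A p).a, (x, some ((d, v, s, t), ((simP d v).step A p).b)),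
            ((simP d v).step A p).w⟩ := by
        refine Proc.Path.one hstep2 hs2.2 ?_ ?_
        · exact hB _ T _ ht hp
        · rw [hb]
          exact hB _ T _ (by omega) hp'
      exact ⟨1 + n, by omega, a', h6.trans h5⟩

variable {D}

/-- one round -/
theorem round_path (A : Oracle) {x : τ} {J : Job} (hJ : D.job x = .inl J) {B : ℕ}
    (hB : ∀ t' e, t' ≤ J.2.2.2 → EInv J.1 J.2.1 J.2.2.1 e →
      sz ((x, some ((J.1, J.2.1, J.2.2.1, t'), e)) : DS τ) ≤ B)
    (hB1 : sz ((x, none) : DS τ) ≤ B)
    (hB2 : ∀ r, sz ((D.upd (x, r), none) : DS τ) ≤ B) (a : Bool) :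
    ∃ n ≤ J.2.2.2 + 2, ∃ a', D.proc.Path A (B + 2 * sz J.2.2.2) n ⟨a, (x, none), []⟩
      ⟨a', (D.dstep A x, none), []⟩ := by
  have h1 : D.dstep A x = D.upd (x, jres A J) := by
    unfold dstep
    rw [hJ]
  rw [h1]
  have h2 : D.proc.act (a, (x, none)) = .go := by
    show idleAct (D.job x) = _
    rw [hJ]
    rfl
  have h3 : D.proc.nxt (a, (x, none)) = (x, some (J, einit J.1)) := by
    show idleNxt x (D.job x) = _
    rw [hJ]
    rfl
  have h4 : D.proc.Path A (B + 2 * sz J.2.2.2) 1 ⟨a, (x, none), []⟩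
      ⟨false, (x, some (J, einit J.1)), []⟩ := by
    refine Proc.Path.one ?_ ?_ ?_ ?_
    · rw [Proc.step_go h2, h3]
    · intro w
      rw [h2]
      simp
    · exact hB1.trans (Nat.le_add_right _ _)
    · exact (hB _ _ le_rfl (EInv.init _ _ _)).trans (Nat.le_add_right _ _)
  obtain ⟨d, v, s, t⟩ := J
  have h9 : ∀ t' t'' e, t' ≤ t'' → EInv d v s e →
      sz ((x, some ((d, v, s, t'), e)) : DS τ) ≤ B + 2 * sz t'' := by
    intro t' t'' e ht' he
    have h6 := hB 0 e (Nat.zero_le _) he
    simp only [sz_pair, sz_some] at h6 ⊢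
    have h7 := sz_nat_mono_le ht'
    have h8 : sz (0 : ℕ) = 1 := rfl
    omega
  obtain ⟨n, hn, a', h5⟩ := run_path D A x d v s (B := B)
    h9 hB2 t t ⟨false, einit d, []⟩ le_rfl (EInv.init _ _ _)
  exact ⟨1 + n, by simp only; omega, a', h4.trans h5⟩

/-- The process of a polynomial driver has states of polynomial size. -/
theorem exists_bound (hD : D.IsPoly) : ∃ q : Polynomial ℕ, ∀ (A : Oracle) (x : τ) (J : Job),
    D.job x = .inl J → ∀ (X S : ℕ), sz x ≤ X → J.2.2.1 ≤ S →
      ∀ a, ∃ n ≤ J.2.2.2 + 2, ∃ a', D.proc.Path A (q.eval (X + S)) n ⟨a, (x, none), []⟩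
        ⟨a', (D.dstep A x, none), []⟩ := by
  obtain ⟨r, hr⟩ := hD.1.sz_le
  obtain ⟨u, hu⟩ := hD.2.sz_le
  obtain ⟨q, hq⟩ := EInv.size
  refine ⟨Polynomial.X + 3 * r + 10 + q.comp (r + Polynomial.X) + u.comp (Polynomial.X + 4) + 4
    + 2 * r, ?_⟩
  intro A x J hJ X S hX hS a
  have h1 := hr x
  rw [hJ, sz_inl] at h1
  have h2 : r.eval (sz x) ≤ r.eval (X + S) := eval_mono r (by omega)
  have hs1 : sz J = sz J.1 + sz J.2 + 1 := sz_pair J.1 J.2
  have hs2 : sz J.2 = sz J.2.1 + sz J.2.2 + 1 := sz_pair J.2.1 J.2.2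
  have hs3 : sz J.2.2 = sz J.2.2.1 + sz J.2.2.2 + 1 := sz_pair J.2.2.1 J.2.2.2
  have h3 : ∀ e, EInv J.1 J.2.1 J.2.2.1 e → sz e ≤ (q.comp (r + Polynomial.X)).eval (X + S) := by
    intro e he
    refine (hq _ _ _ _ he).trans ?_
    rw [Polynomial.eval_comp, Polynomial.eval_add, Polynomial.eval_X]
    exact eval_mono q (by omega)
  have h4 : ∀ r', sz (D.upd (x, r')) ≤ (u.comp (Polynomial.X + 4)).eval (X + S) := by
    intro r'
    refine (hu _).trans ?_
    rw [Polynomial.eval_comp]
    refine eval_mono u ?_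
    have := sz_bool_le r'
    rw [sz_pair]
    simp only [Polynomial.eval_add, Polynomial.eval_X, Polynomial.eval_ofNat]
    omega
  have h9 : ∀ t' e, t' ≤ J.2.2.2 → EInv J.1 J.2.1 J.2.2.1 e →
      sz ((x, some ((J.1, J.2.1, J.2.2.1, t'), e)) : DS τ) ≤ (X + S) + 3 * r.eval (X + S) + 10 +
    (q.comp (r + Polynomial.X)).eval (X + S) + (u.comp (Polynomial.X + 4)).eval (X + S) + 4 := by
    intro t' e ht' he
    have h6 := h3 e he
    have h7 := sz_nat_mono_le ht'
    simp only [sz_pair, sz_some]
    omega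
  obtain ⟨n, hn, a', h5⟩ := round_path A hJ h9 (by
      simp only [sz_pair, sz_none]
      omega) (fun r' => by
      have := h4 r'
      simp only [sz_pair, sz_none]
      omega) a
  refine ⟨n, hn, a', h5.mono ?_⟩
  simp only [Polynomial.eval_add, Polynomial.eval_mul, Polynomial.eval_X,
    Polynomial.eval_ofNat] at *
  omega

/-- The whole run of the process of a driver. -/
theorem reach_path (hD : D.IsPoly) : ∃ q : Polynomial ℕ, ∀ (A : Oracle) (B S T n : ℕ) (x y : τ),
    D.Reach A B S T n x y → ∀ a, ∃ m ≤ n * (T + 2), ∃ a',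
      D.proc.Path A (q.eval (B + S)) m ⟨a, (x, none), []⟩ ⟨a', (y, none), []⟩ := by
  obtain ⟨q, hq⟩ := exists_bound hD
  refine ⟨q + Polynomial.X + 2, ?_⟩
  intro A B S T n
  have hle : q.eval (B + S) ≤ (q + Polynomial.X + 2).eval (B + S) := by
    simp only [Polynomial.eval_add, Polynomial.eval_X, Polynomial.eval_ofNat]
    omega
  induction n with
  | zero =>
    intro x y h a
    obtain rfl : x = y := h.1
    refine ⟨0, by omega, a, Proc.Path.refl ?_⟩
    have := h.left
    simp only [sz_pair, sz_none, Polynomial.eval_add, Polynomial.eval_X, Polynomial.eval_ofNat]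
    omega
  | succ n ih =>
    intro x y h a
    obtain ⟨J, hJ, hS, hT⟩ := h.2.1 0 (by omega)
    obtain ⟨m, hm, a', h1⟩ := hq A x J hJ B S h.left hS a
    have h2 : D.Reach A B S T n (D.dstep A x) y :=
      ⟨h.1, fun i hi => h.2.1 (i + 1) (by omega), fun i hi => h.2.2 (i + 1) (by omega)⟩
    obtain ⟨m', hm', a'', h3⟩ := ih _ _ h2 a'
    refine ⟨m + m', ?_, a'', (h1.mono hle).trans h3⟩
    have : (n + 1) * (T + 2) = n * (T + 2) + (T + 2) := by ring
    omega

/-- Every driver is carried out by a machine. -/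
theorem machine (hD : D.IsPoly) {ini : List Bool → τ} (hi : NPC.Poly ini) :
    ∃ (M : Machine) (q : Polynomial ℕ), ∀ (A : Oracle) (x : List Bool) (B S T n : ℕ) (y : τ)
      (v : Bool), D.Reach A B S T n (ini x) y → D.job y = .inr v →
      (∃ m ≤ (n + 1) * (T + 2) * q.eval (B + S + x.length),
        M.act x (M.conf A x m) = verdict v) ∧
        ∀ m, M.space (M.conf A x m) ≤ q.eval (B + S + x.length) := by
  have hi' : NPC.Poly (fun x => ((ini x, none) : DS τ)) := NPC.Poly.pair hi (NPC.Poly.const _)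
  obtain ⟨M, q, hM⟩ := proc_machine D.proc hD.proc hi'
  obtain ⟨r, hr⟩ := reach_path hD
  refine ⟨M, q.comp (r + Polynomial.X), ?_⟩
  intro A x B S T n y v h hv
  obtain ⟨m, hm, a', h1⟩ := hr A B S T n _ _ h false
  obtain ⟨⟨k, hk, h2⟩, h3⟩ := hM A x m v _ _ h1 (by
    show idleAct (D.job y) = _
    rw [hv]
    rfl)
  have h4 : q.eval (r.eval (B + S) + x.length) ≤
      (q.comp (r + Polynomial.X)).eval (B + S + x.length) := by
    rw [Polynomial.eval_comp, Polynomial.eval_add, Polynomial.eval_X]
    refine eval_mono q ?_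
    have := eval_mono r (show B + S ≤ B + S + x.length by omega)
    omega
  refine ⟨⟨k, hk.trans ?_, h2⟩, fun m => (h3 m).trans h4⟩
  refine Nat.mul_le_mul ?_ h4
  have : (n + 1) * (T + 2) = n * (T + 2) + (T + 2) := by ring
  omega

end Driver

end Pool.Agent.J4H22
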