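import Mathlib

/-!
# Deterministic Turing machines and the classes of the polynomial space-time hierarchy

The machines have a two-way read-only input tape with end markers, `k` two-way infinite work tapes,
and a write-only oracle tape. A machine that never uses the oracle tape is an ordinary Turing
machine. The space is the number of the cells of the work tapes that have been visited; the input
tape and the oracle tape do not count.
-/

namespace Pool.Agent.J4H22

/-- The movements of a head. -/
inductive Move
  | left
  | stay
  | right
  deriving DecidableEq

/-- What the head on the input tape sees: the left end marker, the right end marker, or a bit of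
the input. -/
inductive InSym
  | lend
  | rend
  | bit (b : Bool)
  deriving DecidableEq

/-- A work tape, infinite in both directions. Only the visited cells are recorded: those to the
left of the head (the nearest one first), the scanned cell, and those to the right of the head (the
nearest one first). All other cells are blank. -/
structure Tape (Γ : Type) where
  /-- the visited cells to the left of the head -/
  l : List Γ
  /-- the scanned symbol -/
  c : Γ
  /-- the visited cells to the right of the head -/
  r : List Γ

/-- The tape after the symbol `a` has been written into the scanned cell. -/
def Tape.write {Γ : Type} (t : Tape Γ) (a : Γ) : Tape Γ := ⟨t.l, a, t.r⟩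

/-- The tape after a movement of the head; `bl` is the blank. -/
def Tape.move {Γ : Type} (bl : Γ) (t : Tape Γ) : Move → Tape Γ
  | .left => ⟨t.l.tail, t.l.headD bl, t.c :: t.r⟩
  | .stay => t
  | .right => ⟨t.c :: t.l, t.r.headD bl, t.r.tail⟩

/-- The number of visited cells. -/
def Tape.cells {Γ : Type} (t : Tape Γ) : ℕ := t.l.length + 1 + t.r.length

/-- What a machine with `k` work tapes, work alphabet `Γ` and set of states `Q` does in one step:
it accepts, rejects, or makes a step to the state `q`, with the movement `d` of the input head,
writing `w i` and then moving the head by `m i` on the work tape `i`, and appending the bit in `e`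
(if there is one) to the content of the oracle tape; or it asks whether the content of the oracle
tape belongs to the oracle, goes to the state `q true` or `q false` according to the answer, and
the oracle tape is erased. -/
inductive Action (k : ℕ) (Γ Q : Type)
  | accept
  | reject
  | step (q : Q) (d : Move) (w : Fin k → Γ) (m : Fin k → Move) (e : Option Bool)
  | ask (q : Bool → Q)

/-- A deterministic Turing machine. The action depends on the state, on the symbol under the input
head and on the symbols under the heads of the work tapes. -/
structure Machine where
  /-- the number of work tapes -/
  k : ℕ
  /-- the work alphabet -/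
  Γ : Type
  /-- the states -/
  Q : Type
  [finΓ : Fintype Γ]
  [finQ : Fintype Q]
  /-- the blank -/
  blank : Γ
  /-- the initial state -/
  start : Q
  /-- the transition function -/
  δ : Q → InSym → (Fin k → Γ) → Action k Γ Q

/-- The machine never writes on the oracle tape and never asks the oracle: it is a deterministic
Turing machine without oracle. -/
def Machine.Plain (M : Machine) : Prop :=
  ∀ q s g, match M.δ q s g with
    | .accept => True
    | .reject => True
    | .step _ _ _ _ e => e = none
    | .ask _ => False

/-- An oracle: a set of bit strings, given by its characteristic function. -/
abbrev Oracle : Type := List Bool → Bool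

/-- A configuration: state, position of the input head, work tapes, content of the oracle tape. -/
structure Cfg (M : Machine) where
  /-- the state -/
  q : M.Q
  /-- the position of the input head -/
  h : ℕ
  /-- the work tapes -/
  tp : Fin M.k → Tape M.Γ
  /-- the content of the oracle tape -/
  w : List Bool

/-- The symbol in position `h` of the input tape for the input `x`: position `0` holds the left end
marker, then come the bits of `x`, then the right end marker. -/
def inSym (x : List Bool) : ℕ → InSym
  | 0 => .lend
  | h + 1 => match x[h]? with
    | some b => .bit b
    | none => .rend

/-- The position of the input head after a movement, for an input of length `n`; the head does not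
move beyond the end markers. -/
def moveHead (n h : ℕ) : Move → ℕ
  | .left => h - 1
  | .stay => h
  | .right => min (h + 1) (n + 1)

namespace Machine

variable (M : Machine)

/-- The initial configuration: the input head on the left end marker, empty work tapes. -/
def init : Cfg M := ⟨M.start, 0, fun _ => ⟨[], M.blank, []⟩, []⟩

/-- The action in a configuration, for the input `x`. -/
def act (x : List Bool) (c : Cfg M) : Action M.k M.Γ M.Q :=
  M.δ c.q (inSym x c.h) (fun i => (c.tp i).c)

/-- The next configuration (a machine that has accepted or rejected does not change any more). -/
def next (A : Oracle) (x : List Bool) (c : Cfg M) : Cfg M :=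
  match M.act x c with
  | .accept => c
  | .reject => c
  | .step q d w m e => ⟨q, moveHead x.length c.h d,
      fun i => ((c.tp i).write (w i)).move M.blank (m i), c.w ++ e.toList⟩
  | .ask q => ⟨q (A c.w), c.h, c.tp, []⟩

/-- The configuration after `n` steps, with the oracle `A` and the input `x`. -/
def conf (A : Oracle) (x : List Bool) (n : ℕ) : Cfg M := (M.next A x)^[n] M.init

/-- The space used by a configuration: the number of visited cells of the work tapes. -/
def space (c : Cfg M) : ℕ := ∑ i, (c.tp i).cells

end Machine

/-- The standard binary representation of a natural number, most significant bit first. -/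
def bin (x : ℕ) : List Bool := if x = 0 then [false] else x.bits.reverse

/-- After `n` steps the machine with the oracle `A` has decided correctly whether `x` belongs to
`L`: it is in an accepting situation if `x ∈ L` and in a rejecting situation otherwise. -/
def Correct (M : Machine) (A : Oracle) (L : Set ℕ) (x n : ℕ) : Prop :=
  (x ∈ L → M.act (bin x) (M.conf A (bin x) n) = Action.accept) ∧
  (x ∉ L → M.act (bin x) (M.conf A (bin x) n) = Action.reject)

/-- The machine decides `L` in time `t`. -/
def DecidesInTime (M : Machine) (A : Oracle) (L : Set ℕ) (t : ℕ → ℕ) : Prop :=
  ∀ x : ℕ, ∃ n ≤ t (bin x).length, Correct M A L x n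

/-- The machine decides `L` in space `s`. -/
def DecidesInSpace (M : Machine) (A : Oracle) (L : Set ℕ) (s : ℕ → ℕ) : Prop :=
  ∀ x : ℕ, (∃ n, Correct M A L x n) ∧ ∀ n, M.space (M.conf A (bin x) n) ≤ s (bin x).length

/-- The tower notation `2_i^y`: `2_0^y = y` and `2_{i+1}^y = 2^(2_i^y)`. -/
def tw : ℕ → ℕ → ℕ
  | 0, y => y
  | i + 1, y => 2 ^ tw i y

/-- The machines allowed: without an oracle (`none`) only the machines that never use the oracle
tape. -/
def Allowed : Option Oracle → Machine → Prop
  | none, M => M.Plain
  | some _, _ => True

/-- The oracle used (irrelevant for machines that never ask). -/
def orc (o : Option Oracle) : Oracle := o.getD fun _ => false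

/-- The class `C_j` of the polynomial space-time hierarchy, without oracle (`o = none`) or relative
to the oracle `A` (`o = some A`): `C_0` is `LOGSPACE`, `C_{2i+1}` is `TIME 2_i^POL` and `C_{2i+2}` is
`SPACE 2_i^POL`. -/
def C (o : Option Oracle) : ℕ → Set (Set ℕ)
  | 0 => {L | ∃ (M : Machine) (c : ℕ), Allowed o M ∧
      DecidesInSpace M (orc o) L fun n => c * Nat.log 2 n + c}
  | j + 1 => if j % 2 = 0 then
      {L | ∃ (M : Machine) (p : Polynomial ℕ), Allowed o M ∧
        DecidesInTime M (orc o) L fun n => tw (j / 2) (p.eval n)}
    else
      {L | ∃ (M : Machine) (p : Polynomial ℕ), Allowed o M ∧
        DecidesInSpace M (orc o) L fun n => tw (j / 2) (p.eval n)}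

end Pool.Agent.J4H22
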