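import Pool.Agent.J4H22.Tally

/-!
# A bi-immune set two levels up
-/

namespace Pool.Agent.J4H22

open Pool.Agent.NPC

/-! ### Enumeration of the codes -/

theorem valB_true_ne (l : List Bool) : valB (l ++ [true]) ≠ 0 := by
  rw [valB_append]
  have : 0 < 2 ^ l.length := by positivity
  simp

theorem bits_valB_true (l : List Bool) : (valB (l ++ [true])).bits = l ++ [true] := by
  induction l with
  | nil => simp
  | cons b l ih =>
    have h1 : valB (b :: (l ++ [true])) = Nat.bit b (valB (l ++ [true])) := by
      rw [valB_cons]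
      cases b <;> simp [Nat.bit] <;> omega
    rw [List.cons_append, h1, Nat.bits_append_bit _ _ (fun h => absurd h (valB_true_ne l)), ih]

/-- the code with number `e` -/
def codeOf (e : ℕ) : Code × List Unit :=
  (unbits (Code × List Unit) e.bits.reverse.tail.reverse).getD (([], []), [])

theorem exists_codeOf (c : Code × List Unit) : ∃ e, codeOf e = c := by
  refine ⟨valB (bits c ++ [true]), ?_⟩
  unfold codeOf
  rw [bits_valB_true, List.reverse_append]
  simp only [List.reverse_singleton, List.singleton_append, List.tail_cons, List.reverse_reverse]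
  rw [unbits_bits]
  rfl

theorem exists_codeOf_ge (d : Code) (K m : ℕ) :
    ∃ e ≥ m, ∃ K' ≥ K, codeOf e = (d, List.replicate K' ()) := by
  choose f hf using fun K' : ℕ => exists_codeOf (d, List.replicate (K + K') ())
  have hinj : Function.Injective f := by
    intro a b h
    have h1 := hf a
    rw [h, hf b] at h1
    have h2 := congrArg (fun z => z.2.length) h1
    simp only [List.length_replicate] at h2
    omega
  have h1 : (Set.range f).Infinite := Set.infinite_range_of_injective hinj
  obtain ⟨_, ⟨K', rfl⟩, h2⟩ := h1.exists_gt m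
  exact ⟨f K', h2.le, K + K', by omega, hf K'⟩

theorem codeOf_len (e : ℕ) : (codeOf e).2.length ≤ e := by
  unfold codeOf
  cases h : unbits (Code × List Unit) e.bits.reverse.tail.reverse with
  | none => simp
  | some c =>
    have h1 := congrArg List.length (bits_of_unbits h)
    rw [bits_length, List.length_reverse, List.length_tail, List.length_reverse,
      Nat.size_eq_bits_len] at h1
    have h2 : sz c = sz c.1 + sz c.2 + 1 := sz_pair c.1 c.2
    have h3 := length_lt_sz c.2
    have h4 : e.size ≤ e := NPC.Poly.size_le_self e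
    simp only [Option.getD_some]
    omega

theorem P.codeOf {α : Type} [TEnc α] {e : α → ℕ} (he : NPC.Poly e) :
    NPC.Poly (fun a => J4H22.codeOf (e a)) := by
  have h1 : NPC.Poly (fun a => unbits (Code × List Unit) (e a).bits.reverse.tail.reverse) :=
    poly_unbits.comp (NPC.Poly.reverse (NPC.Poly.tail (NPC.Poly.reverse (NPC.Poly.natBits he))))
  refine (NPC.Poly.optCases (h := fun _ c => c) h1 (NPC.Poly.const ((([], []), []) :
    Code × List Unit)) (NPC.Poly.snd NPC.Poly.id)).congr fun a => ?_
  unfold J4H22.codeOf
  cases unbits (Code × List Unit) (e a).bits.reverse.tail.reverse <;> rfl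

/-! ### Towers below a cap -/

/-- the tower, with a cap -/
def tcap : ℕ → List Bool → ℕ → ℕ
  | 0, pad, y => min y pad.length
  | a + 1, pad, y => min (2 ^ tcap a pad y) pad.length

theorem tcap_eq (a : ℕ) (pad : List Bool) (y : ℕ) : tcap a pad y = min (tw a y) pad.length := by
  induction a with
  | zero => rfl
  | succ a ih =>
    show min (2 ^ tcap a pad y) pad.length = min (2 ^ tw a y) pad.length
    rw [ih]
    rcases Nat.le_total (tw a y) pad.length with h | h
    · rw [min_eq_left h]
    · rw [min_eq_right h]
      have h1 : pad.length ≤ 2 ^ pad.length := Nat.lt_two_pow_self.le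
      have h2 : 2 ^ pad.length ≤ 2 ^ tw a y := Nat.pow_le_pow_right (by norm_num) h
      rw [min_eq_right h1, min_eq_right (h1.trans h2)]

theorem P.tcap {α : Type} [TEnc α] (a : ℕ) {pad : α → List Bool} {y : α → ℕ}
    (hp : NPC.Poly pad) (hy : NPC.Poly y) : UPoly (fun z => J4H22.tcap a (pad z) (y z)) := by
  induction a with
  | zero =>
    exact UPoly.of_le (NPC.Poly.min hy (NPC.Poly.length hp)) (UPoly.length hp)
      fun z => min_le_right _ _
  | succ a ih =>
    exact UPoly.of_le (NPC.Poly.min (P.pow2 ih) (NPC.Poly.length hp)) (UPoly.length hp)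
      fun z => min_le_right _ _

/-! ### Search -/

/-- the first number from `r` on, among `m` numbers, with the property `Q` -/
def fnd (Q : ℕ → Bool) : ℕ → ℕ → Option ℕ
  | _, 0 => none
  | r, m + 1 => if Q r = true then some r else fnd Q (r + 1) m

theorem fnd_some {Q : ℕ → Bool} : ∀ {m r s : ℕ}, fnd Q r m = some s →
    Q s = true ∧ r ≤ s ∧ s < r + m := by
  intro m
  induction m with
  | zero => intro r s h; simp [fnd] at h
  | succ m ih =>
    intro r s h
    unfold fnd at h
    split_ifs at h with h1
    · simp only [Option.some.injEq] at h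
      subst h
      exact ⟨h1, le_rfl, by omega⟩
    · obtain ⟨h2, h3, h4⟩ := ih h
      exact ⟨h2, by omega, by omega⟩

theorem fnd_of {Q : ℕ → Bool} : ∀ {m r s : ℕ}, Q s = true → r ≤ s → s < r + m →
    ∃ s' ≤ s, fnd Q r m = some s' := by
  intro m
  induction m with
  | zero => intro r s h1 h2 h3; omega
  | succ m ih =>
    intro r s h1 h2 h3
    unfold fnd
    split_ifs with h4
    · exact ⟨r, h2, rfl⟩
    · rcases Nat.lt_or_ge r s with h5 | h5
      · exact ih h1 h5 (by omega)
      · obtain rfl : s = r := by omega
        exact absurd h1 h4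

section

variable (A : Oracle) (ty : Bool) (a : ℕ)

/-- does the machine number `e` accept `n` ones, with the resource bound `tw a n`? -/
def jr (e n : ℕ) : Bool := jres A (tjob ty (codeOf e).1 (codeOf e).2.length n (tw a n))

/-- the property of the requirement `r` that we look for at stage `n` -/
def qq (l : List ℕ) (n r : ℕ) : Bool := decide (r ∉ l) && jr A ty a (r / 2) n

/-- the requirements that have been satisfied before stage `k + 1` -/
def sig : ℕ → List ℕ
  | 0 => []
  | k + 1 => match fnd (qq A ty a (sig k) (k + 1)) 0 (k + 2) with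
    | none => sig k
    | some r => r :: sig k

/-- the diagonal set, as a set of lengths -/
def dg (n : ℕ) : Bool :=
  match fnd (qq A ty a (sig A ty a (n - 1)) n) 0 (n + 1) with
  | none => false
  | some r => decide (r % 2 = 0)

theorem sig_mono (k : ℕ) : sig A ty a k ⊆ sig A ty a (k + 1) := by
  conv_rhs => unfold sig
  cases fnd (qq A ty a (sig A ty a k) (k + 1)) 0 (k + 2) with
  | none => exact fun _ h => h
  | some r => exact fun _ h => List.mem_cons_of_mem _ h

theorem sig_nodup (k : ℕ) : (sig A ty a k).Nodup := by
  induction k with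
  | zero => exact List.nodup_nil
  | succ k ih =>
    unfold sig
    cases h : fnd (qq A ty a (sig A ty a k) (k + 1)) 0 (k + 2) with
    | none => exact ih
    | some r =>
      refine List.nodup_cons.2 ⟨?_, ih⟩
      have h1 := (fnd_some h).1
      unfold qq at h1
      rw [Bool.and_eq_true, decide_eq_true_eq] at h1
      exact h1.1

theorem sig_le (k : ℕ) : (sig A ty a k).length ≤ k ∧ ∀ r ∈ sig A ty a k, r ≤ k := by
  induction k with
  | zero => exact ⟨le_rfl, by simp [sig]⟩
  | succ k ih =>
    unfold sig
    cases h : fnd (qq A ty a (sig A ty a k) (k + 1)) 0 (k + 2) with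
    | none => exact ⟨ih.1.trans (Nat.le_succ _), fun r hr => (ih.2 r hr).trans (Nat.le_succ _)⟩
    | some r =>
      refine ⟨by simp only [List.length_cons]; omega, fun s hs => ?_⟩
      rcases List.mem_cons.1 hs with rfl | hs
      · have := (fnd_some h).2.2
        omega
      · exact (ih.2 s hs).trans (Nat.le_succ _)

/-- a requirement is in the list only if it was chosen at some stage -/
theorem sig_mem {k r : ℕ} (h : r ∈ sig A ty a k) :
    ∃ m < k, fnd (qq A ty a (sig A ty a m) (m + 1)) 0 (m + 2) = some r := by
  induction k with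
  | zero => simp [sig] at h
  | succ k ih =>
    unfold sig at h
    cases h1 : fnd (qq A ty a (sig A ty a k) (k + 1)) 0 (k + 2) with
    | none =>
      rw [h1] at h
      obtain ⟨m, hm, h2⟩ := ih h
      exact ⟨m, by omega, h2⟩
    | some s =>
      rw [h1] at h
      rcases List.mem_cons.1 h with rfl | h
      · exact ⟨k, by omega, h1⟩
      · obtain ⟨m, hm, h2⟩ := ih h
        exact ⟨m, by omega, h2⟩

/-- Every requirement whose machine accepts infinitely often is satisfied. -/
theorem satisfied {r : ℕ} (h : ∀ m, ∃ n ≥ m, jr A ty a (r / 2) n = true) :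
    ∃ k, fnd (qq A ty a (sig A ty a k) (k + 1)) 0 (k + 2) = some r := by
  by_contra hcon
  push Not at hcon
  have hr : ∀ k, r ∉ sig A ty a k := fun k hk => by
    obtain ⟨m, _, hm⟩ := sig_mem A ty a hk
    exact hcon m hm
  have key : ∀ m : ℕ, ∃ k, m ≤ ((sig A ty a k).filter fun s => decide (s < r)).length := by
    intro m
    induction m with
    | zero => exact ⟨0, Nat.zero_le _⟩
    | succ m ih =>
      obtain ⟨k, hk⟩ := ih
      obtain ⟨n, hn, h1⟩ := h (max (k + 1) (r + 1))
      obtain ⟨k', rfl⟩ : ∃ k', n = k' + 1 := ⟨n - 1, by omega⟩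
      -- the list grows
      have hmono : ∀ j, m ≤ ((sig A ty a (k + j)).filter fun s => decide (s < r)).length := by
        intro j
        induction j with
        | zero => exact hk
        | succ j ihj =>
          refine ihj.trans ?_
          rw [← Nat.add_assoc]
          have h5 : sig A ty a (k + j + 1) = match fnd (qq A ty a (sig A ty a (k + j))
            (k + j + 1)) 0 (k + j + 2) with
              | none => sig A ty a (k + j)
              | some r => r :: sig A ty a (k + j) := rfl
          rw [h5]
          cases fnd (qq A ty a (sig A ty a (k + j)) (k + j + 1)) 0 (k + j + 2) with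
          | none => exact le_rfl
          | some s =>
            simp only [List.filter_cons]
            split_ifs
            · simp
            · exact le_rfl
      have h2 := hmono (k' - k)
      rw [show k + (k' - k) = k' by omega] at h2
      have h3 : qq A ty a (sig A ty a k') (k' + 1) r = true := by
        unfold qq
        rw [h1]
        simpa using hr k'
      obtain ⟨s, hs, h4⟩ := fnd_of (m := k' + 2) (r := 0) h3 (Nat.zero_le _) (by omega)
      have hsr : s < r := by
        rcases Nat.lt_or_ge s r with h5 | h5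
        · exact h5
        · obtain rfl : s = r := by omega
          exact absurd h4 (hcon k')
      refine ⟨k' + 1, ?_⟩
      have h5 : sig A ty a (k' + 1) = match fnd (qq A ty a (sig A ty a k') (k' + 1)) 0 (k' + 2) with
          | none => sig A ty a k'
          | some r => r :: sig A ty a k' := rfl
      rw [h5, h4]
      simp only [List.filter_cons, hsr, decide_true, if_true, List.length_cons]
      omega
  obtain ⟨k, hk⟩ := key (r + 1)
  have h1 : ((sig A ty a k).filter fun s => decide (s < r)).Nodup :=
    (sig_nodup A ty a k).filter _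
  have h2 : ((sig A ty a k).filter fun s => decide (s < r)) ⊆ List.range r := by
    intro s hs
    rw [List.mem_filter, decide_eq_true_eq] at hs
    exact List.mem_range.2 hs.2
  have h3 := (h1.subperm h2).length_le
  rw [List.length_range] at h3
  omega

/-- the consequence for the diagonal set -/
theorem dg_spec (e : ℕ) (h : ∀ m, ∃ n ≥ m, jr A ty a e n = true) (v : Bool) :
    ∃ n, e ≤ n ∧ 1 ≤ n ∧ jr A ty a e n = true ∧ dg A ty a n = v := by
  have hr : ∃ r, r / 2 = e ∧ e ≤ r ∧ decide (r % 2 = 0) = v := by
    cases v
    · exact ⟨2 * e + 1, by omega, by omega, by simp⟩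
    · exact ⟨2 * e, by omega, by omega, by simp⟩
  obtain ⟨r, hr1, hr2, hr3⟩ := hr
  obtain ⟨k, hk⟩ := satisfied A ty a (r := r) (by rw [hr1]; exact h)
  obtain ⟨h1, _, h2⟩ := fnd_some hk
  refine ⟨k + 1, by omega, by omega, ?_, ?_⟩
  · unfold qq at h1
    rw [Bool.and_eq_true, hr1] at h1
    exact h1.2
  · unfold dg
    rw [Nat.add_sub_cancel, hk]
    exact hr3

/-- the diagonal set -/
def DgSet : Set ℕ := {x | x ∈ Tal ∧ dg A ty a (bin x).length = true}

/-- No infinite set decided with the resource bound `tw a n` is a subset of the diagonal set or of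
its complement. -/
theorem dgSet_immune {S : Set ℕ} {R : ℕ → ℕ} (hS : Sim A ty S R) (hST : S ⊆ Tal)
    (hR : ∃ n1, ∀ n ≥ n1, R n ≤ tw a n)
    (h : S ⊆ DgSet A ty a ∨ S ⊆ Tal \ DgSet A ty a) : S.Finite := by
  by_contra hinf
  obtain ⟨d, K, hd⟩ := hS
  obtain ⟨n1, hn1⟩ := hR
  obtain ⟨e, he, K', hK', hc⟩ := exists_codeOf_ge d K (n1 + 1)
  have key : ∀ n ≥ n1, 1 ≤ n → (jr A ty a e n = true ↔ one n ∈ S) := by
    intro n hn hn'
    unfold jr
    rw [hc]
    simp only [List.length_replicate]
    exact tjob_res (hd K' hK') hn' (hn1 n hn)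
  have hinf' : ∀ m, ∃ n ≥ m, jr A ty a e n = true := by
    intro m
    obtain ⟨x, hx, hxm⟩ := Set.Infinite.exists_gt hinf (2 ^ (m + n1 + 1))
    have h1 := one_length (hST hx)
    refine ⟨(bin x).length, ?_, ?_⟩
    · by_contra hcon
      have h2 : x ≤ 2 ^ (m + n1 + 1) := by
        rw [h1]
        unfold one
        exact (Nat.sub_le _ _).trans (Nat.pow_le_pow_right (by norm_num) (by omega))
      omega
    · refine (key _ ?_ (bin_length_pos x)).2 (by rw [← h1]; exact hx)
      by_contra hcon
      have h2 : x ≤ 2 ^ (m + n1 + 1) := by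
        rw [h1]
        unfold one
        exact (Nat.sub_le _ _).trans (Nat.pow_le_pow_right (by norm_num) (by omega))
      omega
  rcases h with h | h
  · obtain ⟨n, h1, h2, h3, h4⟩ := dg_spec A ty a e hinf' false
    have h5 := h ((key n (by omega) h2).1 h3)
    rw [DgSet, Set.mem_ofPred_eq, bin_one_length h2, h4] at h5
    exact absurd h5.2 (by simp)
  · obtain ⟨n, h1, h2, h3, h4⟩ := dg_spec A ty a e hinf' true
    have h5 := h ((key n (by omega) h2).1 h3)
    refine h5.2 ⟨one_Tal h2, ?_⟩
    rw [bin_one_length h2, h4]

/-- The machine that accepts everything. -/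
def accD : Code := ([], [((0, 0, []), .inl (.inl true))])

theorem accD_res (s t : ℕ) (v : VI) : jres A (accD, v, s, t) = true := by
  have h1 : stopB (accD, v, s, t) false (einit accD) = some true := by
    unfold stopB
    rw [if_neg (by simp [einit, accD, ecells])]
    rfl
  unfold jres
  simp only
  cases t with
  | zero =>
    unfold run
    rw [h1]
    rfl
  | succ t =>
    unfold run
    rw [h1]

theorem dgSet_infinite : (DgSet A ty a).Infinite ∧ (Tal \ DgSet A ty a).Infinite := by
  have key : ∀ (v : Bool) (m : ℕ), ∃ n ≥ m, 1 ≤ n ∧ dg A ty a n = v := by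
    intro v m
    obtain ⟨e, he, K', _, hc⟩ := exists_codeOf_ge accD 0 m
    obtain ⟨n, h1, h2, _, h3⟩ := dg_spec A ty a e (fun m => ⟨m, le_rfl, by
      unfold jr
      rw [hc]
      exact accD_res A _ _ _⟩) v
    exact ⟨n, by omega, h2, h3⟩
  have key2 : ∀ (S : Set ℕ), (∀ m, ∃ n ≥ m, one n ∈ S) → S.Infinite := by
    intro S hS hfin
    obtain ⟨b, hb⟩ := hfin.bddAbove
    obtain ⟨n, hn, h1⟩ := hS (b + 2)
    have h2 := hb h1
    have h3 : n < 2 ^ n := Nat.lt_two_pow_self
    unfold one at h2
    omega
  constructor
  · refine key2 _ fun m => ?_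
    obtain ⟨n, h1, h2, h3⟩ := key true m
    exact ⟨n, h1, one_Tal h2, by rw [bin_one_length h2]; exact h3⟩
  · refine key2 _ fun m => ?_
    obtain ⟨n, h1, h2, h3⟩ := key false m
    refine ⟨n, h1, one_Tal h2, fun h4 => ?_⟩
    have h5 := h4.2
    rw [bin_one_length h2, h3] at h5
    exact absurd h5 (by simp)

end

end Pool.Agent.J4H22
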