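import Pool.Agent.J4H22.Diag

/-!
# The diagonal set belongs to the class two levels up
-/

namespace Pool.Agent.J4H22

open Pool.Agent.NPC

/-- states of the driver: pad, last stage, current stage, current requirement, satisfied
requirements -/
abbrev DG : Type := List Bool × ℕ × ℕ × ℕ × List ℕ

/-- the job -/
def dgJ (ty : Bool) (a : ℕ) (z : DG) : Job :=
  tjob ty (codeOf (z.2.2.2.1 / 2)).1 (codeOf (z.2.2.2.1 / 2)).2.length z.2.2.1
    (tcap a z.1 z.2.2.1)

/-- the end of a stage, no requirement found -/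
def dgNo (z : DG) : DG ⊕ Bool :=
  cond (decide (z.2.1 ≤ z.2.2.1)) (.inr false) (.inl (z.1, z.2.1, z.2.2.1 + 1, 0, z.2.2.2.2))

/-- the end of a stage, the current requirement is found -/
def dgYes (z : DG) : DG ⊕ Bool :=
  cond (decide (z.2.1 ≤ z.2.2.1)) (.inr (decide (z.2.2.2.1 % 2 = 0)))
    (.inl (z.1, z.2.1, z.2.2.1 + 1, 0, z.2.2.2.1 :: z.2.2.2.2))

/-- the next state of a running driver -/
def dgN (z : DG) (res : Bool) : DG ⊕ Bool :=
  cond (decide (z.2.2.2.1 ≤ z.2.2.1))
    (cond (!(decide (z.2.2.2.1 ∈ z.2.2.2.2)) && res) (dgYes z)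
      (.inl (z.1, z.2.1, z.2.2.1, z.2.2.2.1 + 1, z.2.2.2.2))) (dgNo z)

/-- the job of a state -/
def dgJob (ty : Bool) (a : ℕ) (z : DG ⊕ Bool) : Job ⊕ Bool :=
  match z with
  | .inl z => .inl (dgJ ty a z)
  | .inr b => .inr b

/-- the next state -/
def dgUpd (z : DG ⊕ Bool) (r : Bool) : DG ⊕ Bool :=
  match z with
  | .inl z => dgN z r
  | .inr b => .inr b

/-- the driver -/
def dgD (ty : Bool) (a : ℕ) : Driver (DG ⊕ Bool) where
  job := dgJob ty a
  upd z := dgUpd z.1 z.2

section

variable {α : Type} [TEnc α]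

theorem P.dgJ (ty : Bool) (a : ℕ) {z : α → DG} (hz : NPC.Poly z) :
    NPC.Poly (fun x => J4H22.dgJ ty a (z x)) := by
  unfold J4H22.dgJ
  have h1 := NPC.Poly.fst hz
  have h3 := NPC.Poly.fst (NPC.Poly.snd (NPC.Poly.snd hz))
  have h4 := NPC.Poly.fst (NPC.Poly.snd (NPC.Poly.snd (NPC.Poly.snd hz)))
  have h5 := P.codeOf (NPC.Poly.div h4 (NPC.Poly.const 2))
  exact P.tjob ty (NPC.Poly.fst h5) (UPoly.length (NPC.Poly.snd h5)) h3 (P.tcap a h1 h3)

theorem P.dgNo {z : α → DG} (hz : NPC.Poly z) : NPC.Poly (fun x => J4H22.dgNo (z x)) := by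
  unfold J4H22.dgNo
  have h1 := NPC.Poly.fst hz
  have h2 := NPC.Poly.fst (NPC.Poly.snd hz)
  have h3 := NPC.Poly.fst (NPC.Poly.snd (NPC.Poly.snd hz))
  have h5 := NPC.Poly.snd (NPC.Poly.snd (NPC.Poly.snd (NPC.Poly.snd hz)))
  exact NPC.Poly.cond (NPC.Poly.decide_le h2 h3) (NPC.Poly.const _)
    (NPC.Poly.inl (NPC.Poly.pair h1 (NPC.Poly.pair h2 (NPC.Poly.pair (NPC.Poly.succ h3)
      (NPC.Poly.pair (NPC.Poly.const 0) h5)))))

theorem P.dgYes {z : α → DG} (hz : NPC.Poly z) : NPC.Poly (fun x => J4H22.dgYes (z x)) := by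
  unfold J4H22.dgYes
  have h1 := NPC.Poly.fst hz
  have h2 := NPC.Poly.fst (NPC.Poly.snd hz)
  have h3 := NPC.Poly.fst (NPC.Poly.snd (NPC.Poly.snd hz))
  have h4 := NPC.Poly.fst (NPC.Poly.snd (NPC.Poly.snd (NPC.Poly.snd hz)))
  have h5 := NPC.Poly.snd (NPC.Poly.snd (NPC.Poly.snd (NPC.Poly.snd hz)))
  exact NPC.Poly.cond (NPC.Poly.decide_le h2 h3)
    (NPC.Poly.inr (NPC.Poly.decide_eq (NPC.Poly.mod h4 (NPC.Poly.const 2)) (NPC.Poly.const 0)))
    (NPC.Poly.inl (NPC.Poly.pair h1 (NPC.Poly.pair h2 (NPC.Poly.pair (NPC.Poly.succ h3)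
      (NPC.Poly.pair (NPC.Poly.const 0) (NPC.Poly.cons h4 h5))))))

theorem P.dgN {z : α → DG} {r : α → Bool} (hz : NPC.Poly z) (hr : NPC.Poly r) :
    NPC.Poly (fun x => J4H22.dgN (z x) (r x)) := by
  unfold J4H22.dgN
  have h1 := NPC.Poly.fst hz
  have h2 := NPC.Poly.fst (NPC.Poly.snd hz)
  have h3 := NPC.Poly.fst (NPC.Poly.snd (NPC.Poly.snd hz))
  have h4 := NPC.Poly.fst (NPC.Poly.snd (NPC.Poly.snd (NPC.Poly.snd hz)))
  have h5 := NPC.Poly.snd (NPC.Poly.snd (NPC.Poly.snd (NPC.Poly.snd hz)))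
  exact NPC.Poly.cond (NPC.Poly.decide_le h4 h3)
    (NPC.Poly.cond (NPC.Poly.and (NPC.Poly.not (NPC.Poly.decide_mem h4 h5)) hr) (P.dgYes hz)
      (NPC.Poly.inl (NPC.Poly.pair h1 (NPC.Poly.pair h2 (NPC.Poly.pair h3
        (NPC.Poly.pair (NPC.Poly.succ h4) h5)))))) (P.dgNo hz)

end

theorem dgD_poly (ty : Bool) (a : ℕ) : (dgD ty a).IsPoly := by
  constructor
  · refine (NPC.Poly.sumCases (o := fun z : DG ⊕ Bool => z)
      (g := fun _ z => (.inl (J4H22.dgJ ty a z) : Job ⊕ Bool))
      (h := fun _ b => (.inr b : Job ⊕ Bool)) NPC.Poly.id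
      (NPC.Poly.inl (P.dgJ ty a (NPC.Poly.snd NPC.Poly.id)))
      (NPC.Poly.inr (NPC.Poly.snd NPC.Poly.id))).congr fun z => ?_
    cases z <;> rfl
  · refine (NPC.Poly.sumCases (o := fun z : (DG ⊕ Bool) × Bool => z.1)
      (g := fun z w => J4H22.dgN w z.2) (h := fun _ b => (.inr b : DG ⊕ Bool))
      (NPC.Poly.fst NPC.Poly.id) (P.dgN (NPC.Poly.snd NPC.Poly.id)
        (NPC.Poly.snd (NPC.Poly.fst NPC.Poly.id)))
      (NPC.Poly.inr (NPC.Poly.snd NPC.Poly.id))).congr fun z => ?_
    rcases z with ⟨_ | _, _⟩ <;> rfl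

/-- size of the states -/
theorem dg_size {pad : List Bool} {n0 n r : ℕ} {l : List ℕ} (hn : n ≤ n0 + 1) (hr : r ≤ n0 + 2)
    (hl : l.length ≤ n0 + 1) (hl' : ∀ s ∈ l, s ≤ n0 + 2) :
    sz (.inl (pad, n0, n, r, l) : DG ⊕ Bool) ≤
      4 * pad.length + 20 * (n0 + 3) + (n0 + 1) * (4 * (n0 + 3) + 2) + 20 := by
  have key : ∀ m ≤ n0 + 2, sz m ≤ 4 * (n0 + 2) + 1 := by
    intro m hm
    have h1 := sz_nat_le m
    have h2 := NPC.Poly.size_le_self m
    omega
  have h1 := sz_le_length_mul l (4 * (n0 + 2) + 1) fun s hs => key s (hl' s hs)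
  have h2 := key n0 (by omega)
  have h3 := key n (by omega)
  have h4 := key r (by omega)
  have h5 := sz_listBool_le pad
  have h6 : l.length * (4 * (n0 + 2) + 1 + 1) ≤ (n0 + 1) * (4 * (n0 + 3) + 2) :=
    Nat.mul_le_mul hl (by omega)
  rw [sz_inl]
  simp only [sz_pair]
  omega

section

variable {A : Oracle} {ty : Bool} {a : ℕ}

/-- the result of a stage -/
def dgOut (pad : List Bool) (n0 n : ℕ) (l : List ℕ) (o : Option ℕ) : DG ⊕ Bool :=
  match o with
  | none => dgNo (pad, n0, n, 0, l)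
  | some r => dgYes (pad, n0, n, r, l)

theorem dg_stage {pad : List Bool} {n0 n : ℕ} {l : List ℕ} {B S T : ℕ} (hn : n ≤ n0)
    (hpad : pad.length = tw a n0)
    (hB : 4 * pad.length + 20 * (n0 + 3) + (n0 + 1) * (4 * (n0 + 3) + 2) + 20 ≤ B)
    (hS : (n0 + 3) * (pad.length + 1) ≤ S)
    (hT : ∀ K ≤ n0 + 2, (params ty K (tw a n)).2 ≤ T)
    (hl : l.length + 1 ≤ n) (hl' : ∀ s ∈ l, s ≤ n) : ∀ (m r : ℕ), r + m = n + 1 →
      ∃ k ≤ m + 1, (dgD ty a).Reach A B S T k (.inl (pad, n0, n, r, l))
        (dgOut pad n0 n l (fnd (qq A ty a l n) r m)) := by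
  have htw : tw a n ≤ pad.length := by
    rw [hpad]
    exact tw_mono a hn
  have hcap : tcap a pad n = tw a n := by
    rw [tcap_eq, min_eq_left htw]
  have hszb : ∀ b : Bool, sz (.inr b : DG ⊕ Bool) ≤ B := by
    intro b
    rw [sz_inr]
    have := sz_bool_le b
    omega
  have hjob : ∀ r, dgJ ty a (pad, n0, n, r, l) =
      tjob ty (codeOf (r / 2)).1 (codeOf (r / 2)).2.length n (tw a n) := by
    intro r
    unfold dgJ
    simp only
    rw [hcap]
  have hres : ∀ r, jres A (dgJ ty a (pad, n0, n, r, l)) = jr A ty a (r / 2) n := by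
    intro r
    rw [hjob]
    rfl
  have hone : ∀ r, r ≤ n + 1 → sz (dgN (pad, n0, n, r, l) (jr A ty a (r / 2) n)) ≤ B →
      (dgD ty a).Reach A B S T 1 (.inl (pad, n0, n, r, l))
        (dgN (pad, n0, n, r, l) (jr A ty a (r / 2) n)) := by
    intro r hr hsz
    have hK := codeOf_len (r / 2)
    have h3 := Driver.Reach.one (D := dgD ty a) (A := A) (B := B) (S := S) (T := T)
      (x := .inl (pad, n0, n, r, l)) (J := dgJ ty a (pad, n0, n, r, l)) rfl (by
        rw [hjob]
        refine (params_s_le _ _ _).trans (le_trans ?_ hS)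
        exact Nat.mul_le_mul (by omega) (by omega)) (by
        rw [hjob]
        exact hT _ (by omega))
      ((dg_size (by omega) (by omega) (by omega) fun s hs => (hl' s hs).trans (by omega)).trans hB)
    have e : (dgD ty a).upd (.inl (pad, n0, n, r, l), jres A (dgJ ty a (pad, n0, n, r, l))) =
        dgN (pad, n0, n, r, l) (jr A ty a (r / 2) n) := by
      rw [hres]
      rfl
    rw [e] at h3
    exact h3 hsz
  have hnoSz : ∀ r, sz (dgNo (pad, n0, n, r, l)) ≤ B := by
    intro r
    unfold dgNo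
    simp only
    cases decide (n0 ≤ n) with
    | true => exact hszb _
    | false =>
      exact (dg_size (by omega) (by omega) (by omega) fun s hs =>
        (hl' s hs).trans (by omega)).trans hB
  have hyesSz : ∀ r, r ≤ n + 1 → sz (dgYes (pad, n0, n, r, l)) ≤ B := by
    intro r hr
    unfold dgYes
    simp only
    cases decide (n0 ≤ n) with
    | true => exact hszb _
    | false =>
      refine (dg_size (by omega) (by omega) (by simp only [List.length_cons]; omega)
        fun s hs => ?_).trans hB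
      rcases List.mem_cons.1 hs with rfl | hs
      · omega
      · exact (hl' s hs).trans (by omega)
  intro m
  induction m with
  | zero =>
    intro r hr
    have e1 : dgN (pad, n0, n, r, l) (jr A ty a (r / 2) n) = dgNo (pad, n0, n, 0, l) := by
      unfold dgN
      simp only
      rw [show decide (r ≤ n) = false by simpa using (show n < r by omega)]
      rfl
    refine ⟨1, by omega, ?_⟩
    show (dgD ty a).Reach A B S T 1 _ (dgNo (pad, n0, n, 0, l))
    rw [← e1]
    refine hone r (by omega) ?_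
    rw [e1]
    exact hnoSz 0
  | succ m ih =>
    intro r hr
    have hle : decide (r ≤ n) = true := by simpa using (show r ≤ n by omega)
    unfold fnd
    by_cases hq : qq A ty a l n r = true
    · rw [if_pos hq]
      have e1 : dgN (pad, n0, n, r, l) (jr A ty a (r / 2) n) = dgYes (pad, n0, n, r, l) := by
        unfold dgN
        simp only
        rw [hle, cond_true]
        unfold qq at hq
        rw [decide_not] at hq
        rw [hq]
        rfl
      refine ⟨1, by omega, ?_⟩
      show (dgD ty a).Reach A B S T 1 _ (dgYes (pad, n0, n, r, l))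
      rw [← e1]
      refine hone r (by omega) ?_
      rw [e1]
      exact hyesSz r (by omega)
    · rw [if_neg hq]
      have e1 : dgN (pad, n0, n, r, l) (jr A ty a (r / 2) n) =
          .inl (pad, n0, n, r + 1, l) := by
        unfold dgN
        simp only
        rw [hle, cond_true]
        unfold qq at hq
        rw [decide_not] at hq
        rw [Bool.eq_false_iff.2 hq]
        rfl
      obtain ⟨k, hk, h1⟩ := ih (r + 1) (by omega)
      refine ⟨1 + k, by omega, Driver.Reach.trans ?_ h1⟩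
      rw [← e1]
      refine hone r (by omega) ?_
      rw [e1]
      exact (dg_size (by omega) (by omega) (by omega) fun s hs =>
        (hl' s hs).trans (by omega)).trans hB

theorem dg_all {pad : List Bool} {n0 : ℕ} {B S T : ℕ}
    (hpad : pad.length = tw a n0)
    (hB : 4 * pad.length + 20 * (n0 + 3) + (n0 + 1) * (4 * (n0 + 3) + 2) + 20 ≤ B)
    (hS : (n0 + 3) * (pad.length + 1) ≤ S)
    (hT : ∀ K ≤ n0 + 2, ∀ n ≤ n0, (params ty K (tw a n)).2 ≤ T) : ∀ (m k : ℕ),
      k + 1 + m = n0 →
      ∃ t ≤ (m + 1) * (n0 + 2), (dgD ty a).Reach A B S T t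
        (.inl (pad, n0, k + 1, 0, sig A ty a k)) (.inr (dg A ty a n0)) := by
  intro m
  induction m with
  | zero =>
    intro k hk
    obtain rfl : n0 = k + 1 := by omega
    obtain ⟨h1, h2⟩ := sig_le A ty a k
    obtain ⟨t, ht, h3⟩ := dg_stage (A := A) (ty := ty) (a := a) (n := k + 1) le_rfl hpad hB hS
      (fun K hK => hT K hK _ le_rfl) (l := sig A ty a k) (by omega)
      (fun s hs => (h2 s hs).trans (by omega)) (k + 2) 0 (by omega)
    refine ⟨t, by omega, ?_⟩
    have e : dgOut pad (k + 1) (k + 1) (sig A ty a k)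
        (fnd (qq A ty a (sig A ty a k) (k + 1)) 0 (k + 2)) = .inr (dg A ty a (k + 1)) := by
      unfold dg
      rw [Nat.add_sub_cancel]
      cases fnd (qq A ty a (sig A ty a k) (k + 1)) 0 (k + 1 + 1) with
      | none =>
        show dgNo _ = _
        unfold dgNo
        simp
      | some r =>
        show dgYes _ = _
        unfold dgYes
        simp
    rw [e] at h3
    exact h3
  | succ m ih =>
    intro k hk
    obtain ⟨h1, h2⟩ := sig_le A ty a k
    obtain ⟨t, ht, h3⟩ := dg_stage (A := A) (ty := ty) (a := a) (n := k + 1) (by omega) hpad hB hS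
      (fun K hK => hT K hK _ (by omega)) (l := sig A ty a k) (by omega)
      (fun s hs => (h2 s hs).trans (by omega)) (k + 2) 0 (by omega)
    obtain ⟨t', ht', h4⟩ := ih (k + 1) (by omega)
    have e : dgOut pad n0 (k + 1) (sig A ty a k)
        (fnd (qq A ty a (sig A ty a k) (k + 1)) 0 (k + 2)) =
        .inl (pad, n0, k + 1 + 1, 0, sig A ty a (k + 1)) := by
      have hlt : decide (n0 ≤ k + 1) = false := by simpa using (show k + 1 < n0 by omega)
      conv_rhs => unfold sig
      cases fnd (qq A ty a (sig A ty a k) (k + 1)) 0 (k + 2) with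
      | none =>
        show dgNo _ = _
        unfold dgNo
        simp only
        rw [hlt]
        rfl
      | some r =>
        show dgYes _ = _
        unfold dgYes
        simp only
        rw [hlt]
        rfl
    rw [e] at h3
    refine ⟨t + t', ?_, h3.trans h4⟩
    have : (m + 1 + 1) * (n0 + 2) = (m + 1) * (n0 + 2) + (n0 + 2) := by ring
    omega

end

/-- The diagonal set belongs to the class. -/
theorem dgSet_mem (A : Oracle) (ty : Bool) (a : ℕ) : DgSet A ty a ∈ C (some A) (cl ty a) := by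
  let ini : List Bool × List Bool → DG ⊕ Bool := fun z =>
    cond (z.1.all fun b => b) (.inl (z.2, z.1.length, 1, 0, [])) (.inr false)
  have hini : NPC.Poly ini :=
    NPC.Poly.cond isTal_poly (NPC.Poly.inl (NPC.Poly.pair (NPC.Poly.snd NPC.Poly.id)
      (NPC.Poly.pair (NPC.Poly.length (NPC.Poly.fst NPC.Poly.id)) (NPC.Poly.pair
        (NPC.Poly.const 1) (NPC.Poly.pair (NPC.Poly.const 0) (NPC.Poly.const []))))))
      (NPC.Poly.const _)
  refine mem_cl ty (dgD_poly ty a) hini a Polynomial.X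
    (100 * (Polynomial.X + 3) * (Polynomial.X + 3)) fun x W hW => ?_
  rw [Polynomial.eval_X] at hW ⊢
  set n0 := (bin x).length with hn0
  have hx1 : 1 ≤ n0 := bin_length_pos x
  have e0 : (100 * (Polynomial.X + 3) * (Polynomial.X + 3) : Polynomial ℕ).eval W =
      100 * (W + 3) * (W + 3) := by simp
  rw [e0]
  have hm : tw a n0 ≤ W := by omega
  have hn : n0 ≤ W := by omega
  by_cases hx : x ∈ Tal
  · have e1 : ini (bin x, List.replicate (tw a n0) true) =
        .inl (List.replicate (tw a n0) true, n0, 1, 0, []) := by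
      simp only [ini, mem_Tal.1 hx, cond_true]
      rfl
    -- a bound for the steps
    let T0 := 2 ^ ((n0 + 2) * (2 * tw a n0 + 1)) + tw a n0
    have hT0 : ∀ K ≤ n0 + 2, ∀ n ≤ n0, (params ty K (tw a n)).2 ≤ cond ty (tw a n0) T0 := by
      intro K hK n hn
      have h1 := tw_mono a hn
      cases ty with
      | true => exact h1
      | false =>
        show 2 ^ (K * (2 * tw a n + 1)) ≤ _
        refine le_trans ?_ (Nat.le_add_right _ _)
        exact Nat.pow_le_pow_right (by norm_num) (Nat.mul_le_mul hK (by omega))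
    obtain ⟨t, ht, h1⟩ := dg_all (A := A) (ty := ty) (a := a)
      (pad := List.replicate (tw a n0) true) (n0 := n0)
      (B := 100 * (W + 3) * (W + 3)) (S := 100 * (W + 3) * (W + 3)) (T := cond ty (tw a n0) T0)
      (by rw [List.length_replicate]) (by
        rw [List.length_replicate]
        have h5 : (n0 + 1) * (4 * (n0 + 3) + 2) ≤ (W + 3) * (6 * (W + 3)) :=
          Nat.mul_le_mul (by omega) (by omega)
        have h6 : (W + 3) * (6 * (W + 3)) = 6 * ((W + 3) * (W + 3)) := by ring
        have h7 : 100 * (W + 3) * (W + 3) = 100 * ((W + 3) * (W + 3)) := by ring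
        have h8 : (W + 3) * 3 ≤ (W + 3) * (W + 3) := Nat.mul_le_mul_left _ (by omega)
        omega) (by
        rw [List.length_replicate]
        have h5 : (n0 + 3) * (tw a n0 + 1) ≤ (W + 3) * (W + 3) :=
          Nat.mul_le_mul (by omega) (by omega)
        have h7 : 100 * (W + 3) * (W + 3) = 100 * ((W + 3) * (W + 3)) := by ring
        omega) hT0 (n0 - 1) 0 (by omega)
    refine ⟨t, cond ty (tw a n0) T0, .inr (dg A ty a n0), dg A ty a n0, rfl, ?_, ?_, ?_⟩
    · exact ⟨fun h => ⟨hx, h⟩, fun h => h.2⟩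
    · rw [e1]
      exact h1
    · rintro rfl
      constructor
      · rw [show n0 - 1 + 1 = n0 by omega] at ht
        have h5 : n0 * (n0 + 2) ≤ (W + 3) * (W + 3) := Nat.mul_le_mul (by omega) (by omega)
        have h7 : 100 * (W + 3) * (W + 3) = 100 * ((W + 3) * (W + 3)) := by ring
        omega
      · simp only [cond_true]
        have h7 : 100 * (W + 3) * (W + 3) = 100 * ((W + 3) * (W + 3)) := by ring
        have h8 : (W + 3) * 3 ≤ (W + 3) * (W + 3) := Nat.mul_le_mul_left _ (by omega)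
        omega
  · refine ⟨0, 0, .inr false, false, rfl, ?_, ?_, fun _ => ⟨by omega, by omega⟩⟩
    · simp only [Bool.false_eq_true, false_iff]
      exact fun h1 => hx h1.1
    · have h1 : ((bin x).all fun b => b) = false := by
        by_contra hcon
        exact hx (mem_Tal.2 (by simpa using hcon))
      have e1 : ini (bin x, List.replicate (tw a n0) true) = .inr false := by
        simp only [ini, h1, cond_false]
      rw [e1]
      refine Driver.Reach.refl ?_
      rw [sz_inr, sz_false]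
      have h7 : 100 * (W + 3) * (W + 3) = 100 * ((W + 3) * (W + 3)) := by ring
      have h8 : (W + 3) * 3 ≤ (W + 3) * (W + 3) := Nat.mul_le_mul_left _ (by omega)
      omega

end Pool.Agent.J4H22
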