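import Pool.Agent.J4H22.CPoly

/-!
# Drivers: programs that run coded machines with cut-offs
-/

namespace Pool.Agent.J4H22

open Pool.Agent.NPC

/-- A job: a coded machine, a virtual input, a bound for the number of cells and a bound for the
number of steps. -/
abbrev Job : Type := Code × VI × ℕ × ℕ

/-- the verdict given by an action -/
def vd (x : EA) : Option Bool :=
  match x with
  | .inl (.inl b) => some b
  | .inl (.inr _) => none
  | .inr _ => none

/-- whether to stop, and with which result: too many cells, the machine has halted, or too many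
steps -/
def stopB (J : Job) (a : Bool) (e : ES) : Option Bool :=
  if J.2.2.1 < ecells e.2.2 then some false else
    match vd (eact J.1 J.2.1 a e) with
    | some b => some b
    | none => if J.2.2.2 = 0 then some false else none

/-- the result of running a coded machine with cut-offs -/
def run (A : Oracle) (d : Code) (v : VI) (s : ℕ) : ℕ → PCf ES → Bool
  | 0, p => (stopB (d, v, s, 0) p.a p.b).getD false
  | t + 1, p => match stopB (d, v, s, t + 1) p.a p.b with
    | some r => r
    | none => run A d v s t ((simP d v).step A p)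

/-- the result of a job -/
def jres (A : Oracle) (J : Job) : Bool :=
  run A J.1 J.2.1 J.2.2.1 J.2.2.2 ⟨false, einit J.1, []⟩

/-- A driver: in each state it runs a job or gives a verdict; the next state depends on the result
of the job. -/
structure Driver (τ : Type) where
  /-- the job to be run, or the verdict -/
  job : τ → Job ⊕ Bool
  /-- the next state -/
  upd : τ × Bool → τ

/-- The states of the process of a driver. -/
abbrev DS (τ : Type) : Type := τ × Option (Job × ES)

/-- idle: action -/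
def idleAct (j : Job ⊕ Bool) : PAct :=
  match j with
  | .inl _ => .go
  | .inr v => .halt v

/-- idle: next state -/
def idleNxt {τ : Type} (x : τ) (j : Job ⊕ Bool) : DS τ :=
  match j with
  | .inl J => (x, some (J, einit J.1))
  | .inr _ => (x, none)

/-- running: action -/
def runAct (a : Bool) (y : Job × ES) : PAct :=
  match stopB y.1 a y.2 with
  | some _ => .ask
  | none => epa (eact y.1.1 y.1.2.1 a y.2)

/-- running: continue -/
def runCont {τ : Type} (a : Bool) (x : τ) (y : Job × ES) : DS τ :=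
  (x, some ((y.1.1, y.1.2.1, y.1.2.2.1, y.1.2.2.2 - 1), enxt y.1.2.1 (eact y.1.1 y.1.2.1 a y.2) y.2))

namespace Driver

variable {τ : Type} (D : Driver τ)

/-- running: next state -/
def runNxt (a : Bool) (x : τ) (y : Job × ES) : DS τ :=
  match stopB y.1 a y.2 with
  | some r => (D.upd (x, r), none)
  | none => runCont a x y

/-- The process of a driver. -/
def proc : Proc (DS τ) where
  act z := match z.2.2 with
    | none => idleAct (D.job z.2.1)
    | some y => runAct z.1 y
  nxt z := match z.2.2 with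
    | none => idleNxt z.2.1 (D.job z.2.1)
    | some y => D.runNxt z.1 z.2.1 y

/-- one round -/
def dstep (A : Oracle) (x : τ) : τ :=
  match D.job x with
  | .inl J => D.upd (x, jres A J)
  | .inr _ => x

variable [TEnc τ]

/-- The driver goes from `x` to `y` in `n` rounds, with states of size at most `B`, bounds for the
cells at most `S` and bounds for the time at most `T`. -/
def Reach (A : Oracle) (B S T n : ℕ) (x y : τ) : Prop :=
  (D.dstep A)^[n] x = y ∧
    (∀ i < n, ∃ J : Job, D.job ((D.dstep A)^[i] x) = .inl J ∧ J.2.2.1 ≤ S ∧ J.2.2.2 ≤ T) ∧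
    ∀ i ≤ n, sz ((D.dstep A)^[i] x) ≤ B

/-- The driver is computable in polynomial time. -/
def IsPoly : Prop := NPC.Poly D.job ∧ NPC.Poly D.upd

variable {D}

theorem Reach.trans {A : Oracle} {B S T n m : ℕ} {x y z : τ} (h : D.Reach A B S T n x y)
    (h' : D.Reach A B S T m y z) : D.Reach A B S T (n + m) x z := by
  refine ⟨?_, ?_, ?_⟩
  · rw [add_comm, Function.iterate_add_apply, h.1, h'.1]
  · intro i hi
    rcases Nat.lt_or_ge i n with h1 | h1
    · exact h.2.1 i h1
    · obtain ⟨j, rfl⟩ := Nat.exists_eq_add_of_le h1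
      rw [add_comm, Function.iterate_add_apply, h.1]
      exact h'.2.1 j (by omega)
  · intro i hi
    rcases Nat.lt_or_ge i n with h1 | h1
    · exact h.2.2 i h1.le
    · obtain ⟨j, rfl⟩ := Nat.exists_eq_add_of_le h1
      rw [add_comm, Function.iterate_add_apply, h.1]
      exact h'.2.2 j (by omega)

theorem Reach.refl {A : Oracle} {B S T : ℕ} {x : τ} (h : sz x ≤ B) : D.Reach A B S T 0 x x :=
  ⟨rfl, fun i hi => by omega, fun i hi => by
    obtain rfl : i = 0 := by omega
    exact h⟩

theorem Reach.mono {A : Oracle} {B S T n B' S' T' : ℕ} {x y : τ} (h : D.Reach A B S T n x y)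
    (hB : B ≤ B') (hS : S ≤ S') (hT : T ≤ T') : D.Reach A B' S' T' n x y :=
  ⟨h.1, fun i hi => by
    obtain ⟨J, h1, h2, h3⟩ := h.2.1 i hi
    exact ⟨J, h1, h2.trans hS, h3.trans hT⟩, fun i hi => (h.2.2 i hi).trans hB⟩

theorem Reach.one {A : Oracle} {B S T : ℕ} {x : τ} {J : Job} (h : D.job x = .inl J)
    (hS : J.2.2.1 ≤ S) (hT : J.2.2.2 ≤ T) (hx : sz x ≤ B) (hy : sz (D.upd (x, jres A J)) ≤ B) :
    D.Reach A B S T 1 x (D.upd (x, jres A J)) := by
  have e : D.dstep A x = D.upd (x, jres A J) := by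
    unfold dstep
    rw [h]
  refine ⟨e, ?_, ?_⟩
  · intro i hi
    obtain rfl : i = 0 := by omega
    exact ⟨J, h, hS, hT⟩
  · intro i hi
    rcases Nat.le_one_iff_eq_zero_or_eq_one.1 hi with rfl | rfl
    · exact hx
    · show sz (D.dstep A x) ≤ B
      rw [e]
      exact hy

theorem Reach.left {A : Oracle} {B S T n : ℕ} {x y : τ} (h : D.Reach A B S T n x y) :
    sz x ≤ B := h.2.2 0 (by omega)

theorem Reach.right {A : Oracle} {B S T n : ℕ} {x y : τ} (h : D.Reach A B S T n x y) :
    sz y ≤ B := by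
  have := h.2.2 n le_rfl
  rw [h.1] at this
  exact this

end Driver

/-! ### The process is polynomial -/

namespace P

variable {α : Type} [TEnc α]

theorem vd {x : α → EA} (hx : NPC.Poly x) : NPC.Poly (fun a => J4H22.vd (x a)) := by
  have h1 : NPC.Poly (fun z : α × (Bool ⊕ (ℕ × ℕ)) =>
      (match z.2 with | .inl b => some b | .inr _ => none : Option Bool)) := by
    refine (NPC.Poly.sumCases (o := fun z : α × (Bool ⊕ (ℕ × ℕ)) => z.2)
      (g := fun _ b => some b) (h := fun _ _ => none)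
      (NPC.Poly.snd NPC.Poly.id) (NPC.Poly.some (NPC.Poly.snd NPC.Poly.id))
      (NPC.Poly.const _)).congr fun z => ?_
    rcases z with ⟨a, _ | _⟩ <;> rfl
  refine (NPC.Poly.sumCases (o := x)
    (g := fun _ y => (match y with | .inl b => some b | .inr _ => none : Option Bool))
    (h := fun _ _ => none) hx h1 (NPC.Poly.const _)).congr fun a => ?_
  unfold J4H22.vd
  rcases x a with (_ | _) | _ <;> rfl

theorem stopB {J : α → Job} {b : α → Bool} {e : α → ES} (hJ : NPC.Poly J) (hb : NPC.Poly b)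
    (he : NPC.Poly e) : NPC.Poly (fun a => J4H22.stopB (J a) (b a) (e a)) := by
  have h1 : NPC.Poly (fun a => J4H22.vd (J4H22.eact (J a).1 (J a).2.1 (b a) (e a))) :=
    vd (eact (NPC.Poly.fst hJ) (NPC.Poly.fst (NPC.Poly.snd hJ)) hb he)
  have ht : NPC.Poly (fun a => (J a).2.2.2) := NPC.Poly.snd (NPC.Poly.snd (NPC.Poly.snd hJ))
  have h2 : NPC.Poly (fun a => (if (J a).2.2.2 = 0 then some false else none : Option Bool)) :=
    NPC.Poly.ite (NPC.Poly.decide_eq ht (NPC.Poly.const 0)) (NPC.Poly.const _) (NPC.Poly.const _)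
  have h3 : NPC.Poly (fun a => (match J4H22.vd (J4H22.eact (J a).1 (J a).2.1 (b a) (e a)) with
      | some b => some b
      | none => if (J a).2.2.2 = 0 then some false else none : Option Bool)) := by
    refine (NPC.Poly.optCases (h := fun _ b => some b) h1 h2
      (NPC.Poly.some (NPC.Poly.snd NPC.Poly.id))).congr fun a => ?_
    cases J4H22.vd (J4H22.eact (J a).1 (J a).2.1 (b a) (e a)) <;> rfl
  exact NPC.Poly.ite (NPC.Poly.decide_lt (NPC.Poly.fst (NPC.Poly.snd (NPC.Poly.snd hJ)))
    (ecells (NPC.Poly.snd (NPC.Poly.snd he)))) (NPC.Poly.const _) h3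

theorem idleAct {j : α → Job ⊕ Bool} (hj : NPC.Poly j) :
    NPC.Poly (fun a => J4H22.idleAct (j a)) := by
  refine (NPC.Poly.sumCases (o := j) (g := fun _ _ => PAct.go) (h := fun _ v => PAct.halt v)
    hj (NPC.Poly.const _) (halt (NPC.Poly.snd NPC.Poly.id))).congr fun a => ?_
  unfold J4H22.idleAct
  cases j a <;> rfl

theorem idleNxt {τ : Type} [TEnc τ] {x : α → τ} {j : α → Job ⊕ Bool} (hx : NPC.Poly x)
    (hj : NPC.Poly j) : NPC.Poly (fun a => J4H22.idleNxt (x a) (j a)) := by
  refine (NPC.Poly.sumCases (o := j) (g := fun a J => ((x a, some (J, J4H22.einit J.1)) : DS τ))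
    (h := fun a _ => ((x a, none) : DS τ)) hj
    (NPC.Poly.pair (hx.comp (NPC.Poly.fst NPC.Poly.id)) (NPC.Poly.some (NPC.Poly.pair
      (NPC.Poly.snd NPC.Poly.id) (einit (NPC.Poly.fst (NPC.Poly.snd NPC.Poly.id))))))
    (NPC.Poly.pair (hx.comp (NPC.Poly.fst NPC.Poly.id)) (NPC.Poly.const _))).congr fun a => ?_
  unfold J4H22.idleNxt
  cases j a <;> rfl

theorem runAct {b : α → Bool} {y : α → Job × ES} (hb : NPC.Poly b) (hy : NPC.Poly y) :
    NPC.Poly (fun a => J4H22.runAct (b a) (y a)) := by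
  have h1 : NPC.Poly (fun a => J4H22.stopB (y a).1 (b a) (y a).2) :=
    stopB (NPC.Poly.fst hy) hb (NPC.Poly.snd hy)
  have h2 : NPC.Poly (fun a => J4H22.epa (J4H22.eact (y a).1.1 (y a).1.2.1 (b a) (y a).2)) :=
    epa (eact (NPC.Poly.fst (NPC.Poly.fst hy)) (NPC.Poly.fst (NPC.Poly.snd (NPC.Poly.fst hy))) hb
      (NPC.Poly.snd hy))
  refine (NPC.Poly.optCases (h := fun _ _ => PAct.ask) h1 h2 (NPC.Poly.const _)).congr fun a => ?_
  unfold J4H22.runAct
  cases J4H22.stopB (y a).1 (b a) (y a).2 <;> rfl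

theorem runCont {τ : Type} [TEnc τ] {b : α → Bool} {x : α → τ} {y : α → Job × ES}
    (hb : NPC.Poly b) (hx : NPC.Poly x) (hy : NPC.Poly y) :
    NPC.Poly (fun a => J4H22.runCont (b a) (x a) (y a)) := by
  unfold J4H22.runCont
  have hJ := NPC.Poly.fst hy
  have he := NPC.Poly.snd hy
  have hv := NPC.Poly.fst (NPC.Poly.snd hJ)
  refine NPC.Poly.pair hx (NPC.Poly.some (NPC.Poly.pair ?_ ?_))
  · exact NPC.Poly.pair (NPC.Poly.fst hJ) (NPC.Poly.pair hv (NPC.Poly.pair
      (NPC.Poly.fst (NPC.Poly.snd (NPC.Poly.snd hJ)))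
      (NPC.Poly.sub (NPC.Poly.snd (NPC.Poly.snd (NPC.Poly.snd hJ))) (NPC.Poly.const 1))))
  · exact enxt hv (eact (NPC.Poly.fst hJ) hv hb he) he

theorem runNxt {τ : Type} [TEnc τ] {D : Driver τ} (hD : D.IsPoly) {b : α → Bool} {x : α → τ}
    {y : α → Job × ES} (hb : NPC.Poly b) (hx : NPC.Poly x) (hy : NPC.Poly y) :
    NPC.Poly (fun a => D.runNxt (b a) (x a) (y a)) := by
  have h1 : NPC.Poly (fun a => J4H22.stopB (y a).1 (b a) (y a).2) :=
    stopB (NPC.Poly.fst hy) hb (NPC.Poly.snd hy)
  refine (NPC.Poly.optCases (h := fun a r => ((D.upd (x a, r), none) : DS τ)) h1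
    (runCont hb hx hy) ?_).congr fun a => ?_
  · exact NPC.Poly.pair (hD.2.comp (NPC.Poly.pair (hx.comp (NPC.Poly.fst NPC.Poly.id))
      (NPC.Poly.snd NPC.Poly.id))) (NPC.Poly.const _)
  · unfold Driver.runNxt
    cases J4H22.stopB (y a).1 (b a) (y a).2 <;> rfl

end P

theorem Driver.IsPoly.proc {τ : Type} [TEnc τ] {D : Driver τ} (hD : D.IsPoly) :
    D.proc.IsPoly := by
  have ha : NPC.Poly (fun z : Bool × DS τ => z.1) := NPC.Poly.fst NPC.Poly.id
  have hx : NPC.Poly (fun z : Bool × DS τ => z.2.1) := NPC.Poly.fst (NPC.Poly.snd NPC.Poly.id)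
  have ho : NPC.Poly (fun z : Bool × DS τ => z.2.2) := NPC.Poly.snd (NPC.Poly.snd NPC.Poly.id)
  have hj : NPC.Poly (fun z : Bool × DS τ => D.job z.2.1) := hD.1.comp hx
  have h1 : NPC.Poly (fun z : (Bool × DS τ) × (Job × ES) => z.1.1) :=
    ha.comp (NPC.Poly.fst NPC.Poly.id)
  have h2 : NPC.Poly (fun z : (Bool × DS τ) × (Job × ES) => z.1.2.1) :=
    hx.comp (NPC.Poly.fst NPC.Poly.id)
  have h3 : NPC.Poly (fun z : (Bool × DS τ) × (Job × ES) => z.2) := NPC.Poly.snd NPC.Poly.id
  constructor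
  · refine (NPC.Poly.optCases (h := fun z y => runAct z.1 y) ho (P.idleAct hj)
      (P.runAct h1 h3)).congr fun z => ?_
    rcases z with ⟨a, x, _ | _⟩ <;> rfl
  · refine (NPC.Poly.optCases (h := fun z y => D.runNxt z.1 z.2.1 y) ho (P.idleNxt hx hj)
      (P.runNxt hD h1 h2 h3)).congr fun z => ?_
    rcases z with ⟨a, x, _ | _⟩ <;> rfl

end Pool.Agent.J4H22
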