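import Pool.Agent.J4H22.Query

/-!
# Oracles with codes of computations
-/

namespace Pool.Agent.J4H22

open Pool.Agent.NPC

/-- The kind of a string: it codes the result of a job (with a level), or the oracle is fixed at
this string, or the string is free. -/
inductive Kind
  | code (k : ℕ) (J : Job)
  | fixed (b : Bool)
  | free

/-- The oracle with codes of level less than the given number; `a` gives the values at the free
strings. -/
def Alv (kind : List Bool → Kind) (a : List Bool → Bool) : ℕ → List Bool → Bool
  | 0, w => match kind w with
    | .code _ _ => false
    | .fixed b => b
    | .free => a w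
  | k + 1, w => match kind w with
    | .code l J => if l = k then jres (Alv kind a k) J else Alv kind a k w
    | .fixed b => b
    | .free => a w

/-- The oracle with all codes. -/
def Af (kind : List Bool → Kind) (a : List Bool → Bool) (w : List Bool) : Bool :=
  match kind w with
  | .code l J => jres (Alv kind a l) J
  | .fixed b => b
  | .free => a w

/-- The possible questions of a coded computation are not about codes of the same level or
higher. -/
def WF (kind : List Bool → Kind) : Prop :=
  ∀ w l J, kind w = .code l J → ∀ w' ∈ QS J, ∀ l' J', kind w' = .code l' J' → l' < l

section

variable {kind : List Bool → Kind} {a : List Bool → Bool}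

theorem Alv_code {w : List Bool} {l : ℕ} {J : Job} (h : kind w = .code l J) : ∀ k, l < k →
    Alv kind a k w = jres (Alv kind a l) J := by
  intro k
  induction k with
  | zero => intro hk; omega
  | succ k ih =>
    intro hk
    unfold Alv
    rw [h]
    simp only
    split_ifs with h1
    · rw [h1]
    · exact ih (by omega)

theorem Alv_fixed {w : List Bool} {b : Bool} (h : kind w = .fixed b) (k : ℕ) :
    Alv kind a k w = b := by
  cases k <;> (unfold Alv; rw [h])

theorem Alv_free {w : List Bool} (h : kind w = .free) (k : ℕ) : Alv kind a k w = a w := by
  cases k <;> (unfold Alv; rw [h])

theorem Af_fixed {w : List Bool} {b : Bool} (h : kind w = .fixed b) : Af kind a w = b := by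
  unfold Af
  rw [h]

theorem Af_free {w : List Bool} (h : kind w = .free) : Af kind a w = a w := by
  unfold Af
  rw [h]

/-- The codes are correct. -/
theorem Af_code (hwf : WF kind) {w : List Bool} {l : ℕ} {J : Job} (h : kind w = .code l J) :
    Af kind a w = jres (Af kind a) J := by
  unfold Af
  rw [h]
  simp only
  refine jres_congr fun w' hw' => ?_
  cases h' : kind w' with
  | code l' J' =>
    rw [Alv_code h' l (hwf w l J h w' (jasks_sub hw') l' J' h')]
  | fixed b => rw [Alv_fixed h']
  | free => rw [Alv_free h']

/-- A change of the free part outside of a closed set does not change the oracle on this set. -/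
theorem Af_congr {a a' : List Bool → Bool} {G : Set (List Bool)}
    (hag : ∀ w ∈ G, a w = a' w)
    (hG : ∀ w ∈ G, ∀ l J, kind w = .code l J → QS J ⊆ G) :
    ∀ w ∈ G, Af kind a w = Af kind a' w := by
  have key : ∀ k, ∀ w ∈ G, Alv kind a k w = Alv kind a' k w := by
    intro k
    induction k with
    | zero =>
      intro w hw
      unfold Alv
      cases h : kind w with
      | code l J => rfl
      | fixed b => rfl
      | free => exact hag w hw
    | succ k ih =>
      intro w hw
      unfold Alv
      cases h : kind w with
      | code l J =>
        simp only
        split_ifs with h1
        · exact jres_congr fun w' hw' => ih w' (hG w hw l J h (jasks_sub hw'))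
        · exact ih w hw
      | fixed b => rfl
      | free => exact hag w hw
  intro w hw
  unfold Af
  cases h : kind w with
  | code l J => exact jres_congr fun w' hw' => key l w' (hG w hw l J h (jasks_sub hw'))
  | fixed b => rfl
  | free => exact hag w hw

/-! ### Continuity -/

theorem cont_jres {X : Type} [TopologicalSpace X] {O : X → Oracle}
    (hO : ∀ w, Continuous fun x => O x w) (J : Job) : Continuous fun x => jres (O x) J := by
  rw [continuous_iff_continuousAt]
  intro x0
  have h1 : ∀ᶠ x in nhds x0, ∀ w ∈ jasks (O x0) J, O x w = O x0 w := by
    have h2 : ∀ w, ∀ᶠ x in nhds x0, O x w = O x0 w := by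
      intro w
      have h3 := (hO w).continuousAt (x := x0)
      unfold ContinuousAt at h3
      rw [nhds_discrete Bool, Filter.tendsto_pure] at h3
      exact h3
    generalize jasks (O x0) J = l
    induction l with
    | nil => simp
    | cons w l ih =>
      filter_upwards [h2 w, ih] with x hx hx'
      intro w' hw'
      rcases List.mem_cons.1 hw' with rfl | hw'
      · exact hx
      · exact hx' w' hw'
  unfold ContinuousAt
  rw [nhds_discrete Bool, Filter.tendsto_pure]
  filter_upwards [h1] with x hx
  exact (jres_congr fun w hw => (hx w hw).symm).symm

theorem cont_Alv (kind : List Bool → Kind) (k : ℕ) (w : List Bool) :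
    Continuous fun a : List Bool → Bool => Alv kind a k w := by
  induction k generalizing w with
  | zero =>
    unfold Alv
    cases kind w with
    | code l J => exact continuous_const
    | fixed b => exact continuous_const
    | free => exact continuous_apply w
  | succ k ih =>
    unfold Alv
    cases kind w with
    | code l J =>
      simp only
      split_ifs with h1
      · exact cont_jres (fun w => ih w) J
      · exact ih w
    | fixed b => exact continuous_const
    | free => exact continuous_apply w

theorem cont_Af (kind : List Bool → Kind) (w : List Bool) :
    Continuous fun a : List Bool → Bool => Af kind a w := by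
  unfold Af
  cases kind w with
  | code l J => exact cont_jres (fun w => cont_Alv kind l w) J
  | fixed b => exact continuous_const
  | free => exact continuous_apply w

end

end Pool.Agent.J4H22
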