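import Pool.Agent.J4H22.LogProg

/-!
# Machines with a preparation of the input
-/

namespace Pool.Agent.J4H22

open Pool.Agent.NPC
open Function (update)

/-- A program that replaces the input by a string on the stack `0`, with bounds for the time and
for the heights of the stacks. -/
structure Front where
  /-- the program -/
  prog : XC ℕ
  /-- the result -/
  out : List Bool → List Bool
  /-- a bound for the time -/
  tm : ℕ → ℕ
  /-- a bound for the heights -/
  ht : ℕ → ℕ
  run : ∀ (A : Oracle) (x : List Bool) (H : ℕ), ht x.length ≤ H →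
    ∃ h, XT A x H prog ⟨st [] [] [], 0, []⟩ ⟨st (out x) [] [], h, []⟩ (tm x.length)

/-- The whole program of a process: `ci` computes the initial state, `c` makes one step. -/
def mainF (F : Front) (ci c : Cmd ℕ) : XC ℕ :=
  .seq F.prog (.seq (XC.of ci) (.seq (.push 1 true) (.seq preF (.loop 1 (bodyX c)))))

theorem proc_runF (F : Front) {β : Type} [TEnc β] (P : Proc β) {ini : List Bool → β}
    {ci c : Cmd ℕ} {pi p : Polynomial ℕ}
    (hci : ∀ x, Runs ci (inp x) (inp (bits (ini x))) (pi.eval x.length))
    (hc : ∀ z, Runs c (inp (bits z)) (inp (bits (P.fn z))) (p.eval (bits z).length))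
    {A : Oracle} {x : List Bool} {B H N : ℕ} {v : Bool} {z' : PCf β}
    (hH : B + 4 + p.eval (B + 4) + 10 + F.ht x.length + (F.out x).length +
      pi.eval (F.out x).length ≤ H)
    (hp : P.Path A B N ⟨false, ini (F.out x), []⟩ z') (hv : P.act (z'.a, z'.b) = .halt v) :
    ∃ h g w', XT A x H (mainF F ci c) ⟨st [] [] [], 0, []⟩ ⟨st (v :: g) [] [], h, w'⟩
      (F.tm x.length + (2 * pi.eval (F.out x).length + 6 +
        (N + 1) * (2 * p.eval (B + 4) + 42))) := by
  obtain ⟨hd, h1⟩ := F.run A x H (by omega)
  have hB : sz (ini (F.out x)) ≤ B := hp.left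
  have h2 : XT A x H (XC.of ci) ⟨st (F.out x) [] [], hd, []⟩
      ⟨st (bits (ini (F.out x))) [] [], hd, []⟩ (2 * pi.eval (F.out x).length) := by
    have h3 := hci (F.out x)
    rw [inp_eq_st, inp_eq_st] at h3
    refine XT.of_runs h3 fun i => ?_
    have := bd_st (a := F.out x) (b := []) (c := []) (m := (F.out x).length) (by simp) (by simp)
      (by simp) i
    omega
  have h3 : XT A x H (.push 1 true) ⟨st (bits (ini (F.out x))) [] [], hd, []⟩
      ⟨st (bits (ini (F.out x))) [true] [], hd, []⟩ 2 :=
    XT.push1 _ (by rw [bits_length]; omega) (by simp; omega) (by simp)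
  have h4 := preF_run (A := A) (x := x) (H := H) (h := hd) (w := []) (ini (F.out x))
    (by rw [bits_length]; omega)
  obtain ⟨g, w', h5⟩ := loop_proc (A := A) (x := x) (H := H) (h := hd) P hc
    (by omega) N ⟨false, ini (F.out x), []⟩ z' hp hv
  refine ⟨hd, g, w', (h1.seq (h2.seq (h3.seq (h4.seq h5)))).mono ?_⟩
  omega

/-- Every process with polynomial-time steps is carried out by a machine. -/
theorem proc_machineF (F : Front) {β : Type} [TEnc β] (P : Proc β) (hP : P.IsPoly)
    {ini : List Bool → β} (hi : NPC.Poly ini) :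
    ∃ (M : Machine) (q : Polynomial ℕ), ∀ (A : Oracle) (x : List Bool) (N : ℕ) (v : Bool) (B : ℕ)
      (z' : PCf β), P.Path A B N ⟨false, ini (F.out x), []⟩ z' → P.act (z'.a, z'.b) = .halt v →
      (∃ n ≤ F.tm x.length + (N + 1) * q.eval (B + (F.out x).length + F.ht x.length),
        M.act x (M.conf A x n) = verdict v) ∧
        ∀ n, M.space (M.conf A x n) ≤ q.eval (B + (F.out x).length + F.ht x.length) := by
  obtain ⟨ci, pi, hci⟩ := PC.comp (g := ini) (f := fun x => x) hi PC.rawIn
  obtain ⟨c, p, hc⟩ := hP.fn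
  set m := (mainF F ci c).bd with hm
  let q0 : Polynomial ℕ := (2 * pi + 6) + (2 * p.comp (Polynomial.X + 4) + 42)
  let q1 : Polynomial ℕ := (Polynomial.C (m + 1)) * ((Polynomial.X + 4 + p.comp (Polynomial.X + 4)
    + 10 + Polynomial.X + Polynomial.X + pi) + 1)
  refine ⟨((mainF F ci c).map (Fin.ofNat (m + 1))).toM, q0 + q1, ?_⟩
  intro A x N v B z' hp hv
  obtain ⟨h, g, w', t, ht, h1⟩ := proc_runF F P hci hc le_rfl hp hv
  have h2 := h1.restrict (n := m) (by omega)
  have e0 : (St.res m ⟨st [] [] [], 0, []⟩) = ⟨fun _ => [], 0, []⟩ := by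
    unfold St.res
    simp only [St.mk.injEq, and_true]
    funext i
    rcases i with ⟨i, hi⟩
    match i, hi with
    | 0, _ => rfl
    | 1, _ => rfl
    | 2, _ => rfl
    | i + 3, _ => rfl
  rw [e0] at h2
  obtain ⟨⟨t', ht', h3⟩, h4⟩ := toM_halts ((mainF F ci c).map (Fin.ofNat (m + 1)))
    (v := v) (g := g) ⟨t, le_rfl, h2⟩ (by rfl)
  set Z := B + (F.out x).length + F.ht x.length with hZ
  have e1 : q0.eval Z = (2 * pi.eval Z + 6) + (2 * p.eval (Z + 4) + 42) := by
    simp [q0, Polynomial.eval_comp]
  have e2 : q1.eval Z = (m + 1) * ((Z + 4 + p.eval (Z + 4) + 10 + Z + Z + pi.eval Z) + 1) := by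
    simp [q1, Polynomial.eval_comp]
  have h5 : p.eval (B + 4) ≤ p.eval (Z + 4) := eval_mono p (by omega)
  have h6 : pi.eval (F.out x).length ≤ pi.eval Z := eval_mono pi (by omega)
  refine ⟨⟨t', ?_, h3⟩, fun n => (h4 n).trans ?_⟩
  · rw [Polynomial.eval_add, Nat.mul_add]
    have h7 : (N + 1) * (2 * p.eval (B + 4) + 42) ≤
        (N + 1) * (2 * p.eval (Z + 4) + 42) := Nat.mul_le_mul_left _ (by omega)
    have h8 : 2 * pi.eval (F.out x).length + 6 ≤ (N + 1) * (2 * pi.eval Z + 6) := by
      refine le_trans ?_ (Nat.le_mul_of_pos_left _ (by omega))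
      omega
    rw [e1, Nat.mul_add]
    omega
  · rw [Polynomial.eval_add, e2]
    refine le_trans ?_ (Nat.le_add_left _ _)
    refine Nat.mul_le_mul_left _ ?_
    omega

section

variable {τ : Type} [TEnc τ]

/-- Every driver is carried out by a machine. -/
theorem driver_machineF (F : Front) {D : Driver τ} (hD : D.IsPoly) {ini : List Bool → τ}
    (hi : NPC.Poly ini) :
    ∃ (M : Machine) (q : Polynomial ℕ), ∀ (A : Oracle) (x : List Bool) (B S T n : ℕ) (y : τ)
      (v : Bool), D.Reach A B S T n (ini (F.out x)) y → D.job y = .inr v →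
      (∃ m ≤ F.tm x.length + (n + 1) * (T + 2) *
          q.eval (B + S + (F.out x).length + F.ht x.length),
        M.act x (M.conf A x m) = verdict v) ∧
        ∀ m, M.space (M.conf A x m) ≤ q.eval (B + S + (F.out x).length + F.ht x.length) := by
  have hi' : NPC.Poly (fun x => ((ini x, none) : DS τ)) := NPC.Poly.pair hi (NPC.Poly.const _)
  obtain ⟨M, q, hM⟩ := proc_machineF F D.proc hD.proc hi'
  obtain ⟨r, hr⟩ := Driver.reach_path hD
  refine ⟨M, q.comp (r + Polynomial.X), ?_⟩
  intro A x B S T n y v h hv
  obtain ⟨m, hm, a', h1⟩ := hr A B S T n _ _ h false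
  obtain ⟨⟨k, hk, h2⟩, h3⟩ := hM A x m v _ _ h1 (by
    show idleAct (D.job y) = _
    rw [hv]
    rfl)
  have h4 : q.eval (r.eval (B + S) + (F.out x).length + F.ht x.length) ≤
      (q.comp (r + Polynomial.X)).eval (B + S + (F.out x).length + F.ht x.length) := by
    rw [Polynomial.eval_comp, Polynomial.eval_add, Polynomial.eval_X]
    refine eval_mono q ?_
    have := eval_mono r (show B + S ≤ B + S + (F.out x).length + F.ht x.length by omega)
    omega
  refine ⟨⟨k, hk.trans (Nat.add_le_add_left ?_ _), h2⟩, fun m => (h3 m).trans h4⟩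
  refine Nat.mul_le_mul ?_ h4
  have : (n + 1) * (T + 2) = n * (T + 2) + (T + 2) := by ring
  omega

/-- The machine for a driver with a pad. -/
theorem pad_machineF (F : Front) {D : Driver τ} (hD : D.IsPoly)
    {ini : List Bool × List Bool → τ}
    (hi : NPC.Poly ini) (i : ℕ) (p q : Polynomial ℕ) :
    ∃ (M : Machine) (r : Polynomial ℕ), ∀ (A : Oracle) (x : List Bool) (S T n : ℕ) (y : τ)
      (v : Bool) (W : ℕ), W = tw i (p.eval (F.out x).length) + (F.out x).length + 1 →
      S ≤ q.eval W →
      D.Reach A (q.eval W) S T n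
        (ini (F.out x, List.replicate (tw i (p.eval (F.out x).length)) true)) y →
      D.job y = .inr v →
      (∃ m ≤ F.tm x.length + (n + 1) * (T + 1) * r.eval (W + F.ht x.length),
        M.act x (M.conf A x m) = verdict v) ∧
        ∀ m, M.space (M.conf A x m) ≤ r.eval (W + F.ht x.length) := by
  obtain ⟨M, u, hM⟩ := driver_machineF F (padD_poly hD hi) (padIni_poly (τ := τ) i p)
  obtain ⟨c, hc⟩ := hi.sz_le
  -- bound for the size of the states
  let b : Polynomial ℕ := 12 * Polynomial.X + Polynomial.C (2 * i + 10) + q + 8 +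
    c.comp (8 * Polynomial.X + 3)
  let Q : Polynomial ℕ := 12 * b + Polynomial.C (2 * i + 10) + q + 4
  refine ⟨M, 2 * (Polynomial.C i * (b + 1) + 3) * u.comp (Q + q + Polynomial.X), ?_⟩
  intro A x' S T n y v W hW hS h hv
  set x := F.out x' with hxdef
  have hx : x.length ≤ W := by omega
  have hW1 : 1 ≤ W := by omega
  have hb : b.eval W = 12 * W + (2 * i + 10) + q.eval W + 8 + c.eval (8 * W + 3) := by
    simp [b, Polynomial.eval_comp]
  have hQ : Q.eval W = 12 * b.eval W + (2 * i + 10) + q.eval W + 4 := by
    simp [Q]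
  have htw : tw i (p.eval x.length) ≤ W := by omega
  have hpad := hc (x, List.replicate (tw i (p.eval x.length)) true)
  have hpad2 : sz (ini (x, List.replicate (tw i (p.eval x.length)) true)) ≤ c.eval (8 * W + 3) := by
    refine hpad.trans (eval_mono c ?_)
    have h1 := sz_listBool_le x
    have h2 := sz_listBool_le (List.replicate (tw i (p.eval x.length)) true)
    rw [List.length_replicate] at h2
    rw [sz_pair]
    omega
  obtain ⟨m, hm, h1⟩ := pb_all (D := D) (ini := ini) (A := A) (S := S) (T := T) (W := b.eval W)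
    (i0 := i) x (by omega) (by omega) i le_rfl (p.eval x.length) (by omega) (by
        rw [sz_inr]
        omega)
  have h2 := pad_reach (ini := ini) h
  have h3 : (padD D ini).Reach A (Q.eval W) S T (m + n) (padIni i p x) (.inr y) :=
    (h1.mono (by omega) le_rfl le_rfl).trans (h2.mono (by omega) le_rfl le_rfl)
  obtain ⟨⟨k, hk, h4⟩, h5⟩ := hM A x' _ _ _ _ _ v h3 hv
  rw [← hxdef] at hk h5
  set Z := W + F.ht x'.length with hZ
  have hbZ : b.eval W ≤ b.eval Z := eval_mono b (by omega)
  have hQZ : Q.eval W ≤ Q.eval Z := eval_mono Q (by omega)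
  have hqZ : q.eval W ≤ q.eval Z := eval_mono q (by omega)
  have h6 : u.eval (Q.eval W + S + x.length + F.ht x'.length) ≤
      (u.comp (Q + q + Polynomial.X)).eval Z := by
    rw [Polynomial.eval_comp]
    refine eval_mono u ?_
    simp only [Polynomial.eval_add, Polynomial.eval_X]
    omega
  have h7 : (2 * (Polynomial.C i * (b + 1) + 3) * u.comp (Q + q + Polynomial.X)).eval Z =
      2 * (i * (b.eval Z + 1) + 3) * (u.comp (Q + q + Polynomial.X)).eval Z := by
    simp
  rw [h7]
  refine ⟨⟨k, hk.trans (Nat.add_le_add_left ?_ _), h4⟩, fun m => ((h5 m).trans h6).trans ?_⟩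
  · have h10 : i * (b.eval W + 1) ≤ i * (b.eval Z + 1) := Nat.mul_le_mul_left _ (by omega)
    have h8 : (m + n + 1) * (T + 2) ≤ (n + 1) * (T + 1) * (2 * (i * (b.eval Z + 1) + 3)) := by
      have h9 : m + n + 1 ≤ (n + 1) * (i * (b.eval Z + 1) + 3) := by nlinarith
      calc (m + n + 1) * (T + 2) ≤ ((n + 1) * (i * (b.eval Z + 1) + 3)) * (2 * (T + 1)) :=
            Nat.mul_le_mul h9 (by omega)
        _ = _ := by ring
    calc (m + n + 1) * (T + 2) * u.eval (Q.eval W + S + x.length + F.ht x'.length)
        ≤ ((n + 1) * (T + 1) * (2 * (i * (b.eval Z + 1) + 3))) *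
          (u.comp (Q + q + Polynomial.X)).eval Z := Nat.mul_le_mul h8 h6
      _ = _ := by ring
  · exact Nat.le_mul_of_pos_left _ (by omega)

end

/-! ### The length of a tally input in binary -/

section

variable {A : Oracle} {x : List Bool} {H h : ℕ} {w v a b d f : List Bool}

theorem XT.pushK {s s' : ℕ → List Bool} (k : ℕ) (b : Bool) (e : update s k (b :: s k) = s')
    (h1 : Bd H s) (h2 : Bd H s') : XT A x H (.push k b) ⟨s, h, w⟩ ⟨s', h, w⟩ 2 := by
  subst e
  exact ⟨_, le_rfl, XR.push ⟨s, h, w⟩ k b h1 h2⟩

theorem XT.popK {s s' : ℕ → List Bool} (k : ℕ) (e : update s k (s k).tail = s')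
    (h1 : Bd H s) : XT A x H (.pop k) ⟨s, h, w⟩ ⟨s', h, w⟩ 1 := by
  subst e
  exact ⟨_, le_rfl, XR.pop ⟨s, h, w⟩ k h1⟩

theorem XT.loopK {k : ℕ} {c : XC ℕ} {σ σ' σ'' : St ℕ} {T T' : ℕ} (h0 : σ.s k ≠ [])
    (h1 : XT A x H c σ σ' T) (h2 : XT A x H (.loop k c) σ' σ'' T') :
    XT A x H (.loop k c) σ σ'' (T + T' + 1) := by
  obtain ⟨t, ht, h1⟩ := h1
  obtain ⟨t', ht', h2⟩ := h2
  exact ⟨_, by omega, XR.loopCons h0 h1 h2⟩

theorem XT.done {k : ℕ} {c : XC ℕ} {σ : St ℕ} (h0 : σ.s k = []) (h1 : Bd H σ.s) :
    XT A x H (.loop k c) σ σ 1 := ⟨_, le_rfl, XR.loopNil h0 h1⟩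

theorem XT.casesF {k : ℕ} {c0 cf ct : XC ℕ} {σ σ' : St ℕ} {l : List Bool} {T : ℕ}
    (h0 : σ.s k = false :: l) (h1 : XT A x H cf σ σ' T) :
    XT A x H (.cases k c0 cf ct) σ σ' (T + 1) := by
  obtain ⟨t, ht, h1⟩ := h1
  exact ⟨_, by omega, XR.casesFalse h0 h1⟩

theorem XT.casesT {k : ℕ} {c0 cf ct : XC ℕ} {σ σ' : St ℕ} {l : List Bool} {T : ℕ}
    (h0 : σ.s k = true :: l) (h1 : XT A x H ct σ σ' T) :
    XT A x H (.cases k c0 cf ct) σ σ' (T + 1) := by
  obtain ⟨t, ht, h1⟩ := h1
  exact ⟨_, by omega, XR.casesTrue h0 h1⟩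

theorem XT.casesN {k : ℕ} {c0 cf ct : XC ℕ} {σ σ' : St ℕ} {T : ℕ}
    (h0 : σ.s k = []) (h1 : XT A x H c0 σ σ' T) :
    XT A x H (.cases k c0 cf ct) σ σ' (T + 1) := by
  obtain ⟨t, ht, h1⟩ := h1
  exact ⟨_, by omega, XR.casesNil h0 h1⟩

theorem bk1_runT : ∀ (m : ℕ) (a : List Bool), v.length + a.length + m + d.length + f.length ≤ H →
    XT A x H (bk 1) ⟨s5 v a (List.replicate m true) d f, h, w⟩
      ⟨s5 v (List.replicate m false ++ a) [] d f, h, w⟩ (4 * m + 1) := by
  intro m
  induction m with
  | zero =>
    intro a hH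
    exact XT.done rfl (bd5 (by simpa using hH))
  | succ m ih =>
    intro a hH
    have h1 := ih (false :: a) (by simp only [List.length_cons]; omega)
    have e : List.replicate m false ++ false :: a = List.replicate (m + 1) false ++ a := by
      rw [List.replicate_succ', List.append_assoc]
      rfl
    rw [e] at h1
    refine (XT.loopK (by simp [s5, List.replicate_succ]) (XT.seq (XT.popK 2 (upd2 _)
      (bd5 (by simp only [List.length_replicate]; omega))) (XT.pushK 1 false (upd1 _) ?_ ?_))
      h1).mono (by omega)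
    · refine bd5 ?_
      simp only [s5, List.length_tail, List.length_replicate]
      omega
    · refine bd5 ?_
      simp only [s5, List.length_tail, List.length_replicate, List.length_cons]
      omega

theorem inc_loopT : ∀ (l : List Bool) (j : ℕ), v.length + l.length + j + d.length + 2 ≤ H →
    XT A x H (.loop 4 incB) ⟨s5 v l (List.replicate j true) d [true], h, w⟩
      ⟨s5 v (true :: rst l) (List.replicate (j + tz l) true) d [], h, w⟩
      (5 * l.length + 8) := by
  intro l
  induction l with
  | nil =>
    intro j hH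
    simp only [List.length_nil] at hH
    refine (XT.loopK (by simp [s5]) (XT.casesN rfl (XT.seq (XT.pushK 1 true (upd1 _) ?_ ?_)
      (XT.popK 4 (upd4 _) ?_))) (XT.done rfl ?_)).mono (by omega) <;>
    · refine bd5 ?_
      simp only [s5, List.length_replicate, List.length_cons, List.length_nil, List.tail_cons,
        rst, tz]
      omega
  | cons b l ih =>
    intro j hH
    simp only [List.length_cons] at hH
    cases b with
    | false =>
      refine (XT.loopK (by simp [s5]) (XT.casesF rfl (XT.seq (XT.popK 1 (upd1 _) ?_)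
        (XT.seq (XT.pushK 1 true (upd1 _) ?_ ?_) (XT.popK 4 (upd4 _) ?_))))
        (XT.done rfl ?_)).mono (by omega) <;>
      · refine bd5 ?_
        simp only [s5, List.length_replicate, List.length_cons, List.length_nil, List.tail_cons,
          rst, tz]
        omega
    | true =>
      have h1 := ih (j + 1) (by omega)
      rw [show j + 1 + tz l = j + tz (true :: l) by simp only [tz]; ring] at h1
      refine (XT.loopK (by simp [s5]) (XT.casesT rfl (XT.seq (XT.popK 1 (upd1 _) ?_)
        (XT.pushK 2 true (upd2 _) ?_ ?_))) h1).mono (by simp only [List.length_cons]; omega) <;>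
      · refine bd5 ?_
        simp only [s5, List.length_replicate, List.length_cons, List.length_nil, List.tail_cons]
        omega

theorem inc_runT {l : List Bool} (hH : v.length + l.length + d.length + 2 ≤ H) :
    XT A x H incX ⟨s5 v l [] d [], h, w⟩ ⟨s5 v (incL l) [] d [], h, w⟩ (9 * l.length + 11) := by
  have h0 := tz_rst l
  have h1 := inc_loopT (A := A) (x := x) (H := H) (h := h) (w := w) (v := v) (d := d) l 0
    (by omega)
  rw [Nat.zero_add] at h1
  have h2 := bk1_runT (A := A) (x := x) (H := H) (h := h) (w := w) (v := v) (d := d) (f := [])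
    (tz l) (true :: rst l) (by simp only [List.length_cons, List.length_nil]; omega)
  refine (XT.seq (XT.pushK 4 true (upd4 _) ?_ ?_) (h1.seq h2)).mono (by omega) <;>
  · refine bd5 ?_
    simp only [s5, List.length_cons, List.length_nil, List.replicate_zero]
    omega

/-- clear stack `1` -/
def cl1 : XC ℕ := .loop 1 (.pop 1)

theorem cl1_run : ∀ (l : List Bool), v.length + l.length + d.length ≤ H →
    XT A x H cl1 ⟨s5 v l [] d [], h, w⟩ ⟨s5 v [] [] d [], h, w⟩ (2 * l.length + 1) := by
  intro l
  induction l with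
  | nil =>
    intro hH
    exact XT.done rfl (bd5 (by simp only [List.length_nil] at hH ⊢; omega))
  | cons b l ih =>
    intro hH
    simp only [List.length_cons] at hH
    exact (XT.loopK (by simp [s5]) (XT.popK 1 (upd1 _) (bd5 (by
      simp only [List.length_cons, List.length_nil]
      omega))) (ih (by omega))).mono (by simp only [List.length_cons]; omega)

/-- move stack `1` to stack `0` -/
def mv1 : XC ℕ := .loop 1 (.cases 1 .skip (.seq (.pop 1) (.push 0 false))
  (.seq (.pop 1) (.push 0 true)))

theorem mv1_run : ∀ (l v : List Bool), v.length + l.length ≤ H →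
    XT A x H mv1 ⟨s5 v l [] [] [], h, w⟩ ⟨s5 (l.reverse ++ v) [] [] [] [], h, w⟩
      (5 * l.length + 1) := by
  intro l
  induction l with
  | nil =>
    intro v hH
    exact XT.done rfl (bd5 (by simp only [List.length_nil] at hH ⊢; omega))
  | cons b l ih =>
    intro v hH
    simp only [List.length_cons] at hH
    have h1 := ih (b :: v) (by simp only [List.length_cons]; omega)
    have e : l.reverse ++ b :: v = (b :: l).reverse ++ v := by simp
    rw [e] at h1
    cases b with
    | false =>
      refine (XT.loopK (by simp [s5]) (XT.casesF rfl (XT.seq (XT.popK 1 (upd1 _) ?_)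
        (XT.pushK 0 false (upd0 _) ?_ ?_))) h1).mono
          (by simp only [List.length_cons]; omega) <;>
      · refine bd5 ?_
        simp only [s5, List.length_cons, List.length_nil, List.tail_cons]
        omega
    | true =>
      refine (XT.loopK (by simp [s5]) (XT.casesT rfl (XT.seq (XT.popK 1 (upd1 _) ?_)
        (XT.pushK 0 true (upd0 _) ?_ ?_))) h1).mono
          (by simp only [List.length_cons]; omega) <;>
      · refine bd5 ?_
        simp only [s5, List.length_cons, List.length_nil, List.tail_cons]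
        omega

/-- read the input; stop at the first zero -/
def cntL : XC ℕ := .loop 0 (.inCases .skip (.pop 0) (.seq (.pop 0) cl1)
  (.seq incX (.inMove .right)))

/-- the result of the counting -/
def cntOut (x : List Bool) : List Bool := cond (x.all fun b => b) x.length.bits.reverse []

theorem cntL_run (hH : x.length.size + 4 ≤ H) : ∀ (l₂ l₁ : List Bool), x = l₁ ++ l₂ →
    (l₁.all fun b => b) = true →
    ∃ h', XT A x H cntL ⟨s5 [true] l₁.length.bits [] [] [], l₁.length + 1, w⟩
      ⟨s5 [] (cond (x.all fun b => b) x.length.bits []) [] [] [], h', w⟩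
        (l₂.length * (9 * x.length.size + 14) + (2 * x.length.size + 10)) := by
  intro l₂
  induction l₂ with
  | nil =>
    intro l₁ hx hall
    rw [List.append_nil] at hx
    subst hx
    refine ⟨x.length + 1, ?_⟩
    rw [hall]
    have h1 : XT A x H (.pop 0) ⟨s5 [true] x.length.bits [] [] [], x.length + 1, w⟩
        ⟨s5 [] x.length.bits [] [] [], x.length + 1, w⟩ 1 := by
      refine XT.popK 0 (upd0 _) (bd5 ?_)
      rw [Nat.size_eq_bits_len]
      simp only [List.length_cons, List.length_nil]
      omega
    obtain ⟨t, ht, h1⟩ := h1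
    exact ⟨_, by omega, XR.loopCons (by simp [s5]) (XR.inR (inSym_end x) h1)
      (XR.loopNil rfl h1.right)⟩
  | cons b l₂ ih =>
    intro l₁ hx hall
    have hlen : x.length = l₁.length + l₂.length + 1 := by rw [hx]; simp; omega
    have hs : inSym x (l₁.length + 1) = .bit b := by
      rw [hx]
      exact inSym_mid _ _ _
    have hsz : l₁.length.size ≤ x.length.size := Nat.size_le_size (by omega)
    have hsz' : (l₁.length + 1).size ≤ x.length.size := Nat.size_le_size (by omega)
    cases b with
    | false =>
      refine ⟨l₁.length + 1, ?_⟩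
      have hxa : (x.all fun b => b) = false := by
        rw [hx]
        simp
      rw [hxa]
      have h1 : XT A x H (.seq (.pop 0) cl1)
          ⟨s5 [true] l₁.length.bits [] [] [], l₁.length + 1, w⟩
          ⟨s5 [] [] [] [] [], l₁.length + 1, w⟩ (1 + (2 * l₁.length.bits.length + 1)) := by
        refine XT.seq (XT.popK 0 (upd0 _) (bd5 ?_)) (cl1_run _ ?_)
        · rw [Nat.size_eq_bits_len]
          simp only [List.length_cons, List.length_nil]
          omega
        · rw [Nat.size_eq_bits_len]
          simp only [s5, List.tail_cons, List.length_nil]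
          omega
      obtain ⟨t, ht, h1⟩ := h1
      rw [Nat.size_eq_bits_len] at ht
      refine ⟨_, ?_, XR.loopCons (by simp [s5]) (XR.inF hs h1) (XR.loopNil rfl h1.right)⟩
      have : 0 ≤ (false :: l₂).length * (9 * x.length.size + 14) := Nat.zero_le _
      omega
    | true =>
      obtain ⟨h', h3⟩ := ih (l₁ ++ [true]) (by rw [hx]; simp) (by
        rw [List.all_append, hall]
        rfl)
      refine ⟨h', ?_⟩
      have h2 : XT A x H (.seq incX (.inMove .right))
          ⟨s5 [true] l₁.length.bits [] [] [], l₁.length + 1, w⟩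
          ⟨s5 [true] (l₁ ++ [true]).length.bits [] [] [], (l₁ ++ [true]).length + 1, w⟩
          (9 * x.length.size + 12) := by
        have h5 := inc_runT (A := A) (x := x) (H := H) (h := l₁.length + 1)
          (w := w) (v := [true]) (l := l₁.length.bits) (d := []) (by
          rw [Nat.size_eq_bits_len]
          simp only [List.length_cons, List.length_nil]
          omega)
        rw [← incL_bits] at h5
        have e1 : moveHead x.length (l₁.length + 1) .right = (l₁ ++ [true]).length + 1 := by
          simp only [moveHead, List.length_append, List.length_singleton]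
          omega
        have e2 : (l₁ ++ [true]).length = l₁.length + 1 := by simp
        have h6 := XR.inMove (A := A) (x := x) (H := H)
          ⟨s5 [true] (l₁.length + 1).bits [] [] [], l₁.length + 1, w⟩ .right
          (bd5 (by
            rw [Nat.size_eq_bits_len]
            simp only [List.length_cons, List.length_nil]
            omega))
        simp only at h6
        rw [e1] at h6
        rw [e2] at h6 ⊢
        rw [Nat.size_eq_bits_len] at h5
        exact (h5.seq ⟨_, le_rfl, h6⟩).mono (by omega)
      obtain ⟨t, ht, h2⟩ := h2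
      obtain ⟨t', ht', h3⟩ := h3
      refine ⟨_, ?_, XR.loopCons (by simp [s5]) (XR.inT hs h2) h3⟩
      have e4 : (true :: l₂).length * (9 * x.length.size + 14) =
          l₂.length * (9 * x.length.size + 14) + (9 * x.length.size + 14) := by
        simp only [List.length_cons]
        ring
      omega

theorem s5_st (a b c : List Bool) : s5 a b c [] [] = st a b c := by
  funext i
  match i with
  | 0 | 1 | 2 | 3 | 4 | _ + 5 => rfl

/-- Count the input, which has to consist of ones. -/
def cntX : XC ℕ := .seq (.push 0 true) (.seq (.inMove .right) (.seq cntL mv1))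

theorem cntX_run (A : Oracle) (x : List Bool) (H : ℕ) (hH : x.length.size + 4 ≤ H) :
    ∃ h, XT A x H cntX ⟨st [] [] [], 0, []⟩ ⟨st (cntOut x) [] [], h, []⟩
      (x.length * (9 * x.length.size + 14) + (7 * x.length.size + 14)) := by
  obtain ⟨h', h1⟩ := cntL_run (A := A) (x := x) (H := H) (w := []) hH x [] rfl rfl
  have h2 : XT A x H (.push 0 true) ⟨s5 [] [] [] [] [], 0, []⟩ ⟨s5 [true] [] [] [] [], 0, []⟩ 2 :=
    XT.pushK 0 true (upd0 _) (bd5 (by simp)) (bd5 (by
      simp only [s5, List.length_cons, List.length_nil]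
      omega))
  have h3 : XT A x H (.inMove .right) ⟨s5 [true] [] [] [] [], 0, []⟩
      ⟨s5 [true] [] [] [] [], 1, []⟩ 1 := by
    have h := XR.inMove (A := A) (x := x) (H := H)
      ⟨s5 [true] [] [] [] [], 0, []⟩ .right (bd5 (by
        simp only [List.length_cons, List.length_nil]
        omega))
    simp only [moveHead] at h
    rw [show min (0 + 1) (x.length + 1) = 1 by omega] at h
    exact ⟨_, le_rfl, h⟩
  set l := cond (x.all fun b => b) x.length.bits [] with hl
  have hll : l.length ≤ x.length.size := by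
    rw [hl]
    cases x.all fun b => b
    · simp
    · simp only [cond_true]
      rw [Nat.size_eq_bits_len]
  have h4 := mv1_run (A := A) (x := x) (H := H) (h := h') (w := []) l []
    (by simp only [List.length_nil]; omega)
  have e : l.reverse ++ [] = cntOut x := by
    rw [hl]
    unfold cntOut
    cases x.all fun b => b <;> simp
  rw [e] at h4
  rw [← s5_st, ← s5_st]
  exact ⟨h', (h2.seq (h3.seq (h1.seq h4))).mono (by omega)⟩

/-- the front that counts tally inputs -/
def cntF : Front where
  prog := cntX
  out := cntOut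
  tm n := n * (9 * n.size + 14) + (7 * n.size + 14)
  ht n := n.size + 4
  run := cntX_run

end

end Pool.Agent.J4H22
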