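import Pool.Agent.J4H22.Parity

/-!
# Growth of towers
-/

namespace Pool.Agent.J4H22

open Pool.Agent.NPC

/-- A polynomial of a tower of a polynomial is eventually less than the next tower. -/
theorem growth (q p : Polynomial ℕ) (i : ℕ) :
    ∃ n1, ∀ n ≥ n1, q.eval (tw i (p.eval n)) < tw (i + 1) n := by
  obtain ⟨u, hu⟩ := tw_absorb i q
  obtain ⟨n1, hn1⟩ := poly_le_two_pow (u.comp p + 1)
  refine ⟨n1, fun n hn => (hu _).trans_lt ?_⟩
  rw [tw_succ']
  refine tw_strictMono i ?_
  have h1 := hn1 n hn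
  simp only [Polynomial.eval_add, Polynomial.eval_comp, Polynomial.eval_one] at h1
  omega

/-- A polynomial of the logarithm is eventually less than the number. -/
theorem growth_log (q : Polynomial ℕ) : ∃ n1, ∀ n ≥ n1, q.eval (Nat.log 2 n) < n := by
  obtain ⟨n1, hn1⟩ := poly_le_two_pow (q + 1)
  refine ⟨2 ^ n1, fun n hn => ?_⟩
  have hn0 : n ≠ 0 := by
    have : 0 < 2 ^ n1 := by positivity
    omega
  have h1 := hn1 (Nat.log 2 n) (Nat.le_log_of_pow_le (by norm_num) hn)
  simp only [Polynomial.eval_add, Polynomial.eval_one] at h1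
  have h2 := Nat.pow_log_le_self 2 hn0
  omega

theorem size_le_log (n : ℕ) : n.size ≤ Nat.log 2 n + 1 := by
  rw [Nat.size_le]
  exact Nat.lt_pow_succ_log_self (by norm_num) n

/-- the resource bounds for the classes of even index -/
def Rf : ℕ → ℕ → ℕ → ℕ
  | 0, c, n => c * Nat.log 2 n + c
  | i + 1, c, n => tw i ((n + 2) ^ c)

theorem sim_Rf {A : Oracle} {L : Set ℕ} {i : ℕ} (h : L ∈ C (some A) (2 * i)) :
    ∃ c, Sim A false L (Rf i c) := by
  cases i with
  | zero => exact sim_log h
  | succ i =>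
    obtain ⟨p, hp⟩ := sim_space (i := i) h
    obtain ⟨c, hc⟩ := poly_le_pow p
    exact ⟨c, hp.mono fun n => tw_mono i (hc n)⟩

/-- the number of steps of these jobs -/
theorem Rf_steps (i c K : ℕ) : ∃ p : Polynomial ℕ, ∀ n,
    2 ^ (K * (2 * Rf i c n + 1)) ≤ tw i (p.eval n) := by
  cases i with
  | zero =>
    refine ⟨Polynomial.C (2 ^ (K * (2 * c + 1))) * (Polynomial.X + 1) ^ (2 * c * K), fun n => ?_⟩
    show 2 ^ (K * (2 * (c * Nat.log 2 n + c) + 1)) ≤ _
    have e1 : K * (2 * (c * Nat.log 2 n + c) + 1) =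
        K * (2 * c + 1) + Nat.log 2 n * (2 * c * K) := by ring
    rw [e1, pow_add, pow_mul (2 : ℕ) (Nat.log 2 n)]
    show _ ≤ Polynomial.eval n _
    simp only [Polynomial.eval_mul, Polynomial.eval_C, Polynomial.eval_pow, Polynomial.eval_add,
      Polynomial.eval_X, Polynomial.eval_one]
    refine Nat.mul_le_mul_left _ (Nat.pow_le_pow_left ?_ _)
    rcases Nat.eq_zero_or_pos n with rfl | h0
    · simp
    · exact (Nat.pow_log_le_self 2 (by omega)).trans (Nat.le_succ _)
  | succ i =>
    obtain ⟨u, hu⟩ := tw_absorb i (Polynomial.C K * (2 * Polynomial.X + 1))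
    refine ⟨u.comp ((Polynomial.X + 2) ^ c), fun n => ?_⟩
    show 2 ^ (K * (2 * tw i ((n + 2) ^ c) + 1)) ≤ 2 ^ _
    refine Nat.pow_le_pow_right (by norm_num) ?_
    have h1 := hu ((n + 2) ^ c)
    simp only [Polynomial.eval_mul, Polynomial.eval_C, Polynomial.eval_add, Polynomial.eval_X,
      Polynomial.eval_one, Polynomial.eval_ofNat] at h1
    simpa [Polynomial.eval_comp] using h1

/-- the configurations of these jobs are few -/
theorem Rf_small (i c k : ℕ) (q : Polynomial ℕ) : ∃ n1, ∀ n ≥ n1,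
    q.eval (k + sz (([], n, true) : VI) + Rf i c n) < tw i n := by
  have hsz : ∀ n : ℕ, sz (([], n, true) : VI) ≤ 4 * n.size + 7 := by
    intro n
    have := sz_nat_le n
    simp only [sz_pair, sz_list_nil, sz_true]
    omega
  cases i with
  | zero =>
    obtain ⟨n1, hn1⟩ := growth_log (q.comp (Polynomial.C k + 4 * (Polynomial.X + 1) + 7 +
      (Polynomial.C c * Polynomial.X + Polynomial.C c)))
    refine ⟨n1, fun n hn => lt_of_le_of_lt (eval_mono q ?_) (by
      have := hn1 n hn
      rw [Polynomial.eval_comp] at this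
      exact this)⟩
    simp only [Polynomial.eval_add, Polynomial.eval_mul, Polynomial.eval_C, Polynomial.eval_X,
      Polynomial.eval_ofNat, Polynomial.eval_one]
    have h1 := hsz n
    have h2 := size_le_log n
    show k + sz (([], n, true) : VI) + (c * Nat.log 2 n + c) ≤ _
    omega
  | succ i =>
    obtain ⟨n1, hn1⟩ := growth (q.comp (Polynomial.C k + 4 * Polynomial.X + 7 + Polynomial.X))
      ((Polynomial.X + 2) ^ c + Polynomial.X) i
    refine ⟨n1, fun n hn => lt_of_le_of_lt (eval_mono q ?_) (by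
      have := hn1 n hn
      rw [Polynomial.eval_comp] at this
      exact this)⟩
    simp only [Polynomial.eval_add, Polynomial.eval_mul, Polynomial.eval_C, Polynomial.eval_X,
      Polynomial.eval_ofNat, Polynomial.eval_pow]
    have h1 := hsz n
    have h2 := NPC.Poly.size_le_self n
    have h3 : n ≤ tw i ((n + 2) ^ c + n) := (by omega : n ≤ (n + 2) ^ c + n).trans (le_tw i _)
    have h4 : tw i ((n + 2) ^ c) ≤ tw i ((n + 2) ^ c + n) := tw_mono i (by omega)
    show k + sz (([], n, true) : VI) + tw i ((n + 2) ^ c) ≤ _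
    omega

/-- If `k^2` is at most the logarithm of a polynomial of `n`, then a polynomial of a tower of
`2^k` is eventually less than the tower of `n`. -/
theorem growth_sq (q p : Polynomial ℕ) (i : ℕ) : ∃ n1, ∀ n ≥ n1, ∀ k,
    2 ^ (k ^ 2) ≤ p.eval n → q.eval (tw i (2 ^ k)) < tw i n := by
  obtain ⟨u, hu⟩ := tw_absorb i q
  obtain ⟨c, hc⟩ := poly_le_pow u
  obtain ⟨e, he⟩ := poly_le_pow p
  -- `k` is large as soon as `n` is large
  refine ⟨2 ^ (((c + 1) * (e + 1) * 10 + 2) * c) + 2, fun n hn k hk => (hu _).trans_lt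
    (tw_strictMono i ?_)⟩
  by_contra hcon
  push Not at hcon
  have hn2 : 2 ≤ n := (Nat.le_add_left _ _).trans hn
  have h1 : n ≤ 2 ^ ((k + 2) * c) := by
    refine hcon.trans ((hc _).trans ?_)
    rw [pow_mul]
    refine Nat.pow_le_pow_left ?_ c
    rw [pow_add]
    have : 1 ≤ 2 ^ k := Nat.one_le_two_pow
    omega
  have h2 : n + 2 ≤ 2 ^ ((k + 2) * c + 1) := by
    rw [pow_succ]
    omega
  have h3 : 2 ^ (k ^ 2) ≤ 2 ^ (((k + 2) * c + 1) * e) := by
    refine hk.trans ((he n).trans ?_)
    rw [pow_mul]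
    exact Nat.pow_le_pow_left h2 e
  have h4 : k ^ 2 ≤ ((k + 2) * c + 1) * e := (Nat.pow_le_pow_iff_right (by norm_num)).1 h3
  have h5 : k ≤ (c + 1) * (e + 1) * 10 := by
    by_contra h6
    push Not at h6
    have h7 : ((k + 2) * c + 1) * e < k * k := by
      have h8 : (k + 2) * c + 1 ≤ (3 * k + 1) * (c + 1) := by nlinarith
      have h9 : ((k + 2) * c + 1) * e ≤ (3 * k + 1) * ((c + 1) * (e + 1)) := by
        calc ((k + 2) * c + 1) * e ≤ ((3 * k + 1) * (c + 1)) * (e + 1) :=
              Nat.mul_le_mul h8 (by omega)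
          _ = _ := by ring
      have h10 : (3 * k + 1) * ((c + 1) * (e + 1)) ≤ (4 * k) * ((c + 1) * (e + 1)) :=
        Nat.mul_le_mul_right _ (by omega)
      have h11 : (4 * k) * ((c + 1) * (e + 1)) < k * k := by
        have : 4 * ((c + 1) * (e + 1)) < k := by omega
        calc (4 * k) * ((c + 1) * (e + 1)) = k * (4 * ((c + 1) * (e + 1))) := by ring
          _ < k * k := Nat.mul_lt_mul_of_pos_left this (by omega)
      omega
    rw [pow_two] at h4
    omega
  have h6 : 2 ^ ((k + 2) * c) ≤ 2 ^ (((c + 1) * (e + 1) * 10 + 2) * c) :=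
    Nat.pow_le_pow_right (by norm_num) (Nat.mul_le_mul_right _ (by omega))
  omega

end Pool.Agent.J4H22
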