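import Pool.Agent.J4H22.Sim

/-!
# The running time of space bounded machines; machines without oracle
-/

namespace Pool.Agent.J4H22

open Pool.Agent.NPC

variable {M : Machine}

/-- the configuration without the oracle tape -/
def red (c : Cfg M) : M.Q × ℕ × (Fin M.k → Tape M.Γ) := (c.q, c.h, c.tp)

theorem act_red {x : List Bool} {c c' : Cfg M} (h : red c = red c') :
    M.act x c = M.act x c' := by
  simp only [red, Prod.mk.injEq] at h
  obtain ⟨h1, h2, h3⟩ := h
  unfold Machine.act
  rw [h1, h2, h3]

theorem next_red {A : Oracle} {x : List Bool} {c c' : Cfg M} (h : red c = red c')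
    (ha : ∀ q, M.act x c ≠ .ask q) : red (M.next A x c) = red (M.next A x c') := by
  have h0 := act_red (x := x) h
  have h4 := h
  simp only [red, Prod.mk.injEq] at h
  obtain ⟨h1, h2, h3⟩ := h
  unfold Machine.next
  rw [← h0]
  cases hact : M.act x c with
  | accept => exact h4
  | reject => exact h4
  | step q d w m e =>
    simp only [red, h2, h3]
  | ask q => exact absurd hact (ha q)

/-- the time just after the last question before time `i` -/
noncomputable def lastAsk (M : Machine) (A : Oracle) (x : List Bool) : ℕ → ℕ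
  | 0 => 0
  | i + 1 => by
      classical
      exact if ∃ q, M.act x (M.conf A x i) = .ask q then i + 1 else lastAsk M A x i

theorem conf_succ (M : Machine) (A : Oracle) (x : List Bool) (n : ℕ) :
    M.conf A x (n + 1) = M.next A x (M.conf A x n) := by
  unfold Machine.conf
  rw [Function.iterate_succ_apply']

theorem lastAsk_spec (M : Machine) (A : Oracle) (x : List Bool) (i : ℕ) :
    lastAsk M A x i ≤ i ∧ (M.conf A x (lastAsk M A x i)).w = [] ∧
      ∀ t, lastAsk M A x i ≤ t → t < i → ∀ q, M.act x (M.conf A x t) ≠ .ask q := by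
  classical
  induction i with
  | zero => exact ⟨le_rfl, rfl, fun t _ ht => by omega⟩
  | succ i ih =>
    by_cases h : ∃ q, M.act x (M.conf A x i) = .ask q
    · have e : lastAsk M A x (i + 1) = i + 1 := by
        unfold lastAsk
        rw [if_pos h]
      rw [e]
      refine ⟨le_rfl, ?_, fun t h1 h2 => by omega⟩
      obtain ⟨q, hq⟩ := h
      rw [conf_succ]
      unfold Machine.next
      rw [hq]
    · have e : lastAsk M A x (i + 1) = lastAsk M A x i := by
        conv_lhs => unfold lastAsk
        rw [if_neg h]
      rw [e]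
      refine ⟨ih.1.trans (Nat.le_succ _), ih.2.1, fun t h1 h2 q => ?_⟩
      rcases Nat.lt_or_ge t i with h3 | h3
      · exact ih.2.2 t h1 h3 q
      · obtain rfl : t = i := by omega
        intro hcon
        exact h ⟨q, hcon⟩

theorem conf_eq_of_red {c c' : Cfg M} (h : red c = red c') (hw : c.w = c'.w) : c = c' := by
  simp only [red, Prod.mk.injEq] at h
  obtain ⟨h1, h2, h3⟩ := h
  cases c
  cases c'
  simp_all

theorem conf_shift {A : Oracle} {x : List Bool} {a b : ℕ} (h : M.conf A x a = M.conf A x b)
    (m : ℕ) : M.conf A x (a + m) = M.conf A x (b + m) := by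
  induction m with
  | zero => exact h
  | succ m ih => rw [← Nat.add_assoc, ← Nat.add_assoc, conf_succ, conf_succ, ih]

theorem red_injective {A : Oracle} {x : List Bool} {N : ℕ} {b : Bool}
    (hN : M.act x (M.conf A x N) = verdict b)
    (hmin : ∀ i < N, ∀ b, M.act x (M.conf A x i) ≠ verdict b) {i j : ℕ} (hij : i < j)
    (hj : j < N) (h1 : red (M.conf A x i) = red (M.conf A x j))
    (h2 : red (M.conf A x (lastAsk M A x i)) = red (M.conf A x (lastAsk M A x j))) : False := by
  obtain ⟨hi1, hi2, hi3⟩ := lastAsk_spec M A x i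
  obtain ⟨hj1, hj2, hj3⟩ := lastAsk_spec M A x j
  have h3 := conf_eq_of_red h2 (by rw [hi2, hj2])
  -- no repetition of complete configurations
  have norep : ∀ a e, a < e → e < N → M.conf A x a ≠ M.conf A x e := by
    intro a e hab hb hcon
    have h4 := conf_shift hcon (N - e)
    rw [show e + (N - e) = N by omega] at h4
    refine hmin (a + (N - e)) (by omega) b ?_
    rw [h4]
    exact hN
  have h4 : lastAsk M A x i = lastAsk M A x j := by
    rcases Nat.lt_trichotomy (lastAsk M A x i) (lastAsk M A x j) with h5 | h5 | h5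
    · exact absurd h3 (norep _ _ h5 (by omega))
    · exact h5
    · exact absurd h3.symm (norep _ _ h5 (by omega))
  have key : ∀ m, j + m ≤ N → red (M.conf A x (i + m)) = red (M.conf A x (j + m)) ∧
      ∀ q, M.act x (M.conf A x (i + m)) ≠ .ask q := by
    intro m
    induction m using Nat.strong_induction_on with
    | _ m ih =>
      intro hm
      constructor
      · cases m with
        | zero => exact h1
        | succ m =>
          obtain ⟨h5, h6⟩ := ih m (by omega) (by omega)
          rw [← Nat.add_assoc, ← Nat.add_assoc, conf_succ, conf_succ]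
          exact next_red h5 h6
      · rcases Nat.lt_or_ge (i + m) j with h5 | h5
        · exact hj3 _ (by omega) h5
        · obtain ⟨m', hm'⟩ : ∃ m', i + m = j + m' := ⟨i + m - j, by omega⟩
          obtain ⟨h6, h7⟩ := ih m' (by omega) (by omega)
          rw [hm', ← act_red h6]
          exact h7
  obtain ⟨h5, _⟩ := key (N - j) (by omega)
  rw [show j + (N - j) = N by omega] at h5
  refine hmin (i + (N - j)) (by omega) b ?_
  rw [act_red h5]
  exact hN

/-- the type of codes of the reduced configurations -/
abbrev RC (M : Machine) (n s : ℕ) : Type :=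
  M.Q × Fin (n + 2) × (Fin M.k → (Fin s → Option M.Γ) × (Fin s → Option M.Γ))

/-- the code of a reduced configuration -/
def rc (n s : ℕ) (c : Cfg M) : RC M n s :=
  (c.q, Fin.ofNat (n + 2) c.h, fun i =>
    (fun j => (c.tp i).l[(j : ℕ)]?, fun j => ((c.tp i).c :: (c.tp i).r)[(j : ℕ)]?))

theorem list_eq_of_pad {α : Type} {s : ℕ} {l l' : List α} (hl : l.length ≤ s) (hl' : l'.length ≤ s)
    (h : (fun j : Fin s => l[(j : ℕ)]?) = fun j : Fin s => l'[(j : ℕ)]?) : l = l' := by
  apply List.ext_getElem?
  intro i
  rcases Nat.lt_or_ge i s with h1 | h1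
  · exact congrFun h ⟨i, h1⟩
  · rw [List.getElem?_eq_none (by omega), List.getElem?_eq_none (by omega)]

theorem red_of_rc {n s : ℕ} {c c' : Cfg M} (hs : M.space c ≤ s) (hs' : M.space c' ≤ s)
    (hh : c.h ≤ n + 1) (hh' : c'.h ≤ n + 1) (h : rc n s c = rc n s c') : red c = red c' := by
  have hcell : ∀ (c : Cfg M), M.space c ≤ s → ∀ i, (c.tp i).cells ≤ s := fun c hc i =>
    (Finset.single_le_sum (f := fun i => (c.tp i).cells) (fun _ _ => Nat.zero_le _)
      (Finset.mem_univ i)).trans hc
  simp only [rc, Prod.mk.injEq] at h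
  obtain ⟨h1, h2, h3⟩ := h
  have h4 : c.h = c'.h := by
    have := congrArg Fin.val h2
    simp only [Fin.ofNat] at this
    rwa [Nat.mod_eq_of_lt (by omega), Nat.mod_eq_of_lt (by omega)] at this
  simp only [red, Prod.mk.injEq]
  refine ⟨h1, h4, ?_⟩
  funext i
  have h5 := congrFun h3 i
  simp only [Prod.mk.injEq] at h5
  have h6 := hcell c hs i
  have h7 := hcell c' hs' i
  unfold Tape.cells at h6 h7
  have h8 := list_eq_of_pad (by omega) (by omega) h5.1
  have h9 := list_eq_of_pad (l := (c.tp i).c :: (c.tp i).r) (l' := (c'.tp i).c :: (c'.tp i).r)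
    (by simp only [List.length_cons]; omega) (by simp only [List.length_cons]; omega) h5.2
  simp only [List.cons.injEq] at h9
  generalize c.tp i = t at *
  generalize c'.tp i = t' at *
  cases t
  cases t'
  simp_all

theorem head_le (A : Oracle) (x : List Bool) (n : ℕ) : (M.conf A x n).h ≤ x.length + 1 := by
  induction n with
  | zero => exact Nat.zero_le _
  | succ n ih =>
    rw [conf_succ]
    unfold Machine.next
    split
    · exact ih
    · exact ih
    · rename_i q d w m e _
      simp only
      cases d
      · simp only [moveHead]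
        omega
      · simp only [moveHead]
        omega
      · simp only [moveHead]
        omega
    · exact ih

/-- A machine that halts and uses at most `s` cells halts within this time. -/
theorem halt_time (M : Machine) : ∃ K : ℕ, ∀ (A : Oracle) (x : List Bool) (s : ℕ),
    (∀ n, M.space (M.conf A x n) ≤ s) → (∃ n b, M.act x (M.conf A x n) = verdict b) →
    ∃ n ≤ 2 ^ (K * (s + Nat.log 2 x.length + 1)), ∃ b, M.act x (M.conf A x n) = verdict b := by
  classical
  have := M.finQ
  have := M.finΓ
  refine ⟨2 * Fintype.card M.Q + 4 + 4 * (Fintype.card M.Γ + 1) * M.k, ?_⟩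
  intro A x s hs hh
  have hN := Nat.find_spec hh
  set N := Nat.find hh with hNdef
  obtain ⟨b, hb⟩ := hN
  refine ⟨N, ?_, b, hb⟩
  have hmin : ∀ i < N, ∀ b, M.act x (M.conf A x i) ≠ verdict b := fun i hi b hcon =>
    Nat.find_min hh hi ⟨b, hcon⟩
  let F : Fin N → RC M x.length s × RC M x.length s := fun i =>
    (rc x.length s (M.conf A x i), rc x.length s (M.conf A x (lastAsk M A x i)))
  have hF : Function.Injective F := by
    have key : ∀ i j : Fin N, (i : ℕ) < j → F i ≠ F j := by
      intro i j hij h
      simp only [F, Prod.mk.injEq] at h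
      exact red_injective hb hmin hij j.2
        (red_of_rc (hs _) (hs _) (head_le _ _ _) (head_le _ _ _) h.1)
        (red_of_rc (hs _) (hs _) (head_le _ _ _) (head_le _ _ _) h.2)
    intro i j h
    rcases Nat.lt_trichotomy (i : ℕ) j with h1 | h1 | h1
    · exact absurd h (key i j h1)
    · exact Fin.ext h1
    · exact absurd h.symm (key j i h1)
  have hcard := Fintype.card_le_of_injective F hF
  rw [Fintype.card_fin, Fintype.card_prod] at hcard
  have h1 : Fintype.card (RC M x.length s) = Fintype.card M.Q * ((x.length + 2) *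
      (((Fintype.card M.Γ + 1) ^ s * (Fintype.card M.Γ + 1) ^ s) ^ M.k)) := by
    simp [RC]
  set g := Fintype.card M.Γ + 1 with hg
  set Q := Fintype.card M.Q with hQ
  have h2 : Q ≤ 2 ^ Q := Nat.lt_two_pow_self.le
  have h3 : x.length + 2 ≤ 2 ^ (Nat.log 2 x.length + 2) := by
    have h4 := Nat.lt_pow_succ_log_self (b := 2) (by norm_num) x.length
    rw [pow_succ] at h4 ⊢
    have h5 : 1 ≤ 2 ^ Nat.log 2 x.length := Nat.one_le_two_pow
    rw [pow_succ]
    omega
  have h4 : (g ^ s * g ^ s) ^ M.k ≤ 2 ^ (g * (2 * s) * M.k) := by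
    rw [← pow_add, ← two_mul, pow_mul (2 : ℕ), pow_mul (2 : ℕ)]
    exact Nat.pow_le_pow_left (Nat.pow_le_pow_left Nat.lt_two_pow_self.le _) _
  have h5 : Fintype.card (RC M x.length s) ≤
      2 ^ (Q + (Nat.log 2 x.length + 2) + g * (2 * s) * M.k) := by
    rw [h1, pow_add, pow_add, mul_assoc]
    exact Nat.mul_le_mul h2 (Nat.mul_le_mul h3 h4)
  refine hcard.trans ((Nat.mul_le_mul h5 h5).trans ?_)
  rw [← pow_add]
  refine Nat.pow_le_pow_right (by norm_num) ?_
  set l := Nat.log 2 x.length
  have e1 : Q + (l + 2) + g * (2 * s) * M.k + (Q + (l + 2) + g * (2 * s) * M.k) =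
      2 * Q + 2 * l + 4 + 4 * g * M.k * s := by ring
  have e2 : (2 * Q + 4 + 4 * g * M.k) * (s + l + 1) =
      2 * Q + 4 + 4 * g * M.k * s + (4 * g * M.k) * (l + 1) + (2 * Q + 4) * (s + l) := by ring
  rw [e1, e2]
  have : 2 * l ≤ (2 * Q + 4) * (s + l) := by nlinarith [Nat.zero_le (Q * (s + l))]
  omega

/-! ### Machines without oracle -/

/-- remove the access to the oracle; the answers are taken to be `false` -/
def Action.strip {k : ℕ} {Γ Q : Type} (g : Fin k → Γ) : Action k Γ Q → Action k Γ Q
  | .accept => .accept
  | .reject => .reject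
  | .step q d w m _ => .step q d w m none
  | .ask q => .step (q false) .stay g (fun _ => .stay) none

/-- the machine without access to the oracle -/
def Machine.strip (M : Machine) : Machine where
  k := M.k
  Γ := M.Γ
  Q := M.Q
  finΓ := M.finΓ
  finQ := M.finQ
  blank := M.blank
  start := M.start
  δ := fun q s g => (M.δ q s g).strip g

theorem strip_plain (M : Machine) : M.strip.Plain := by
  intro q s g
  have e : M.strip.δ q s g = (M.δ q s g).strip g := rfl
  rw [e]
  cases M.δ q s g with
  | accept => trivial
  | reject => trivial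
  | step q d w m e => rfl
  | ask q => rfl

theorem strip_conf (M : Machine) (A : Oracle) (x : List Bool) (n : ℕ) :
    ((M.strip).conf A x n).q = (M.conf (fun _ => false) x n).q ∧
    ((M.strip).conf A x n).h = (M.conf (fun _ => false) x n).h ∧
    ((M.strip).conf A x n).tp = (M.conf (fun _ => false) x n).tp := by
  induction n with
  | zero => exact ⟨rfl, rfl, rfl⟩
  | succ n ih =>
    obtain ⟨h1, h2, h3⟩ := ih
    have hact : M.strip.act x (M.strip.conf A x n) =
        (M.act x (M.conf (fun _ => false) x n)).strip
          (fun i => ((M.conf (fun _ => false) x n).tp i).c) := by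
      show (M.δ _ _ _).strip _ = _
      rw [h1, h2, h3]
      rfl
    rw [conf_succ, conf_succ]
    unfold Machine.next
    rw [hact]
    cases M.act x (M.conf (fun _ => false) x n) with
    | accept => exact ⟨h1, h2, h3⟩
    | reject => exact ⟨h1, h2, h3⟩
    | step q d w m e =>
      refine ⟨rfl, ?_, ?_⟩
      · simp only [Action.strip, h2]
      · simp only [Action.strip, h3]
        rfl
    | ask q =>
      refine ⟨rfl, ?_, ?_⟩
      · simp only [Action.strip, h2, moveHead]
      · simp only [Action.strip, h3]
        rfl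

theorem strip_act (M : Machine) (A : Oracle) (x : List Bool) (n : ℕ) {b : Bool}
    (h : M.act x (M.conf (fun _ => false) x n) = verdict b) :
    M.strip.act x (M.strip.conf A x n) = verdict b := by
  obtain ⟨h1, h2, h3⟩ := strip_conf M A x n
  have hact : M.strip.act x (M.strip.conf A x n) =
      (M.act x (M.conf (fun _ => false) x n)).strip
        (fun i => ((M.conf (fun _ => false) x n).tp i).c) := by
    show (M.δ _ _ _).strip _ = _
    rw [h1, h2, h3]
    rfl
  rw [hact, h]
  cases b <;> rfl

theorem strip_space (M : Machine) (A : Oracle) (x : List Bool) (n : ℕ) :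
    M.strip.space (M.strip.conf A x n) = M.space (M.conf (fun _ => false) x n) := by
  obtain ⟨h1, h2, h3⟩ := strip_conf M A x n
  unfold Machine.space
  rw [h3]
  rfl

theorem strip_correct {M : Machine} {L : Set ℕ} {x n : ℕ}
    (h : Correct M (fun _ => false) L x n) (A : Oracle) : Correct M.strip A L x n :=
  ⟨fun hx => strip_act M A (bin x) n (b := true) (h.1 hx),
    fun hx => strip_act M A (bin x) n (b := false) (h.2 hx)⟩

/-- Without an oracle and with the empty oracle the classes are the same. -/
theorem C_none (j : ℕ) : C none j = C (some fun _ => false) j := by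
  cases j with
  | zero =>
    apply Set.Subset.antisymm
    · rintro L ⟨M, c, _, h⟩
      exact ⟨M, c, trivial, h⟩
    · rintro L ⟨M, c, _, h⟩
      refine ⟨M.strip, c, strip_plain M, fun x => ?_⟩
      obtain ⟨⟨n, h1⟩, h2⟩ := h x
      refine ⟨⟨n, strip_correct h1 _⟩, fun n => ?_⟩
      rw [strip_space]
      exact h2 n
  | succ j =>
    rcases Nat.even_or_odd' j with ⟨i, rfl | rfl⟩
    · rw [exists_time, exists_time]
      apply Set.Subset.antisymm
      · rintro L ⟨M, p, _, h⟩
        exact ⟨M, p, trivial, h⟩
      · rintro L ⟨M, p, _, h⟩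
        refine ⟨M.strip, p, strip_plain M, fun x => ?_⟩
        obtain ⟨n, hn, h1⟩ := h x
        exact ⟨n, hn, strip_correct h1 _⟩
    · rw [exists_space, exists_space]
      apply Set.Subset.antisymm
      · rintro L ⟨M, p, _, h⟩
        exact ⟨M, p, trivial, h⟩
      · rintro L ⟨M, p, _, h⟩
        refine ⟨M.strip, p, strip_plain M, fun x => ?_⟩
        obtain ⟨⟨n, h1⟩, h2⟩ := h x
        refine ⟨⟨n, strip_correct h1 _⟩, fun n => ?_⟩
        rw [strip_space]
        exact h2 n

end Pool.Agent.J4H22
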