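import Pool.Agent.J4H22.Trans

/-!
# A program in logarithmic space that writes a padded code of its input
-/

namespace Pool.Agent.J4H22

open Pool.Agent.NPC
open Function (update)

/-- the state of five stacks -/
def s5 (v a b d f : List Bool) : ℕ → List Bool
  | 0 => v
  | 1 => a
  | 2 => b
  | 3 => d
  | 4 => f
  | _ => []

section

variable {v a b d f : List Bool}

theorem upd0 (l : List Bool) : update (s5 v a b d f) 0 l = s5 l a b d f := by
  funext i
  match i with
  | 0 | 1 | 2 | 3 | 4 | _ + 5 => rfl

theorem upd1 (l : List Bool) : update (s5 v a b d f) 1 l = s5 v l b d f := by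
  funext i
  match i with
  | 0 | 1 | 2 | 3 | 4 | _ + 5 => rfl

theorem upd2 (l : List Bool) : update (s5 v a b d f) 2 l = s5 v a l d f := by
  funext i
  match i with
  | 0 | 1 | 2 | 3 | 4 | _ + 5 => rfl

theorem upd3 (l : List Bool) : update (s5 v a b d f) 3 l = s5 v a b l f := by
  funext i
  match i with
  | 0 | 1 | 2 | 3 | 4 | _ + 5 => rfl

theorem upd4 (l : List Bool) : update (s5 v a b d f) 4 l = s5 v a b d l := by
  funext i
  match i with
  | 0 | 1 | 2 | 3 | 4 | _ + 5 => rfl

theorem bd5 {H : ℕ} (h : v.length + a.length + b.length + d.length + f.length ≤ H) :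
    Bd H (s5 v a b d f) := by
  intro i
  match i with
  | 0 => show v.length ≤ H; omega
  | 1 => show a.length ≤ H; omega
  | 2 => show b.length ≤ H; omega
  | 3 => show d.length ≤ H; omega
  | 4 => show f.length ≤ H; omega
  | _ + 5 => exact Nat.zero_le _

end

/-- execution of a program, without a bound for the time -/
def XE (A : Oracle) (x : List Bool) (H : ℕ) (c : XC ℕ) (σ σ' : St ℕ) : Prop :=
  ∃ t, XR A x H c σ σ' t

section

variable {A : Oracle} {x : List Bool} {H h : ℕ} {w v a b d f : List Bool}

theorem XE.seq {c e : XC ℕ} {σ σ' σ'' : St ℕ} (h1 : XE A x H c σ σ') (h2 : XE A x H e σ' σ'') :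
    XE A x H (.seq c e) σ σ'' := by
  obtain ⟨t, h1⟩ := h1
  obtain ⟨t', h2⟩ := h2
  exact ⟨_, XR.seq h1 h2⟩

theorem XE.pushK {s s' : ℕ → List Bool} (k : ℕ) (b : Bool) (e : update s k (b :: s k) = s')
    (h1 : Bd H s) (h2 : Bd H s') : XE A x H (.push k b) ⟨s, h, w⟩ ⟨s', h, w⟩ := by
  subst e
  exact ⟨_, XR.push ⟨s, h, w⟩ k b h1 h2⟩

theorem XE.popK {s s' : ℕ → List Bool} (k : ℕ) (e : update s k (s k).tail = s')
    (h1 : Bd H s) : XE A x H (.pop k) ⟨s, h, w⟩ ⟨s', h, w⟩ := by
  subst e
  exact ⟨_, XR.pop ⟨s, h, w⟩ k h1⟩

theorem XE.emit {s : ℕ → List Bool} (b : Bool) (h1 : Bd H s) :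
    XE A x H (.emit b) ⟨s, h, w⟩ ⟨s, h, w ++ [b]⟩ := ⟨_, XR.emit ⟨s, h, w⟩ b h1⟩

theorem XE.loop {k : ℕ} {c : XC ℕ} {σ σ' σ'' : St ℕ} (h0 : σ.s k ≠ []) (h1 : XE A x H c σ σ')
    (h2 : XE A x H (.loop k c) σ' σ'') : XE A x H (.loop k c) σ σ'' := by
  obtain ⟨t, h1⟩ := h1
  obtain ⟨t', h2⟩ := h2
  exact ⟨_, XR.loopCons h0 h1 h2⟩

theorem XE.done {k : ℕ} {c : XC ℕ} {σ : St ℕ} (h0 : σ.s k = []) (h1 : Bd H σ.s) :
    XE A x H (.loop k c) σ σ := ⟨_, XR.loopNil h0 h1⟩

theorem XE.casesF {k : ℕ} {c0 cf ct : XC ℕ} {σ σ' : St ℕ} {l : List Bool}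
    (h0 : σ.s k = false :: l) (h1 : XE A x H cf σ σ') : XE A x H (.cases k c0 cf ct) σ σ' := by
  obtain ⟨t, h1⟩ := h1
  exact ⟨_, XR.casesFalse h0 h1⟩

theorem XE.casesT {k : ℕ} {c0 cf ct : XC ℕ} {σ σ' : St ℕ} {l : List Bool}
    (h0 : σ.s k = true :: l) (h1 : XE A x H ct σ σ') : XE A x H (.cases k c0 cf ct) σ σ' := by
  obtain ⟨t, h1⟩ := h1
  exact ⟨_, XR.casesTrue h0 h1⟩

theorem XE.casesN {k : ℕ} {c0 cf ct : XC ℕ} {σ σ' : St ℕ}
    (h0 : σ.s k = []) (h1 : XE A x H c0 σ σ') : XE A x H (.cases k c0 cf ct) σ σ' := by
  obtain ⟨t, h1⟩ := h1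
  exact ⟨_, XR.casesNil h0 h1⟩

/-! ### Writing a constant -/

/-- write a constant string -/
def emitL : List Bool → XC ℕ
  | [] => .skip
  | b :: l => .seq (.emit b) (emitL l)

theorem emitL_run {s : ℕ → List Bool} (h1 : Bd H s) :
    ∀ (l w : List Bool), XE A x H (emitL l) ⟨s, h, w⟩ ⟨s, h, w ++ l⟩ := by
  intro l
  induction l with
  | nil =>
    intro w
    rw [List.append_nil]
    exact ⟨_, XR.skip ⟨s, h, w⟩ h1⟩
  | cons b l ih =>
    intro w
    have h2 := ih (w ++ [b])
    rw [List.append_assoc, List.singleton_append] at h2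
    exact (XE.emit b h1).seq h2

/-! ### Increment of a binary counter -/

/-- number of leading ones -/
def tz : List Bool → ℕ
  | [] => 0
  | false :: _ => 0
  | true :: l => tz l + 1

/-- the rest after the first zero -/
def rst : List Bool → List Bool
  | [] => []
  | false :: l => l
  | true :: l => rst l

/-- the increment -/
def incL (l : List Bool) : List Bool := List.replicate (tz l) false ++ true :: rst l

theorem incL_bits (n : ℕ) : (n + 1).bits = incL n.bits := by
  induction n using Nat.binaryRec' with
  | zero => simp [incL, tz, rst]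
  | bit b n h ih =>
    rw [Nat.bits_append_bit _ _ h]
    cases b with
    | false =>
      have e : Nat.bit false n + 1 = Nat.bit true n := by
        simp [Nat.bit]
      rw [e, Nat.bits_append_bit _ _ (by simp)]
      simp [incL, tz, rst]
    | true =>
      have e : Nat.bit true n + 1 = Nat.bit false (n + 1) := by
        simp [Nat.bit]
        ring
      rw [e, Nat.bits_append_bit _ _ (by simp), ih]
      simp [incL, tz, rst, List.replicate_succ]

theorem tz_rst (l : List Bool) : tz l + (rst l).length ≤ l.length := by
  induction l with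
  | nil => simp [tz, rst]
  | cons b l ih =>
    cases b with
    | false => simp [tz, rst]
    | true =>
      simp only [tz, rst, List.length_cons]
      omega

/-- move markers back as zeros -/
def bk (k : ℕ) : XC ℕ := .loop 2 (.seq (.pop 2) (.push k false))

/-- the body of the increment -/
def incB : XC ℕ :=
  .cases 1 (.seq (.push 1 true) (.pop 4)) (.seq (.pop 1) (.seq (.push 1 true) (.pop 4)))
    (.seq (.pop 1) (.push 2 true))

/-- the increment of the counter on stack `1` -/
def incX : XC ℕ := .seq (.push 4 true) (.seq (.loop 4 incB) (bk 1))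

theorem bk1_run : ∀ (m : ℕ) (a : List Bool), v.length + a.length + m + d.length + f.length ≤ H →
    XE A x H (bk 1) ⟨s5 v a (List.replicate m true) d f, h, w⟩
      ⟨s5 v (List.replicate m false ++ a) [] d f, h, w⟩ := by
  intro m
  induction m with
  | zero =>
    intro a hH
    exact XE.done rfl (bd5 (by simpa using hH))
  | succ m ih =>
    intro a hH
    have h1 := ih (false :: a) (by simp only [List.length_cons]; omega)
    have e : List.replicate m false ++ false :: a = List.replicate (m + 1) false ++ a := by
      rw [List.replicate_succ', List.append_assoc]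
      rfl
    rw [e] at h1
    refine XE.loop (by simp [s5, List.replicate_succ]) (XE.seq (XE.popK 2 (upd2 _)
      (bd5 (by simp only [List.length_replicate]; omega))) (XE.pushK 1 false (upd1 _) ?_ ?_)) h1
    · refine bd5 ?_
      simp only [s5, List.length_tail, List.length_replicate]
      omega
    · refine bd5 ?_
      simp only [s5, List.length_tail, List.length_replicate, List.length_cons]
      omega

theorem bk3_run : ∀ (m : ℕ) (d : List Bool), v.length + a.length + m + d.length + f.length ≤ H →
    XE A x H (bk 3) ⟨s5 v a (List.replicate m true) d f, h, w⟩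
      ⟨s5 v a [] (List.replicate m false ++ d) f, h, w⟩ := by
  intro m
  induction m with
  | zero =>
    intro d hH
    exact XE.done rfl (bd5 (by simpa using hH))
  | succ m ih =>
    intro d hH
    have h1 := ih (false :: d) (by simp only [List.length_cons]; omega)
    have e : List.replicate m false ++ false :: d = List.replicate (m + 1) false ++ d := by
      rw [List.replicate_succ', List.append_assoc]
      rfl
    rw [e] at h1
    refine XE.loop (by simp [s5, List.replicate_succ]) (XE.seq (XE.popK 2 (upd2 _)
      (bd5 (by simp only [List.length_replicate]; omega))) (XE.pushK 3 false (upd3 _) ?_ ?_)) h1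
    · refine bd5 ?_
      simp only [s5, List.length_tail, List.length_replicate]
      omega
    · refine bd5 ?_
      simp only [s5, List.length_tail, List.length_replicate, List.length_cons]
      omega

theorem inc_loop : ∀ (l : List Bool) (j : ℕ), v.length + l.length + j + d.length + 2 ≤ H →
    XE A x H (.loop 4 incB) ⟨s5 v l (List.replicate j true) d [true], h, w⟩
      ⟨s5 v (true :: rst l) (List.replicate (j + tz l) true) d [], h, w⟩ := by
  intro l
  induction l with
  | nil =>
    intro j hH
    simp only [List.length_nil] at hH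
    refine XE.loop (by simp [s5]) (XE.casesN rfl (XE.seq (XE.pushK 1 true (upd1 _) ?_ ?_)
      (XE.popK 4 (upd4 _) ?_))) (XE.done rfl ?_) <;>
    · refine bd5 ?_
      simp only [s5, List.length_replicate, List.length_cons, List.length_nil, List.tail_cons,
        rst, tz]
      omega
  | cons b l ih =>
    intro j hH
    simp only [List.length_cons] at hH
    cases b with
    | false =>
      refine XE.loop (by simp [s5]) (XE.casesF rfl (XE.seq (XE.popK 1 (upd1 _) ?_)
        (XE.seq (XE.pushK 1 true (upd1 _) ?_ ?_) (XE.popK 4 (upd4 _) ?_)))) (XE.done rfl ?_) <;>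
      · refine bd5 ?_
        simp only [s5, List.length_replicate, List.length_cons, List.length_nil, List.tail_cons,
          rst, tz]
        omega
    | true =>
      have h1 := ih (j + 1) (by omega)
      rw [show j + 1 + tz l = j + tz (true :: l) by simp only [tz]; ring] at h1
      refine XE.loop (by simp [s5]) (XE.casesT rfl (XE.seq (XE.popK 1 (upd1 _) ?_)
        (XE.pushK 2 true (upd2 _) ?_ ?_))) h1 <;>
      · refine bd5 ?_
        simp only [s5, List.length_replicate, List.length_cons, List.length_nil, List.tail_cons]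
        omega

theorem inc_run {l : List Bool} (hH : v.length + l.length + d.length + 2 ≤ H) :
    XE A x H incX ⟨s5 v l [] d [], h, w⟩ ⟨s5 v (incL l) [] d [], h, w⟩ := by
  have h0 := tz_rst l
  have h1 := inc_loop (A := A) (x := x) (H := H) (h := h) (w := w) (v := v) (d := d) l 0
    (by omega)
  rw [Nat.zero_add] at h1
  have h2 := bk1_run (A := A) (x := x) (H := H) (h := h) (w := w) (v := v) (d := d) (f := [])
    (tz l) (true :: rst l) (by simp only [List.length_cons, List.length_nil]; omega)
  refine XE.seq (XE.pushK 4 true (upd4 _) ?_ ?_) (h1.seq h2) <;>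
  · refine bd5 ?_
    simp only [s5, List.length_cons, List.length_nil]
    omega

/-! ### Multiplication of the width -/

/-- push zeros on stack `3` -/
def pz : ℕ → XC ℕ
  | 0 => .skip
  | c + 1 => .seq (.push 3 false) (pz c)

theorem pz_run : ∀ (c : ℕ) (d : List Bool), v.length + a.length + d.length + c ≤ H →
    XE A x H (pz c) ⟨s5 v a [] d [], h, w⟩ ⟨s5 v a [] (List.replicate c false ++ d) [], h, w⟩ := by
  intro c
  induction c with
  | zero =>
    intro d hH
    exact ⟨_, XR.skip _ (bd5 (by simpa using hH))⟩
  | succ c ih =>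
    intro d hH
    have h1 := ih (false :: d) (by simp only [List.length_cons]; omega)
    have e : List.replicate c false ++ false :: d = List.replicate (c + 1) false ++ d := by
      rw [List.replicate_succ', List.append_assoc]
      rfl
    rw [e] at h1
    refine (XE.pushK 3 false (upd3 _) ?_ ?_).seq h1 <;>
    · refine bd5 ?_
      simp only [s5, List.length_cons, List.length_nil]
      omega

/-- the width of the second counter -/
def mulX (c : ℕ) : XC ℕ := .loop 1 (.seq (.pop 1) (pz c))

theorem mul_run (c : ℕ) : ∀ (l : List Bool) (m : ℕ), v.length + l.length + m + c * l.length ≤ H →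
    XE A x H (mulX c) ⟨s5 v l [] (List.replicate m false) [], h, w⟩
      ⟨s5 v [] [] (List.replicate (m + c * l.length) false) [], h, w⟩ := by
  intro l
  induction l with
  | nil =>
    intro m hH
    exact XE.done rfl (bd5 (by simpa using hH))
  | cons b l ih =>
    intro m hH
    simp only [List.length_cons, Nat.mul_succ] at hH ⊢
    have h1 := ih (m + c) (by omega)
    rw [show m + c + c * l.length = m + (c * l.length + c) by ring] at h1
    have h2 := pz_run (A := A) (x := x) (H := H) (h := h) (w := w) (v := v) (a := l) c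
      (List.replicate m false) (by simp only [List.length_replicate]; omega)
    rw [← List.replicate_add, Nat.add_comm c m] at h2
    refine XE.loop (by simp [s5]) (XE.seq (XE.popK 1 (upd1 _) ?_) h2) h1
    refine bd5 ?_
    simp only [List.length_cons, List.length_nil, List.length_replicate]
    omega

/-! ### Counting to a power of two -/

/-- the body -/
def padB : XC ℕ :=
  .cases 3 .skip (.seq (.pop 3) (.seq (.push 3 true) (.seq (bk 3) (.emit true))))
    (.seq (.pop 3) (.push 2 true))

theorem pad_run : ∀ (m : ℕ) (r w : List Bool) (σ : St ℕ), v.length + m + r.length + 1 ≤ H →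
    XE A x H (.loop 3 padB)
      ⟨s5 v [] (List.replicate m true) r [], h, w ++ List.replicate (2 ^ m - 1) true⟩ σ →
    XE A x H (.loop 3 padB) ⟨s5 v [] [] (List.replicate m false ++ r) [], h, w⟩ σ := by
  intro m
  induction m with
  | zero =>
    intro r w σ _ h1
    simpa using h1
  | succ m ih =>
    intro r w σ hH h1
    have e0 : List.replicate (m + 1) false ++ r = List.replicate m false ++ (false :: r) := by
      rw [List.replicate_succ', List.append_assoc]
      rfl
    rw [e0]
    refine ih _ _ _ (by simp only [List.length_cons]; omega) ?_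
    have h2 := bk3_run (A := A) (x := x) (H := H) (h := h)
      (w := w ++ List.replicate (2 ^ m - 1) true) (v := v) (a := []) (f := []) m (true :: r)
      (by simp only [List.length_cons, List.length_nil]; omega)
    have h3 : XE A x H (.loop 3 padB) ⟨s5 v [] [] (List.replicate m false ++ true :: r) [], h,
        w ++ List.replicate (2 ^ m - 1) true ++ [true]⟩ σ := by
      refine ih _ _ _ (by simp only [List.length_cons]; omega) ?_
      have e1 : w ++ List.replicate (2 ^ m - 1) true ++ [true] ++
          List.replicate (2 ^ m - 1) true = w ++ List.replicate (2 ^ (m + 1) - 1) true := by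
        have e2 : 2 ^ (m + 1) - 1 = (2 ^ m - 1) + (1 + (2 ^ m - 1)) := by
          have : 1 ≤ 2 ^ m := Nat.one_le_two_pow
          rw [pow_succ]
          omega
        rw [e2, List.replicate_add, List.replicate_add]
        simp [List.append_assoc]
      rw [e1]
      refine XE.loop (by simp [s5]) (XE.casesT rfl (XE.seq (XE.popK 3 (upd3 _) ?_)
        (XE.pushK 2 true (upd2 _) ?_ ?_))) h1 <;>
      · refine bd5 ?_
        simp only [s5, List.length_replicate, List.length_cons, List.length_nil,
          List.tail_cons]
        omega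
    refine XE.loop (by simp [s5]) (XE.casesF rfl (XE.seq (XE.popK 3 (upd3 _) ?_)
        (XE.seq (XE.pushK 3 true (upd3 _) ?_ ?_) (XE.seq h2 (XE.emit true ?_))))) h3 <;>
    · refine bd5 ?_
      simp only [s5, List.length_replicate, List.length_cons, List.length_nil,
        List.tail_cons, List.length_append]
      omega

/-! ### Reading the input -/

/-- write a bit of the input and count it -/
def rdc (b : Bool) : XC ℕ := .seq (.emit true) (.seq (.emit b) (.seq incX (.inMove .right)))

/-- the reading loop -/
def rdL : XC ℕ := .loop 0 (.inCases .skip (.pop 0) (rdc false) (rdc true))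

theorem rdL_run (hH : x.length.size + 4 ≤ H) : ∀ (l₂ l₁ w : List Bool), x = l₁ ++ l₂ →
    XE A x H rdL ⟨s5 [true] l₁.length.bits [] [] [], l₁.length + 1, w⟩
      ⟨s5 [] x.length.bits [] [] [], x.length + 1, w ++ l₂.flatMap fun b => [true, b]⟩ := by
  intro l₂
  induction l₂ with
  | nil =>
    intro l₁ w hx
    rw [List.append_nil] at hx
    subst hx
    simp only [List.flatMap_nil, List.append_nil]
    have h1 : XE A x H (.pop 0) ⟨s5 [true] x.length.bits [] [] [], x.length + 1, w⟩
        ⟨s5 [] x.length.bits [] [] [], x.length + 1, w⟩ := by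
      refine XE.popK 0 (upd0 _) (bd5 ?_)
      rw [Nat.size_eq_bits_len]
      simp only [List.length_cons, List.length_nil]
      omega
    obtain ⟨t, h1⟩ := h1
    exact ⟨_, XR.loopCons (by simp [s5]) (XR.inR (inSym_end x) h1) (XR.loopNil rfl h1.right)⟩
  | cons b l₂ ih =>
    intro l₁ w hx
    have h3 := ih (l₁ ++ [b]) (w ++ [true] ++ [b]) (by rw [hx]; simp)
    have hlen : x.length = l₁.length + l₂.length + 1 := by rw [hx]; simp; omega
    have hs : inSym x (l₁.length + 1) = .bit b := by
      rw [hx]
      exact inSym_mid _ _ _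
    have hsz : l₁.length.size ≤ x.length.size := Nat.size_le_size (by omega)
    have hsz' : (l₁.length + 1).size ≤ x.length.size := Nat.size_le_size (by omega)
    have h2 : XE A x H (rdc b) ⟨s5 [true] l₁.length.bits [] [] [], l₁.length + 1, w⟩
        ⟨s5 [true] (l₁ ++ [b]).length.bits [] [] [], (l₁ ++ [b]).length + 1,
          w ++ [true] ++ [b]⟩ := by
      have h5 := inc_run (A := A) (x := x) (H := H) (h := l₁.length + 1)
        (w := w ++ [true] ++ [b]) (v := [true]) (l := l₁.length.bits) (d := []) (by
        rw [Nat.size_eq_bits_len]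
        simp only [List.length_cons, List.length_nil]
        omega)
      rw [← incL_bits] at h5
      have e1 : moveHead x.length (l₁.length + 1) .right = (l₁ ++ [b]).length + 1 := by
        simp only [moveHead, List.length_append, List.length_singleton]
        omega
      have e2 : (l₁ ++ [b]).length = l₁.length + 1 := by simp
      have h6 := XR.inMove (A := A) (x := x) (H := H)
        ⟨s5 [true] (l₁.length + 1).bits [] [] [], l₁.length + 1, w ++ [true] ++ [b]⟩ .right
        (bd5 (by
          rw [Nat.size_eq_bits_len]
          simp only [List.length_cons, List.length_nil]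
          omega))
      simp only at h6
      rw [e1] at h6
      rw [e2] at h6 ⊢
      have h7 : Bd H (s5 [true] l₁.length.bits [] [] []) := bd5 (by
        rw [Nat.size_eq_bits_len]
        simp only [List.length_cons, List.length_nil]
        omega)
      exact (XE.emit true h7).seq ((XE.emit b h7).seq (h5.seq ⟨_, h6⟩))
    have e3 : w ++ (b :: l₂).flatMap (fun b => [true, b]) =
        w ++ [true] ++ [b] ++ l₂.flatMap (fun b => [true, b]) := by
      rw [List.flatMap_cons]
      simp
    rw [e3]
    obtain ⟨t, h2⟩ := h2
    obtain ⟨t', h3⟩ := h3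
    cases b
    · exact ⟨_, XR.loopCons (by simp [s5]) (XR.inF hs h2) h3⟩
    · exact ⟨_, XR.loopCons (by simp [s5]) (XR.inT hs h2) h3⟩

/-! ### The whole program -/

/-- the code of a computation with a pad -/
def cs0 (e : Code × ℕ) (x : List Bool) (R : ℕ) : List Bool :=
  true :: bits e ++ x.flatMap (fun b => [true, b]) ++ [false] ++ List.replicate R true

/-- the whole program -/
def prog0 (e : Code × ℕ) (c : ℕ) : XC ℕ :=
  .seq (emitL (true :: bits e)) (.seq (.push 0 true) (.seq (.inMove .right) (.seq rdL
    (.seq (.emit false) (.seq (mulX c) (.seq (.loop 3 padB)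
      (.ask (.push 0 false) (.push 0 true))))))))

theorem prog0_run (e : Code × ℕ) (c : ℕ) (hH : (c + 1) * x.length.size + 5 ≤ H) :
    ∃ h' w' g, XE A x H (prog0 e c) ⟨s5 [] [] [] [] [], 0, []⟩
      ⟨s5 (A (cs0 e x (2 ^ (c * x.length.size) - 1)) :: g) [] w' [] [], h', []⟩ := by
  set m := x.length.size with hm
  have hH' : (c + 1) * m = c * m + m := by ring
  have h1 : XE A x H (emitL (true :: bits e)) ⟨s5 [] [] [] [] [], 0, []⟩
      ⟨s5 [] [] [] [] [], 0, [] ++ (true :: bits e)⟩ := emitL_run (bd5 (by simp)) _ _
  rw [List.nil_append] at h1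
  have h2 : XE A x H (.push 0 true) ⟨s5 [] [] [] [] [], 0, true :: bits e⟩
      ⟨s5 [true] [] [] [] [], 0, true :: bits e⟩ :=
    XE.pushK 0 true (upd0 _) (bd5 (by simp)) (bd5 (by
      simp only [s5, List.length_cons, List.length_nil]
      omega))
  have h3 : XE A x H (.inMove .right) ⟨s5 [true] [] [] [] [], 0, true :: bits e⟩
      ⟨s5 [true] [] [] [] [], 1, true :: bits e⟩ := by
    have h := XR.inMove (A := A) (x := x) (H := H)
      ⟨s5 [true] [] [] [] [], 0, true :: bits e⟩ .right (bd5 (by
        simp only [List.length_cons, List.length_nil]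
        omega))
    simp only [moveHead] at h
    rw [show min (0 + 1) (x.length + 1) = 1 by omega] at h
    exact ⟨_, h⟩
  have h4 := rdL_run (A := A) (x := x) (H := H) (by omega) x [] (true :: bits e) rfl
  set w1 := true :: bits e ++ x.flatMap (fun b => [true, b]) with hw1
  have h5 : XE A x H (.emit false) ⟨s5 [] x.length.bits [] [] [], x.length + 1, w1⟩
      ⟨s5 [] x.length.bits [] [] [], x.length + 1, w1 ++ [false]⟩ := XE.emit _ (bd5 (by
        rw [Nat.size_eq_bits_len]
        simp only [List.length_nil]
        omega))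
  have h6 := mul_run (A := A) (x := x) (H := H) (h := x.length + 1) (w := w1 ++ [false])
    (v := []) c x.length.bits 0 (by
      rw [Nat.size_eq_bits_len, ← hm]
      simp only [List.length_nil]
      omega)
  rw [Nat.size_eq_bits_len, ← hm, Nat.zero_add, List.replicate_zero] at h6
  have h7 := pad_run (A := A) (x := x) (H := H) (h := x.length + 1) (v := []) (c * m) []
    (w1 ++ [false]) ⟨s5 [] [] (List.replicate (c * m) true) [] [], x.length + 1,
      w1 ++ [false] ++ List.replicate (2 ^ (c * m) - 1) true⟩ (by
        simp only [List.length_nil]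
        omega) (XE.done rfl (bd5 (by
        simp only [List.length_nil, List.length_replicate]
        omega)))
  rw [List.append_nil] at h7
  set W := w1 ++ [false] ++ List.replicate (2 ^ (c * m) - 1) true with hW
  have eW : cs0 e x (2 ^ (c * m) - 1) = W := rfl
  rw [eW]
  refine ⟨x.length + 1, List.replicate (c * m) true, [], ?_⟩
  have h8 : ∀ b : Bool, XE A x H (.push 0 b)
      ⟨s5 [] [] (List.replicate (c * m) true) [] [], x.length + 1, []⟩
      ⟨s5 [b] [] (List.replicate (c * m) true) [] [], x.length + 1, []⟩ := by
    intro b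
    refine XE.pushK 0 b (upd0 _) ?_ ?_ <;>
    · refine bd5 ?_
      simp only [s5, List.length_replicate, List.length_cons, List.length_nil]
      omega
  have h9 : XE A x H (.ask (.push 0 false) (.push 0 true))
      ⟨s5 [] [] (List.replicate (c * m) true) [] [], x.length + 1, W⟩
      ⟨s5 [A W] [] (List.replicate (c * m) true) [] [], x.length + 1, []⟩ := by
    cases hA : A W with
    | false =>
      obtain ⟨t, h⟩ := h8 false
      exact ⟨_, XR.askF hA h⟩
    | true =>
      obtain ⟨t, h⟩ := h8 true
      exact ⟨_, XR.askT hA h⟩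
  exact h1.seq (h2.seq (h3.seq (h4.seq (h5.seq (h6.seq (h7.seq h9))))))

end

end Pool.Agent.J4H22
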