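import Pool.Agent.J4H22.Proc

/-!
# Every process with polynomial-time steps is carried out by a machine
-/

namespace Pool.Agent.J4H22

open Pool.Agent.NPC
open Function (update)

theorem XT.inMove {A : Oracle} {x : List Bool} {H h : ℕ} {w a b c : List Bool} (d : Move)
    (ha : a.length ≤ H) (hb : b.length ≤ H) (hc : c.length ≤ H) :
    XT A x H (XC.inMove d) ⟨st a b c, h, w⟩ ⟨st a b c, moveHead x.length h d, w⟩ 1 :=
  ⟨1, le_rfl, XR.inMove ⟨st a b c, h, w⟩ d (bd_st ha hb hc)⟩

/-- the body of the loop that reads the input -/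
def rdB : XC ℕ :=
  .inCases .skip (.pop 1) (.seq (.push 2 false) (.inMove .right)) (.seq (.push 2 true) (.inMove .right))

/-- read the input and write it on stack `0` -/
def rd : XC ℕ :=
  .seq (.push 1 true) (.seq (.inMove .right) (.seq (.loop 1 rdB) (XC.of (mv 2 0))))

theorem inSym_mid (l₁ l₂ : List Bool) (b : Bool) :
    inSym (l₁ ++ b :: l₂) (l₁.length + 1) = .bit b := by
  unfold inSym
  simp

theorem inSym_end (l : List Bool) : inSym l (l.length + 1) = .rend := by
  unfold inSym
  simp

theorem rd_loop {A : Oracle} {x : List Bool} {H : ℕ} {w : List Bool} (hH : x.length + 2 ≤ H) :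
    ∀ (l₂ l₁ : List Bool), x = l₁ ++ l₂ →
      XT A x H (XC.loop 1 rdB) ⟨st [] [true] l₁.reverse, l₁.length + 1, w⟩
        ⟨st [] [] x.reverse, x.length + 1, w⟩ (5 * l₂.length + 5) := by
  intro l₂
  induction l₂ with
  | nil =>
    intro l₁ hx
    rw [List.append_nil] at hx
    subst hx
    have h1 : XT A x H (XC.pop 1) ⟨st [] [true] x.reverse, x.length + 1, w⟩
        ⟨st [] [] x.reverse, x.length + 1, w⟩ 1 :=
      XT.pop1 (by simp) (by simp; omega) (by simp; omega)
    obtain ⟨t, ht, h2⟩ := h1
    exact ⟨(t + 1) + 1 + 1, by omega,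
      XR.loopCons (by simp) (XR.inR (inSym_end x) h2) (XR.loopNil rfl h2.right)⟩
  | cons b l₂ ih =>
    intro l₁ hx
    have h3 := ih (l₁ ++ [b]) (by rw [hx]; simp)
    have hlen : x.length = l₁.length + l₂.length + 1 := by rw [hx]; simp; omega
    have hs : inSym x (l₁.length + 1) = .bit b := by
      rw [hx]
      exact inSym_mid _ _ _
    have h1 : XT A x H (.seq (.push 2 b) (.inMove .right))
        ⟨st [] [true] l₁.reverse, l₁.length + 1, w⟩
        ⟨st [] [true] (l₁ ++ [b]).reverse, (l₁ ++ [b]).length + 1, w⟩ 3 := by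
      have h4 : XT A x H (.push 2 b) ⟨st [] [true] l₁.reverse, l₁.length + 1, w⟩
          ⟨st [] [true] (b :: l₁.reverse), l₁.length + 1, w⟩ 2 :=
        XT.push2 _ (by simp) (by simp; omega) (by simp; omega)
      have h5 : XT A x H (.inMove .right) ⟨st [] [true] (b :: l₁.reverse), l₁.length + 1, w⟩
          ⟨st [] [true] (b :: l₁.reverse), moveHead x.length (l₁.length + 1) .right, w⟩ 1 :=
        XT.inMove _ (by simp) (by simp; omega) (by simp; omega)
      have e1 : moveHead x.length (l₁.length + 1) .right = (l₁ ++ [b]).length + 1 := by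
        simp only [moveHead, List.length_append, List.length_singleton]
        omega
      rw [e1] at h5
      have e2 : (l₁ ++ [b]).reverse = b :: l₁.reverse := by simp
      rw [e2]
      exact h4.seq h5
    obtain ⟨t, ht, h6⟩ := h1
    obtain ⟨t', ht', h7⟩ := h3
    have h8 : XR A x H rdB ⟨st [] [true] l₁.reverse, l₁.length + 1, w⟩
        ⟨st [] [true] (l₁ ++ [b]).reverse, (l₁ ++ [b]).length + 1, w⟩ (t + 1) := by
      cases b
      · exact XR.inF hs h6
      · exact XR.inT hs h6
    refine ⟨(t + 1) + t' + 1, ?_, XR.loopCons (by simp) h8 h7⟩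
    simp only [List.length_cons]
    omega

theorem rd_run {A : Oracle} {x : List Bool} {H : ℕ} (hH : 5 * x.length + 3 ≤ H) :
    XT A x H rd ⟨st [] [] [], 0, []⟩ ⟨st x [] [], x.length + 1, []⟩ (13 * x.length + 20) := by
  have h1 : XT A x H (.push 1 true) ⟨st [] [] [], 0, []⟩ ⟨st [] [true] [], 0, []⟩ 2 :=
    XT.push1 _ (by simp) (by simp; omega) (by simp)
  have h2 : XT A x H (.inMove .right) ⟨st [] [true] [], 0, []⟩
      ⟨st [] [true] [], 1, []⟩ 1 := by
    have := XT.inMove (A := A) (x := x) (H := H) (h := 0) (w := []) (a := []) (b := [true])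
      (c := []) .right (by simp) (by simp; omega) (by simp)
    have e : moveHead x.length 0 .right = 1 := by
      simp only [moveHead]
      omega
    rw [e] at this
    exact this
  have h3 := rd_loop (A := A) (x := x) (H := H) (w := []) (by omega) x [] rfl
  have h4 : XT A x H (XC.of (mv 2 0)) ⟨st [] [] x.reverse, x.length + 1, []⟩
      ⟨st x [] [], x.length + 1, []⟩ (2 * (4 * x.length + 1)) := by
    have h5 : Runs (mv 2 0) (st [] [] x.reverse) (st x [] []) (4 * x.length + 1) := by
      have := mv_runs (i := 2) (j := 0) (by decide) x.reverse (st [] [] x.reverse)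
        (st x [] []) rfl (by simp)
      simpa using this
    refine XT.of_runs h5 fun i => ?_
    have := bd_st (a := []) (b := []) (c := x.reverse) (m := x.length) (by simp) (by simp)
      (by simp) i
    omega
  exact (h1.seq (h2.seq (h3.seq h4))).mono (by omega)

/-- The whole program of a process: `ci` computes the initial state, `c` makes one step. -/
def mainX (ci c : Cmd ℕ) : XC ℕ :=
  .seq rd (.seq (XC.of ci) (.seq (.push 1 true) (.seq preF (.loop 1 (bodyX c)))))

theorem proc_run {β : Type} [TEnc β] (P : Proc β) {ini : List Bool → β} {ci c : Cmd ℕ}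
    {pi p : Polynomial ℕ}
    (hci : ∀ x, Runs ci (inp x) (inp (bits (ini x))) (pi.eval x.length))
    (hc : ∀ z, Runs c (inp (bits z)) (inp (bits (P.fn z))) (p.eval (bits z).length))
    {A : Oracle} {x : List Bool} {B H N : ℕ} {v : Bool} {z' : PCf β}
    (hH : B + 4 + p.eval (B + 4) + 10 + (5 * x.length + 3) + pi.eval x.length ≤ H)
    (hp : P.Path A B N ⟨false, ini x, []⟩ z') (hv : P.act (z'.a, z'.b) = .halt v) :
    ∃ h g w', XT A x H (mainX ci c) ⟨st [] [] [], 0, []⟩ ⟨st (v :: g) [] [], h, w'⟩
      (13 * x.length + 20 + 2 * pi.eval x.length + 6 + (N + 1) * (2 * p.eval (B + 4) + 42)) := by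
  have h1 := rd_run (A := A) (x := x) (H := H) (by omega)
  have hB : sz (ini x) ≤ B := hp.left
  have h2 : XT A x H (XC.of ci) ⟨st x [] [], x.length + 1, []⟩
      ⟨st (bits (ini x)) [] [], x.length + 1, []⟩ (2 * pi.eval x.length) := by
    have h3 := hci x
    rw [inp_eq_st, inp_eq_st] at h3
    refine XT.of_runs h3 fun i => ?_
    have := bd_st (a := x) (b := []) (c := []) (m := x.length) (by simp) (by simp)
      (by simp) i
    omega
  have h3 : XT A x H (.push 1 true) ⟨st (bits (ini x)) [] [], x.length + 1, []⟩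
      ⟨st (bits (ini x)) [true] [], x.length + 1, []⟩ 2 :=
    XT.push1 _ (by rw [bits_length]; omega) (by simp; omega) (by simp)
  have h4 := preF_run (A := A) (x := x) (H := H) (h := x.length + 1) (w := []) (ini x)
    (by rw [bits_length]; omega)
  obtain ⟨g, w', h5⟩ := loop_proc (A := A) (x := x) (H := H) (h := x.length + 1) P hc
    (by omega) N ⟨false, ini x, []⟩ z' hp hv
  refine ⟨x.length + 1, g, w', (h1.seq (h2.seq (h3.seq (h4.seq h5)))).mono ?_⟩
  omega

/-- The transition function of the machine of a program. -/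
def XC.tf {n : ℕ} (c : XC (Fin (n + 1))) : TF (n + 1) (Option c.Lbl) := fun q s g =>
  match q with
  | none => if g 0 = some true then .accept else .reject
  | some l => c.code some none l s g

/-- The machine of a program over the stacks `0, …, n`: it accepts or rejects according to the top
of the stack `0`. -/
def XC.toM {n : ℕ} (c : XC (Fin (n + 1))) : Machine where
  k := n + 1
  Γ := Option Bool
  Q := Option c.Lbl
  finΓ := inferInstance
  finQ := inferInstance
  blank := none
  start := some c.entry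
  δ := c.tf

/-- from concrete configurations to configurations -/
def CF.toCfg {n : ℕ} (c : XC (Fin (n + 1))) (a : CF (n + 1) (Option c.Lbl)) : Cfg c.toM :=
  ⟨a.q, a.h, a.tp, a.w⟩

theorem toM_next {n : ℕ} (c : XC (Fin (n + 1))) (A : Oracle) (x : List Bool)
    (a : CF (n + 1) (Option c.Lbl)) :
    c.toM.next A x (a.toCfg c) = (nx c.tf A x a).toCfg c := by
  unfold Machine.next nx
  have e : c.toM.act x (a.toCfg c) = ac c.tf x a := rfl
  rw [e]
  cases ac c.tf x a <;> rfl

theorem toM_conf {n : ℕ} (c : XC (Fin (n + 1))) (A : Oracle) (x : List Bool) (t : ℕ) :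
    c.toM.conf A x t =
      ((nx c.tf A x)^[t] ⟨some c.entry, 0, fun _ => ⟨[], none, []⟩, []⟩).toCfg c := by
  induction t with
  | zero => rfl
  | succ t ih =>
    unfold Machine.conf at ih ⊢
    rw [Function.iterate_succ_apply', Function.iterate_succ_apply', ih, toM_next]

/-- The verdict as an action. -/
def verdict {k : ℕ} {Γ Q : Type} (v : Bool) : Action k Γ Q := if v = true then .accept else .reject

theorem toM_halts {n : ℕ} (c : XC (Fin (n + 1))) {A : Oracle} {x : List Bool} {H T h : ℕ}
    {v : Bool} {g w : List Bool} {s : Fin (n + 1) → List Bool}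
    (hr : ∃ t ≤ T, XR A x H c ⟨fun _ => [], 0, []⟩ ⟨s, h, w⟩ t) (hs : s 0 = v :: g) :
    (∃ t ≤ T, c.toM.act x (c.toM.conf A x t) = verdict v) ∧
      ∀ t, c.toM.space (c.toM.conf A x t) ≤ (n + 1) * (H + 1) := by
  obtain ⟨t, ht, hr⟩ := hr
  have h0 : Rep H ⟨fun _ => [], 0, []⟩ (some c.entry)
      (⟨some c.entry, 0, fun _ => ⟨[], none, []⟩, []⟩ : CF (n + 1) (Option c.Lbl)) :=
    ⟨rfl, rfl, rfl, fun i => ⟨rfl, 0, rfl, by simp⟩⟩
  obtain ⟨b, hb, h1⟩ := code_correct hr (δ := c.tf) some none (fun l => rfl) _ h0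
  have hact : ac c.tf x b = verdict v := by
    unfold ac
    rw [hb.hq]
    show (if (b.tp 0).c = some true then _ else _) = _
    rw [hb.sym 0]
    simp only [hs, List.head?_cons]
    cases v <;> simp [verdict]
  have hfix : nx c.tf A x b = b := by
    unfold nx
    rw [hact]
    cases v <;> simp [verdict]
  constructor
  · refine ⟨t, ht, ?_⟩
    rw [toM_conf, h1.1]
    exact hact
  · intro i
    rw [toM_conf]
    show ((nx c.tf A x)^[i] _).space ≤ _
    rcases Nat.lt_or_ge t i with h2 | h2
    · obtain ⟨j, rfl⟩ := Nat.exists_eq_add_of_lt h2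
      have e : t + j + 1 = (j + 1) + t := by ring
      rw [e, Function.iterate_add_apply, h1.1]
      have e2 : ∀ m, (nx c.tf A x)^[m] b = b := by
        intro m
        induction m with
        | zero => rfl
        | succ m ihm => rw [Function.iterate_succ_apply', ihm, hfix]
      rw [e2]
      have := h1.2 t le_rfl
      rw [h1.1] at this
      exact this
    · exact h1.2 i h2

/-- Every process with polynomial-time steps is carried out by a machine. -/
theorem proc_machine {β : Type} [TEnc β] (P : Proc β) (hP : P.IsPoly) {ini : List Bool → β}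
    (hi : NPC.Poly ini) :
    ∃ (M : Machine) (q : Polynomial ℕ), ∀ (A : Oracle) (x : List Bool) (N : ℕ) (v : Bool) (B : ℕ)
      (z' : PCf β), P.Path A B N ⟨false, ini x, []⟩ z' → P.act (z'.a, z'.b) = .halt v →
      (∃ n ≤ (N + 1) * q.eval (B + x.length), M.act x (M.conf A x n) = verdict v) ∧
        ∀ n, M.space (M.conf A x n) ≤ q.eval (B + x.length) := by
  obtain ⟨ci, pi, hci⟩ := PC.comp (g := ini) (f := fun x => x) hi PC.rawIn
  obtain ⟨c, p, hc⟩ := hP.fn
  set m := (mainX ci c).bd with hm
  let q0 : Polynomial ℕ := (13 * Polynomial.X + 20 + 2 * pi + 6) +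
    (2 * p.comp (Polynomial.X + 4) + 42)
  let q1 : Polynomial ℕ := (Polynomial.C (m + 1)) * ((Polynomial.X + 4 + p.comp (Polynomial.X + 4)
    + 10 + (5 * Polynomial.X + 3) + pi) + 1)
  refine ⟨((mainX ci c).map (Fin.ofNat (m + 1))).toM, q0 + q1, ?_⟩
  intro A x N v B z' hp hv
  have hH : B + 4 + p.eval (B + 4) + 10 + (5 * x.length + 3) + pi.eval x.length ≤
      B + 4 + p.eval (B + 4) + 10 + (5 * x.length + 3) + pi.eval x.length := le_rfl
  obtain ⟨h, g, w', t, ht, h1⟩ := proc_run P hci hc hH hp hv
  have h2 := h1.restrict (n := m) (by omega)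
  have e0 : (St.res m ⟨st [] [] [], 0, []⟩) = ⟨fun _ => [], 0, []⟩ := by
    unfold St.res
    simp only [St.mk.injEq, and_true]
    funext i
    rcases i with ⟨i, hi⟩
    match i, hi with
    | 0, _ => rfl
    | 1, _ => rfl
    | 2, _ => rfl
    | i + 3, _ => rfl
  rw [e0] at h2
  obtain ⟨⟨t', ht', h3⟩, h4⟩ := toM_halts ((mainX ci c).map (Fin.ofNat (m + 1)))
    (v := v) (g := g) ⟨t, le_rfl, h2⟩ (by rfl)
  have hmono : ∀ r : Polynomial ℕ, r.eval B ≤ r.eval (B + x.length) := fun r =>
    eval_mono r (by omega)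
  have hmono' : ∀ r : Polynomial ℕ, r.eval x.length ≤ r.eval (B + x.length) := fun r =>
    eval_mono r (by omega)
  have e1 : q0.eval (B + x.length) = (13 * (B + x.length) + 20 + 2 * pi.eval (B + x.length) + 6)
      + (2 * p.eval (B + x.length + 4) + 42) := by
    simp [q0, Polynomial.eval_comp]
  have e2 : q1.eval (B + x.length) = (m + 1) * (((B + x.length) + 4 + p.eval (B + x.length + 4)
    + 10 + (5 * (B + x.length) + 3) + pi.eval (B + x.length)) + 1) := by
    simp [q1, Polynomial.eval_comp]
  have h5 : p.eval (B + 4) ≤ p.eval (B + x.length + 4) := eval_mono p (by omega)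
  have h6 := hmono' pi
  refine ⟨⟨t', ?_, h3⟩, fun n => (h4 n).trans ?_⟩
  · rw [Polynomial.eval_add, Nat.mul_add]
    have h7 : (N + 1) * (2 * p.eval (B + 4) + 42) ≤
        (N + 1) * (2 * p.eval (B + x.length + 4) + 42) := Nat.mul_le_mul_left _ (by omega)
    have h8 : 13 * x.length + 20 + 2 * pi.eval x.length + 6 ≤
        (N + 1) * (13 * (B + x.length) + 20 + 2 * pi.eval (B + x.length) + 6) := by
      refine le_trans ?_ (Nat.le_mul_of_pos_left _ (by omega))
      omega
    rw [e1, Nat.mul_add]
    omega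
  · rw [Polynomial.eval_add, e2]
    refine le_trans ?_ (Nat.le_add_left _ _)
    refine Nat.mul_le_mul_left _ ?_
    omega

end Pool.Agent.J4H22
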