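import Pool.Agent.J4H22.Tower

/-!
# Building a pad, and membership in the classes of the hierarchy
-/

namespace Pool.Agent.J4H22

open Pool.Agent.NPC

/-- States of the builder: input, levels still to be done (in unary), current list, accumulator. -/
abbrev PB : Type := List Bool × List Unit × List Bool × List Bool

/-- a job without meaning -/
def dummy : Job := (([], []), ([], 0, false), 0, 0)

/-- one step of the builder at a level -/
def pbStep (b : PB) : PB :=
  cond b.2.2.1.isEmpty (b.1, b.2.1.tail, b.2.2.2, [true])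
    (b.1, b.2.1, b.2.2.1.tail, b.2.2.2 ++ b.2.2.2)

section

variable {τ : Type} [TEnc τ]

/-- one step of the builder -/
def pbNext (ini : List Bool × List Bool → τ) (b : PB) : PB ⊕ τ :=
  cond b.2.1.isEmpty (.inr (ini (b.1, b.2.2.1))) (.inl (pbStep b))

/-- what to run -/
def padJob (D : Driver τ) (z : PB ⊕ τ) : Job ⊕ Bool :=
  match z with
  | .inl _ => .inl dummy
  | .inr y => D.job y

/-- the next state -/
def padUpd (D : Driver τ) (ini : List Bool × List Bool → τ) (z : PB ⊕ τ) (r : Bool) : PB ⊕ τ :=
  match z with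
  | .inl b => pbNext ini b
  | .inr y => .inr (D.upd (y, r))

/-- First build a pad, then go on with the driver `D`. -/
def padD (D : Driver τ) (ini : List Bool × List Bool → τ) : Driver (PB ⊕ τ) where
  job := padJob D
  upd z := padUpd D ini z.1 z.2

variable {α : Type} [TEnc α]

theorem P.pbStep {b : α → PB} (hb : NPC.Poly b) : NPC.Poly (fun a => J4H22.pbStep (b a)) := by
  unfold J4H22.pbStep
  have h1 := NPC.Poly.fst hb
  have h2 := NPC.Poly.fst (NPC.Poly.snd hb)
  have h3 := NPC.Poly.fst (NPC.Poly.snd (NPC.Poly.snd hb))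
  have h4 := NPC.Poly.snd (NPC.Poly.snd (NPC.Poly.snd hb))
  exact NPC.Poly.cond (NPC.Poly.isEmpty h3)
    (NPC.Poly.pair h1 (NPC.Poly.pair (NPC.Poly.tail h2) (NPC.Poly.pair h4 (NPC.Poly.const _))))
    (NPC.Poly.pair h1 (NPC.Poly.pair h2 (NPC.Poly.pair (NPC.Poly.tail h3)
      (NPC.Poly.append h4 h4))))

theorem P.pbNext {ini : List Bool × List Bool → τ} (hi : NPC.Poly ini) {b : α → PB}
    (hb : NPC.Poly b) : NPC.Poly (fun a => J4H22.pbNext ini (b a)) := by
  unfold J4H22.pbNext
  exact NPC.Poly.cond (NPC.Poly.isEmpty (NPC.Poly.fst (NPC.Poly.snd hb)))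
    (NPC.Poly.inr (hi.comp (NPC.Poly.pair (NPC.Poly.fst hb)
      (NPC.Poly.fst (NPC.Poly.snd (NPC.Poly.snd hb))))))
    (NPC.Poly.inl (P.pbStep hb))

theorem padD_poly {D : Driver τ} (hD : D.IsPoly) {ini : List Bool × List Bool → τ}
    (hi : NPC.Poly ini) : (padD D ini).IsPoly := by
  constructor
  · refine (NPC.Poly.sumCases (o := fun z : PB ⊕ τ => z) (g := fun _ _ => (.inl dummy : Job ⊕ Bool))
      (h := fun _ y => D.job y) NPC.Poly.id (NPC.Poly.const _)
      (hD.1.comp (NPC.Poly.snd NPC.Poly.id))).congr fun z => ?_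
    cases z <;> rfl
  · refine (NPC.Poly.sumCases (o := fun z : (PB ⊕ τ) × Bool => z.1)
      (g := fun _ b => J4H22.pbNext ini b)
      (h := fun z y => (.inr (D.upd (y, z.2)) : PB ⊕ τ)) (NPC.Poly.fst NPC.Poly.id)
      (P.pbNext hi (NPC.Poly.snd NPC.Poly.id))
      (NPC.Poly.inr (hD.2.comp (NPC.Poly.pair (NPC.Poly.snd NPC.Poly.id)
        (NPC.Poly.snd (NPC.Poly.fst NPC.Poly.id)))))).congr fun z => ?_
    rcases z with ⟨_ | _, _⟩ <;> rfl

/-- the rounds of `D` inside the composed driver -/
theorem pad_reach {D : Driver τ} {ini : List Bool × List Bool → τ} {A : Oracle} {B S T n : ℕ}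
    {x y : τ} (h : D.Reach A B S T n x y) :
    (padD D ini).Reach A (B + 4) S T n (.inr x) (.inr y) := by
  have key : ∀ i ≤ n, ((padD D ini).dstep A)^[i] (.inr x) = .inr ((D.dstep A)^[i] x) := by
    intro i
    induction i with
    | zero => intro _; rfl
    | succ i ih =>
      intro hi
      rw [Function.iterate_succ_apply', Function.iterate_succ_apply', ih (by omega)]
      obtain ⟨J, hJ, _⟩ := h.2.1 i (by omega)
      generalize (D.dstep A)^[i] x = z at hJ
      have e1 : (padD D ini).job (.inr z) = .inl J := hJ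
      unfold Driver.dstep
      rw [e1, hJ]
      rfl
  refine ⟨?_, fun i hi => ?_, fun i hi => ?_⟩
  · rw [key n le_rfl, h.1]
  · obtain ⟨J, hJ, h1, h2⟩ := h.2.1 i hi
    rw [key i hi.le]
    exact ⟨J, hJ, h1, h2⟩
  · rw [key i hi, sz_inr]
    have := h.2.2 i hi
    omega

/-- one round of the builder -/
theorem pb_one {D : Driver τ} {ini : List Bool × List Bool → τ} {A : Oracle} {B S T : ℕ}
    {b : PB} (h1 : sz (.inl b : PB ⊕ τ) ≤ B) (h2 : sz (pbNext ini b) ≤ B) :
    (padD D ini).Reach A B S T 1 (.inl b) (pbNext ini b) :=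
  Driver.Reach.one (D := padD D ini) (J := dummy) rfl (Nat.zero_le _) (Nat.zero_le _) h1 h2

theorem sz_unitList (l : List Unit) : sz l = 2 * l.length + 1 := by
  induction l with
  | nil => rfl
  | cons a l ih =>
    rw [sz_list_cons, ih]
    simp only [sz_unit, List.length_cons]
    omega

/-- sizes of the states of the builder -/
theorem pb_size (x : List Bool) (lv : List Unit) (l acc : List Bool) {W : ℕ}
    (h1 : x.length ≤ W) (h2 : l.length ≤ W) (h3 : acc.length ≤ W) (i : ℕ) (hi : lv.length ≤ i) :
    sz (.inl (x, lv, l, acc) : PB ⊕ τ) ≤ 12 * W + 2 * i + 10 := by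
  rw [sz_inl]
  simp only [sz_pair]
  have := sz_listBool_le x
  have := sz_listBool_le l
  have := sz_listBool_le acc
  have := sz_unitList lv
  omega

theorem pb_level {D : Driver τ} {ini : List Bool × List Bool → τ} {A : Oracle} {S T W i : ℕ}
    (x : List Bool) (lv : List Unit) (hlv : lv ≠ []) (hi : lv.length ≤ i) (hx : x.length ≤ W) :
    ∀ (l : List Bool) (k : ℕ), 2 ^ (k + l.length) ≤ W → 1 ≤ W → l.length ≤ W →
      (padD D ini).Reach A (12 * W + 2 * i + 10) S T (l.length + 1)
        (.inl (x, lv, l, List.replicate (2 ^ k) true))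
        (.inl (x, lv.tail, List.replicate (2 ^ (k + l.length)) true, [true])) := by
  intro l
  have hlv' : lv.isEmpty = false := by
    cases lv with
    | nil => exact absurd rfl hlv
    | cons a lv => rfl
  induction l with
  | nil =>
    intro k hk hW _
    have e : pbNext ini (x, lv, [], List.replicate (2 ^ k) true) =
        (.inl (x, lv.tail, List.replicate (2 ^ k) true, [true]) : PB ⊕ τ) := by
      unfold pbNext
      simp only [hlv', cond_false]
      rfl
    have h := pb_one (D := D) (ini := ini) (A := A) (B := 12 * W + 2 * i + 10) (S := S) (T := T)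
      (b := (x, lv, [], List.replicate (2 ^ k) true))
      (pb_size x lv [] _ hx (by simp) (by simpa using hk) i hi)
      (by
        rw [e]
        exact pb_size x lv.tail _ _ hx (by simpa using hk) (by simpa using hW) i (by
          rw [List.length_tail]; omega))
    rw [e] at h
    exact h
  | cons a l ih =>
    intro k hk hW hl
    have h2k : 2 ^ k ≤ W := (Nat.pow_le_pow_right (by norm_num) (by omega)).trans hk
    have h2k' : 2 ^ (k + 1) ≤ W := (Nat.pow_le_pow_right (by norm_num) (by
      simp only [List.length_cons]; omega)).trans hk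
    have e : pbNext ini (x, lv, a :: l, List.replicate (2 ^ k) true) =
        (.inl (x, lv, l, List.replicate (2 ^ (k + 1)) true) : PB ⊕ τ) := by
      unfold pbNext
      simp only [hlv', cond_false]
      unfold pbStep
      simp only [List.isEmpty_cons, cond_false, List.tail_cons]
      rw [List.replicate_append_replicate, ← two_mul, ← pow_succ']
    simp only [List.length_cons] at hl hk
    have h := pb_one (D := D) (ini := ini) (A := A) (B := 12 * W + 2 * i + 10) (S := S) (T := T)
      (b := (x, lv, a :: l, List.replicate (2 ^ k) true))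
      (pb_size x lv _ _ hx (by simpa using hl) (by simpa using h2k) i hi)
      (by
        rw [e]
        exact pb_size x lv _ _ hx (by omega) (by simpa using h2k') i hi)
    rw [e] at h
    have h2 := ih (k + 1) (by
      rw [show k + 1 + l.length = k + (l.length + 1) by omega]
      exact hk) hW (by omega)
    have e2 : k + 1 + l.length = k + (a :: l).length := by simp; omega
    rw [e2] at h2
    have h3 := h.trans h2
    have e3 : 1 + (l.length + 1) = (a :: l).length + 1 := by simp; omega
    rw [e3] at h3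
    exact h3

theorem pb_all {D : Driver τ} {ini : List Bool × List Bool → τ} {A : Oracle} {S T W i0 : ℕ}
    (x : List Bool) (hx : x.length ≤ W) (hW : 1 ≤ W) :
    ∀ (i : ℕ), i ≤ i0 → ∀ (m : ℕ), tw i m ≤ W →
      sz (.inr (ini (x, List.replicate (tw i m) true)) : PB ⊕ τ) ≤ 12 * W + 2 * i0 + 10 →
      ∃ n ≤ i * (W + 1) + 1, (padD D ini).Reach A (12 * W + 2 * i0 + 10) S T n
        (.inl (x, List.replicate i (), List.replicate m true, [true]))
        (.inr (ini (x, List.replicate (tw i m) true))) := by
  intro i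
  induction i with
  | zero =>
    intro _ m hm hs
    have e : pbNext ini (x, List.replicate 0 (), List.replicate m true, [true]) =
        (.inr (ini (x, List.replicate (tw 0 m) true)) : PB ⊕ τ) := rfl
    have h := pb_one (D := D) (ini := ini) (A := A) (B := 12 * W + 2 * i0 + 10) (S := S) (T := T)
      (b := (x, List.replicate 0 (), List.replicate m true, [true]))
      (pb_size x _ _ _ hx (by rw [List.length_replicate]; exact hm) (by simpa using hW) i0
        (by simp))
      (by rw [e]; exact hs)
    rw [e] at h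
    exact ⟨1, by omega, h⟩
  | succ i ih =>
    intro hi m hm hs
    rw [tw_succ'] at hm hs
    have h2m : 2 ^ m ≤ W := (le_tw i _).trans hm
    have hmW : m ≤ W := Nat.lt_two_pow_self.le.trans h2m
    obtain ⟨n, hn, h⟩ := ih (by omega) (2 ^ m) hm hs
    have h1 := pb_level (D := D) (ini := ini) (A := A) (S := S) (T := T) (W := W) (i := i0)
      x (List.replicate (i + 1) ()) (by simp [List.replicate_succ]) (by simpa using hi) hx
      (List.replicate m true) 0 (by simpa using h2m) hW (by simpa using hmW)
    simp only [List.length_replicate, zero_add, pow_zero, List.replicate_one,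
      List.tail_replicate, Nat.add_sub_cancel] at h1
    refine ⟨m + 1 + n, ?_, ?_⟩
    · have : (i + 1) * (W + 1) = i * (W + 1) + (W + 1) := by ring
      omega
    · rw [tw_succ']
      exact h1.trans h

/-- the initial state of the composed driver -/
def padIni (i : ℕ) (p : Polynomial ℕ) (x : List Bool) : PB ⊕ τ :=
  .inl (x, List.replicate i (), List.replicate (p.eval x.length) true, [true])

theorem padIni_poly (i : ℕ) (p : Polynomial ℕ) :
    NPC.Poly (padIni i p : List Bool → PB ⊕ τ) := by
  unfold padIni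
  refine NPC.Poly.inl (NPC.Poly.pair NPC.Poly.id (NPC.Poly.pair (NPC.Poly.const _)
    (NPC.Poly.pair ?_ (NPC.Poly.const _))))
  have h1 : UPoly (fun x : List Bool => p.eval x.length) :=
    (UPoly.length NPC.Poly.id).eval p
  exact (NPC.Poly.map (F := fun _ (_ : Unit) => true) h1 (NPC.Poly.const _)).congr fun x => by
    simp

/-- The machine for a driver with a pad. -/
theorem pad_machine {D : Driver τ} (hD : D.IsPoly) {ini : List Bool × List Bool → τ}
    (hi : NPC.Poly ini) (i : ℕ) (p q : Polynomial ℕ) :
    ∃ (M : Machine) (r : Polynomial ℕ), ∀ (A : Oracle) (x : List Bool) (S T n : ℕ) (y : τ)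
      (v : Bool) (W : ℕ), 0 < x.length → W = tw i (p.eval x.length) + x.length → S ≤ q.eval W →
      D.Reach A (q.eval W) S T n (ini (x, List.replicate (tw i (p.eval x.length)) true)) y →
      D.job y = .inr v →
      (∃ m ≤ (n + 1) * (T + 1) * r.eval W, M.act x (M.conf A x m) = verdict v) ∧
        ∀ m, M.space (M.conf A x m) ≤ r.eval W := by
  obtain ⟨M, u, hM⟩ := Driver.machine (padD_poly hD hi) (padIni_poly (τ := τ) i p)
  obtain ⟨c, hc⟩ := hi.sz_le
  -- bound for the size of the states
  let b : Polynomial ℕ := 12 * Polynomial.X + Polynomial.C (2 * i + 10) + q + 8 +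
    c.comp (8 * Polynomial.X + 3)
  let Q : Polynomial ℕ := 12 * b + Polynomial.C (2 * i + 10) + q + 4
  refine ⟨M, 2 * (Polynomial.C i * (b + 1) + 3) * u.comp (Q + q + Polynomial.X), ?_⟩
  intro A x S T n y v W hx0 hW hS h hv
  have hx : x.length ≤ W := by omega
  have hW1 : 1 ≤ W := by omega
  have hb : b.eval W = 12 * W + (2 * i + 10) + q.eval W + 8 + c.eval (8 * W + 3) := by
    simp [b, Polynomial.eval_comp]
  have hQ : Q.eval W = 12 * b.eval W + (2 * i + 10) + q.eval W + 4 := by
    simp [Q]
  have htw : tw i (p.eval x.length) ≤ W := by omega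
  have hpad := hc (x, List.replicate (tw i (p.eval x.length)) true)
  have hpad2 : sz (ini (x, List.replicate (tw i (p.eval x.length)) true)) ≤ c.eval (8 * W + 3) := by
    refine hpad.trans (eval_mono c ?_)
    have h1 := sz_listBool_le x
    have h2 := sz_listBool_le (List.replicate (tw i (p.eval x.length)) true)
    rw [List.length_replicate] at h2
    rw [sz_pair]
    omega
  obtain ⟨m, hm, h1⟩ := pb_all (D := D) (ini := ini) (A := A) (S := S) (T := T) (W := b.eval W)
    (i0 := i) x (by omega) (by omega) i le_rfl (p.eval x.length) (by omega) (by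
        rw [sz_inr]
        omega)
  have h2 := pad_reach (ini := ini) h
  have h3 : (padD D ini).Reach A (Q.eval W) S T (m + n) (padIni i p x) (.inr y) :=
    (h1.mono (by omega) le_rfl le_rfl).trans (h2.mono (by omega) le_rfl le_rfl)
  obtain ⟨⟨k, hk, h4⟩, h5⟩ := hM A x _ _ _ _ _ v h3 hv
  have h6 : u.eval (Q.eval W + S + x.length) ≤ (u.comp (Q + q + Polynomial.X)).eval W := by
    rw [Polynomial.eval_comp]
    refine eval_mono u ?_
    simp only [Polynomial.eval_add, Polynomial.eval_X]
    omega
  have h7 : (2 * (Polynomial.C i * (b + 1) + 3) * u.comp (Q + q + Polynomial.X)).eval W =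
      2 * (i * (b.eval W + 1) + 3) * (u.comp (Q + q + Polynomial.X)).eval W := by
    simp
  rw [h7]
  refine ⟨⟨k, hk.trans ?_, h4⟩, fun m => ((h5 m).trans h6).trans ?_⟩
  · have h8 : (m + n + 1) * (T + 2) ≤ (n + 1) * (T + 1) * (2 * (i * (b.eval W + 1) + 3)) := by
      have h9 : m + n + 1 ≤ (n + 1) * (i * (b.eval W + 1) + 3) := by nlinarith
      calc (m + n + 1) * (T + 2) ≤ ((n + 1) * (i * (b.eval W + 1) + 3)) * (2 * (T + 1)) :=
            Nat.mul_le_mul h9 (by omega)
        _ = _ := by ring
    calc (m + n + 1) * (T + 2) * u.eval (Q.eval W + S + x.length)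
        ≤ ((n + 1) * (T + 1) * (2 * (i * (b.eval W + 1) + 3))) *
          (u.comp (Q + q + Polynomial.X)).eval W := Nat.mul_le_mul h8 h6
      _ = _ := by ring
  · exact Nat.le_mul_of_pos_left _ (by omega)

/-- Membership in the time classes. -/
theorem mem_time {A : Oracle} {L : Set ℕ} {D : Driver τ} (hD : D.IsPoly)
    {ini : List Bool × List Bool → τ} (hi : NPC.Poly ini) (i : ℕ) (p q : Polynomial ℕ)
    (h : ∀ (x W : ℕ), W = tw i (p.eval (bin x).length) + (bin x).length →
      ∃ (n : ℕ) (y : τ) (v : Bool), n ≤ q.eval W ∧ D.job y = .inr v ∧ (v = true ↔ x ∈ L) ∧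
        D.Reach A (q.eval W) (q.eval W) (q.eval W) n
          (ini (bin x, List.replicate (tw i (p.eval (bin x).length)) true)) y) :
    L ∈ C (some A) (2 * i + 1) := by
  obtain ⟨M, r, hM⟩ := pad_machine hD hi i p q
  refine mem_time_of (M := M) ((q + 1) * (q + 1) * r) p fun x => ?_
  obtain ⟨n, y, v, hn, hv, hv', h1⟩ := h x _ rfl
  obtain ⟨⟨m, hm, h2⟩, _⟩ := hM A (bin x) _ _ n y v _ (bin_length_pos x) rfl le_rfl h1 hv
  refine ⟨m, hm.trans ?_, correct_of_verdict h2 hv'⟩
  simp only [Polynomial.eval_mul, Polynomial.eval_add, Polynomial.eval_one]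
  exact Nat.mul_le_mul_right _ (Nat.mul_le_mul_right _ (by omega))

/-- Membership in the space classes. -/
theorem mem_space {A : Oracle} {L : Set ℕ} {D : Driver τ} (hD : D.IsPoly)
    {ini : List Bool × List Bool → τ} (hi : NPC.Poly ini) (i : ℕ) (p q : Polynomial ℕ)
    (h : ∀ (x W : ℕ), W = tw i (p.eval (bin x).length) + (bin x).length →
      ∃ (n T : ℕ) (y : τ) (v : Bool), D.job y = .inr v ∧ (v = true ↔ x ∈ L) ∧
        D.Reach A (q.eval W) (q.eval W) T n
          (ini (bin x, List.replicate (tw i (p.eval (bin x).length)) true)) y) :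
    L ∈ C (some A) (2 * i + 2) := by
  obtain ⟨M, r, hM⟩ := pad_machine hD hi i p q
  refine mem_space_of (M := M) r p fun x => ?_
  obtain ⟨n, T, y, v, hv, hv', h1⟩ := h x _ rfl
  obtain ⟨⟨m, hm, h2⟩, h3⟩ := hM A (bin x) _ _ n y v _ (bin_length_pos x) rfl le_rfl h1 hv
  exact ⟨⟨m, correct_of_verdict h2 hv'⟩, h3⟩

end

end Pool.Agent.J4H22
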