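import Pool.Agent.J4H22.DiagMem

/-!
# The parity dichotomy with immunity
-/

namespace Pool.Agent.J4H22

open Pool.Agent.NPC

/-- The class `C_{j+1}` contains an infinite tally set without infinite subsets in `C_j`. -/
def Imm (o : Option Oracle) (j : ℕ) : Prop :=
  ∃ T ∈ C o (j + 1), T ⊆ Tal ∧ T.Infinite ∧ ∀ S ∈ C o j, S ⊆ T → S.Finite

/-- The class `C_{k+1}` contains a tally set, infinite and coinfinite in the set of all tally
inputs, such that neither the set nor its complement has an infinite subset in `C_k`. -/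
def BiImm (o : Option Oracle) (k : ℕ) : Prop :=
  ∃ T ∈ C o (k + 1), T ⊆ Tal ∧ T.Infinite ∧ (Tal \ T).Infinite ∧
    ∀ S ∈ C o k, S ⊆ T ∨ S ⊆ Tal \ T → S.Finite

theorem poly_le_two_pow (p : Polynomial ℕ) : ∃ n1 : ℕ, ∀ n ≥ n1, p.eval n ≤ 2 ^ n := by
  obtain ⟨c, hc⟩ := poly_le_pow p
  have h1 := tendsto_pow_const_div_const_pow_of_one_lt c (show (1 : ℝ) < 2 by norm_num)
  have h2 := (h1.eventually (gt_mem_nhds (show (0 : ℝ) < 1 / 4 by norm_num)))
  obtain ⟨n1, hn1⟩ := Filter.eventually_atTop.1 h2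
  refine ⟨n1, fun n hn => (hc n).trans ?_⟩
  have h3 := hn1 (n + 2) (by omega)
  have h4 : (0 : ℝ) < 2 ^ (n + 2) := by positivity
  rw [div_lt_iff₀ h4] at h3
  have h5 : ((n + 2 : ℕ) : ℝ) ^ c ≤ 2 ^ n := by
    refine h3.le.trans (le_of_eq ?_)
    rw [pow_add]
    ring
  exact_mod_cast h5

theorem cl_add (ty : Bool) (i : ℕ) : cl ty (i + 1) = cl ty i + 2 := by
  cases ty <;> simp [cl] <;> ring

theorem cl_cases (j : ℕ) : ∃ ty i, j + 1 = cl ty i := by
  rcases Nat.even_or_odd' j with ⟨i, rfl | rfl⟩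
  · exact ⟨true, i, rfl⟩
  · exact ⟨false, i, rfl⟩

/-- The class `C_j` in terms of jobs. -/
theorem level (A : Oracle) (j : ℕ) : ∃ ty a, j + 2 = cl ty a ∧ (ty = true → 1 ≤ a) ∧
    ∀ L ∈ C (some A) j, ∃ R : ℕ → ℕ, Sim A ty L R ∧ (∃ n1, ∀ n ≥ n1, R n ≤ tw a n) ∧
      ∀ p : Polynomial ℕ, ∃ r : Polynomial ℕ, ∀ n N, N < 2 ^ p.eval (n + 1) →
        R N ≤ tw a (r.eval n) := by
  rcases Nat.eq_zero_or_pos j with rfl | hj
  · refine ⟨false, 0, rfl, by simp, fun L hL => ?_⟩
    obtain ⟨c, hc⟩ := sim_log hL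
    refine ⟨_, hc, ?_, fun p => ?_⟩
    · obtain ⟨n1, hn1⟩ := poly_le_two_pow (Polynomial.C c * Polynomial.X + Polynomial.C c)
      refine ⟨2 ^ n1, fun n hn => ?_⟩
      have hn0 : n ≠ 0 := by
        have : 0 < 2 ^ n1 := by positivity
        omega
      have h1 := hn1 (Nat.log 2 n) (Nat.le_log_of_pow_le (by norm_num) hn)
      simp only [Polynomial.eval_add, Polynomial.eval_mul, Polynomial.eval_C,
        Polynomial.eval_X] at h1
      exact h1.trans (Nat.pow_log_le_self 2 hn0)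
    · refine ⟨Polynomial.C c * p.comp (Polynomial.X + 1) + Polynomial.C c, fun n N hN => ?_⟩
      have h1 : Nat.log 2 N ≤ p.eval (n + 1) := by
        rcases Nat.eq_zero_or_pos N with rfl | h0
        · simp
        · exact (Nat.log_lt_of_lt_pow (by omega) hN).le
      show c * Nat.log 2 N + c ≤ _
      simp only [tw, Polynomial.eval_add, Polynomial.eval_mul, Polynomial.eval_C,
        Polynomial.eval_comp, Polynomial.eval_X, Polynomial.eval_one]
      have := Nat.mul_le_mul_left c h1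
      omega
  · obtain ⟨j, rfl⟩ : ∃ j', j = j' + 1 := ⟨j - 1, by omega⟩
    obtain ⟨ty, i, hi⟩ := cl_cases j
    refine ⟨ty, i + 1, by rw [cl_add, ← hi], fun _ => by omega, fun L hL => ?_⟩
    rw [hi] at hL
    obtain ⟨q, hq⟩ := sim_cl hL
    refine ⟨_, hq, ?_, fun p => ?_⟩
    · obtain ⟨n1, hn1⟩ := poly_le_two_pow q
      refine ⟨n1, fun n hn => ?_⟩
      rw [tw_succ']
      exact tw_mono i (hn1 n hn)
    · obtain ⟨q', hq'⟩ := tw_absorb 1 q
      refine ⟨q'.comp (p.comp (Polynomial.X + 1)), fun n N hN => ?_⟩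
      rw [tw_succ']
      refine tw_mono i ((eval_mono q hN.le).trans ?_)
      have h1 := hq' (p.eval (n + 1))
      simp only [tw] at h1
      simpa [Polynomial.eval_comp] using h1

theorem strictMono_add_X (p : Polynomial ℕ) :
    StrictMono fun n : ℕ => (p + Polynomial.X).eval n := by
  intro a b h
  have := eval_mono p h.le
  simp only [Polynomial.eval_add, Polynomial.eval_X]
  omega

/-- First translation in terms of classes. -/
theorem exists_pull {A : Oracle} {j : ℕ} {T : Set ℕ} (hT : T ∈ C (some A) (j + 3)) :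
    ∃ p : Polynomial ℕ, (StrictMono fun n : ℕ => p.eval n) ∧ pull p T ∈ C (some A) (j + 1) := by
  obtain ⟨ty, i, hi⟩ := cl_cases j
  have h1 : j + 3 = cl ty (i + 1) := by rw [cl_add, ← hi]
  rw [h1] at hT
  obtain ⟨p, hp⟩ := sim_cl hT
  refine ⟨p + Polynomial.X, strictMono_add_X p, ?_⟩
  rw [hi]
  refine pull_mem hp (strictMono_add_X p) fun n => ?_
  rw [← tw_succ']
  exact tw_mono _ (by simp)

/-- Second translation in terms of classes. -/
theorem exists_push {A : Oracle} {j : ℕ} {S : Set ℕ} (hS : S ∈ C (some A) j) {p : Polynomial ℕ}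
    (hp : StrictMono fun n : ℕ => p.eval n) : push p S ∈ C (some A) (j + 2) := by
  obtain ⟨ty, a, h1, h2, h3⟩ := level A j
  obtain ⟨R, hR, _, h4⟩ := h3 S hS
  obtain ⟨r, hr⟩ := h4 p
  rw [h1]
  exact push_mem hR hp (fun n N _ hN => hr n N hN) h2

theorem Imm.down {A : Oracle} {j : ℕ} (h : Imm (some A) (j + 2)) : Imm (some A) j := by
  by_contra hcon
  obtain ⟨T, hT, hTal, hinf, himm⟩ := h
  obtain ⟨p, hp, hpull⟩ := exists_pull hT
  have h1 : ∃ S ∈ C (some A) j, S ⊆ pull p T ∧ S.Infinite := by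
    by_contra hno
    push Not at hno
    exact hcon ⟨pull p T, hpull, pull_Tal, pull_infinite hp hTal hinf, fun S hS hST =>
      hno S hS hST⟩
  obtain ⟨S, hS, hST, hSinf⟩ := h1
  have h2 := himm (push p S) (exists_push hS hp) (by
    rintro x ⟨hx, N, hN, hu, hxS⟩
    have h3 := (hST hxS).2.2
    rw [bin_one_length hN, hu, ← one_length hx] at h3
    exact h3)
  exact push_infinite hp (fun x hx => pull_Tal (hST hx)) hSinf h2

theorem BiImm.down {A : Oracle} {j : ℕ} (h : BiImm (some A) (j + 2)) : BiImm (some A) j := by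
  by_contra hcon
  obtain ⟨T, hT, hTal, hinf, hcoinf, himm⟩ := h
  obtain ⟨p, hp, hpull⟩ := exists_pull hT
  have hco : (Tal \ pull p T).Infinite := by
    refine (pull_infinite hp (T := Tal \ T) Set.sdiff_subset hcoinf).mono ?_
    rintro x ⟨hx, hx1, hx2⟩
    exact ⟨hx, fun h => hx2.2 h.2.2⟩
  have h1 : ∃ S ∈ C (some A) j, (S ⊆ pull p T ∨ S ⊆ Tal \ pull p T) ∧ S.Infinite := by
    by_contra hno
    push Not at hno
    exact hcon ⟨pull p T, hpull, pull_Tal, pull_infinite hp hTal hinf, hco, fun S hS hST =>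
      hno S hS hST⟩
  obtain ⟨S, hS, hST, hSinf⟩ := h1
  have hSTal : S ⊆ Tal := by
    rcases hST with h | h
    · exact fun x hx => pull_Tal (h hx)
    · exact fun x hx => (h hx).1
  refine push_infinite hp hSTal hSinf (himm (push p S) (exists_push hS hp) ?_)
  rcases hST with h | h
  · left
    rintro x ⟨hx, N, hN, hu, hxS⟩
    have h3 := (h hxS).2.2
    rw [bin_one_length hN, hu, ← one_length hx] at h3
    exact h3
  · right
    rintro x ⟨hx, N, hN, hu, hxS⟩
    refine ⟨hx, fun hxT => (h hxS).2 ⟨one_Tal hN, ?_, ?_⟩⟩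
    · rw [bin_one_length hN, hu]
      exact bin_length_pos x
    · rw [bin_one_length hN, hu, ← one_length hx]
      exact hxT

/-- Two levels up there is always a bi-immune tally set. -/
theorem exists_diag (A : Oracle) (j : ℕ) : ∃ T ∈ C (some A) (j + 2), T ⊆ Tal ∧ T.Infinite ∧
    (Tal \ T).Infinite ∧ ∀ S ∈ C (some A) j, S ⊆ T ∨ S ⊆ Tal \ T → S.Finite := by
  obtain ⟨ty, a, h1, _, h3⟩ := level A j
  refine ⟨DgSet A ty a, ?_, fun x hx => hx.1, (dgSet_infinite A ty a).1,
    (dgSet_infinite A ty a).2, fun S hS hST => ?_⟩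
  · rw [h1]
    exact dgSet_mem A ty a
  · obtain ⟨R, hR, hR1, _⟩ := h3 S hS
    refine dgSet_immune A ty a hR ?_ hR1 hST
    rcases hST with h | h
    · exact fun x hx => (h hx).1
    · exact fun x hx => (h hx).1

theorem Imm.down_add {A : Oracle} {j : ℕ} (a : ℕ) (h : Imm (some A) (j + 2 * a)) :
    Imm (some A) j := by
  induction a with
  | zero => exact h
  | succ a ih => exact ih (Imm.down h)

theorem BiImm.down_add {A : Oracle} {j : ℕ} (a : ℕ) (h : BiImm (some A) (j + 2 * a)) :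
    BiImm (some A) j := by
  induction a with
  | zero => exact h
  | succ a ih => exact ih (BiImm.down h)

theorem adjacent (A : Oracle) (m : ℕ) : Imm (some A) m ∨ BiImm (some A) (m + 1) := by
  by_contra hcon
  rw [not_or] at hcon
  obtain ⟨h1, h2⟩ := hcon
  obtain ⟨T, hT, hTal, hinf, hcoinf, himm⟩ := exists_diag A m
  have h3 : ∃ S ∈ C (some A) (m + 1), (S ⊆ T ∨ S ⊆ Tal \ T) ∧ S.Infinite := by
    by_contra hno
    push Not at hno
    exact h2 ⟨T, hT, hTal, hinf, hcoinf, fun S hS hST => hno S hS hST⟩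
  obtain ⟨S, hS, hST, hSinf⟩ := h3
  have hSTal : S ⊆ Tal := by
    rcases hST with h | h
    · exact fun x hx => hTal (h hx)
    · exact fun x hx => (h hx).1
  have h4 : ∃ S' ∈ C (some A) m, S' ⊆ S ∧ S'.Infinite := by
    by_contra hno
    push Not at hno
    exact h1 ⟨S, hS, hSTal, hSinf, fun S' hS' hST' => hno S' hS' hST'⟩
  obtain ⟨S', hS', hS'S, hS'inf⟩ := h4
  refine hS'inf (himm S' hS' ?_)
  rcases hST with h | h
  · exact Or.inl (hS'S.trans h)
  · exact Or.inr (hS'S.trans h)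

/-- The parity dichotomy relative to an oracle. -/
theorem parity_some (A : Oracle) (j k : ℕ) (h : Odd (j + k)) :
    Imm (some A) j ∨ BiImm (some A) k := by
  rcases Nat.lt_or_ge j k with h1 | h1
  · obtain ⟨m, hm⟩ := h
    have h2 : k = j + 2 * ((k - j - 1) / 2) + 1 := by omega
    rcases adjacent A (j + 2 * ((k - j - 1) / 2)) with h3 | h3
    · exact Or.inl (h3.down_add)
    · rw [← h2] at h3
      exact Or.inr h3
  · obtain ⟨m, hm⟩ := h
    have h2 : j + 1 = k + 2 * ((j + 1 - k) / 2) := by omega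
    rcases adjacent A j with h3 | h3
    · exact Or.inl h3
    · rw [h2] at h3
      exact Or.inr h3.down_add

/-- The parity dichotomy, with or without an oracle. -/
theorem parity (o : Option Oracle) (j k : ℕ) (h : Odd (j + k)) : Imm o j ∨ BiImm o k := by
  cases o with
  | some A => exact parity_some A j k h
  | none =>
    have h1 := parity_some (fun _ => false) j k h
    unfold Imm BiImm at h1 ⊢
    simp only [C_none]
    exact h1

end Pool.Agent.J4H22
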