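import Pool.Agent.J4H22.Zero

/-!
# The patterns of equalities between consecutive classes
-/

namespace Pool.Agent.J4H22

open Pool.Agent.NPC

/-- The set of the indices with `C_j = C_{j+1}`. -/
def EqSet (o : Option Oracle) : Set ℕ := {j | C o j = C o (j + 1)}

/-- A set of indices is a pattern if it is empty or consists of all numbers of the same parity
from some number on. -/
def Pattern (S : Set ℕ) : Prop := S = ∅ ∨ ∃ m, S = {j | m ≤ j ∧ j % 2 = m % 2}

section

variable {A : Oracle}

theorem mem_EqSet {j : ℕ} : j ∈ EqSet (some A) ↔ C (some A) (j + 1) ⊆ C (some A) j :=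
  ⟨fun h => (le_of_eq (show C (some A) j = C (some A) (j + 1) from h).symm),
    fun h => Set.Subset.antisymm (C_sub_succ A j) h⟩

theorem EqSet_up {j : ℕ} (h : j ∈ EqSet (some A)) (a : ℕ) : j + 2 * a ∈ EqSet (some A) := by
  induction a with
  | zero => exact h
  | succ a ih => exact mem_EqSet.2 (collapse_up (mem_EqSet.1 ih))

theorem EqSet_adj {j : ℕ} (h : j ∈ EqSet (some A)) (h' : j + 1 ∈ EqSet (some A)) : False := by
  obtain ⟨T, hT, hTal, hinf, _, himm⟩ := exists_diag A j
  have h1 : T ∈ C (some A) j := mem_EqSet.1 h (mem_EqSet.1 h' hT)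
  exact hinf (himm T h1 (Or.inl le_rfl))

theorem EqSet_parity {j k : ℕ} (h : j ∈ EqSet (some A)) (h' : k ∈ EqSet (some A)) :
    j % 2 = k % 2 := by
  have key : ∀ j k, j < k → j ∈ EqSet (some A) → k ∈ EqSet (some A) → j % 2 = k % 2 := by
    intro j k hjk h h'
    by_contra hcon
    have e : j + 2 * ((k - j) / 2) + 1 = k := by omega
    exact EqSet_adj (EqSet_up h ((k - j) / 2)) (by rw [e]; exact h')
  rcases lt_trichotomy j k with h1 | h1 | h1
  · exact key j k h1 h h'
  · rw [h1]
  · exact (key k j h1 h' h).symm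

/-- If `m` is in the set, and `m - 2` is not, then the set is determined. -/
theorem EqSet_eq {m : ℕ} (h : m ∈ EqSet (some A)) (h' : ∀ k, k + 2 = m → k ∉ EqSet (some A)) :
    EqSet (some A) = {j | m ≤ j ∧ j % 2 = m % 2} := by
  ext j
  constructor
  · intro hj
    have h1 := EqSet_parity hj h
    refine ⟨?_, h1⟩
    by_contra hlt
    push Not at hlt
    have e : j + 2 * ((m - j - 2) / 2) + 2 = m := by omega
    exact h' _ e (EqSet_up hj _)
  · rintro ⟨h1, h2⟩
    have e : m + 2 * ((j - m) / 2) = j := by omega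
    rw [← e]
    exact EqSet_up h _

end

/-- The set of indices is always a pattern. -/
theorem pattern_some (A : Oracle) : Pattern (EqSet (some A)) := by
  classical
  by_cases h : EqSet (some A) = ∅
  · exact Or.inl h
  · right
    have h1 : ∃ m, m ∈ EqSet (some A) := Set.nonempty_iff_ne_empty.2 h
    refine ⟨Nat.find h1, EqSet_eq (Nat.find_spec h1) fun k hk hk' => ?_⟩
    have := Nat.find_min' h1 hk'
    omega

theorem pattern_all (o : Option Oracle) : Pattern (EqSet o) := by
  cases o with
  | some A => exact pattern_some A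
  | none =>
    have h := pattern_some fun _ => false
    have e : EqSet none = EqSet (some fun _ => false) := by
      unfold EqSet
      simp only [C_none]
    rw [e]
    exact h

/-! ### Realization -/

/-- no codes -/
def kindF (_ : List Bool) : Kind := .free

theorem kindF_wf : WF kindF := by
  intro w l J h
  simp [kindF] at h

theorem kindF_FE (i : ℕ) : FE kindF i := by
  intro p
  refine ⟨0, fun n _ w l J h => ?_⟩
  simp [kindF] at h

theorem kindF_FO (i : ℕ) : FO kindF i := by
  intro p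
  refine ⟨0, fun n _ => ⟨0, fun w l J h => ?_, ⟨[], by simp, ?_⟩⟩⟩
  · simp [kindF] at h
  · rintro w' ⟨w, l, J, h, _⟩
    simp [kindF] at h

/-- Relative to some oracle all inclusions are strict. -/
theorem exists_empty : ∃ A : Oracle, EqSet (some A) = ∅ := by
  obtain ⟨a, ha⟩ := baire_exists (ι := Bool × ℕ × Code × ℕ × ℕ)
    (fun z => if z.1 then BE kindF z.2.1 z.2.2.1 z.2.2.2.1 z.2.2.2.2 else
      BO kindF z.2.1 z.2.2.1 z.2.2.2.1 z.2.2.2.2) (fun z => by
        rcases z with ⟨b, i, d, K, c⟩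
        cases b
        · exact BO_closed _ _ _ _ _
        · exact BE_closed _ _ _ _ _) (fun z a _ F => by
        rcases z with ⟨b, i, d, K, c⟩
        cases b
        · exact denseO kindF_wf (fun _ _ => rfl) (kindF_FO i) d K c a F
        · exact denseE (fun _ _ => rfl) (fun _ _ => rfl) (kindF_FE i) d K c a F)
  refine ⟨Af kindF a, Set.eq_empty_iff_forall_notMem.2 fun j hj => ?_⟩
  have h1 := mem_EqSet.1 hj
  rcases Nat.even_or_odd' j with ⟨i, rfl | rfl⟩
  · exact UE_not_mem (fun d K c => ha (true, i, d, K, c)) (h1 (UE_mem _ i))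
  · exact UO_not_mem (fun d K c => ha (false, i, d, K, c)) (h1 (UO_mem _ i))

theorem exists_even (i : ℕ) : ∃ A : Oracle, EqSet (some A) =
    {j | 2 * i + 2 ≤ j ∧ j % 2 = (2 * i + 2) % 2} := by
  obtain ⟨a, ha⟩ := baire_exists (ι := Code × ℕ × ℕ)
    (fun z => BE (kindE (i + 1)) i z.1 z.2.1 z.2.2) (fun z => BE_closed _ _ _ _ _)
    (fun z a _ F => denseE (fun _ _ => kindC_rb _ _) (fun _ _ => kindC_hb _ _)
      (kindE_FE i) _ _ _ a F)
  refine ⟨Af (kindE (i + 1)) a, EqSet_eq (mem_EqSet.2 (collapseE i a)) fun k hk hk' => ?_⟩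
  obtain rfl : k = 2 * i := by omega
  exact UE_not_mem (fun d K c => ha (d, K, c)) (mem_EqSet.1 hk' (UE_mem _ i))

theorem exists_odd (i : ℕ) : ∃ A : Oracle, EqSet (some A) =
    {j | 2 * i + 3 ≤ j ∧ j % 2 = (2 * i + 3) % 2} := by
  obtain ⟨g, key, hg, hlen, hkey⟩ := exists_keys (i + 1)
  obtain ⟨a, ha⟩ := baire_exists (ι := Code × ℕ × ℕ)
    (fun z => BO (kindO (i + 1) key) i z.1 z.2.1 z.2.2) (fun z => BO_closed _ _ _ _ _)
    (fun z a _ F => denseO (kindO_wf hkey) (fun _ _ => kindC_hb _ _)
      (kindO_FO hg hlen) _ _ _ a F)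
  refine ⟨Af (kindO (i + 1) key) a, EqSet_eq (mem_EqSet.2 (collapseO hlen hkey a))
    fun k hk hk' => ?_⟩
  obtain rfl : k = 2 * i + 1 := by omega
  exact UO_not_mem (fun d K c => ha (d, K, c)) (mem_EqSet.1 hk' (UO_mem _ i))

/-- Each pattern occurs relative to some oracle. -/
theorem exists_pattern {S : Set ℕ} (h : Pattern S) : ∃ A : Oracle, EqSet (some A) = S := by
  rcases h with rfl | ⟨m, rfl⟩
  · exact exists_empty
  · match m with
    | 0 => exact ⟨Af kindZ fun _ => false, EqSet_eq (mem_EqSet.2 (collapseZ _))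
        fun k hk => by omega⟩
    | 1 =>
      obtain ⟨g, key, _, hlen, hkey⟩ := exists_keys 0
      exact ⟨Af (kindO 0 key) fun _ => false, EqSet_eq (mem_EqSet.2 (collapseO hlen hkey _))
        fun k hk => by omega⟩
    | m + 2 =>
      rcases Nat.even_or_odd' m with ⟨i, rfl | rfl⟩
      · exact exists_even i
      · exact exists_odd i

end Pool.Agent.J4H22
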