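import Pool.Agent.J4H22.Compile

/-!
# Processes with polynomial-time steps
-/

namespace Pool.Agent.J4H22

open Pool.Agent.NPC
open Function (update)

/-- A run within a time bound. -/
def XT (A : Oracle) (x : List Bool) (H : ℕ) (c : XC ℕ) (σ σ' : St ℕ) (T : ℕ) : Prop :=
  ∃ t ≤ T, XR A x H c σ σ' t

section

variable {A : Oracle} {x : List Bool} {H : ℕ} {h : ℕ} {w : List Bool} {a b c : List Bool}

theorem XT.mono {e : XC ℕ} {σ σ' : St ℕ} {T T' : ℕ} (h : XT A x H e σ σ' T) (hT : T ≤ T') :
    XT A x H e σ σ' T' := by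
  obtain ⟨t, ht, h⟩ := h
  exact ⟨t, ht.trans hT, h⟩

theorem XT.monoH {e : XC ℕ} {σ σ' : St ℕ} {T H' : ℕ} (h : XT A x H e σ σ' T) (hT : H ≤ H') :
    XT A x H' e σ σ' T := by
  obtain ⟨t, ht, h⟩ := h
  exact ⟨t, ht, h.mono hT⟩

theorem XT.seq {e f : XC ℕ} {σ σ' σ'' : St ℕ} {T T' : ℕ} (h : XT A x H e σ σ' T)
    (h' : XT A x H f σ' σ'' T') : XT A x H (XC.seq e f) σ σ'' (T + T') := by
  obtain ⟨t, ht, h⟩ := h
  obtain ⟨t', ht', h'⟩ := h'
  exact ⟨t + t', by omega, XR.seq h h'⟩

theorem XT.of_runs {e : Cmd ℕ} {s s' : ℕ → List Bool} {n : ℕ} (hr : Runs e s s' n)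
    (hH : ∀ i, (s i).length + n ≤ H) : XT A x H (XC.of e) ⟨s, h, w⟩ ⟨s', h, w⟩ (2 * n) := by
  obtain ⟨t, ht, hr⟩ := hr
  obtain ⟨t', ht', h1⟩ := XR.of_run hr H (fun i => by have := hH i; omega) h w (A := A) (x := x)
  exact ⟨t', by omega, h1⟩

theorem bd_st {m : ℕ} (ha : a.length ≤ m) (hb : b.length ≤ m) (hc : c.length ≤ m) :
    Bd m (st a b c) := by
  intro i
  match i with
  | 0 => exact ha
  | 1 => exact hb
  | 2 => exact hc
  | i + 3 => simp [st]

theorem XT.push0 (e : Bool) (ha : a.length + 1 ≤ H) (hb : b.length ≤ H) (hc : c.length ≤ H) :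
    XT A x H (XC.push 0 e) ⟨st a b c, h, w⟩ ⟨st (e :: a) b c, h, w⟩ 2 := by
  refine ⟨2, le_rfl, ?_⟩
  have h1 := XR.push (A := A) (x := x) (H := H) ⟨st a b c, h, w⟩ 0 e
    (bd_st (by omega) hb hc) (by
      simp only [st_zero, update_st_zero]
      exact bd_st (by simpa using ha) hb hc)
  simpa using h1

theorem XT.push1 (e : Bool) (ha : a.length ≤ H) (hb : b.length + 1 ≤ H) (hc : c.length ≤ H) :
    XT A x H (XC.push 1 e) ⟨st a b c, h, w⟩ ⟨st a (e :: b) c, h, w⟩ 2 := by
  refine ⟨2, le_rfl, ?_⟩
  have h1 := XR.push (A := A) (x := x) (H := H) ⟨st a b c, h, w⟩ 1 e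
    (bd_st ha (by omega) hc) (by
      simp only [st_one, update_st_one]
      exact bd_st ha (by simpa using hb) hc)
  simpa using h1

theorem XT.push2 (e : Bool) (ha : a.length ≤ H) (hb : b.length ≤ H) (hc : c.length + 1 ≤ H) :
    XT A x H (XC.push 2 e) ⟨st a b c, h, w⟩ ⟨st a b (e :: c), h, w⟩ 2 := by
  refine ⟨2, le_rfl, ?_⟩
  have h1 := XR.push (A := A) (x := x) (H := H) ⟨st a b c, h, w⟩ 2 e
    (bd_st ha hb (by omega)) (by
      simp only [st_two, update_st_two]
      exact bd_st ha hb (by simpa using hc))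
  simpa using h1

theorem XT.pop0 {e : Bool} (ha : (e :: a).length ≤ H) (hb : b.length ≤ H) (hc : c.length ≤ H) :
    XT A x H (XC.pop 0) ⟨st (e :: a) b c, h, w⟩ ⟨st a b c, h, w⟩ 1 := by
  refine ⟨1, le_rfl, ?_⟩
  have h1 := XR.pop (A := A) (x := x) (H := H) ⟨st (e :: a) b c, h, w⟩ 0 (bd_st ha hb hc)
  simpa using h1

theorem XT.pop1 {e : Bool} (ha : a.length ≤ H) (hb : (e :: b).length ≤ H) (hc : c.length ≤ H) :
    XT A x H (XC.pop 1) ⟨st a (e :: b) c, h, w⟩ ⟨st a b c, h, w⟩ 1 := by
  refine ⟨1, le_rfl, ?_⟩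
  have h1 := XR.pop (A := A) (x := x) (H := H) ⟨st a (e :: b) c, h, w⟩ 1 (bd_st ha hb hc)
  simpa using h1

theorem XT.emit (e : Bool) (ha : a.length ≤ H) (hb : b.length ≤ H) (hc : c.length ≤ H) :
    XT A x H (XC.emit e) ⟨st a b c, h, w⟩ ⟨st a b c, h, w ++ [e]⟩ 1 :=
  ⟨1, le_rfl, XR.emit ⟨st a b c, h, w⟩ e (bd_st ha hb hc)⟩

theorem XT.case0F {e₀ ef et : XC ℕ} {σ' : St ℕ} {T : ℕ}
    (hr : XT A x H ef ⟨st (false :: a) b c, h, w⟩ σ' T) :
    XT A x H (XC.cases 0 e₀ ef et) ⟨st (false :: a) b c, h, w⟩ σ' (T + 1) := by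
  obtain ⟨t, ht, hr⟩ := hr
  exact ⟨t + 1, by omega, XR.casesFalse (l := a) rfl hr⟩

theorem XT.case0T {e₀ ef et : XC ℕ} {σ' : St ℕ} {T : ℕ}
    (hr : XT A x H et ⟨st (true :: a) b c, h, w⟩ σ' T) :
    XT A x H (XC.cases 0 e₀ ef et) ⟨st (true :: a) b c, h, w⟩ σ' (T + 1) := by
  obtain ⟨t, ht, hr⟩ := hr
  exact ⟨t + 1, by omega, XR.casesTrue (l := a) rfl hr⟩

/-- Read the first component, a bit, of the pair on stack `0`, remove it and branch. -/
def XC.br (cf ct : XC ℕ) : XC ℕ :=
  .seq (.pop 0) (.cases 0 .skip (.seq (.pop 0) cf)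
    (.seq (.pop 0) (.seq (.pop 0) (.seq (.pop 0) ct))))

theorem XT.br {β : Type} [TEnc β] {cf ct : XC ℕ} {σ' : St ℕ} {T : ℕ} (e : Bool) (r : β)
    (ha : (bits (e, r)).length ≤ H) (hb : b.length ≤ H) (hc : c.length ≤ H)
    (hr : XT A x H (cond e ct cf) ⟨st (bits r) b c, h, w⟩ σ' T) :
    XT A x H (XC.br cf ct) ⟨st (bits (e, r)) b c, h, w⟩ σ' (T + 5) := by
  cases e with
  | false =>
    have e1 : bits (false, r) = true :: false :: bits r := rfl
    rw [e1] at ha ⊢
    simp only [List.length_cons] at ha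
    have h1 : XT A x H (XC.pop 0) ⟨st (true :: false :: bits r) b c, h, w⟩
        ⟨st (false :: bits r) b c, h, w⟩ 1 := XT.pop0 (by simpa using ha) hb hc
    have h2 : XT A x H (XC.pop 0) ⟨st (false :: bits r) b c, h, w⟩
        ⟨st (bits r) b c, h, w⟩ 1 := XT.pop0 (by simp only [List.length_cons]; omega) hb hc
    exact (h1.seq (XT.case0F (h2.seq hr))).mono (by omega)
  | true =>
    have e1 : bits (true, r) = true :: true :: false :: false :: bits r := rfl
    rw [e1] at ha ⊢
    simp only [List.length_cons] at ha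
    have h1 : XT A x H (XC.pop 0) ⟨st (true :: true :: false :: false :: bits r) b c, h, w⟩
        ⟨st (true :: false :: false :: bits r) b c, h, w⟩ 1 := XT.pop0 (by simpa using ha) hb hc
    have h2 : ∀ d l, (d :: l).length ≤ H → XT A x H (XC.pop 0) ⟨st (d :: l) b c, h, w⟩
        ⟨st l b c, h, w⟩ 1 := fun d l hl => XT.pop0 hl hb hc
    refine (h1.seq (XT.case0T ((h2 true _ ?_).seq ((h2 false _ ?_).seq
      ((h2 false _ ?_).seq hr))))).mono (by omega) <;>
    · simp only [List.length_cons]
      omega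

end

/-- What a process does in one step: it halts with a verdict, asks whether the content of the oracle
tape is in the oracle, appends a bit to the oracle tape, or none of these. -/
inductive PAct
  | halt (v : Bool)
  | ask
  | emit (b : Bool)
  | go

/-- coding by four bits -/
def PAct.code : PAct → Bool × Bool × Bool × Bool
  | .halt v => (true, v, false, false)
  | .ask => (false, true, false, false)
  | .emit b => (false, false, true, b)
  | .go => (false, false, false, false)

theorem PAct.code_inj : Function.Injective PAct.code := by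
  intro a b h
  cases a <;> cases b <;> simp_all [PAct.code]

instance : TEnc PAct := ⟨fun a => toT a.code, fun _ _ h => PAct.code_inj (TEnc.inj h)⟩

/-- A configuration of a process: the last answer of the oracle (`false` after the other steps), the
state, and the content of the oracle tape. -/
structure PCf (β : Type) where
  /-- the last answer -/
  a : Bool
  /-- the state -/
  b : β
  /-- the oracle tape -/
  w : List Bool

/-- A process: the action and the next state, as functions of the last answer and the state. -/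
structure Proc (β : Type) where
  /-- the action -/
  act : Bool × β → PAct
  /-- the next state -/
  nxt : Bool × β → β

namespace Proc

variable {β : Type} (P : Proc β)

/-- The next configuration. -/
def step (A : Oracle) (c : PCf β) : PCf β :=
  match P.act (c.a, c.b) with
  | .halt _ => c
  | .ask => ⟨A c.w, P.nxt (c.a, c.b), []⟩
  | .emit e => ⟨false, P.nxt (c.a, c.b), c.w ++ [e]⟩
  | .go => ⟨false, P.nxt (c.a, c.b), c.w⟩

/-- the process has not halted -/
def Live (c : PCf β) : Prop := ∀ v, P.act (c.a, c.b) ≠ .halt v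

variable [TEnc β]

/-- `P` goes from `c` to `c'` in exactly `n` steps without halting, with states of size at most
`B`. -/
def Path (A : Oracle) (B n : ℕ) (c c' : PCf β) : Prop :=
  (P.step A)^[n] c = c' ∧ (∀ i < n, P.Live ((P.step A)^[i] c)) ∧
    ∀ i ≤ n, sz ((P.step A)^[i] c).b ≤ B

theorem Path.trans {P : Proc β} {A : Oracle} {B n m : ℕ} {c d e : PCf β} (h : P.Path A B n c d)
    (h' : P.Path A B m d e) : P.Path A B (n + m) c e := by
  refine ⟨?_, ?_, ?_⟩
  · rw [add_comm, Function.iterate_add_apply, h.1, h'.1]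
  · intro i hi
    rcases Nat.lt_or_ge i n with h1 | h1
    · exact h.2.1 i h1
    · obtain ⟨j, rfl⟩ := Nat.exists_eq_add_of_le h1
      rw [add_comm, Function.iterate_add_apply, h.1]
      exact h'.2.1 j (by omega)
  · intro i hi
    rcases Nat.lt_or_ge i n with h1 | h1
    · exact h.2.2 i h1.le
    · obtain ⟨j, rfl⟩ := Nat.exists_eq_add_of_le h1
      rw [add_comm, Function.iterate_add_apply, h.1]
      exact h'.2.2 j (by omega)

theorem Path.refl {P : Proc β} {A : Oracle} {B : ℕ} {c : PCf β} (h : sz c.b ≤ B) :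
    P.Path A B 0 c c :=
  ⟨rfl, fun i hi => by omega, fun i hi => by
    obtain rfl : i = 0 := by omega
    exact h⟩

theorem Path.mono {P : Proc β} {A : Oracle} {B B' n : ℕ} {c d : PCf β} (h : P.Path A B n c d)
    (hB : B ≤ B') : P.Path A B' n c d :=
  ⟨h.1, h.2.1, fun i hi => (h.2.2 i hi).trans hB⟩

theorem Path.one {P : Proc β} {A : Oracle} {B : ℕ} {c d : PCf β} (h : P.step A c = d)
    (hl : P.Live c) (hc : sz c.b ≤ B) (hd : sz d.b ≤ B) : P.Path A B 1 c d := by
  refine ⟨h, ?_, ?_⟩
  · intro i hi
    obtain rfl : i = 0 := by omega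
    exact hl
  · intro i hi
    rcases Nat.le_one_iff_eq_zero_or_eq_one.1 hi with rfl | rfl
    · exact hc
    · show sz (P.step A c).b ≤ B
      rw [h]
      exact hd

theorem Path.left {P : Proc β} {A : Oracle} {B n : ℕ} {c d : PCf β} (h : P.Path A B n c d) :
    sz c.b ≤ B := h.2.2 0 (by omega)

theorem Path.right {P : Proc β} {A : Oracle} {B n : ℕ} {c d : PCf β} (h : P.Path A B n c d) :
    sz d.b ≤ B := by
  have := h.2.2 n le_rfl
  rw [h.1] at this
  exact this

theorem step_go {P : Proc β} {A : Oracle} {c : PCf β} (h : P.act (c.a, c.b) = .go) :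
    P.step A c = ⟨false, P.nxt (c.a, c.b), c.w⟩ := by
  unfold step
  rw [h]

theorem step_emit {P : Proc β} {A : Oracle} {c : PCf β} {e : Bool}
    (h : P.act (c.a, c.b) = .emit e) :
    P.step A c = ⟨false, P.nxt (c.a, c.b), c.w ++ [e]⟩ := by
  unfold step
  rw [h]

theorem step_ask {P : Proc β} {A : Oracle} {c : PCf β} (h : P.act (c.a, c.b) = .ask) :
    P.step A c = ⟨A c.w, P.nxt (c.a, c.b), []⟩ := by
  unfold step
  rw [h]

/-- the function computed in every step -/
def fn (z : Bool × β) : Bool × Bool × Bool × Bool × β :=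
  ((P.act z).code.1, (P.act z).code.2.1, (P.act z).code.2.2.1, (P.act z).code.2.2.2, P.nxt z)

/-- The steps are computable in polynomial time. -/
def IsPoly : Prop := NPC.Poly P.act ∧ NPC.Poly P.nxt

theorem IsPoly.fn {P : Proc β} (h : P.IsPoly) : NPC.Poly P.fn := by
  have h1 : NPC.Poly (fun z => (P.act z).code) := h.1
  exact NPC.Poly.pair (NPC.Poly.fst h1) (NPC.Poly.pair (NPC.Poly.fst (NPC.Poly.snd h1))
    (NPC.Poly.pair (NPC.Poly.fst (NPC.Poly.snd (NPC.Poly.snd h1)))
      (NPC.Poly.pair (NPC.Poly.snd (NPC.Poly.snd (NPC.Poly.snd h1))) h.2)))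

end Proc

/-- push the code of the answer `false` -/
def preF : XC ℕ := .seq (.push 0 false) (.push 0 true)

/-- push the code of the answer `true` -/
def preT : XC ℕ :=
  .seq (.push 0 false) (.seq (.push 0 false) (.seq (.push 0 true) (.push 0 true)))

/-- halt -/
def finC (v : Bool) : XC ℕ := .seq (.pop 1) (.push 0 v)

/-- one step of a process -/
def bodyX (c : Cmd ℕ) : XC ℕ :=
  .seq (XC.of (ev c)) (XC.br
    (XC.br (XC.br (XC.br preF .skip) (XC.br (.seq (.emit false) preF) (.seq (.emit true) preF)))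
      (XC.br (XC.br (.ask preF preT) .skip) .skip))
    (XC.br (finC false) (finC true)))

section

variable {A : Oracle} {x : List Bool} {H : ℕ} {h : ℕ} {w : List Bool}
  {β : Type} [TEnc β]

theorem preF_run (r : β) (hH : (bits r).length + 4 ≤ H) :
    XT A x H preF ⟨st (bits r) [true] [], h, w⟩ ⟨st (bits (false, r)) [true] [], h, w⟩ 4 := by
  have h1 : XT A x H (XC.push 0 false) ⟨st (bits r) [true] [], h, w⟩
      ⟨st (false :: bits r) [true] [], h, w⟩ 2 :=
    XT.push0 _ (by omega) (by simp; omega) (by simp)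
  have h2 : XT A x H (XC.push 0 true) ⟨st (false :: bits r) [true] [], h, w⟩
      ⟨st (true :: false :: bits r) [true] [], h, w⟩ 2 :=
    XT.push0 _ (by simp only [List.length_cons]; omega) (by simp; omega) (by simp)
  exact h1.seq h2

theorem preT_run (r : β) (hH : (bits r).length + 4 ≤ H) :
    XT A x H preT ⟨st (bits r) [true] [], h, w⟩ ⟨st (bits (true, r)) [true] [], h, w⟩ 8 := by
  have h1 : XT A x H (XC.push 0 false) ⟨st (bits r) [true] [], h, w⟩
      ⟨st (false :: bits r) [true] [], h, w⟩ 2 :=
    XT.push0 _ (by omega) (by simp; omega) (by simp)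
  have h2 : XT A x H (XC.push 0 false) ⟨st (false :: bits r) [true] [], h, w⟩
      ⟨st (false :: false :: bits r) [true] [], h, w⟩ 2 :=
    XT.push0 _ (by simp only [List.length_cons]; omega) (by simp; omega) (by simp)
  have h3 : XT A x H (XC.push 0 true) ⟨st (false :: false :: bits r) [true] [], h, w⟩
      ⟨st (true :: false :: false :: bits r) [true] [], h, w⟩ 2 :=
    XT.push0 _ (by simp only [List.length_cons]; omega) (by simp; omega) (by simp)
  have h4 : XT A x H (XC.push 0 true) ⟨st (true :: false :: false :: bits r) [true] [], h, w⟩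
      ⟨st (true :: true :: false :: false :: bits r) [true] [], h, w⟩ 2 :=
    XT.push0 _ (by simp only [List.length_cons]; omega) (by simp; omega) (by simp)
  exact (h1.seq (h2.seq (h3.seq h4))).mono (by omega)

variable (P : Proc β)

theorem body_live {c : Cmd ℕ} {p : Polynomial ℕ}
    (hc : ∀ z, Runs c (inp (bits z)) (inp (bits (P.fn z))) (p.eval (bits z).length))
    {B : ℕ} (hH : B + p.eval B + 10 ≤ H) (z : PCf β) (hl : P.Live z)
    (hB : sz (z.a, z.b) ≤ B) :
    XT A x H (bodyX c) ⟨st (bits (z.a, z.b)) [true] [], h, z.w⟩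
      ⟨st (bits ((P.step A z).a, (P.step A z).b)) [true] [], h, (P.step A z).w⟩
      (2 * p.eval B + 40) := by
  have hr := hc (z.a, z.b)
  have hlen : (bits (z.a, z.b)).length ≤ B := hB
  have hp : p.eval (bits (z.a, z.b)).length ≤ p.eval B := eval_mono p hlen
  have h1 := ev_runs hr [true]
  have hout : (bits (P.fn (z.a, z.b))).length ≤ B + p.eval B := by
    obtain ⟨t, ht, hr'⟩ := hr
    have := hr'.length_le 0
    simp only [inp, Function.update_self] at this
    omega
  have h2 : XT A x H (XC.of (ev c)) ⟨st (bits (z.a, z.b)) [true] [], h, z.w⟩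
      ⟨st (bits (P.fn (z.a, z.b))) [true] [], h, z.w⟩ (2 * p.eval (bits (z.a, z.b)).length) := by
    refine XT.of_runs h1 fun i => ?_
    have h3 := bd_st (a := bits (z.a, z.b)) (b := [true]) (c := []) (m := B + 1) (by omega)
      (by simp) (by simp) i
    omega
  generalize hz : (z.a, z.b) = zz at *
  have hfn : P.fn zz = ((P.act zz).code.1, (P.act zz).code.2.1, (P.act zz).code.2.2.1,
    (P.act zz).code.2.2.2, P.nxt zz) := rfl
  have hstep : P.step A z = match P.act zz with
      | .halt _ => z
      | .ask => ⟨A z.w, P.nxt zz, []⟩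
      | .emit e => ⟨false, P.nxt zz, z.w ++ [e]⟩
      | .go => ⟨false, P.nxt zz, z.w⟩ := by
    unfold Proc.step
    rw [hz]
  have hl' : ∀ v, P.act zz ≠ .halt v := by
    intro v
    rw [← hz]
    exact hl v
  have len : ∀ {γ : Type} [TEnc γ] (e : Bool) (r : γ), (bits r).length + 2 ≤ (bits (e, r)).length := by
    intro γ _ e r
    cases e
    · show _ ≤ (true :: false :: bits r).length
      simp
    · show _ ≤ (true :: true :: false :: false :: bits r).length
      simp
  cases hact : P.act zz with
  | halt v => exact absurd hact (hl' v)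
  | go =>
    rw [hact] at hstep hfn
    simp only at hstep
    rw [hstep]
    simp only
    rw [hfn] at h2 hout
    simp only [PAct.code] at h2 hout
    have l1 := len false (false, false, false, P.nxt zz)
    have l2 := len false (false, false, P.nxt zz)
    have l3 := len false (false, P.nxt zz)
    have l4 := len false (P.nxt zz)
    refine (h2.seq (XT.br false _ (by omega) (by simp; omega) (by simp)
      (XT.br false _ (by omega) (by simp; omega) (by simp)
        (XT.br false _ (by omega) (by simp; omega) (by simp)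
          (XT.br false _ (by omega) (by simp; omega) (by simp)
            (preF_run _ (by omega))))))).mono (by omega)
  | emit e =>
    rw [hact] at hstep hfn
    simp only at hstep
    rw [hstep]
    simp only
    rw [hfn] at h2 hout
    simp only [PAct.code] at h2 hout
    have l1 := len false (false, true, e, P.nxt zz)
    have l2 := len false (true, e, P.nxt zz)
    have l3 := len true (e, P.nxt zz)
    have l4 := len e (P.nxt zz)
    have key : XT A x H (cond e (.seq (.emit true) preF) (.seq (.emit false) preF))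
        ⟨st (bits (P.nxt zz)) [true] [], h, z.w⟩
        ⟨st (bits (false, P.nxt zz)) [true] [], h, z.w ++ [e]⟩ 5 := by
      cases e
      · exact ((XT.emit false (by omega) (by simp; omega) (by simp)).seq
          (preF_run _ (by omega))).mono (by omega)
      · exact ((XT.emit true (by omega) (by simp; omega) (by simp)).seq
          (preF_run _ (by omega))).mono (by omega)
    refine (h2.seq (XT.br false _ (by omega) (by simp; omega) (by simp)
      (XT.br false _ (by omega) (by simp; omega) (by simp)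
        (XT.br true _ (by omega) (by simp; omega) (by simp)
          (XT.br e _ (by omega) (by simp; omega) (by simp) key))))).mono (by omega)
  | ask =>
    rw [hact] at hstep hfn
    simp only at hstep
    rw [hstep]
    simp only
    rw [hfn] at h2 hout
    simp only [PAct.code] at h2 hout
    have l1 := len false (true, false, false, P.nxt zz)
    have l2 := len true (false, false, P.nxt zz)
    have l3 := len false (false, P.nxt zz)
    have l4 := len false (P.nxt zz)
    have key : XT A x H (.ask preF preT)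
        ⟨st (bits (P.nxt zz)) [true] [], h, z.w⟩
        ⟨st (bits (A z.w, P.nxt zz)) [true] [], h, []⟩ 9 := by
      cases hA : A z.w
      · obtain ⟨t, ht, h5⟩ := preF_run (A := A) (x := x) (h := h) (w := []) (P.nxt zz)
          (H := H) (by omega)
        exact ⟨t + 1, by omega, XR.askF hA h5⟩
      · obtain ⟨t, ht, h5⟩ := preT_run (A := A) (x := x) (h := h) (w := []) (P.nxt zz)
          (H := H) (by omega)
        exact ⟨t + 1, by omega, XR.askT hA h5⟩
    refine (h2.seq (XT.br false _ (by omega) (by simp; omega) (by simp)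
      (XT.br true _ (by omega) (by simp; omega) (by simp)
        (XT.br false _ (by omega) (by simp; omega) (by simp)
          (XT.br false _ (by omega) (by simp; omega) (by simp) key))))).mono (by omega)

theorem body_halt {c : Cmd ℕ} {p : Polynomial ℕ}
    (hc : ∀ z, Runs c (inp (bits z)) (inp (bits (P.fn z))) (p.eval (bits z).length))
    {B : ℕ} (hH : B + p.eval B + 10 ≤ H) (z : PCf β) {v : Bool}
    (hl : P.act (z.a, z.b) = .halt v) (hB : sz (z.a, z.b) ≤ B) :
    ∃ g, g.length + 1 ≤ H ∧ XT A x H (bodyX c) ⟨st (bits (z.a, z.b)) [true] [], h, z.w⟩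
      ⟨st (v :: g) [] [], h, z.w⟩ (2 * p.eval B + 40) := by
  have hr := hc (z.a, z.b)
  have hlen : (bits (z.a, z.b)).length ≤ B := hB
  have hp : p.eval (bits (z.a, z.b)).length ≤ p.eval B := eval_mono p hlen
  have h1 := ev_runs hr [true]
  have hout : (bits (P.fn (z.a, z.b))).length ≤ B + p.eval B := by
    obtain ⟨t, ht, hr'⟩ := hr
    have := hr'.length_le 0
    simp only [inp, Function.update_self] at this
    omega
  have h2 : XT A x H (XC.of (ev c)) ⟨st (bits (z.a, z.b)) [true] [], h, z.w⟩
      ⟨st (bits (P.fn (z.a, z.b))) [true] [], h, z.w⟩ (2 * p.eval (bits (z.a, z.b)).length) := by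
    refine XT.of_runs h1 fun i => ?_
    have h3 := bd_st (a := bits (z.a, z.b)) (b := [true]) (c := []) (m := B + 1) (by omega)
      (by simp) (by simp) i
    omega
  have len : ∀ {γ : Type} [TEnc γ] (e : Bool) (r : γ), (bits r).length + 2 ≤ (bits (e, r)).length := by
    intro γ _ e r
    cases e
    · show _ ≤ (true :: false :: bits r).length
      simp
    · show _ ≤ (true :: true :: false :: false :: bits r).length
      simp
  have hfn : P.fn (z.a, z.b) = (true, v, false, false, P.nxt (z.a, z.b)) := by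
    unfold Proc.fn
    rw [hl]
    rfl
  rw [hfn] at h2 hout
  have l1 := len true (v, false, false, P.nxt (z.a, z.b))
  have l2 := len v (false, false, P.nxt (z.a, z.b))
  refine ⟨bits (false, false, P.nxt (z.a, z.b)), by omega, ?_⟩
  have key : XT A x H (cond v (finC true) (finC false))
      ⟨st (bits (false, false, P.nxt (z.a, z.b))) [true] [], h, z.w⟩
      ⟨st (v :: bits (false, false, P.nxt (z.a, z.b))) [] [], h, z.w⟩ 3 := by
    have h3 : XT A x H (XC.pop 1)
        ⟨st (bits (false, false, P.nxt (z.a, z.b))) [true] [], h, z.w⟩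
        ⟨st (bits (false, false, P.nxt (z.a, z.b))) [] [], h, z.w⟩ 1 :=
      XT.pop1 (by omega) (by simp; omega) (by simp)
    cases v
    · exact (h3.seq (XT.push0 false (by omega) (by simp) (by simp))).mono (by omega)
    · exact (h3.seq (XT.push0 true (by omega) (by simp) (by simp))).mono (by omega)
  exact (h2.seq (XT.br true _ (by omega) (by simp; omega) (by simp)
    (XT.br v _ (by omega) (by simp; omega) (by simp) key))).mono (by omega)

theorem sz_pair_bool_le (a : Bool) (b : β) : sz (a, b) ≤ sz b + 4 := by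
  cases a
  · show (true :: false :: bits b).length ≤ _
    simp only [List.length_cons, bits_length]
    omega
  · show (true :: true :: false :: false :: bits b).length ≤ _
    simp only [List.length_cons, bits_length]
    omega

/-- The main loop. -/
theorem loop_proc {c : Cmd ℕ} {p : Polynomial ℕ}
    (hc : ∀ z, Runs c (inp (bits z)) (inp (bits (P.fn z))) (p.eval (bits z).length))
    {B : ℕ} (hH : B + 4 + p.eval (B + 4) + 10 ≤ H) {v : Bool} (N : ℕ) : ∀ (z z' : PCf β),
    P.Path A B N z z' → P.act (z'.a, z'.b) = .halt v →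
    ∃ g w', XT A x H (XC.loop 1 (bodyX c)) ⟨st (bits (z.a, z.b)) [true] [], h, z.w⟩
      ⟨st (v :: g) [] [], h, w'⟩ ((N + 1) * (2 * p.eval (B + 4) + 42)) := by
  induction N with
  | zero =>
    intro z z' hp hz
    have e : z = z' := hp.1
    subst e
    have hB : sz (z.a, z.b) ≤ B + 4 := (sz_pair_bool_le _ _).trans (by have := hp.left; omega)
    obtain ⟨g, hg, t, ht, h1⟩ := body_halt (A := A) (x := x) (h := h) P hc hH z hz hB
    refine ⟨g, z.w, t + 1 + 1, by omega, XR.loopCons (by simp) h1 (XR.loopNil rfl h1.right)⟩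
  | succ N ih =>
    intro z z' hp hz
    have hB : sz (z.a, z.b) ≤ B + 4 := (sz_pair_bool_le _ _).trans (by have := hp.left; omega)
    have hl : P.Live z := hp.2.1 0 (by omega)
    obtain ⟨t, ht, h1⟩ := body_live (A := A) (x := x) (h := h) P hc hH z hl hB
    have hp' : P.Path A B N (P.step A z) z' :=
      ⟨hp.1, fun i hi => hp.2.1 (i + 1) (by omega), fun i hi => hp.2.2 (i + 1) (by omega)⟩
    obtain ⟨g, w', t', ht', h2⟩ := ih _ _ hp' hz
    refine ⟨g, w', t + t' + 1, ?_, XR.loopCons (by simp) h1 h2⟩
    have : (N + 1 + 1) * (2 * p.eval (B + 4) + 42) =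
      (N + 1) * (2 * p.eval (B + 4) + 42) + (2 * p.eval (B + 4) + 42) := by ring
    omega

end

end Pool.Agent.J4H22
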