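import Pool.Agent.J4H22.Defs

/-!
# Quasi-polynomial enlargements of the classes
-/

namespace Pool.Agent.J4H22

/-- The quasi-polynomial enlargement of the class `C_j`, without oracle (`o = none`) or relative to
the oracle `A` (`o = some A`): in the bound for the time or the space, the polynomial `p n` is
replaced by `2 ^ p (log₂ n)`; for `j = 0` the space `O(log n)` is replaced by `p (log₂ n)`. So
the first classes are: polylogarithmic space, quasi-polynomial time, quasi-polynomial space. -/
def QC (o : Option Oracle) : ℕ → Set (Set ℕ)
  | 0 => {L | ∃ (M : Machine) (p : Polynomial ℕ), Allowed o M ∧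
      DecidesInSpace M (orc o) L fun n => p.eval (Nat.log 2 n)}
  | j + 1 => if j % 2 = 0 then
      {L | ∃ (M : Machine) (p : Polynomial ℕ), Allowed o M ∧
        DecidesInTime M (orc o) L fun n => tw (j / 2) (2 ^ p.eval (Nat.log 2 n))}
    else
      {L | ∃ (M : Machine) (p : Polynomial ℕ), Allowed o M ∧
        DecidesInSpace M (orc o) L fun n => tw (j / 2) (2 ^ p.eval (Nat.log 2 n))}

end Pool.Agent.J4H22
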