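import Pool.Agent.J4H22.Quasi
import Pool.Agent.J4H22.Front

/-!
# Tally sets in the enlarged classes
-/

namespace Pool.Agent.J4H22

open Pool.Agent.NPC

theorem cntOut_tal {N : ℕ} (hN : 1 ≤ N) : cntOut (List.replicate N true) = bin N := by
  unfold cntOut bin
  rw [if_neg (by omega), List.length_replicate]
  have h : ((List.replicate N true).all fun b => b) = true := by simp
  rw [h]
  rfl

theorem cntOut_not {y : List Bool} (h : (y.all fun b => b) = false) : cntOut y = [] := by
  unfold cntOut
  rw [h]
  rfl

/-- The machine for a tally set whose lengths form a given set, with time and space bounds. -/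
theorem tally_machine {A : Oracle} {T : Set ℕ} (hT : T ⊆ Tal) {ty : Bool} {a : ℕ}
    (hL : {x : ℕ | 1 ≤ x ∧ one x ∈ T} ∈ C (some A) (cl ty a)) :
    ∃ (M : Machine) (q : Polynomial ℕ), ∀ x : ℕ, (∃ n, Correct M A T x n ∧
      (ty = true → 1 ≤ a → n ≤ tw a (q.eval (Nat.log 2 (bin x).length)))) ∧
      ∀ n, M.space (M.conf A (bin x) n) ≤ tw a (q.eval (Nat.log 2 (bin x).length)) := by
  obtain ⟨p, d, K, hK⟩ := sim_cl hL
  let ini : List Bool × List Bool → Job ⊕ Bool := fun z =>
    cond z.1.isEmpty (.inr false) (.inl (d, vs z.1, params ty K z.2.length))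
  have hini : NPC.Poly ini :=
    NPC.Poly.cond (NPC.Poly.isEmpty (NPC.Poly.fst NPC.Poly.id)) (NPC.Poly.const _)
      (NPC.Poly.inl (NPC.Poly.pair (NPC.Poly.const d) (NPC.Poly.pair
        (P.vs (NPC.Poly.fst NPC.Poly.id))
        (P.params ty (UPoly.const K) (UPoly.length (NPC.Poly.snd NPC.Poly.id))))))
  obtain ⟨c, hc⟩ := hini.sz_le
  let q0 : Polynomial ℕ := c.comp (8 * Polynomial.X + 3) + 8 +
    Polynomial.C (K + 1) * (Polynomial.X + 1)
  obtain ⟨M, r, hM⟩ := pad_machineF cntF oneD_poly hini a p q0
  -- the polynomial for the final bound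
  let p1 : Polynomial ℕ := p.comp (Polynomial.X + 1) + Polynomial.X + 1
  let r1 : Polynomial ℕ := Polynomial.X * (9 * Polynomial.X + 14) + (7 * Polynomial.X + 14) +
    2 * (Polynomial.X + 1) * r.comp (3 * Polynomial.X + 8) + r.comp (3 * Polynomial.X + 8)
  obtain ⟨q, hq⟩ := tw_poly a r1 p1
  refine ⟨M, q, fun x => ?_⟩
  set y := bin x with hy
  set n := y.length with hn
  have hn1 : 1 ≤ n := bin_length_pos x
  set l := Nat.log 2 n with hl
  have hnl : n < 2 ^ (l + 1) := Nat.lt_pow_succ_log_self (by norm_num) n
  have hsz : n.size ≤ l + 1 := Nat.size_le.2 hnl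
  have hout : (cntOut y).length ≤ n.size := by
    unfold cntOut
    cases y.all fun b => b
    · simp
    · simp only [cond_true]
      rw [List.length_reverse, Nat.size_eq_bits_len]
  set o := cntOut y with ho
  set R := tw a (p.eval o.length) with hR
  set W := R + o.length + 1 with hW
  have hp1 : p.eval o.length + l + 1 ≤ p1.eval l := by
    have : p.eval o.length ≤ p.eval (l + 1) := eval_mono p (by omega)
    simp only [p1, Polynomial.eval_add, Polynomial.eval_comp, Polynomial.eval_X,
      Polynomial.eval_one]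
    omega
  set U := tw a (p1.eval l) + l with hU
  have hRU : R + l ≤ U := by
    have : R ≤ tw a (p1.eval l) := tw_mono a (by omega)
    omega
  have hlU : l + 1 ≤ U := by
    have : p1.eval l ≤ tw a (p1.eval l) := le_tw _ _
    omega
  have hszS : sz (ini (o, List.replicate R true)) ≤ c.eval (8 * W + 3) := by
    refine (hc _).trans (eval_mono c ?_)
    have h1 := sz_listBool_le o
    have h2 := sz_listBool_le (List.replicate R true)
    rw [List.length_replicate] at h2
    rw [sz_pair]
    omega
  have hq0 : q0.eval W = c.eval (8 * W + 3) + 8 + (K + 1) * (W + 1) := by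
    simp [q0, Polynomial.eval_comp]
  -- the run of the driver
  obtain ⟨S, T', k, z, v, h1, h2, h3, h4, h5, h6, h7⟩ : ∃ (S T' k : ℕ) (z : Job ⊕ Bool)
      (v : Bool), S ≤ q0.eval W ∧ oneD.Reach A (q0.eval W) S T' k
        (ini (o, List.replicate R true)) z ∧ oneD.job z = .inr v ∧ (v = true ↔ x ∈ T) ∧
        k ≤ 1 ∧ (ty = true → T' ≤ R) ∧ True := by
    by_cases hx : x ∈ Tal
    · obtain ⟨N, hN, rfl⟩ := hx
      have hyN : y = List.replicate N true := by rw [hy, bin_one hN]
      have hoN : o = bin N := by rw [ho, hyN, cntOut_tal hN]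
      have hoe : o.isEmpty = false := by
        have h0 := bin_length_pos N
        rw [hoN]
        generalize bin N = u at h0
        cases u with
        | nil => exact absurd h0 (by simp)
        | cons b u => rfl
      have e1 : ini (o, List.replicate R true) = .inl (d, vs o, params ty K R) := by
        simp only [ini, hoe, cond_false, List.length_replicate]
      have hres : jres A (d, vs o, params ty K R) = true ↔ one N ∈ T := by
        rw [hK K le_rfl N (vs o) R (by rw [vs_list, hoN]) (by
          rw [hR, hoN])]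
        exact ⟨fun h => h.2, fun h => ⟨hN, h⟩⟩
      refine ⟨(params ty K R).1, (params ty K R).2, 1, .inr (jres A (d, vs o, params ty K R)),
        jres A (d, vs o, params ty K R), ?_, ?_, rfl, hres, le_rfl, ?_, trivial⟩
      · rw [hq0]
        refine (params_s_le ty K R).trans ?_
        have : (K + 1) * (R + 1) ≤ (K + 1) * (W + 1) := Nat.mul_le_mul_left _ (by omega)
        omega
      · rw [e1] at hszS ⊢
        refine Driver.Reach.one (D := oneD) (J := (d, vs o, params ty K R)) rfl le_rfl le_rfl
          (by omega) ?_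
        show sz (.inr (jres A (d, vs o, params ty K R)) : Job ⊕ Bool) ≤ _
        rw [sz_inr]
        have := sz_bool_le (jres A (d, vs o, params ty K R))
        omega
      · rintro rfl
        exact le_rfl
    · have ho0 : o = [] := by
        rw [ho]
        refine cntOut_not ?_
        by_contra hcon
        exact hx (mem_Tal.2 (by simpa using hcon))
      have e1 : ini (o, List.replicate R true) = .inr false := by
        simp only [ini, ho0, List.isEmpty_nil, cond_true]
      refine ⟨0, 0, 0, .inr false, false, Nat.zero_le _, ?_, rfl, ?_, by omega,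
        fun _ => Nat.zero_le _, trivial⟩
      · rw [e1] at hszS ⊢
        exact Driver.Reach.refl (by omega)
      · simp only [Bool.false_eq_true, false_iff]
        exact fun h => hx (hT h)
  obtain ⟨⟨m, hm, h8⟩, h9⟩ := hM A y S T' k z v W rfl h1 h2 h3
  have hZ : W + cntF.ht y.length ≤ 3 * U + 8 := by
    show W + (y.length.size + 4) ≤ _
    rw [← hn]
    omega
  have hrZ : r.eval (W + cntF.ht y.length) ≤ (r.comp (3 * Polynomial.X + 8)).eval U := by
    rw [Polynomial.eval_comp]
    refine eval_mono r ?_
    simpa using hZ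
  have er1 : r1.eval U = U * (9 * U + 14) + (7 * U + 14) +
      2 * (U + 1) * (r.comp (3 * Polynomial.X + 8)).eval U +
      (r.comp (3 * Polynomial.X + 8)).eval U := by
    simp [r1]
  have hfin := hq l
  rw [← hU, er1] at hfin
  refine ⟨⟨m, correct_of_verdict h8 h4, fun hty ha => ?_⟩, fun m => (h9 m).trans ?_⟩
  · refine hm.trans (le_trans ?_ hfin)
    have hnU : n ≤ U := by
      have h10 : 2 ^ (l + 1) ≤ tw a (l + 1) := by
        obtain ⟨a', rfl⟩ : ∃ a', a = a' + 1 := ⟨a - 1, by omega⟩
        rw [tw_succ']
        exact le_tw _ _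
      have h11 : tw a (l + 1) ≤ tw a (p1.eval l) := tw_mono a (by omega)
      omega
    have htm : cntF.tm y.length ≤ U * (9 * U + 14) + (7 * U + 14) := by
      show n * (9 * n.size + 14) + (7 * n.size + 14) ≤ _
      have h12 : n * (9 * n.size + 14) ≤ U * (9 * U + 14) :=
        Nat.mul_le_mul hnU (by omega)
      omega
    have hT' := h6 hty
    have h13 : (k + 1) * (T' + 1) * r.eval (W + cntF.ht y.length) ≤
        2 * (U + 1) * (r.comp (3 * Polynomial.X + 8)).eval U :=
      Nat.mul_le_mul (Nat.mul_le_mul (by omega) (by omega)) hrZ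
    omega
  · refine hrZ.trans (le_trans ?_ hfin)
    omega

/-- A tally set is in the enlargement of `C_j` if the set of its lengths is in `C_{j+2}`. -/
theorem mem_QC {A : Oracle} {T : Set ℕ} (hT : T ⊆ Tal) {j : ℕ}
    (hL : {x : ℕ | 1 ≤ x ∧ one x ∈ T} ∈ C (some A) (j + 2)) : T ∈ QC (some A) j := by
  cases j with
  | zero =>
    obtain ⟨M, q, h⟩ := tally_machine hT (ty := false) (a := 0) hL
    refine ⟨M, q, trivial, fun x => ?_⟩
    obtain ⟨⟨n, hn, _⟩, h2⟩ := h x
    exact ⟨⟨n, hn⟩, h2⟩
  | succ j =>
    rcases Nat.even_or_odd' j with ⟨i, rfl | rfl⟩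
    · have e : 2 * i + 1 + 2 = cl true (i + 1) := by
        simp only [cl, cond_true]
        ring
      rw [e] at hL
      obtain ⟨M, q, h⟩ := tally_machine hT hL
      rw [exists_timeQ]
      refine ⟨M, q, trivial, fun x => ?_⟩
      obtain ⟨⟨n, hn, hn'⟩, _⟩ := h x
      refine ⟨n, ?_, hn⟩
      have := hn' rfl (by omega)
      rw [tw_succ'] at this
      exact this
    · have e : 2 * i + 1 + 1 + 2 = cl false (i + 1) := by
        simp only [cl, cond_false]
        ring
      rw [e] at hL
      obtain ⟨M, q, h⟩ := tally_machine hT hL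
      rw [exists_spaceQ]
      refine ⟨M, q, trivial, fun x => ?_⟩
      obtain ⟨⟨n, hn, _⟩, h2⟩ := h x
      refine ⟨⟨n, hn⟩, fun n => ?_⟩
      have := h2 n
      rw [tw_succ'] at this
      exact this

/-- The set of the lengths of a tally set in `C_{j+1}` is in `C_{j+3}`. -/
theorem lengths_mem {A : Oracle} {T : Set ℕ} {j : ℕ} (hT : T ∈ C (some A) (j + 1)) :
    {x : ℕ | 1 ≤ x ∧ one x ∈ T} ∈ C (some A) (j + 3) := by
  obtain ⟨ty, i, hi⟩ := cl_cases j
  rw [hi] at hT
  obtain ⟨p, d, K, hK⟩ := sim_cl hT
  rw [show j + 3 = cl ty (i + 1) by rw [cl_add, ← hi]]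
  obtain ⟨p', hp'⟩ := tw_absorb 1 p
  let ini : List Bool × List Bool → Job ⊕ Bool := fun z =>
    cond (decide (0 < valB z.1.reverse))
      (.inl (tjob ty d K (valB z.1.reverse) z.2.length)) (.inr false)
  have hini : NPC.Poly ini := by
    have h1 : NPC.Poly (fun z : List Bool × List Bool => valB z.1.reverse) :=
      NPC.Poly.valBits (NPC.Poly.reverse (NPC.Poly.fst NPC.Poly.id))
    exact NPC.Poly.cond (NPC.Poly.decide_lt (NPC.Poly.const 0) h1)
      (NPC.Poly.inl (P.tjob ty (NPC.Poly.const d) (UPoly.const K) h1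
        (UPoly.length (NPC.Poly.snd NPC.Poly.id)))) (NPC.Poly.const _)
  have hval : ∀ x : ℕ, valB (bin x).reverse = x := by
    intro x
    unfold bin
    split_ifs with hx
    · rw [hx]
      rfl
    · rw [List.reverse_reverse, valB_bits]
  refine mem_one ty hini (i + 1) p' (Polynomial.X + Polynomial.C K) fun x W hW => ?_
  by_cases hx : 1 ≤ x
  · right
    refine ⟨d, ([], x, true), K, tw (i + 1) (p'.eval (bin x).length), ?_, ?_, ?_, ?_⟩
    · simp only [ini, hval, List.length_replicate, show decide (0 < x) = true from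
        decide_eq_true hx, cond_true]
      rfl
    · simp
    · simp only [Polynomial.eval_add, Polynomial.eval_X, Polynomial.eval_C]
      omega
    · have h1 := tjob_res (A := A) (R := fun n => tw i (p.eval n)) (hK K le_rfl) hx
        (r := tw (i + 1) (p'.eval (bin x).length)) (by
          rw [tw_succ']
          refine tw_mono i ((eval_mono p ?_).trans (hp' (bin x).length))
          have : x < 2 ^ (bin x).length := by
            conv_lhs => rw [← hval x]
            have := valB_lt (bin x).reverse
            rwa [List.length_reverse] at this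
          exact this.le)
      exact h1.trans ⟨fun h => ⟨hx, h⟩, fun h => h.2⟩
  · left
    refine ⟨false, ?_, ?_⟩
    · simp only [ini, hval, show decide (0 < x) = false from decide_eq_false hx, cond_false]
    · simp only [Bool.false_eq_true, false_iff]
      exact fun h => hx h.1

/-- If `C_{j+2} = C_{j+3}` then the tally sets in `C_{j+1}` are in the enlargement of `C_j`. -/
theorem tally_QC {A : Oracle} {j : ℕ} (h : C (some A) (j + 3) ⊆ C (some A) (j + 2)) {T : Set ℕ}
    (hT : T ∈ C (some A) (j + 1)) (hTal : T ⊆ Tal) : T ∈ QC (some A) j :=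
  mem_QC hTal (h (lengths_mem hT))

end Pool.Agent.J4H22
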