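import Pool.Agent.J4H22.QDefs
import Pool.Agent.J4H22.AvgDich

/-!
# The dichotomies with a quasi-polynomial margin
-/

namespace Pool.Agent.J4H22

open Pool.Agent.NPC

theorem exists_timeQ (o : Option Oracle) (i : ℕ) : QC o (2 * i + 1) =
    {L | ∃ (M : Machine) (p : Polynomial ℕ), Allowed o M ∧
        DecidesInTime M (orc o) L fun n => tw i (2 ^ p.eval (Nat.log 2 n))} := by
  show (if (2 * i) % 2 = 0 then _ else _) = _
  rw [if_pos (by omega), show 2 * i / 2 = i by omega]

theorem exists_spaceQ (o : Option Oracle) (i : ℕ) : QC o (2 * i + 2) =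
    {L | ∃ (M : Machine) (p : Polynomial ℕ), Allowed o M ∧
        DecidesInSpace M (orc o) L fun n => tw i (2 ^ p.eval (Nat.log 2 n))} := by
  show (if (2 * i + 1) % 2 = 0 then _ else _) = _
  rw [if_neg (by omega), show (2 * i + 1) / 2 = i by omega]

theorem poly_le_quasi (p : Polynomial ℕ) : ∃ q : Polynomial ℕ, ∀ n : ℕ, 1 ≤ n →
    p.eval n ≤ 2 ^ q.eval (Nat.log 2 n) := by
  obtain ⟨c, hc⟩ := poly_le_pow p
  refine ⟨Polynomial.C c * (Polynomial.X + 2), fun n hn => (hc n).trans ?_⟩
  simp only [Polynomial.eval_mul, Polynomial.eval_C, Polynomial.eval_add, Polynomial.eval_X,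
    Polynomial.eval_ofNat]
  rw [Nat.mul_comm, pow_mul]
  refine Nat.pow_le_pow_left ?_ c
  have h1 : n < 2 ^ (Nat.log 2 n + 1) := Nat.lt_pow_succ_log_self (by norm_num) n
  have h2 : 2 ^ (Nat.log 2 n + 2) = 2 * 2 ^ (Nat.log 2 n + 1) := by ring
  omega

/-- The classes are contained in their quasi-polynomial enlargements. -/
theorem C_sub_QC (o : Option Oracle) (j : ℕ) : C o j ⊆ QC o j := by
  cases j with
  | zero =>
    rintro L ⟨M, c, hM, h⟩
    refine ⟨M, Polynomial.C c * Polynomial.X + Polynomial.C c, hM, fun x => ⟨(h x).1, fun n => ?_⟩⟩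
    refine ((h x).2 n).trans (le_of_eq ?_)
    simp
  | succ j =>
    rcases Nat.even_or_odd' j with ⟨i, rfl | rfl⟩
    · rw [exists_time, exists_timeQ]
      rintro L ⟨M, p, hM, h⟩
      obtain ⟨q, hq⟩ := poly_le_quasi p
      refine ⟨M, q, hM, fun x => ?_⟩
      obtain ⟨n, hn, h1⟩ := h x
      exact ⟨n, hn.trans (tw_mono i (hq _ (bin_length_pos x))), h1⟩
    · rw [exists_space, exists_spaceQ]
      rintro L ⟨M, p, hM, h⟩
      obtain ⟨q, hq⟩ := poly_le_quasi p
      exact ⟨M, q, hM, fun x => ⟨(h x).1, fun n =>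
        ((h x).2 n).trans (tw_mono i (hq _ (bin_length_pos x)))⟩⟩

/-- Without an oracle and with the empty oracle the enlargements are the same. -/
theorem QC_none (j : ℕ) : QC none j = QC (some fun _ => false) j := by
  have hsp : ∀ (M : Machine) (L : Set ℕ) (s : ℕ → ℕ), DecidesInSpace M (fun _ => false) L s →
      DecidesInSpace M.strip (fun _ => false) L s := by
    intro M L s h x
    obtain ⟨⟨n, h1⟩, h2⟩ := h x
    refine ⟨⟨n, strip_correct h1 _⟩, fun n => ?_⟩
    rw [strip_space]
    exact h2 n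
  have hti : ∀ (M : Machine) (L : Set ℕ) (s : ℕ → ℕ), DecidesInTime M (fun _ => false) L s →
      DecidesInTime M.strip (fun _ => false) L s := by
    intro M L s h x
    obtain ⟨n, hn, h1⟩ := h x
    exact ⟨n, hn, strip_correct h1 _⟩
  cases j with
  | zero =>
    apply Set.Subset.antisymm
    · rintro L ⟨M, c, _, h⟩
      exact ⟨M, c, trivial, h⟩
    · rintro L ⟨M, c, _, h⟩
      exact ⟨M.strip, c, strip_plain M, hsp M L _ h⟩
  | succ j =>
    rcases Nat.even_or_odd' j with ⟨i, rfl | rfl⟩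
    · rw [exists_timeQ, exists_timeQ]
      apply Set.Subset.antisymm
      · rintro L ⟨M, p, _, h⟩
        exact ⟨M, p, trivial, h⟩
      · rintro L ⟨M, p, _, h⟩
        exact ⟨M.strip, p, strip_plain M, hti M L _ h⟩
    · rw [exists_spaceQ, exists_spaceQ]
      apply Set.Subset.antisymm
      · rintro L ⟨M, p, _, h⟩
        exact ⟨M, p, trivial, h⟩
      · rintro L ⟨M, p, _, h⟩
        exact ⟨M.strip, p, strip_plain M, hsp M L _ h⟩

theorem sim_time_gen {A : Oracle} {L : Set ℕ} {M : Machine} {R : ℕ → ℕ}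
    (h : DecidesInTime M A L R) : Sim A true L R := by
  obtain ⟨d, eQ, eG, hd⟩ := exists_faithful M
  refine ⟨d, M.k, fun K' hK' x v r hv hr => ?_⟩
  obtain ⟨n, hn, h1⟩ := h x
  obtain ⟨b, hb, hb'⟩ := verdict_of_correct h1
  have hnr : n ≤ r := hn.trans hr
  have h2 : jres A (d, v, params true K' r) = b := by
    refine jres_machine hd hv hnr hb fun i => ?_
    exact (space_of_time hb i).trans (Nat.mul_le_mul hK' (by omega))
  rw [h2]
  exact hb'

/-- The enlarged classes in terms of jobs. -/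
theorem levelQ (A : Oracle) (j : ℕ) : ∃ ty a, j + 2 = cl ty a ∧ (ty = true → 1 ≤ a) ∧
    ∀ L ∈ QC (some A) j, ∃ R : ℕ → ℕ, Sim A ty L R ∧
      ∀ p : Polynomial ℕ, ∃ r : Polynomial ℕ, ∀ n N, N < 2 ^ p.eval (n + 1) →
        R N ≤ tw a (r.eval n) := by
  have hlog : ∀ (p : Polynomial ℕ) (n N : ℕ), N < 2 ^ p.eval (n + 1) →
      Nat.log 2 N ≤ p.eval (n + 1) := by
    intro p n N hN
    rcases Nat.eq_zero_or_pos N with rfl | h0
    · simp
    · exact (Nat.log_lt_of_lt_pow (by omega) hN).le
  rcases Nat.eq_zero_or_pos j with rfl | hj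
  · refine ⟨false, 0, rfl, by simp, fun L hL => ?_⟩
    obtain ⟨M, q, _, h⟩ := hL
    have hD : DecidesInSpace M A L fun n => (q + Polynomial.X).eval (Nat.log 2 n) :=
      fun x => ⟨(h x).1, fun n => ((h x).2 n).trans (by simp)⟩
    refine ⟨fun n => (q + Polynomial.X).eval (Nat.log 2 n), sim_space_aux hD ?_, fun p =>
      ⟨(q + Polynomial.X).comp (p.comp (Polynomial.X + 1)), fun n N hN => ?_⟩⟩
    · intro n
      simp
    · refine (eval_mono _ (hlog p n N hN)).trans (le_of_eq ?_)
      simp [tw, Polynomial.eval_comp]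
  · obtain ⟨j, rfl⟩ : ∃ j', j = j' + 1 := ⟨j - 1, by omega⟩
    rcases Nat.even_or_odd' j with ⟨i, rfl | rfl⟩
    · refine ⟨true, i + 1, by simp only [cl, cond_true]; ring, fun _ => by omega,
        fun L hL => ?_⟩
      rw [exists_timeQ] at hL
      obtain ⟨M, q, _, h⟩ := hL
      refine ⟨fun n => tw i (2 ^ q.eval (Nat.log 2 n)), sim_time_gen h,
        fun p => ⟨q.comp (p.comp (Polynomial.X + 1)), fun n N hN => ?_⟩⟩
      show tw i (2 ^ q.eval (Nat.log 2 N)) ≤ _
      rw [← tw_succ']
      refine tw_mono _ ((eval_mono _ (hlog p n N hN)).trans (le_of_eq ?_))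
      simp [Polynomial.eval_comp]
    · refine ⟨false, i + 1, by simp only [cl, cond_false]; ring, fun h => by simp at h,
        fun L hL => ?_⟩
      rw [exists_spaceQ] at hL
      obtain ⟨M, q, _, h⟩ := hL
      have hD : DecidesInSpace M A L fun n => tw i (2 ^ (q + Polynomial.X).eval (Nat.log 2 n)) :=
        fun x => ⟨(h x).1, fun n => ((h x).2 n).trans
          (tw_mono i (Nat.pow_le_pow_right (by norm_num) (by simp)))⟩
      refine ⟨fun n => tw i (2 ^ (q + Polynomial.X).eval (Nat.log 2 n)), sim_space_aux hD ?_,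
        fun p => ⟨(q + Polynomial.X).comp (p.comp (Polynomial.X + 1)), fun n N hN => ?_⟩⟩
      · intro n
        rw [← tw_succ']
        refine le_trans ?_ (le_tw _ _)
        simp
      · show tw i (2 ^ (q + Polynomial.X).eval (Nat.log 2 N)) ≤ _
        rw [← tw_succ']
        refine tw_mono _ ((eval_mono _ (hlog p n N hN)).trans (le_of_eq ?_))
        simp [Polynomial.eval_comp]

/-- Second translation for the enlarged classes. -/
theorem exists_pushQ {A : Oracle} {j : ℕ} {S : Set ℕ} (hS : S ∈ QC (some A) j)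
    {p : Polynomial ℕ} (hp : StrictMono fun n : ℕ => p.eval n) :
    push p S ∈ C (some A) (j + 2) := by
  obtain ⟨ty, a, h1, h2, h3⟩ := levelQ A j
  obtain ⟨R, hR, h4⟩ := h3 S hS
  obtain ⟨r, hr⟩ := h4 p
  rw [h1]
  exact push_mem hR hp (fun n N _ hN => hr n N hN) h2

/-- The class `C_{j+1}` contains an infinite tally set without infinite subsets in the enlargement
of `C_j`. -/
def QImm (o : Option Oracle) (j : ℕ) : Prop :=
  ∃ T ∈ C o (j + 1), T ⊆ Tal ∧ T.Infinite ∧ ∀ S ∈ QC o j, S ⊆ T → S.Finite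

/-- The class `C_{k+1}` contains a tally set, infinite and coinfinite in the set of all tally
inputs, such that neither the set nor its complement has an infinite subset in the enlargement of
`C_k`. -/
def QBiImm (o : Option Oracle) (k : ℕ) : Prop :=
  ∃ T ∈ C o (k + 1), T ⊆ Tal ∧ T.Infinite ∧ (Tal \ T).Infinite ∧
    ∀ S ∈ QC o k, S ⊆ T ∨ S ⊆ Tal \ T → S.Finite

theorem Imm.downQ {A : Oracle} {j : ℕ} (h : Imm (some A) (j + 2)) : QImm (some A) j := by
  by_contra hcon
  obtain ⟨T, hT, hTal, hinf, himm⟩ := h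
  obtain ⟨p, hp, hpull⟩ := exists_pull hT
  have h1 : ∃ S ∈ QC (some A) j, S ⊆ pull p T ∧ S.Infinite := by
    by_contra hno
    push Not at hno
    exact hcon ⟨pull p T, hpull, pull_Tal, pull_infinite hp hTal hinf, fun S hS hST =>
      hno S hS hST⟩
  obtain ⟨S, hS, hST, hSinf⟩ := h1
  have h2 := himm (push p S) (exists_pushQ hS hp) (by
    rintro x ⟨hx, N, hN, hu, hxS⟩
    have h3 := (hST hxS).2.2
    rw [bin_one_length hN, hu, ← one_length hx] at h3
    exact h3)
  exact push_infinite hp (fun x hx => pull_Tal (hST hx)) hSinf h2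

theorem BiImm.downQ {A : Oracle} {j : ℕ} (h : BiImm (some A) (j + 2)) : QBiImm (some A) j := by
  by_contra hcon
  obtain ⟨T, hT, hTal, hinf, hcoinf, himm⟩ := h
  obtain ⟨p, hp, hpull⟩ := exists_pull hT
  have hco : (Tal \ pull p T).Infinite := by
    refine (pull_infinite hp (T := Tal \ T) Set.sdiff_subset hcoinf).mono ?_
    rintro x ⟨hx, hx1, hx2⟩
    exact ⟨hx, fun h => hx2.2 h.2.2⟩
  have h1 : ∃ S ∈ QC (some A) j, (S ⊆ pull p T ∨ S ⊆ Tal \ pull p T) ∧ S.Infinite := by
    by_contra hno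
    push Not at hno
    exact hcon ⟨pull p T, hpull, pull_Tal, pull_infinite hp hTal hinf, hco, fun S hS hST =>
      hno S hS hST⟩
  obtain ⟨S, hS, hST, hSinf⟩ := h1
  have hSTal : S ⊆ Tal := by
    rcases hST with h | h
    · exact fun x hx => pull_Tal (h hx)
    · exact fun x hx => (h hx).1
  refine push_infinite hp hSTal hSinf (himm (push p S) (exists_pushQ hS hp) ?_)
  rcases hST with h | h
  · left
    rintro x ⟨hx, N, hN, hu, hxS⟩
    have h3 := (h hxS).2.2
    rw [bin_one_length hN, hu, ← one_length hx] at h3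
    exact h3
  · right
    rintro x ⟨hx, N, hN, hu, hxS⟩
    refine ⟨hx, fun hxT => (h hxS).2 ⟨one_Tal hN, ?_, ?_⟩⟩
    · rw [bin_one_length hN, hu]
      exact bin_length_pos x
    · rw [bin_one_length hN, hu, ← one_length hx]
      exact hxT

/-- The parity dichotomy with a quasi-polynomial margin. -/
theorem parityQ (o : Option Oracle) (j k : ℕ) (h : Odd (j + k)) : QImm o j ∨ QBiImm o k := by
  have key : ∀ A : Oracle, QImm (some A) j ∨ QBiImm (some A) k := by
    intro A
    have h' : Odd (j + 2 + (k + 2)) := by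
      rw [show j + 2 + (k + 2) = j + k + 4 by ring]
      exact h.add_even (by decide)
    rcases parity_some A (j + 2) (k + 2) h' with h1 | h1
    · exact Or.inl h1.downQ
    · exact Or.inr h1.downQ
  cases o with
  | some A => exact key A
  | none =>
    have h1 := key (fun _ => false)
    unfold QImm QBiImm at h1 ⊢
    simp only [C_none, QC_none]
    exact h1

/-! ### The average-case dichotomy -/

/-- The block version of a set of high complexity is far from all sets in the enlargement of a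
class of low complexity. -/
theorem exists_farQ {A : Oracle} {j l : ℕ} {T : Set ℕ} (hT : T ∈ C (some A) (l + 3))
    (hTal : T ⊆ Tal) (hnot : T ∉ C (some A) (j + 2)) :
    ∃ T' ∈ C (some A) (l + 1), T' ⊆ Tal ∧ ∀ S ∈ QC (some A) j, Far S T' := by
  classical
  obtain ⟨ty, i, hi⟩ := cl_cases l
  rw [show l + 3 = cl ty (i + 1) by rw [cl_add, ← hi]] at hT
  obtain ⟨p0, hp0⟩ := sim_cl hT
  set p : Polynomial ℕ := p0 + Polynomial.X ^ 2 with hpdef
  have hpe : ∀ n, p.eval n = p0.eval n + n ^ 2 := fun n => by simp [hpdef]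
  have hgap : ∀ n, p.eval n + n + 1 ≤ p.eval (n + 1) := by
    intro n
    rw [hpe, hpe]
    have h1 : p0.eval n ≤ p0.eval (n + 1) := eval_mono p0 (by omega)
    have h2 : (n + 1) ^ 2 = n ^ 2 + (2 * n + 1) := by ring
    omega
  have hp : StrictMono fun n : ℕ => p.eval n := strictMono_nat_of_lt_succ fun n => by
    have := hgap n
    omega
  refine ⟨pull p T, ?_, pull_Tal, fun S hS => ?_⟩
  · rw [hi]
    refine pull_mem hp0 hp fun n => ?_
    rw [← tw_succ']
    exact tw_mono _ (by rw [hpe]; omega)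
  · obtain ⟨ty', a, h1, h2, h3⟩ := levelQ A j
    obtain ⟨R, hR, h4⟩ := h3 S hS
    obtain ⟨r, hr⟩ := h4 p
    have hmaj := maj_mem hR hp (fun n N _ hN => hr n N hN) h2
    exact far_of_maj hp hgap hTal (fun hfin => by
      rw [h1] at hnot
      exact hnot (mem_of_finite hmaj hfin))

/-- `C_{j+1}` contains a tally set that no set in the enlargement of `C_j` approximates. -/
def QHard (o : Option Oracle) (j : ℕ) : Prop :=
  ∃ T ∈ C o (j + 1), T ⊆ Tal ∧ ∀ S ∈ QC o j, Far S T

theorem TEq_of_not_qhard {A : Oracle} {j : ℕ} (h : ¬ QHard (some A) j) : TEq A (j + 2) := by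
  intro T hT hTal
  by_contra hnot
  exact h (exists_farQ hT hTal hnot)

theorem avgQ (o : Option Oracle) {j k : ℕ} (h : Odd (j + k)) : QHard o j ∨ QHard o k := by
  have key : ∀ A : Oracle, QHard (some A) j ∨ QHard (some A) k := by
    intro A
    by_contra hcon
    rw [not_or] at hcon
    have h' : Odd (j + 2 + (k + 2)) := by
      rw [show j + 2 + (k + 2) = j + k + 4 by ring]
      exact h.add_even (by decide)
    rcases avg_some A h' with h1 | h1
    · exact (TEq_of_not_qhard hcon.1).not_hard h1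
    · exact (TEq_of_not_qhard hcon.2).not_hard h1
  cases o with
  | some A => exact key A
  | none =>
    have h1 := key (fun _ => false)
    unfold QHard at h1 ⊢
    simp only [C_none, QC_none]
    exact h1

end Pool.Agent.J4H22
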