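import Pool.Agent.J4H22.Asks

/-!
# The machine that asks whether its input belongs to the oracle
-/

namespace Pool.Agent.J4H22

open Pool.Agent.NPC

/-- states of the machine: start, copy, end with a verdict -/
inductive QQ
  | start
  | copy
  | fin (b : Bool)
  deriving DecidableEq

instance : Fintype QQ :=
  ⟨{.start, .copy, .fin false, .fin true}, by
    intro x
    match x with
    | .start => simp
    | .copy => simp
    | .fin false => simp
    | .fin true => simp⟩

/-- The machine that copies its input on the oracle tape and asks. -/
def cpM : Machine where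
  k := 0
  Γ := Unit
  Q := QQ
  blank := ()
  start := .start
  δ := fun q s _ => match q with
    | .start => .step .copy .right (fun _ => ()) (fun _ => .stay) none
    | .copy => match s with
      | .lend => .reject
      | .bit b => .step .copy .right (fun _ => ()) (fun _ => .stay) (some b)
      | .rend => .ask fun b => .fin b
    | .fin b => match b with
      | true => .accept
      | false => .reject

theorem cpM_conf (A : Oracle) (x : List Bool) : ∀ i ≤ x.length,
    (cpM.conf A x (i + 1)).q = .copy ∧ (cpM.conf A x (i + 1)).h = i + 1 ∧
      (cpM.conf A x (i + 1)).w = x.take i := by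
  intro i
  induction i with
  | zero =>
    intro _
    rw [conf_succ]
    refine ⟨rfl, ?_, rfl⟩
    show moveHead x.length 0 .right = 1
    simp only [moveHead]
    omega
  | succ i ih =>
    intro hi
    obtain ⟨h1, h2, h3⟩ := ih (by omega)
    rw [conf_succ]
    have hsym : inSym x (i + 1) = .bit (x[i]'(by omega)) := by
      unfold inSym
      simp only
      rw [List.getElem?_eq_getElem (by omega)]
    have hact : cpM.act x (cpM.conf A x (i + 1)) =
        .step .copy .right (fun _ => ()) (fun _ => .stay) (some (x[i]'(by omega))) := by
      unfold Machine.act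
      rw [h1, h2, hsym]
      rfl
    unfold Machine.next
    rw [hact]
    refine ⟨rfl, ?_, ?_⟩
    · simp only [h2, moveHead]
      omega
    · simp only [h3, Option.toList]
      rw [List.take_append_getElem]

theorem cpM_halt (A : Oracle) (x : List Bool) :
    cpM.act x (cpM.conf A x (x.length + 2)) = verdict (A x) := by
  obtain ⟨h1, h2, h3⟩ := cpM_conf A x x.length le_rfl
  have hact : cpM.act x (cpM.conf A x (x.length + 1)) = .ask fun b => .fin b := by
    unfold Machine.act
    rw [h1, h2, inSym_end]
    rfl
  have h4 : (cpM.conf A x (x.length + 2)).q = .fin (A x) := by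
    rw [conf_succ]
    unfold Machine.next
    rw [hact]
    simp only [h3, List.take_length]
  unfold Machine.act
  rw [h4]
  cases A x <;> rfl

/-- There is a code that asks whether the (virtual) input belongs to the oracle. -/
theorem exists_query : ∃ d : Code, ∀ (A : Oracle) (v : VI) (s t : ℕ), vlen v + 2 ≤ t →
    jres A (d, v, s, t) = A v.list := by
  obtain ⟨d, eQ, eG, hd⟩ := exists_faithful cpM
  refine ⟨d, fun A v s t ht => ?_⟩
  refine jres_machine hd rfl (n := v.list.length + 2) (by rw [VI.list_length]; exact ht)
    (cpM_halt A v.list) fun i => ?_
  unfold Machine.space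
  simp [cpM]

/-- the code of the machine that asks -/
noncomputable def qD : Code := exists_query.choose

/-- The job that asks whether `v` belongs to the oracle. -/
noncomputable def qJob (v : VI) : Job := (qD, v, 0, vlen v + 2)

theorem qJob_res (A : Oracle) (v : VI) : jres A (qJob v) = A v.list :=
  exists_query.choose_spec A v 0 _ le_rfl

theorem P.qJob {α : Type} [TEnc α] {v : α → VI} (hv : NPC.Poly v) :
    NPC.Poly (fun a => J4H22.qJob (v a)) := by
  unfold J4H22.qJob
  exact NPC.Poly.pair (NPC.Poly.const _) (NPC.Poly.pair hv (NPC.Poly.pair (NPC.Poly.const 0)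
    (NPC.Poly.add (P.vlen hv) (NPC.Poly.const 2))))

end Pool.Agent.J4H22
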