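import Mathlib
import Pool.Agent.J4H22.RP.Final

set_option autoImplicit false

/-!
# MP_eba1ef_gt: random and semi-random polytopes need exponentially fewer than `2^d` translates

Let `U_1, ..., U_N` be independent random directions in `ℝ^d`, uniform on the unit sphere or, more
generally, with a law which is at least `λ^d` times the uniform distribution, `1/2 ≤ λ ≤ 1`. Let the
lengths `R_1, ..., R_N` be positive and independent of the directions, with any joint law (for
instance deterministic, or such that the vectors `R_i U_i` are Gaussian). For every `i` an adversary,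
who knows everything, adds at most `k - 1` points of norm at most `R_i`. With probability at least
`1 - e^(-d)`, whatever the adversary does, the convex hull of all these points, if it has interior
points, is covered by at most

  `2500 k d^2 (1 + log d) (1 + 1/λ^2)^(d/2)`

translates of its interior. There is no restriction on `N`. For `λ = 1` this is about `2^(d/2)`; for
every `λ > 1/√3` it is exponentially smaller than `2^d`. So for `λ < 1` the bound of Hadwiger's
conjecture holds for polytopes where an adversary chooses almost every vertex, and only a fraction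
`λ^d` of the choices is replaced by a random direction.

The proof. Let `α = (1 + 1/λ^2)^(-1/2)` and `β = α/λ`, so that `α^2 + β^2 = 1`. By the measure of
spherical caps, for a number `m` of about `d^2 log d (λ β)^(-d) = d^2 log d α^(-d)` random directions
every unit vector `u` has, with probability `1 - e^(-d)`, a scalar product `> α` with one of them.
The lengths are independent of the directions, so this is true for the directions of the `m` longest
of the vectors `R_i U_i`. If `r` is the smallest of these `m` lengths, then the hull contains the ball
of radius `> α r`, so a point of norm at most `r` is illuminated by every direction whose scalar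
product with `-x/|x|` is at least `β`; a set `D` of about `d^2 log d α^(-d)` directions contains such
a direction for every `x`. The other points, at most `k m`, are illuminated one by one. Points of the
boundary are in the hull of the vertices; the illuminated set is described by the vertices only.
-/

namespace Pool.Agent.Results.MP_eba1ef_gt.RandomPolytopes

open MeasureTheory
open Pool.Agent.PZ871 (E)
open Pool.Agent.J4H22.RP

/-- **Main theorem.** Convex hulls of random vectors `R i • U i` and of adversarial points, at most
`k` for every `i` and not longer than `R i`, are covered by `2500 k d^2 (1 + log d) √(1 + 1/l^2)^d`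
translates of their interior, simultaneously with probability at least `1 - e^(-d)`. In particular
by `c^d` with `c < 2` if `l > 1/√3`, and by `2^d - 1` for `l = 1`, `k = 2` and `d ≥ 60`. -/
theorem result :
    (∀ d : ℕ, 1 ≤ d → ∀ l : ℝ, 1 / 2 ≤ l → l ≤ 1 → ∀ k : ℕ, 1 ≤ k →
      ∀ (Ω : Type) [MeasurableSpace Ω] (P : Measure Ω) [IsProbabilityMeasure P] (N : ℕ)
        (U : Fin N → Ω → E d) (R : Ω → Fin N → ℝ), RandomVectors l P U R →
      P {ω | ¬ HullsCovered k (2500 * k * d ^ 2 * (1 + Real.log d) * √(1 + 1 / l ^ 2) ^ d)
        (fun i => U i ω) (R ω)} ≤ ENNReal.ofReal (Real.exp (-d))) ∧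
    (∀ l : ℝ, 1 / √3 < l → l ≤ 1 → ∃ c : ℝ, c < 2 ∧ ∃ γ : ℝ, 1 < γ ∧ ∃ d₀ : ℕ, ∀ d : ℕ, d₀ ≤ d →
      ∀ k : ℕ, 1 ≤ k → (k : ℝ) ≤ γ ^ d →
      ∀ (Ω : Type) [MeasurableSpace Ω] (P : Measure Ω) [IsProbabilityMeasure P] (N : ℕ)
        (U : Fin N → Ω → E d) (R : Ω → Fin N → ℝ), RandomVectors l P U R →
      P {ω | ¬ HullsCovered k (c ^ d) (fun i => U i ω) (R ω)} ≤ ENNReal.ofReal (Real.exp (-d))) ∧
    (∀ d : ℕ, 60 ≤ d →
      ∀ (Ω : Type) [MeasurableSpace Ω] (P : Measure Ω) [IsProbabilityMeasure P] (N : ℕ)
        (U : Fin N → Ω → E d) (R : Ω → Fin N → ℝ), RandomVectors 1 P U R →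
      P {ω | ¬ HullsCovered 2 (2 ^ d - 1) (fun i => U i ω) (R ω)} ≤
        ENNReal.ofReal (Real.exp (-d))) :=
  vertices

end Pool.Agent.Results.MP_eba1ef_gt.RandomPolytopes
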