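import Pool.Agent.J4H22.Pad

/-!
# Simulation of machines by jobs; running times of space bounded machines; machines without oracle
-/

namespace Pool.Agent.J4H22

open Pool.Agent.NPC

section

variable {M : Machine} {eQ : M.Q → ℕ} {eG : M.Γ → ℕ} {d : Code}

theorem vd_acode_verdict (b : Bool) : vd (acode eQ eG (verdict b)) = some b := by
  cases b <;> rfl

theorem next_verdict {A : Oracle} {x : List Bool} {c : Cfg M} {b : Bool}
    (h : M.act x c = verdict b) : M.next A x c = c := by
  unfold Machine.next
  rw [h]
  cases b <;> rfl

theorem verdict_inj {b b' : Bool} (h : (verdict b : Action M.k M.Γ M.Q) = verdict b') :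
    b = b' := by
  cases b <;> cases b' <;> simp [verdict] at h ⊢

theorem vd_acode {a : Action M.k M.Γ M.Q} {b : Bool} (h : vd (acode eQ eG a) = some b) :
    a = verdict b := by
  cases a with
  | accept =>
    simp only [acode, vd, Option.some.injEq] at h
    subst h
    rfl
  | reject =>
    simp only [acode, vd, Option.some.injEq] at h
    subst h
    rfl
  | step q d w m e => simp [acode, vd] at h
  | ask q => simp [acode, vd] at h

theorem run_machine (hd : Faithful eQ eG d) {v : VI} {x : List Bool} (hv : v.list = x)
    {A : Oracle} {s : ℕ} {b : Bool} : ∀ (n t : ℕ) (c : Cfg M) (p : PCf ES), n ≤ t →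
      Rel eQ eG c p → M.act x ((M.next A x)^[n] c) = verdict b →
      (∀ i, M.space ((M.next A x)^[i] c) ≤ s) → run A d v s t p = b := by
  subst hv
  intro n
  induction n with
  | zero =>
    intro t c p _ hr hact hsp
    have h1 := hr.act hd (v := v)
    simp only [Function.iterate_zero, id_eq] at hact
    rw [hact] at h1
    have h2 : stopB (d, v, s, t) p.a p.b = some b := by
      unfold stopB
      have h3 := hsp 0
      simp only [Function.iterate_zero, id_eq] at h3
      rw [← hr.cells] at h3
      rw [if_neg (by simpa using h3)]
      simp only [h1, vd_acode_verdict]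
    cases t with
    | zero =>
      unfold run
      rw [h2]
      rfl
    | succ t =>
      unfold run
      rw [h2]
  | succ n ih =>
    intro t c p hn hr hact hsp
    obtain ⟨t, rfl⟩ : ∃ t', t = t' + 1 := ⟨t - 1, by omega⟩
    have h1 := hr.act hd (v := v)
    have h3 := hsp 0
    simp only [Function.iterate_zero, id_eq] at h3
    rw [← hr.cells] at h3
    cases hvd : vd (eact d v p.a p.b) with
    | some b' =>
      have h4 : M.act v.list c = verdict b' := by
        rw [h1] at hvd
        exact vd_acode hvd
      have h5 : ∀ m, (M.next A v.list)^[m] c = c := by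
        intro m
        induction m with
        | zero => rfl
        | succ m ihm => rw [Function.iterate_succ_apply', ihm, next_verdict h4]
      rw [h5, h4] at hact
      have h6 := verdict_inj hact
      have h2 : stopB (d, v, s, t + 1) p.a p.b = some b' := by
        unfold stopB
        rw [if_neg (by simpa using h3)]
        simp only [hvd]
      unfold run
      rw [h2]
      exact h6
    | none =>
      have h2 : stopB (d, v, s, t + 1) p.a p.b = none := by
        unfold stopB
        rw [if_neg (by simpa using h3)]
        simp only [hvd]
        rw [if_neg (by omega)]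
      unfold run
      rw [h2]
      simp only
      exact ih t _ _ (by omega) (hr.step hd (A := A)) hact fun i => hsp (i + 1)

/-- The result of a job that runs a machine which halts within the bounds. -/
theorem jres_machine (hd : Faithful eQ eG d) {v : VI} {x : List Bool} (hv : v.list = x)
    {A : Oracle} {s t n : ℕ} {b : Bool} (hn : n ≤ t)
    (hact : M.act x (M.conf A x n) = verdict b) (hsp : ∀ i, M.space (M.conf A x i) ≤ s) :
    jres A (d, v, s, t) = b :=
  run_machine hd hv n t _ _ hn (Rel.init hd) hact hsp

end

/-! ### Space is bounded by time -/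

theorem cells_move {Γ : Type} (bl : Γ) (t : Tape Γ) (a : Γ) (m : Move) :
    ((t.write a).move bl m).cells ≤ t.cells + 1 := by
  cases m
  · simp only [Tape.write, Tape.move, Tape.cells, List.length_tail, List.length_cons]
    omega
  · simp only [Tape.write, Tape.move, Tape.cells]
    omega
  · simp only [Tape.write, Tape.move, Tape.cells, List.length_tail, List.length_cons]
    omega

theorem space_next (M : Machine) (A : Oracle) (x : List Bool) (c : Cfg M) :
    M.space (M.next A x c) ≤ M.space c + M.k := by
  unfold Machine.next
  split
  · omega
  · omega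
  · unfold Machine.space
    have h : ∑ i : Fin M.k, ((c.tp i).cells + 1) = ∑ i : Fin M.k, (c.tp i).cells + M.k := by
      rw [Finset.sum_add_distrib]
      simp
    rw [← h]
    exact Finset.sum_le_sum fun i _ => cells_move _ _ _ _
  · show M.space _ ≤ _
    unfold Machine.space
    simp

theorem space_conf (M : Machine) (A : Oracle) (x : List Bool) (n : ℕ) :
    M.space (M.conf A x n) ≤ M.k * (n + 1) := by
  induction n with
  | zero =>
    show M.space M.init ≤ _
    unfold Machine.space Machine.init
    simp [Tape.cells]
  | succ n ih =>
    have h1 := space_next M A x (M.conf A x n)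
    have h2 : M.conf A x (n + 1) = M.next A x (M.conf A x n) := by
      unfold Machine.conf
      rw [Function.iterate_succ_apply']
    rw [h2]
    have : M.k * (n + 1 + 1) = M.k * (n + 1) + M.k := by ring
    omega

theorem conf_after {M : Machine} {A : Oracle} {x : List Bool} {n : ℕ} {b : Bool}
    (h : M.act x (M.conf A x n) = verdict b) : ∀ m, n ≤ m → M.conf A x m = M.conf A x n := by
  intro m hm
  obtain ⟨j, rfl⟩ := Nat.exists_eq_add_of_le hm
  induction j with
  | zero => rfl
  | succ j ih =>
    have h2 : M.conf A x (n + (j + 1)) = M.next A x (M.conf A x (n + j)) := by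
      unfold Machine.conf
      rw [← Nat.add_assoc, Function.iterate_succ_apply']
    rw [h2, ih (by omega), next_verdict h]

theorem space_of_time {M : Machine} {A : Oracle} {x : List Bool} {n : ℕ} {b : Bool}
    (h : M.act x (M.conf A x n) = verdict b) (i : ℕ) :
    M.space (M.conf A x i) ≤ M.k * (n + 1) := by
  rcases Nat.lt_or_ge n i with h1 | h1
  · rw [conf_after h i h1.le]
    exact space_conf _ _ _ _
  · exact (space_conf _ _ _ _).trans (Nat.mul_le_mul_left _ (by omega))

theorem verdict_of_correct {M : Machine} {A : Oracle} {L : Set ℕ} {x n : ℕ}
    (h : Correct M A L x n) : ∃ b, M.act (bin x) (M.conf A (bin x) n) = verdict b ∧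
      (b = true ↔ x ∈ L) := by
  by_cases hx : x ∈ L
  · exact ⟨true, h.1 hx, by simp [hx]⟩
  · exact ⟨false, h.2 hx, by simp [hx]⟩

end Pool.Agent.J4H22
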