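import Pool.Agent.J4H22.Classes

/-!
# Padding of tally sets
-/

namespace Pool.Agent.J4H22

open Pool.Agent.NPC

/-- the number of `n ≥ 1` with `2^(p n) ≤ N` -/
def uu (p : Polynomial ℕ) (N : ℕ) : ℕ :=
  ((List.range N).filter fun n => decide (p.eval (n + 1) < N.size)).length

theorem filter_range_length {Q : ℕ → Bool} (hQ : ∀ n, Q (n + 1) = true → Q n = true) (N : ℕ) :
    ∀ n, 1 ≤ n → (n ≤ ((List.range N).filter Q).length ↔ n ≤ N ∧ Q (n - 1) = true) := by
  have hQ' : ∀ m n, n ≤ m → Q m = true → Q n = true := by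
    intro m
    induction m with
    | zero =>
      intro n hn h
      obtain rfl : n = 0 := by omega
      exact h
    | succ m ih =>
      intro n hn h
      rcases Nat.lt_or_ge n (m + 1) with h1 | h1
      · exact ih n (by omega) (hQ m h)
      · obtain rfl : n = m + 1 := by omega
        exact h
  induction N with
  | zero => intro n hn; simp; omega
  | succ N ih =>
    intro n hn
    rw [List.range_succ, List.filter_append, List.length_append]
    have hle : ((List.range N).filter Q).length ≤ N := by
      simpa using List.length_filter_le Q (List.range N)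
    by_cases hN : Q N = true
    · have h1 : (List.filter Q [N]).length = 1 := by simp [hN]
      have h2 : ((List.range N).filter Q).length = N := by
        rcases Nat.eq_zero_or_pos N with h0 | h0
        · subst h0
          rfl
        · have := (ih N h0).2 ⟨le_rfl, hQ' N _ (by omega) hN⟩
          omega
      rw [h1, h2]
      constructor
      · intro h
        exact ⟨h, hQ' N _ (by omega) hN⟩
      · exact fun h => h.1
    · have h1 : (List.filter Q [N]).length = 0 := by simp [hN]
      rw [h1, Nat.add_zero, ih n hn]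
      constructor
      · exact fun h => ⟨by omega, h.2⟩
      · rintro ⟨h2, h3⟩
        refine ⟨?_, h3⟩
        by_contra h4
        obtain rfl : n = N + 1 := by omega
        exact hN h3

theorem le_uu {p : Polynomial ℕ} (hp : StrictMono fun n : ℕ => p.eval n) {n N : ℕ} (hn : 1 ≤ n) :
    n ≤ uu p N ↔ 2 ^ p.eval n ≤ N := by
  unfold uu
  rw [filter_range_length (fun n h => ?_) N n hn]
  · rw [decide_eq_true_eq, show n - 1 + 1 = n by omega, Nat.lt_size]
    constructor
    · exact fun h => h.2
    · intro h
      refine ⟨?_, h⟩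
      have h1 : n ≤ p.eval n := hp.le_apply
      exact (h1.trans Nat.lt_two_pow_self.le).trans h
  · have h1 := of_decide_eq_true h
    have h2 : p.eval (n + 1) < p.eval (n + 1 + 1) := hp (Nat.lt_succ_self _)
    exact decide_eq_true (h2.trans h1)

theorem uu_eq {p : Polynomial ℕ} (hp : StrictMono fun n : ℕ => p.eval n) {n N : ℕ} (hn : 1 ≤ n) :
    uu p N = n ↔ 2 ^ p.eval n ≤ N ∧ N < 2 ^ p.eval (n + 1) := by
  rw [← le_uu hp hn, ← not_le, ← le_uu hp (show 1 ≤ n + 1 by omega)]
  omega

theorem uu_pow {p : Polynomial ℕ} (hp : StrictMono fun n : ℕ => p.eval n) {n : ℕ} (hn : 1 ≤ n) :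
    uu p (2 ^ p.eval n) = n :=
  (uu_eq hp hn).2 ⟨le_rfl, Nat.pow_lt_pow_right (by norm_num) (hp (Nat.lt_succ_self n))⟩

namespace P

variable {α : Type} [TEnc α]

theorem evalP (p : Polynomial ℕ) {n : α → ℕ} (hn : NPC.Poly n) :
    NPC.Poly (fun a => p.eval (n a)) := by
  induction p using Polynomial.induction_on' with
  | add p q hp hq => simpa only [Polynomial.eval_add] using NPC.Poly.add hp hq
  | monomial k c =>
    simp only [Polynomial.eval_monomial]
    refine NPC.Poly.mul (NPC.Poly.const c) ?_
    induction k with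
    | zero => simpa using NPC.Poly.const 1
    | succ k ih => simpa only [pow_succ] using NPC.Poly.mul ih hn

theorem uu (p : Polynomial ℕ) {x : α → List Bool} (hx : NPC.Poly x) :
    UPoly (fun a => J4H22.uu p (x a).length) := by
  unfold J4H22.uu
  refine UPoly.length (NPC.Poly.filter (l := fun a => List.range (x a).length)
    (p := fun a n => decide (p.eval (n + 1) < (x a).length.size)) (NPC.Poly.range_length hx) ?_)
  refine NPC.Poly.decide_lt (evalP p (NPC.Poly.succ (NPC.Poly.snd NPC.Poly.id))) ?_
  have h1 : NPC.Poly (fun z : α × ℕ => (x z.1).length) :=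
    NPC.Poly.length (hx.comp (NPC.Poly.fst NPC.Poly.id))
  exact (NPC.Poly.length (NPC.Poly.natBits h1)).congr fun z => Nat.size_eq_bits_len _

end P

/-- the padded set -/
def pull (p : Polynomial ℕ) (T : Set ℕ) : Set ℕ :=
  {x | x ∈ Tal ∧ 1 ≤ uu p (bin x).length ∧ one (uu p (bin x).length) ∈ T}

/-- the set with the padding removed -/
def push (p : Polynomial ℕ) (S : Set ℕ) : Set ℕ :=
  {x | x ∈ Tal ∧ ∃ N, 1 ≤ N ∧ uu p N = (bin x).length ∧ one N ∈ S}

theorem pull_Tal {p : Polynomial ℕ} {T : Set ℕ} : pull p T ⊆ Tal := fun _ h => h.1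

theorem push_Tal {p : Polynomial ℕ} {T : Set ℕ} : push p T ⊆ Tal := fun _ h => h.1

theorem one_Tal {n : ℕ} (hn : 1 ≤ n) : one n ∈ Tal := ⟨n, hn, rfl⟩

theorem bin_one_length {n : ℕ} (hn : 1 ≤ n) : (bin (one n)).length = n := by
  rw [bin_one hn, List.length_replicate]

theorem pull_infinite {p : Polynomial ℕ} (hp : StrictMono fun n : ℕ => p.eval n) {T : Set ℕ}
    (hT : T ⊆ Tal) (h : T.Infinite) : (pull p T).Infinite := by
  have hinj : Set.InjOn (fun x => one (2 ^ p.eval (bin x).length)) T := by
    intro x hx y hy hxy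
    have h1 := one_injective hxy
    have h2 := hp.injective (Nat.pow_right_injective (le_refl 2) h1)
    rw [one_length (hT hx), one_length (hT hy), h2]
  refine (h.image hinj).mono ?_
  rintro _ ⟨x, hx, rfl⟩
  have h1 : 1 ≤ 2 ^ p.eval (bin x).length := Nat.one_le_two_pow
  simp only
  refine ⟨one_Tal h1, ?_, ?_⟩
  · rw [bin_one_length h1, uu_pow hp (bin_length_pos x)]
    exact bin_length_pos x
  · rw [bin_one_length h1, uu_pow hp (bin_length_pos x), ← one_length (hT hx)]
    exact hx

theorem push_infinite {p : Polynomial ℕ} (hp : StrictMono fun n : ℕ => p.eval n) {S : Set ℕ}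
    (hS : S ⊆ Tal) (h : S.Infinite) : (push p S).Infinite := by
  intro hfin
  -- the lengths of the elements of `push p S` are bounded
  obtain ⟨m, hm⟩ := (hfin.image fun x => (bin x).length).bddAbove
  refine h ((Set.finite_le_nat (2 ^ p.eval (m + 1))).image one |>.subset ?_)
  intro x hx
  refine ⟨(bin x).length, ?_, (one_length (hS hx)).symm⟩
  simp only [Set.mem_ofPred_eq]
  by_contra hcon
  push Not at hcon
  have h1 : m + 1 ≤ uu p (bin x).length := (le_uu hp (by omega)).2 hcon.le
  have h2 : one (uu p (bin x).length) ∈ push p S :=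
    ⟨one_Tal (by omega), (bin x).length, bin_length_pos x, by rw [bin_one_length (by omega)], by
      rw [← one_length (hS hx)]
      exact hx⟩
  have h3 := hm ⟨_, h2, rfl⟩
  simp only at h3
  rw [bin_one_length (by omega)] at h3
  omega

/-- the job for the virtual input of `n` ones -/
def tjob (ty : Bool) (d : Code) (K n R : ℕ) : Job := (d, ([], n, true), params ty K R)

theorem tjob_res {A : Oracle} {ty : Bool} {L : Set ℕ} {R : ℕ → ℕ} {d : Code} {K : ℕ}
    (h : ∀ (x : ℕ) (v : VI) (r : ℕ), v.list = bin x → R (bin x).length ≤ r →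
    (jres A (d, v, params ty K r) = true ↔ x ∈ L)) {n r : ℕ} (hn : 1 ≤ n) (hr : R n ≤ r) :
    jres A (tjob ty d K n r) = true ↔ one n ∈ L :=
  h (one n) ([], n, true) r (by rw [bin_one hn]; rfl) (by rw [bin_one_length hn]; exact hr)

/-- First translation: padding. -/
theorem pull_mem {A : Oracle} {ty : Bool} {i : ℕ} {T : Set ℕ} {R : ℕ → ℕ} (h : Sim A ty T R)
    {p : Polynomial ℕ} (hp : StrictMono fun n : ℕ => p.eval n)
    (hR : ∀ n, R n ≤ tw i (2 ^ p.eval n)) : pull p T ∈ C (some A) (cl ty i) := by
  obtain ⟨d, K, h⟩ := h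
  replace h := h K le_rfl
  let ini : List Bool × List Bool → Job ⊕ Bool := fun z =>
    cond ((z.1.all fun b => b) && decide (0 < uu p z.1.length))
      (.inl (d, ([], uu p z.1.length, true), params ty K z.2.length)) (.inr false)
  have hi : NPC.Poly ini := by
    refine NPC.Poly.cond (NPC.Poly.and isTal_poly
      (NPC.Poly.decide_lt (NPC.Poly.const 0) (UPoly.toPoly (P.uu p (NPC.Poly.fst NPC.Poly.id)))))
      ?_ (NPC.Poly.const _)
    exact NPC.Poly.inl (NPC.Poly.pair (NPC.Poly.const d) (NPC.Poly.pair
      (NPC.Poly.pair (NPC.Poly.const _) (NPC.Poly.pair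
        (UPoly.toPoly (P.uu p (NPC.Poly.fst NPC.Poly.id))) (NPC.Poly.const _)))
      (P.params ty (UPoly.const K) (UPoly.length (NPC.Poly.snd NPC.Poly.id)))))
  refine mem_one ty hi i Polynomial.X (Polynomial.X + Polynomial.C K) fun x W hW => ?_
  rw [Polynomial.eval_X] at hW ⊢
  by_cases hx : x ∈ Tal ∧ 0 < uu p (bin x).length
  · right
    refine ⟨d, ([], uu p (bin x).length, true), K, tw i (bin x).length, ?_, ?_, ?_, ?_⟩
    · simp only [ini, List.length_replicate, mem_Tal.1 hx.1, hx.2, decide_true, Bool.and_self,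
        cond_true]
    · simp
    · simp only [Polynomial.eval_add, Polynomial.eval_X]
      omega
    · have h1 := (le_uu hp (N := (bin x).length) hx.2).1 le_rfl
      have h2 := tjob_res (A := A) h (n := uu p (bin x).length) (r := tw i (bin x).length) hx.2
        ((hR _).trans (tw_mono i h1))
      refine h2.trans ⟨fun h3 => ⟨hx.1, hx.2, h3⟩, fun h3 => h3.2.2⟩
  · left
    refine ⟨false, ?_, ?_⟩
    · simp only [ini]
      have h1 : ((bin x).all fun b => b) = false ∨ decide (0 < uu p (bin x).length) = false := by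
        by_contra hcon
        push Not at hcon
        refine hx ⟨mem_Tal.2 (by simpa using hcon.1), Nat.pos_of_ne_zero ?_⟩
        simpa using hcon.2
      rcases h1 with h1 | h1 <;> simp [h1]
    · simp only [Bool.false_eq_true, false_iff]
      exact fun h1 => hx ⟨h1.1, h1.2.1⟩

/-! ### Second translation -/

/-- states of the driver: pad, current number, last number; or a verdict -/
abbrev PS2 : Type := (List Bool × ℕ × ℕ) ⊕ Bool

/-- the job -/
def push2Job (ty : Bool) (d : Code) (K : ℕ) (z : PS2) : Job ⊕ Bool :=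
  match z with
  | .inl z => .inl (tjob ty d K z.2.1 z.1.length)
  | .inr b => .inr b

/-- the next state, for a running driver -/
def push2Nxt (z : List Bool × ℕ × ℕ) (r : Bool) : PS2 :=
  cond (decide (z.2.2 ≤ z.2.1)) (.inr false) (cond r (.inr true) (.inl (z.1, z.2.1 + 1, z.2.2)))

/-- the next state -/
def push2Upd (z : PS2) (r : Bool) : PS2 :=
  match z with
  | .inl z => push2Nxt z r
  | .inr b => .inr b

/-- the driver that looks for an element of `S` in an interval -/
def pushD (ty : Bool) (d : Code) (K : ℕ) : Driver PS2 where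
  job := push2Job ty d K
  upd z := push2Upd z.1 z.2

theorem P.tjob {α : Type} [TEnc α] (ty : Bool) {d : α → Code} {K n R : α → ℕ} (hd : NPC.Poly d)
    (hK : UPoly K) (hn : NPC.Poly n) (hR : UPoly R) :
    NPC.Poly (fun a => J4H22.tjob ty (d a) (K a) (n a) (R a)) := by
  unfold J4H22.tjob
  exact NPC.Poly.pair hd (NPC.Poly.pair (NPC.Poly.pair (NPC.Poly.const _) (NPC.Poly.pair hn
    (NPC.Poly.const _))) (P.params ty hK hR))

theorem pushD_poly (ty : Bool) (d : Code) (K : ℕ) : (pushD ty d K).IsPoly := by
  constructor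
  · refine (NPC.Poly.sumCases (o := fun z : PS2 => z)
      (g := fun _ z => (.inl (J4H22.tjob ty d K z.2.1 z.1.length) : Job ⊕ Bool))
      (h := fun _ b => (.inr b : Job ⊕ Bool)) NPC.Poly.id ?_
      (NPC.Poly.inr (NPC.Poly.snd NPC.Poly.id))).congr fun z => ?_
    · have hz : NPC.Poly (fun z : PS2 × (List Bool × ℕ × ℕ) => z.2) := NPC.Poly.snd NPC.Poly.id
      exact NPC.Poly.inl (P.tjob ty (NPC.Poly.const d) (UPoly.const K)
        (NPC.Poly.fst (NPC.Poly.snd hz)) (UPoly.length (NPC.Poly.fst hz)))
    · cases z <;> rfl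
  · have h1 : NPC.Poly (fun w : (List Bool × ℕ × ℕ) × Bool => push2Nxt w.1 w.2) := by
      have hz : NPC.Poly (fun w : (List Bool × ℕ × ℕ) × Bool => w.1) := NPC.Poly.fst NPC.Poly.id
      have h2 := NPC.Poly.fst (NPC.Poly.snd hz)
      have h3 := NPC.Poly.snd (NPC.Poly.snd hz)
      exact NPC.Poly.cond (NPC.Poly.decide_le h3 h2) (NPC.Poly.const _)
        (NPC.Poly.cond (NPC.Poly.snd NPC.Poly.id) (NPC.Poly.const _)
          (NPC.Poly.inl (NPC.Poly.pair (NPC.Poly.fst hz) (NPC.Poly.pair (NPC.Poly.succ h2) h3))))
    refine (NPC.Poly.sumCases (o := fun z : PS2 × Bool => z.1)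
      (g := fun z w => push2Nxt w z.2) (h := fun _ b => (.inr b : PS2))
      (NPC.Poly.fst NPC.Poly.id) (h1.comp (NPC.Poly.pair (NPC.Poly.snd NPC.Poly.id)
        (NPC.Poly.snd (NPC.Poly.fst NPC.Poly.id))))
      (NPC.Poly.inr (NPC.Poly.snd NPC.Poly.id))).congr fun z => ?_
    rcases z with ⟨_ | _, _⟩ <;> rfl

theorem pushD_reach {A : Oracle} {ty : Bool} {d : Code} {K : ℕ} {pad : List Bool} {E B S T : ℕ}
    (hB : sz pad + 3 * sz E + 6 ≤ B) (hS : (params ty K pad.length).1 ≤ S)
    (hT : (params ty K pad.length).2 ≤ T) :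
    ∀ (k N : ℕ), E ≤ N + k → N ≤ E →
      ∃ n ≤ k + 1, ∃ b : Bool, (b = true ↔ ∃ N', N ≤ N' ∧ N' < E ∧
        jres A (tjob ty d K N' pad.length) = true) ∧
        (pushD ty d K).Reach A B S T n (.inl (pad, N, E)) (.inr b) := by
  have hszN : ∀ N ≤ E, sz (.inl (pad, N, E) : PS2) ≤ B := by
    intro N hN
    rw [sz_inl]
    simp only [sz_pair]
    have := sz_nat_mono_le hN
    omega
  have hszb : ∀ b : Bool, sz (.inr b : PS2) ≤ B := by
    intro b
    rw [sz_inr]
    have := sz_bool_le b
    have := sz_pos pad
    have := sz_pos E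
    omega
  intro k
  induction k with
  | zero =>
    intro N h1 h2
    obtain rfl : N = E := by omega
    have h3 := Driver.Reach.one (D := pushD ty d K) (A := A) (B := B) (S := S) (T := T)
      (x := .inl (pad, N, N)) (J := tjob ty d K N pad.length) rfl hS hT (hszN N le_rfl) (by
        show sz (push2Nxt (pad, N, N) _) ≤ B
        unfold push2Nxt
        simp only [le_refl, decide_true, cond_true]
        exact hszb _)
    have e : (pushD ty d K).upd (.inl (pad, N, N), jres A (tjob ty d K N pad.length)) =
        .inr false := by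
      show push2Nxt (pad, N, N) _ = _
      unfold push2Nxt
      simp
    rw [e] at h3
    refine ⟨1, by omega, false, ?_, h3⟩
    simp only [Bool.false_eq_true, false_iff]
    rintro ⟨N', h4, h5, _⟩
    omega
  | succ k ih =>
    intro N h1 h2
    have h3 := Driver.Reach.one (D := pushD ty d K) (A := A) (B := B) (S := S) (T := T)
      (x := .inl (pad, N, E)) (J := tjob ty d K N pad.length) rfl hS hT (hszN N h2)
    rcases Nat.lt_or_ge N E with h4 | h4
    · cases hr : jres A (tjob ty d K N pad.length) with
      | true =>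
        have e : (pushD ty d K).upd (.inl (pad, N, E), jres A (tjob ty d K N pad.length)) =
            .inr true := by
          show push2Nxt (pad, N, E) _ = _
          unfold push2Nxt
          rw [hr]
          simp only [not_le.2 h4, decide_false, cond_false, cond_true]
        rw [e] at h3
        refine ⟨1, by omega, true, ?_, h3 (hszb _)⟩
        simp only [true_iff]
        exact ⟨N, le_rfl, h4, hr⟩
      | false =>
        have e : (pushD ty d K).upd (.inl (pad, N, E), jres A (tjob ty d K N pad.length)) =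
            .inl (pad, N + 1, E) := by
          show push2Nxt (pad, N, E) _ = _
          unfold push2Nxt
          rw [hr]
          simp only [not_le.2 h4, decide_false, cond_false]
        rw [e] at h3
        obtain ⟨n, hn, b, hb, h5⟩ := ih (N + 1) (by omega) (by omega)
        refine ⟨1 + n, by omega, b, ?_, (h3 (hszN _ (by omega))).trans h5⟩
        rw [hb]
        constructor
        · rintro ⟨N', h6, h7, h8⟩
          exact ⟨N', by omega, h7, h8⟩
        · rintro ⟨N', h6, h7, h8⟩
          refine ⟨N', ?_, h7, h8⟩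
          rcases Nat.lt_or_ge N N' with h9 | h9
          · omega
          · obtain rfl : N' = N := by omega
            rw [hr] at h8
            exact absurd h8 (by simp)
    · obtain rfl : N = E := by omega
      have e : (pushD ty d K).upd (.inl (pad, N, N), jres A (tjob ty d K N pad.length)) =
          .inr false := by
        show push2Nxt (pad, N, N) _ = _
        unfold push2Nxt
        simp
      rw [e] at h3
      refine ⟨1, by omega, false, ?_, h3 (hszb _)⟩
      simp only [Bool.false_eq_true, false_iff]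
      rintro ⟨N', h4, h5, _⟩
      omega

/-- Second translation: removing the padding. -/
theorem push_mem {A : Oracle} {ty : Bool} {i : ℕ} {S : Set ℕ} {R : ℕ → ℕ} (h : Sim A ty S R)
    {p r : Polynomial ℕ} (hp : StrictMono fun n : ℕ => p.eval n)
    (hR : ∀ n N, 1 ≤ n → N < 2 ^ p.eval (n + 1) → R N ≤ tw i (r.eval n))
    (hi : ty = true → 1 ≤ i) : push p S ∈ C (some A) (cl ty i) := by
  obtain ⟨d, K, h⟩ := h
  replace h := h K le_rfl
  let ini : List Bool × List Bool → PS2 := fun z =>
    cond (z.1.all fun b => b)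
      (.inl (z.2, 2 ^ p.eval z.1.length, 2 ^ p.eval (z.1.length + 1))) (.inr false)
  have hini : NPC.Poly ini := by
    have h1 : UPoly (fun z : List Bool × List Bool => z.1.length) :=
      UPoly.length (NPC.Poly.fst NPC.Poly.id)
    exact NPC.Poly.cond isTal_poly (NPC.Poly.inl (NPC.Poly.pair (NPC.Poly.snd NPC.Poly.id)
      (NPC.Poly.pair (P.pow2 (UPoly.eval h1 p))
        (P.pow2 (UPoly.eval (UPoly.add h1 (UPoly.const 1)) p))))) (NPC.Poly.const _)
  let r' : Polynomial ℕ := r + p.comp (Polynomial.X + 1)
  refine mem_cl ty (pushD_poly ty d K) hini i r' (100 * (Polynomial.X + 1) +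
    Polynomial.C (K + 1) * (Polynomial.X + 1) + 12 * (p.comp (Polynomial.X + 1) + 1))
    fun x W hW => ?_
  set m := tw i (r'.eval (bin x).length) with hm
  have hx1 := bin_length_pos x
  have e0 : (100 * (Polynomial.X + 1) + Polynomial.C (K + 1) * (Polynomial.X + 1) +
      12 * (p.comp (Polynomial.X + 1) + 1) : Polynomial ℕ).eval W =
      100 * (W + 1) + (K + 1) * (W + 1) + 12 * (p.eval (W + 1) + 1) := by
    simp [Polynomial.eval_comp]
  rw [e0]
  by_cases hx : x ∈ Tal
  · set n := (bin x).length with hn
    have e1 : ini (bin x, List.replicate m true) =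
        .inl (List.replicate m true, 2 ^ p.eval n, 2 ^ p.eval (n + 1)) := by
      simp only [ini, mem_Tal.1 hx, cond_true]
      rfl
    have hlt : 2 ^ p.eval n ≤ 2 ^ p.eval (n + 1) :=
      Nat.pow_le_pow_right (by norm_num) (hp (Nat.lt_succ_self n)).le
    have hr'n : r'.eval n = r.eval n + p.eval (n + 1) := by
      simp [r', Polynomial.eval_comp]
    have hszE : sz (2 ^ p.eval (n + 1)) ≤ 4 * (p.eval (W + 1) + 1) + 1 := by
      have h1 := sz_nat_le (2 ^ p.eval (n + 1))
      rw [Nat.size_pow] at h1
      have h2 : p.eval (n + 1) ≤ p.eval (W + 1) := eval_mono p (by omega)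
      omega
    obtain ⟨k, hk, b, hb, h1⟩ := pushD_reach (A := A) (ty := ty) (d := d) (K := K)
      (pad := List.replicate m true) (E := 2 ^ p.eval (n + 1))
      (B := 100 * (W + 1) + (K + 1) * (W + 1) + 12 * (p.eval (W + 1) + 1))
      (S := 100 * (W + 1) + (K + 1) * (W + 1) + 12 * (p.eval (W + 1) + 1))
      (T := (params ty K m).2) (by
        have h2 := sz_listBool_le (List.replicate m true)
        rw [List.length_replicate] at h2
        omega) (by
        rw [List.length_replicate]
        refine (params_s_le ty K m).trans ?_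
        have : (K + 1) * (m + 1) ≤ (K + 1) * (W + 1) := Nat.mul_le_mul_left _ (by omega)
        omega) (by rw [List.length_replicate]) (2 ^ p.eval (n + 1)) (2 ^ p.eval n)
        (Nat.le_add_left _ _) hlt
    refine ⟨k, (params ty K m).2, .inr b, b, rfl, ?_, ?_, ?_⟩
    · rw [hb, List.length_replicate]
      constructor
      · rintro ⟨N, h2, h3, h4⟩
        have hN1 : 1 ≤ N := (Nat.one_le_two_pow).trans h2
        have h5 := (tjob_res (A := A) h hN1 ((hR n N hx1 h3).trans
          (tw_mono i (show r.eval n ≤ r'.eval n by omega)))).1 h4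
        exact ⟨hx, N, hN1, (uu_eq hp hx1).2 ⟨h2, h3⟩, h5⟩
      · rintro ⟨_, N, h2, h3, h4⟩
        obtain ⟨h5, h6⟩ := (uu_eq hp hx1).1 h3
        exact ⟨N, h5, h6, (tjob_res (A := A) h h2 ((hR n N hx1 h6).trans
          (tw_mono i (show r.eval n ≤ r'.eval n by omega)))).2 h4⟩
    · rw [e1]
      exact h1
    · rintro rfl
      have hi1 := hi rfl
      constructor
      · refine hk.trans ?_
        have h2 : 2 ^ p.eval (n + 1) ≤ m := by
          rw [hm]
          obtain ⟨i', rfl⟩ : ∃ i', i = i' + 1 := ⟨i - 1, by omega⟩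
          rw [tw_succ]
          refine Nat.pow_le_pow_right (by norm_num) ?_
          refine le_trans ?_ (le_tw i' _)
          omega
        omega
      · show m ≤ _
        omega
  · refine ⟨0, 0, .inr false, false, rfl, ?_, ?_, fun _ => ⟨by omega, by omega⟩⟩
    · simp only [Bool.false_eq_true, false_iff]
      exact fun h1 => hx h1.1
    · have h1 : ((bin x).all fun b => b) = false := by
        by_contra hcon
        exact hx (mem_Tal.2 (by simpa using hcon))
      have e1 : ini (bin x, List.replicate m true) = .inr false := by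
        simp only [ini, h1, cond_false]
      rw [e1]
      refine Driver.Reach.refl ?_
      rw [sz_inr, sz_false]
      omega

end Pool.Agent.J4H22
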