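import Pool.Agent.J4H22.DPath

/-!
# Arithmetic of towers
-/

namespace Pool.Agent.J4H22

open Pool.Agent.NPC

theorem tw_zero (y : ℕ) : tw 0 y = y := rfl

theorem tw_succ (i y : ℕ) : tw (i + 1) y = 2 ^ tw i y := rfl

theorem tw_succ' (i y : ℕ) : tw (i + 1) y = tw i (2 ^ y) := by
  induction i generalizing y with
  | zero => rfl
  | succ i ih =>
    rw [tw_succ, ih, ← tw_succ]

theorem tw_mono (i : ℕ) {y z : ℕ} (h : y ≤ z) : tw i y ≤ tw i z := by
  induction i with
  | zero => exact h
  | succ i ih => exact Nat.pow_le_pow_right (by norm_num) ih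

theorem tw_strictMono (i : ℕ) : StrictMono (tw i) := by
  induction i with
  | zero => exact fun _ _ h => h
  | succ i ih => exact fun _ _ h => Nat.pow_lt_pow_right (by norm_num) (ih h)

theorem le_tw (i y : ℕ) : y ≤ tw i y := (tw_strictMono i).le_apply

theorem tw_le_succ (i y : ℕ) : tw i y ≤ tw (i + 1) y := by
  rw [tw_succ]
  exact Nat.lt_two_pow_self.le

theorem poly_le_pow (r : Polynomial ℕ) : ∃ c : ℕ, ∀ y : ℕ, r.eval y ≤ (y + 2) ^ c := by
  induction r using Polynomial.induction_on' with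
  | add p q hp hq =>
    obtain ⟨c, hc⟩ := hp
    obtain ⟨d, hd⟩ := hq
    refine ⟨c + d + 1, fun y => ?_⟩
    rw [Polynomial.eval_add]
    have h1 : (y + 2) ^ c ≤ (y + 2) ^ (c + d) := Nat.pow_le_pow_right (by omega) (by omega)
    have h2 : (y + 2) ^ d ≤ (y + 2) ^ (c + d) := Nat.pow_le_pow_right (by omega) (by omega)
    have h3 := hc y
    have h4 := hd y
    have h5 : (y + 2) ^ (c + d + 1) = (y + 2) ^ (c + d) * (y + 2) := pow_succ _ _
    nlinarith [Nat.zero_le ((y + 2) ^ (c + d) * y)]
  | monomial n a =>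
    refine ⟨a + n, fun y => ?_⟩
    rw [Polynomial.eval_monomial, pow_add]
    refine Nat.mul_le_mul ?_ (Nat.pow_le_pow_left (by omega) n)
    have h1 : a ≤ 2 ^ a := Nat.lt_two_pow_self.le
    exact h1.trans (Nat.pow_le_pow_left (by omega) a)

theorem tw_absorb (i : ℕ) : ∀ r : Polynomial ℕ, ∃ p : Polynomial ℕ, ∀ y : ℕ,
    r.eval (tw i y) ≤ tw i (p.eval y) := by
  induction i with
  | zero => exact fun r => ⟨r, fun y => le_rfl⟩
  | succ i ih =>
    intro r
    obtain ⟨c, hc⟩ := poly_le_pow r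
    obtain ⟨p, hp⟩ := ih (Polynomial.C c * (Polynomial.X + 2))
    refine ⟨p, fun y => (hc _).trans ?_⟩
    rw [tw_succ, tw_succ]
    have h1 : 2 ^ tw i y + 2 ≤ 2 ^ (tw i y + 2) := by
      rw [pow_add]
      have : 1 ≤ 2 ^ tw i y := Nat.one_le_two_pow
      omega
    refine (Nat.pow_le_pow_left h1 c).trans ?_
    rw [← pow_mul]
    refine Nat.pow_le_pow_right (by norm_num) ?_
    refine le_trans (le_of_eq ?_) (hp y)
    simp only [Polynomial.eval_mul, Polynomial.eval_C, Polynomial.eval_add, Polynomial.eval_X,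
      Polynomial.eval_ofNat]
    ring

/-- A polynomial of a tower is at most a tower. -/
theorem tw_poly (i : ℕ) (r p : Polynomial ℕ) : ∃ p' : Polynomial ℕ, ∀ n : ℕ,
    r.eval (tw i (p.eval n) + n) ≤ tw i (p'.eval n) := by
  obtain ⟨u, hu⟩ := tw_absorb i (r.comp (2 * Polynomial.X))
  refine ⟨u.comp (p + Polynomial.X), fun n => ?_⟩
  have h1 : tw i (p.eval n) + n ≤ 2 * tw i (p.eval n + n) := by
    have h2 := tw_mono i (show p.eval n ≤ p.eval n + n by omega)
    have h3 := (le_tw i (p.eval n + n))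
    omega
  refine (eval_mono r h1).trans ?_
  have h4 := hu (p.eval n + n)
  rw [Polynomial.eval_comp] at h4
  simp only [Polynomial.eval_mul, Polynomial.eval_ofNat, Polynomial.eval_X] at h4
  rw [Polynomial.eval_comp, Polynomial.eval_add, Polynomial.eval_X]
  exact h4

theorem bin_length_pos (x : ℕ) : 0 < (bin x).length := by
  unfold bin
  split_ifs with h
  · simp
  · rw [List.length_reverse]
    have : x.bits ≠ [] := by
      intro h1
      exact h (by
        have := congrArg List.length h1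
        rw [Nat.size_eq_bits_len, List.length_nil, Nat.size_eq_zero] at this
        exact this)
    exact List.length_pos_iff.2 this

theorem exists_time (o : Option Oracle) (i : ℕ) : C o (2 * i + 1) =
    {L | ∃ (M : Machine) (p : Polynomial ℕ), Allowed o M ∧
        DecidesInTime M (orc o) L fun n => tw i (p.eval n)} := by
  show (if (2 * i) % 2 = 0 then _ else _) = _
  rw [if_pos (by omega), show 2 * i / 2 = i by omega]

theorem exists_space (o : Option Oracle) (i : ℕ) : C o (2 * i + 2) =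
    {L | ∃ (M : Machine) (p : Polynomial ℕ), Allowed o M ∧
        DecidesInSpace M (orc o) L fun n => tw i (p.eval n)} := by
  show (if (2 * i + 1) % 2 = 0 then _ else _) = _
  rw [if_neg (by omega), show (2 * i + 1) / 2 = i by omega]

theorem mem_time_of {A : Oracle} {L : Set ℕ} {i : ℕ} {M : Machine} (r p : Polynomial ℕ)
    (h : ∀ x : ℕ, ∃ n ≤ r.eval (tw i (p.eval (bin x).length) + (bin x).length),
      Correct M A L x n) : L ∈ C (some A) (2 * i + 1) := by
  rw [exists_time]
  obtain ⟨p', hp'⟩ := tw_poly i r p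
  refine ⟨M, p', trivial, fun x => ?_⟩
  obtain ⟨n, hn, h1⟩ := h x
  exact ⟨n, hn.trans (hp' _), h1⟩

theorem mem_space_of {A : Oracle} {L : Set ℕ} {i : ℕ} {M : Machine} (r p : Polynomial ℕ)
    (h : ∀ x : ℕ, (∃ n, Correct M A L x n) ∧ ∀ n, M.space (M.conf A (bin x) n) ≤
      r.eval (tw i (p.eval (bin x).length) + (bin x).length)) : L ∈ C (some A) (2 * i + 2) := by
  rw [exists_space]
  obtain ⟨p', hp'⟩ := tw_poly i r p
  refine ⟨M, p', trivial, fun x => ⟨(h x).1, fun n => ((h x).2 n).trans (hp' _)⟩⟩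

theorem correct_of_verdict {M : Machine} {A : Oracle} {L : Set ℕ} {x n : ℕ} {v : Bool}
    (h : M.act (bin x) (M.conf A (bin x) n) = verdict v) (hv : v = true ↔ x ∈ L) :
    Correct M A L x n := by
  refine ⟨fun hx => ?_, fun hx => ?_⟩
  · rw [h, hv.2 hx]
    rfl
  · cases v with
    | false =>
      rw [h]
      rfl
    | true => exact absurd (hv.1 rfl) hx

end Pool.Agent.J4H22
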