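import Pool.Agent.J4H22.Parity
import Pool.Agent.J4H22.Collapse

/-!
# Inclusions and translations
-/

namespace Pool.Agent.J4H22

open Pool.Agent.NPC

/-! ### Inclusions -/

theorem time_sub_space (A : Oracle) (i : ℕ) : C (some A) (2 * i + 1) ⊆ C (some A) (2 * i + 2) := by
  intro L hL
  rw [exists_time] at hL
  obtain ⟨M, p, _, h⟩ := hL
  refine mem_space_of (M := M) (Polynomial.C M.k * (Polynomial.X + 1)) p fun x => ?_
  obtain ⟨n, hn, h1⟩ := h x
  obtain ⟨b, hb, _⟩ := verdict_of_correct h1
  refine ⟨⟨n, h1⟩, fun m => (space_of_time hb m).trans ?_⟩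
  simp only [Polynomial.eval_mul, Polynomial.eval_C, Polynomial.eval_add, Polynomial.eval_X,
    Polynomial.eval_one]
  refine Nat.mul_le_mul_left _ ?_
  have h2 : n ≤ tw i (p.eval (bin x).length) := hn
  omega

theorem halt_of_space {M : Machine} {K : ℕ} (hK : ∀ (A : Oracle) (x : List Bool) (s : ℕ),
    (∀ n, M.space (M.conf A x n) ≤ s) → (∃ n b, M.act x (M.conf A x n) = verdict b) →
    ∃ n ≤ 2 ^ (K * (s + Nat.log 2 x.length + 1)), ∃ b, M.act x (M.conf A x n) = verdict b)
    {A : Oracle} {L : Set ℕ} {x s : ℕ} (h1 : ∃ n, Correct M A L x n)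
    (h2 : ∀ n, M.space (M.conf A (bin x) n) ≤ s) :
    ∃ n ≤ 2 ^ (K * (s + Nat.log 2 (bin x).length + 1)), Correct M A L x n := by
  obtain ⟨n, h1⟩ := h1
  obtain ⟨b, hb, hb'⟩ := verdict_of_correct h1
  obtain ⟨m, hm, b', hb''⟩ := hK A (bin x) s h2 ⟨n, b, hb⟩
  have e : b' = b := by
    have h3 := conf_after hb'' (max n m) (le_max_right _ _)
    have h4 := conf_after hb (max n m) (le_max_left _ _)
    rw [h3] at h4
    rw [← h4, hb''] at hb
    exact verdict_inj hb
  subst e
  exact ⟨m, hm, correct_of_verdict hb'' hb'⟩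

theorem space_sub_time (A : Oracle) (i : ℕ) : C (some A) (2 * i + 2) ⊆ C (some A) (2 * i + 3) := by
  intro L hL
  rw [exists_space] at hL
  obtain ⟨M, p, _, h⟩ := hL
  obtain ⟨K, hK⟩ := halt_time M
  rw [show 2 * i + 3 = 2 * (i + 1) + 1 by ring, exists_time]
  obtain ⟨p', hp'⟩ := tw_poly i (Polynomial.C K * (2 * Polynomial.X + 1)) p
  refine ⟨M, p', trivial, fun x => ?_⟩
  obtain ⟨n, hn, h1⟩ := halt_of_space hK (h x).1 (h x).2
  refine ⟨n, hn.trans ?_, h1⟩
  simp only [tw_succ]
  refine Nat.pow_le_pow_right (by norm_num) (le_trans ?_ (hp' _))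
  simp only [Polynomial.eval_mul, Polynomial.eval_C, Polynomial.eval_add, Polynomial.eval_X,
    Polynomial.eval_one, Polynomial.eval_ofNat]
  refine Nat.mul_le_mul_left _ ?_
  have := Nat.log_le_self 2 (bin x).length
  omega

theorem log_sub_time (A : Oracle) : C (some A) 0 ⊆ C (some A) 1 := by
  intro L hL
  obtain ⟨M, c, _, h⟩ := hL
  obtain ⟨K, hK⟩ := halt_time M
  rw [show (1 : ℕ) = 2 * 0 + 1 by norm_num, exists_time]
  refine ⟨M, Polynomial.X ^ (K * (c + 1)) * Polynomial.C (2 ^ (K * (c + 1))), trivial,
    fun x => ?_⟩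
  obtain ⟨n, hn, h1⟩ := halt_of_space hK (h x).1 (h x).2
  refine ⟨n, hn.trans ?_, h1⟩
  simp only [tw_zero, Polynomial.eval_mul, Polynomial.eval_C, Polynomial.eval_pow,
    Polynomial.eval_X]
  have h2 : 2 ^ Nat.log 2 (bin x).length ≤ (bin x).length :=
    Nat.pow_log_le_self 2 (bin_length_pos x).ne'
  have h3 : K * (c * Nat.log 2 (bin x).length + c + Nat.log 2 (bin x).length + 1) =
      Nat.log 2 (bin x).length * (K * (c + 1)) + K * (c + 1) := by ring
  rw [h3, pow_add, pow_mul]
  exact Nat.mul_le_mul_right _ (Nat.pow_le_pow_left h2 _)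

theorem C_sub_succ (A : Oracle) (j : ℕ) : C (some A) j ⊆ C (some A) (j + 1) := by
  rcases Nat.eq_zero_or_pos j with rfl | hj
  · exact log_sub_time A
  · rcases Nat.even_or_odd' (j - 1) with ⟨i, hi | hi⟩
    · obtain rfl : j = 2 * i + 1 := by omega
      exact time_sub_space A i
    · obtain rfl : j = 2 * i + 2 := by omega
      exact space_sub_time A i

theorem C_mono (A : Oracle) {j k : ℕ} (h : j ≤ k) : C (some A) j ⊆ C (some A) k := by
  induction k, h using Nat.le_induction with
  | base => exact le_rfl
  | succ k _ ih => exact ih.trans (C_sub_succ A k)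

/-! ### Translation -/

theorem bits_concat_true (m : List Bool) : (valB (m ++ [true])).bits = m ++ [true] := by
  have key : ∀ (l acc : List Bool), acc ≠ [] →
      l.foldl (fun acc b => if b = false ∧ acc = [] then [] else b :: acc) acc =
        l.reverse ++ acc := by
    intro l
    induction l with
    | nil => intro acc _; rfl
    | cons b l ih =>
      intro acc hacc
      rw [List.foldl_cons, if_neg (fun h => hacc h.2), ih _ (by simp)]
      simp
  rw [← normB_eq]
  unfold normB
  rw [List.reverse_append, List.reverse_singleton, List.singleton_append, List.foldl_cons]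
  simp only [Bool.true_eq_false, false_and, if_false]
  rw [key _ _ (by simp)]
  simp

/-- The padded input as a string. -/
def padL (w : List Bool) (N : ℕ) : List Bool := true :: (w ++ [true]) ++ List.replicate N false

/-- The content of a padded input. -/
def ext (l : List Bool) : List Bool := ((valB l).bits.reverse.tail.reverse).tail

theorem valB_replicate0 (N : ℕ) : valB (List.replicate N false) = 0 := by
  induction N with
  | zero => rfl
  | succ n ih => simp [List.replicate_succ, ih]

theorem ext_padL (w : List Bool) (N : ℕ) : ext (padL w N) = w := by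
  unfold ext padL
  rw [valB_append, valB_replicate0, Nat.mul_zero, Nat.add_zero, ← List.cons_append,
    bits_concat_true]
  simp

theorem bin_cons_true (l : List Bool) : ∃ y : ℕ, bin y = true :: l := by
  have h := bits_concat_true l.reverse
  refine ⟨valB (l.reverse ++ [true]), ?_⟩
  unfold bin
  rw [if_neg, h]
  · simp
  · intro h0
    rw [h0] at h
    have := congrArg List.length h
    simp at this

theorem P.ext {α : Type} [TEnc α] {l : α → List Bool} (hl : NPC.Poly l) :
    NPC.Poly (fun a => J4H22.ext (l a)) := by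
  unfold J4H22.ext
  exact NPC.Poly.tail (NPC.Poly.reverse (NPC.Poly.tail (NPC.Poly.reverse
    (NPC.Poly.natBits (NPC.Poly.valBits hl)))))

/-- A collapse goes two levels up. -/
theorem collapse_up {A : Oracle} {j : ℕ} (h : C (some A) (j + 1) ⊆ C (some A) j) :
    C (some A) (j + 3) ⊆ C (some A) (j + 2) := by
  intro L hL
  obtain ⟨ty, i, hi⟩ := cl_cases j
  rw [show j + 3 = cl ty (i + 1) by rw [cl_add, ← hi]] at hL
  obtain ⟨p, d, K, hL⟩ := sim_cl hL
  -- the padded set
  let L' : Set ℕ := {y | jres A (d, vs (ext (bin y)), params ty K (tw i (bin y).length)) = true}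
  have hL' : L' ∈ C (some A) (j + 1) := by
    rw [hi]
    let ini : List Bool × List Bool → Job ⊕ Bool := fun z =>
      .inl (d, vs (ext z.1), params ty K z.2.length)
    have hini : NPC.Poly ini :=
      NPC.Poly.inl (NPC.Poly.pair (NPC.Poly.const d) (NPC.Poly.pair
        (P.vs (P.ext (NPC.Poly.fst NPC.Poly.id)))
        (P.params ty (UPoly.const K) (UPoly.length (NPC.Poly.snd NPC.Poly.id)))))
    refine mem_one ty hini i Polynomial.X (Polynomial.X + Polynomial.C K) fun x W hW => ?_
    rw [Polynomial.eval_X] at hW ⊢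
    right
    refine ⟨d, vs (ext (bin x)), K, tw i (bin x).length, ?_, ?_, ?_, Iff.rfl⟩
    · simp only [ini, List.length_replicate]
    · simp
    · simp only [Polynomial.eval_add, Polynomial.eval_X, Polynomial.eval_C]
      omega
  obtain ⟨ty', a, h1, _, h3⟩ := level A j
  obtain ⟨R, hR, _, h4⟩ := h3 L' (h hL')
  obtain ⟨r, hr⟩ := h4 (p + Polynomial.X + 2)
  obtain ⟨d', K', hR⟩ := hR
  rw [h1]
  let ini : List Bool × List Bool → Job ⊕ Bool := fun z =>
    .inl (d', (true :: (z.1 ++ [true]), 2 ^ p.eval z.1.length, false), params ty' K' z.2.length)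
  have hini : NPC.Poly ini := by
    refine NPC.Poly.inl (NPC.Poly.pair (NPC.Poly.const d') (NPC.Poly.pair ?_
        (P.params ty' (UPoly.const K') (UPoly.length (NPC.Poly.snd NPC.Poly.id)))))
    exact NPC.Poly.pair (NPC.Poly.cons (NPC.Poly.const _) (NPC.Poly.append
      (NPC.Poly.fst NPC.Poly.id) (NPC.Poly.const _))) (NPC.Poly.pair
      (P.pow2 (UPoly.eval (UPoly.length (NPC.Poly.fst NPC.Poly.id)) p)) (NPC.Poly.const _))
  refine mem_one ty' hini a r (Polynomial.X + Polynomial.C K') fun x W hW => ?_
  right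
  refine ⟨d', (true :: (bin x ++ [true]), 2 ^ p.eval (bin x).length, false), K',
    tw a (r.eval (bin x).length), ?_, ?_, ?_, ?_⟩
  · simp only [ini, List.length_replicate]
  · simp
  · simp only [Polynomial.eval_add, Polynomial.eval_X, Polynomial.eval_C]
    omega
  · obtain ⟨y, hy⟩ := bin_cons_true (bin x ++ [true] ++
      List.replicate (2 ^ p.eval (bin x).length) false)
    have hy' : bin y = padL (bin x) (2 ^ p.eval (bin x).length) := by
      rw [hy]
      rfl
    have hlen : (bin y).length = (bin x).length + 2 + 2 ^ p.eval (bin x).length := by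
      rw [hy']
      simp [padL]
      omega
    rw [hR K' le_rfl y (true :: (bin x ++ [true]), 2 ^ p.eval (bin x).length, false) _
      (by rw [hy']; rfl) ?_]
    · show jres A (d, vs (ext (bin y)), params ty K (tw i (bin y).length)) = true ↔ _
      rw [hy', ext_padL]
      refine hL K le_rfl x (vs (bin x)) _ (vs_list _) ?_
      rw [← hy']
      simp only [tw_succ']
      refine tw_mono i ?_
      omega
    · refine hr _ _ ?_
      rw [hlen]
      have h5 : p.eval (bin x).length ≤ p.eval ((bin x).length + 1) := eval_mono p (by omega)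
      have e : (p + Polynomial.X + 2).eval ((bin x).length + 1) =
          p.eval ((bin x).length + 1) + ((bin x).length + 1 + 2) := by
        simp
        ring
      rw [e, pow_add]
      have h6 : 2 ^ p.eval (bin x).length ≤ 2 ^ p.eval ((bin x).length + 1) :=
        Nat.pow_le_pow_right (by norm_num) h5
      have h7 : (bin x).length + 1 + 2 < 2 ^ ((bin x).length + 1 + 2) := Nat.lt_two_pow_self
      have h8 : 1 ≤ 2 ^ p.eval (bin x).length := Nat.one_le_two_pow
      generalize 2 ^ ((bin x).length + 1 + 2) = u at h7 ⊢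
      generalize 2 ^ p.eval ((bin x).length + 1) = v at h6 ⊢
      generalize 2 ^ p.eval (bin x).length = w at h6 h8 ⊢
      generalize (bin x).length = n at h7 ⊢
      have h9 : v * (n + 4) ≤ v * u := Nat.mul_le_mul_left v (by omega)
      have h10 : v * (n + 4) = v * n + 4 * v := by ring
      have h11 : n ≤ v * n := Nat.le_mul_of_pos_left n (by omega)
      omega

end Pool.Agent.J4H22
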