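import Pool.Agent.J4H22.QMem

/-!
# Equality two levels up and approximation of tally sets
-/

namespace Pool.Agent.J4H22

open Pool.Agent.NPC

/-- For every `δ > 0` there are arbitrarily large `a` and `b` with `b - a ≥ a^(1-δ)` such that `S`
and `T` differ on at least half of the tally inputs of the lengths `a, a + 1, …, b - 1`. -/
def FarW (S T : Set ℕ) : Prop :=
  ∀ δ : ℝ, 0 < δ → ∀ m : ℕ, ∃ a b : ℕ, m ≤ a ∧ (a : ℝ) ^ (1 - δ) ≤ (b : ℝ) - a ∧
    (b : ℝ) - a ≤ 2 * ({N : ℕ | a ≤ N ∧ N < b ∧ ¬ (one N ∈ S ↔ one N ∈ T)}.ncard : ℝ)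

theorem not_farW_self (T : Set ℕ) : ¬ FarW T T := by
  intro h
  obtain ⟨a, b, ha, h1, h2⟩ := h 1 one_pos 1
  have h3 : {N : ℕ | a ≤ N ∧ N < b ∧ ¬ (one N ∈ T ↔ one N ∈ T)} = ∅ := by
    ext N
    simp
  rw [h3, Set.ncard_empty] at h2
  have h4 : (0 : ℝ) < (a : ℝ) ^ ((1 : ℝ) - 1) := by
    have : (0 : ℝ) < a := by exact_mod_cast ha
    positivity
  rw [Nat.cast_zero, mul_zero] at h2
  linarith

theorem valB_bin_reverse (x : ℕ) : valB (bin x).reverse = x := by
  unfold bin
  split_ifs with hx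
  · rw [hx]
    rfl
  · rw [List.reverse_reverse, valB_bits]

theorem bin_length_eq {x : ℕ} (hx : 1 ≤ x) : (bin x).length = x.size := by
  unfold bin
  rw [if_neg (by omega), List.length_reverse, Nat.size_eq_bits_len]

theorem P.binP {α : Type} [TEnc α] {m : α → ℕ} (hm : NPC.Poly m) :
    NPC.Poly (fun a => bin (m a)) := by
  unfold bin
  exact NPC.Poly.ite (NPC.Poly.decide_eq hm (NPC.Poly.const 0)) (NPC.Poly.const _)
    (NPC.Poly.reverse (NPC.Poly.natBits hm))

/-! ### Blocks for all inputs -/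

/-- the exponent of the block of `x` -/
noncomputable def bq (p : Polynomial ℕ) (x : ℕ) : ℕ := p.eval (bin x).length + 1

/-- the number of the block -/
noncomputable def dec (p : Polynomial ℕ) (N : ℕ) : ℕ := N / 2 ^ (p.eval (uu (p + Polynomial.X) N) + 1)

theorem dec_eq {p : Polynomial ℕ} (hp : StrictMono fun n : ℕ => (p + Polynomial.X).eval n)
    {x N : ℕ} (hx : 1 ≤ x) (h1 : x * 2 ^ bq p x ≤ N) (h2 : N < (x + 1) * 2 ^ bq p x) :
    dec p N = x := by
  set n := (bin x).length with hn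
  have hn1 : 1 ≤ n := bin_length_pos x
  have hns : n = x.size := bin_length_eq hx
  have hlo : 2 ^ (n - 1) ≤ x := by
    by_contra hcon
    have := Nat.size_le.2 (not_le.1 hcon)
    omega
  have hhi : x < 2 ^ n := by
    rw [hns]
    exact Nat.lt_size_self x
  have hu : uu (p + Polynomial.X) N = n := by
    refine (uu_eq hp hn1).2 ⟨?_, ?_⟩
    · refine le_trans ?_ h1
      refine le_trans (le_of_eq ?_) (Nat.mul_le_mul_right _ hlo)
      rw [← pow_add]
      congr 1
      simp only [bq, Polynomial.eval_add, Polynomial.eval_X, ← hn]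
      omega
    · refine lt_of_lt_of_le h2 (le_trans (Nat.mul_le_mul_right _ (show x + 1 ≤ 2 ^ n from hhi)) ?_)
      rw [← pow_add]
      refine Nat.pow_le_pow_right (by norm_num) ?_
      have := eval_mono p (show n ≤ n + 1 by omega)
      simp only [bq, Polynomial.eval_add, Polynomial.eval_X, ← hn]
      omega
  unfold dec
  rw [hu]
  have e : p.eval n + 1 = bq p x := rfl
  rw [e]
  exact Nat.div_eq_of_lt_le h1 h2

/-- the block version of a set given by jobs -/
noncomputable def blk (A : Oracle) (ty : Bool) (i : ℕ) (d : Code) (K : ℕ) (p : Polynomial ℕ) : Set ℕ :=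
  {y | y ∈ Tal ∧ jres A (d, vs (bin (dec p (bin y).length)),
    params ty K (tw i (bin y).length)) = true}

theorem blk_mem (A : Oracle) (ty : Bool) (i : ℕ) (d : Code) (K : ℕ) (p : Polynomial ℕ) :
    blk A ty i d K p ∈ C (some A) (cl ty i) := by
  let ini : List Bool × List Bool → Job ⊕ Bool := fun z =>
    cond (z.1.all fun b => b) (.inl (d, vs (bin (dec p z.1.length)),
      params ty K z.2.length)) (.inr false)
  have hini : NPC.Poly ini := by
    have h1 : NPC.Poly (fun z : List Bool × List Bool => z.1) := NPC.Poly.fst NPC.Poly.id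
    have h2 : NPC.Poly (fun z : List Bool × List Bool => dec p z.1.length) :=
      NPC.Poly.div (NPC.Poly.length h1) (P.pow2 (UPoly.add
        (UPoly.eval (P.uu (p + Polynomial.X) h1) p) (UPoly.const 1)))
    exact NPC.Poly.cond isTal_poly (NPC.Poly.inl (NPC.Poly.pair (NPC.Poly.const d)
      (NPC.Poly.pair (P.vs (P.binP h2))
        (P.params ty (UPoly.const K) (UPoly.length (NPC.Poly.snd NPC.Poly.id))))))
      (NPC.Poly.const _)
  refine mem_one ty hini i Polynomial.X (Polynomial.X + Polynomial.C K) fun x W hW => ?_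
  rw [Polynomial.eval_X] at hW ⊢
  by_cases hx : x ∈ Tal
  · right
    refine ⟨d, vs (bin (dec p (bin x).length)), K, tw i (bin x).length, ?_, ?_, ?_, ?_⟩
    · simp only [ini, mem_Tal.1 hx, cond_true, List.length_replicate]
    · simp
    · simp only [Polynomial.eval_add, Polynomial.eval_X, Polynomial.eval_C]
      omega
    · exact ⟨fun h => ⟨hx, h⟩, fun h => h.2⟩
  · left
    refine ⟨false, ?_, ?_⟩
    · have h1 : ((bin x).all fun b => b) = false := by
        by_contra hcon
        exact hx (mem_Tal.2 (by simpa using hcon))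
      simp only [ini, h1, cond_false]
    · simp only [Bool.false_eq_true, false_iff]
      exact fun h1 => hx h1.1

/-- the majority votes on the blocks -/
def majW (p : Polynomial ℕ) (S : Set ℕ) : Set ℕ := by
  classical
  exact {x | 1 ≤ x ∧ 2 ^ bq p x ≤ 2 * votes (fun N => decide (one N ∈ S)) (x * 2 ^ bq p x)
    ((x + 1) * 2 ^ bq p x)}

theorem majW_mem {A : Oracle} {ty : Bool} {i : ℕ} {S : Set ℕ} {R : ℕ → ℕ} (h : Sim A ty S R)
    {p r : Polynomial ℕ}
    (hR : ∀ n N, N < 2 ^ (p + Polynomial.X + 1).eval (n + 1) → R N ≤ tw i (r.eval n))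
    (hi : ty = true → 1 ≤ i) : majW p S ∈ C (some A) (cl ty i) := by
  classical
  obtain ⟨d, K, h⟩ := h
  replace h := h K le_rfl
  let ini : List Bool × List Bool → MS ⊕ Bool := fun z =>
    cond (decide (0 < valB z.1.reverse))
      (.inl (z.2, valB z.1.reverse * 2 ^ (p.eval z.1.length + 1),
        (valB z.1.reverse + 1) * 2 ^ (p.eval z.1.length + 1), 0, 2 ^ (p.eval z.1.length + 1)))
      (.inr false)
  have hini : NPC.Poly ini := by
    have h1 : UPoly (fun z : List Bool × List Bool => z.1.length) :=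
      UPoly.length (NPC.Poly.fst NPC.Poly.id)
    have h2 := P.pow2 (UPoly.add (UPoly.eval h1 p) (UPoly.const 1))
    have h3 : NPC.Poly (fun z : List Bool × List Bool => valB z.1.reverse) :=
      NPC.Poly.valBits (NPC.Poly.reverse (NPC.Poly.fst NPC.Poly.id))
    exact NPC.Poly.cond (NPC.Poly.decide_lt (NPC.Poly.const 0) h3)
      (NPC.Poly.inl (NPC.Poly.pair (NPC.Poly.snd NPC.Poly.id) (NPC.Poly.pair
        (NPC.Poly.mul h3 h2) (NPC.Poly.pair (NPC.Poly.mul (NPC.Poly.succ h3) h2)
      (NPC.Poly.pair (NPC.Poly.const 0) h2))))) (NPC.Poly.const _)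
  let r' : Polynomial ℕ := r + p + 1
  let Q : Polynomial ℕ := 200 * (Polynomial.X + 1) +
    Polynomial.C (K + 1) * (Polynomial.X + 1) + 40 * (p + 1)
  refine mem_cl ty (mjD_poly ty d K) hini i r' Q fun x W hW => ?_
  set n := (bin x).length with hn
  set m := tw i (r'.eval n) with hm
  have e0 : Q.eval W = 200 * (W + 1) + (K + 1) * (W + 1) + 40 * (p.eval W + 1) := by
    simp [Q]
  rw [e0]
  have hpW : p.eval n ≤ p.eval W := eval_mono p (by omega)
  by_cases hx : 1 ≤ x
  · have hns : n = x.size := bin_length_eq hx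
    have hhi : x < 2 ^ n := by
      rw [hns]
      exact Nat.lt_size_self x
    have e1 : ini (bin x, List.replicate m true) =
        .inl (List.replicate m true, x * 2 ^ bq p x, (x + 1) * 2 ^ bq p x, 0, 2 ^ bq p x) := by
      simp only [ini, valB_bin_reverse, show decide (0 < x) = true from decide_eq_true hx,
        cond_true]
      rfl
    have hbq : bq p x = p.eval n + 1 := rfl
    have hE : (x + 1) * 2 ^ bq p x ≤ 2 ^ (n + bq p x) := by
      rw [pow_add]
      exact Nat.mul_le_mul_right _ hhi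
    have hszE : sz ((x + 1) * 2 ^ bq p x) ≤ 4 * (n + p.eval n + 2) + 1 := by
      have h1 := sz_nat_le ((x + 1) * 2 ^ bq p x)
      have h2 := Nat.size_le_size hE
      rw [Nat.size_pow, hbq] at h2
      rw [hbq] at h1 ⊢
      omega
    have hszG : sz (2 ^ bq p x) ≤ 4 * (p.eval n + 2) + 1 := by
      have h1 := sz_nat_le (2 ^ bq p x)
      rw [Nat.size_pow, hbq] at h1
      rw [hbq]
      omega
    have hr'n : r'.eval n = r.eval n + p.eval n + 1 := by simp [r']
    have h1 := mjD_reach (A := A) (ty := ty) (d := d) (K := K)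
      (pad := List.replicate m true) (E := (x + 1) * 2 ^ bq p x)
      (G := 2 ^ bq p x)
      (B := 200 * (W + 1) + (K + 1) * (W + 1) + 40 * (p.eval W + 1))
      (S := 200 * (W + 1) + (K + 1) * (W + 1) + 40 * (p.eval W + 1))
      (T := (params ty K m).2) (by
        have h2 := sz_listBool_le (List.replicate m true)
        rw [List.length_replicate] at h2
        omega) (by
        rw [List.length_replicate]
        refine (params_s_le ty K m).trans ?_
        have : (K + 1) * (m + 1) ≤ (K + 1) * (W + 1) := Nat.mul_le_mul_left _ (by omega)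
        omega) (by rw [List.length_replicate]) (2 ^ bq p x)
        (x * 2 ^ bq p x) 0 (by ring) (Nat.zero_le _)
    rw [Nat.zero_add] at h1
    refine ⟨_, (params ty K m).2, _, _, rfl, ?_, by rw [e1]; exact h1, ?_⟩
    · rw [decide_eq_true_eq]
      have e2 : votes (fun N' => jres A (tjob ty d K N' (List.replicate m true).length))
          (x * 2 ^ bq p x) ((x + 1) * 2 ^ bq p x) = votes (fun N => decide (one N ∈ S))
          (x * 2 ^ bq p x) ((x + 1) * 2 ^ bq p x) := by
        refine votes_congr fun N h2 h3 => ?_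
        have hN1 : 1 ≤ N := (Nat.mul_pos hx (Nat.two_pow_pos _)).trans_le h2
        rw [Bool.eq_iff_iff, decide_eq_true_eq, List.length_replicate]
        refine tjob_res (A := A) h hN1 ((hR n N ?_).trans
            (tw_mono i (show r.eval n ≤ r'.eval n by omega)))
        refine lt_of_lt_of_le h3 (hE.trans (Nat.pow_le_pow_right (by norm_num) ?_))
        have := eval_mono p (show n ≤ n + 1 by omega)
        simp only [Polynomial.eval_add, Polynomial.eval_X, Polynomial.eval_one]
        omega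
      rw [e2]
      unfold majW
      simp only [Set.mem_ofPred_eq]
      exact ⟨fun h2 => ⟨hx, h2⟩, fun h2 => h2.2⟩
    · rintro rfl
      have hi1 := hi rfl
      constructor
      · have h2 : 2 ^ bq p x ≤ m := by
          rw [hm]
          obtain ⟨i', rfl⟩ : ∃ i', i = i' + 1 := ⟨i - 1, by omega⟩
          rw [tw_succ]
          refine Nat.pow_le_pow_right (by norm_num) ?_
          refine le_trans ?_ (le_tw i' _)
          omega
        omega
      · show m ≤ _
        omega
  · have e1 : ini (bin x, List.replicate m true) = .inr false := by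
      simp only [ini, valB_bin_reverse, show decide (0 < x) = false from decide_eq_false hx,
        cond_false]
    refine ⟨0, 0, .inr false, false, rfl, ?_, ?_, fun _ => ⟨by omega, by omega⟩⟩
    · simp only [Bool.false_eq_true, false_iff]
      unfold majW
      simp only [Set.mem_ofPred_eq]
      exact fun h => hx h.1
    · rw [e1]
      refine Driver.Reach.refl ?_
      rw [sz_inr, sz_false]
      omega

theorem window_ineq {δ : ℝ} (hδ : 0 < δ) {x n q : ℕ} (hx : 1 ≤ x) (hxn : x < 2 ^ n)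
    (hq : n ^ 2 ≤ q) (hn : 1 ≤ δ * n) : ((x * 2 ^ q : ℕ) : ℝ) ^ (1 - δ) ≤ 2 ^ q := by
  have h1 : (1 : ℝ) ≤ ((x * 2 ^ q : ℕ) : ℝ) := by
    have : 1 ≤ x * 2 ^ q := Nat.mul_pos hx (Nat.two_pow_pos _)
    exact_mod_cast this
  rcases le_or_gt (1 - δ) 0 with h2 | h2
  · calc ((x * 2 ^ q : ℕ) : ℝ) ^ (1 - δ) ≤ 1 := Real.rpow_le_one_of_one_le_of_nonpos h1 h2
      _ ≤ 2 ^ q := one_le_pow₀ (by norm_num)
  · have h3 : ((x * 2 ^ q : ℕ) : ℝ) ≤ (2 : ℝ) ^ ((n + q : ℕ) : ℝ) := by
      rw [Real.rpow_natCast]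
      have : x * 2 ^ q ≤ 2 ^ (n + q) := by
        rw [pow_add]
        exact Nat.mul_le_mul_right _ hxn.le
      exact_mod_cast this
    have h4 : ((n + q : ℕ) : ℝ) * (1 - δ) ≤ (q : ℝ) := by
      have h5 : (n : ℝ) ^ 2 ≤ q := by exact_mod_cast hq
      have h6 : (0 : ℝ) ≤ n := Nat.cast_nonneg n
      have h7 : (n : ℝ) ≤ δ * q := by
        calc (n : ℝ) = 1 * n := by ring
          _ ≤ (δ * n) * n := mul_le_mul_of_nonneg_right hn h6
          _ = δ * n ^ 2 := by ring
          _ ≤ δ * q := mul_le_mul_of_nonneg_left h5 hδ.le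
      push_cast
      nlinarith [mul_nonneg hδ.le h6]
    calc ((x * 2 ^ q : ℕ) : ℝ) ^ (1 - δ) ≤ ((2 : ℝ) ^ ((n + q : ℕ) : ℝ)) ^ (1 - δ) :=
          Real.rpow_le_rpow (by linarith) h3 h2.le
      _ = (2 : ℝ) ^ (((n + q : ℕ) : ℝ) * (1 - δ)) := by
          rw [← Real.rpow_mul (by norm_num)]
      _ ≤ (2 : ℝ) ^ (q : ℝ) := Real.rpow_le_rpow_of_exponent_le (by norm_num) h4
      _ = 2 ^ q := by rw [Real.rpow_natCast]

/-- Strictness two levels up gives a tally set that cannot be approximated. -/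
theorem exists_farW {A : Oracle} {j : ℕ} {L : Set ℕ} (hL : L ∈ C (some A) (j + 3))
    (hnot : L ∉ C (some A) (j + 2)) :
    ∃ T ∈ C (some A) (j + 1), T ⊆ Tal ∧ ∀ S ∈ QC (some A) j, FarW S T := by
  classical
  obtain ⟨ty, i, hi⟩ := cl_cases j
  rw [show j + 3 = cl ty (i + 1) by rw [cl_add, ← hi]] at hL
  obtain ⟨p0, d, K, hK⟩ := sim_cl hL
  set p : Polynomial ℕ := p0 + Polynomial.X ^ 2 with hpdef
  have hpe : ∀ n, p.eval n = p0.eval n + n ^ 2 := fun n => by simp [hpdef]
  have hpX : StrictMono fun n : ℕ => (p + Polynomial.X).eval n := strictMono_add_X p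
  refine ⟨blk A ty i d K p, ?_, fun y hy => hy.1, fun S hS => ?_⟩
  · rw [hi]
    exact blk_mem A ty i d K p
  · obtain ⟨ty', a, h1, h2, h3⟩ := levelQ A j
    obtain ⟨R, hR, h4⟩ := h3 S hS
    obtain ⟨r, hr⟩ := h4 (p + Polynomial.X + 1)
    have hmaj := majW_mem hR (p := p) (r := r) hr h2
    rw [h1] at hnot
    have hinf : {x | ¬ (x ∈ majW p S ↔ x ∈ L)}.Infinite := fun hfin =>
      hnot (mem_of_finite hmaj hfin)
    intro δ hδ m
    obtain ⟨n0, hn0⟩ := exists_nat_ge (1 / δ)
    obtain ⟨x, hx, hxm⟩ := hinf.exists_gt (max (m + 1) (2 ^ n0))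
    have hx1 : 1 ≤ x := by
      have := le_max_left (m + 1) (2 ^ n0)
      omega
    have hxm' : m ≤ x := by
      have := le_max_left (m + 1) (2 ^ n0)
      omega
    have hxn0 : 2 ^ n0 ≤ x := by
      have := le_max_right (m + 1) (2 ^ n0)
      omega
    set n := (bin x).length with hn
    have hns : n = x.size := bin_length_eq hx1
    have hhi : x < 2 ^ n := by
      rw [hns]
      exact Nat.lt_size_self x
    have hnn0 : n0 ≤ n := by
      rw [hns]
      exact (Nat.lt_size.2 hxn0).le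
    set q := bq p x with hq
    have hqe : q = p0.eval n + n ^ 2 + 1 := by
      rw [hq, ← hpe]
      rfl
    have hblock : ∀ N, x * 2 ^ q ≤ N → N < (x + 1) * 2 ^ q →
        (one N ∈ blk A ty i d K p ↔ x ∈ L) := by
      intro N h5 h6
      have hN1 : 1 ≤ N := (Nat.mul_pos hx1 (Nat.two_pow_pos _)).trans_le h5
      have hd : dec p N = x := dec_eq hpX hx1 h5 h6
      have hN : 2 ^ p0.eval n ≤ N := by
        refine le_trans ?_ h5
        refine le_trans ?_ (Nat.le_mul_of_pos_left _ hx1)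
        exact Nat.pow_le_pow_right (by norm_num) (by omega)
      have h7 : jres A (d, vs (bin x), params ty K (tw i N)) = true ↔ x ∈ L := by
        refine hK K le_rfl x (vs (bin x)) _ (vs_list _) ?_
        simp only [tw_succ']
        exact tw_mono i hN
      unfold blk
      simp only [Set.mem_ofPred_eq, bin_one_length hN1, hd]
      rw [h7]
      exact ⟨fun h => h.2, fun h => ⟨one_Tal hN1, h⟩⟩
    have hx' : ¬ (((x + 1) * 2 ^ q - x * 2 ^ q ≤
        2 * votes (fun N => decide (one N ∈ S)) (x * 2 ^ q) ((x + 1) * 2 ^ q)) ↔ x ∈ L) := by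
      have e : (x + 1) * 2 ^ q - x * 2 ^ q = 2 ^ q := by
        rw [Nat.add_mul, Nat.one_mul, Nat.add_sub_cancel_left]
      rw [e]
      intro h5
      refine hx ?_
      rw [← h5]
      unfold majW
      simp only [Set.mem_ofPred_eq]
      exact ⟨fun h => h.2, fun h => ⟨hx1, h⟩⟩
    have h5 := block_errors S (x ∈ L) hx'
    refine ⟨x * 2 ^ q, (x + 1) * 2 ^ q, ?_, ?_, ?_⟩
    · exact hxm'.trans (Nat.le_mul_of_pos_right _ (Nat.two_pow_pos _))
    · have e : (((x + 1) * 2 ^ q : ℕ) : ℝ) - ((x * 2 ^ q : ℕ) : ℝ) = 2 ^ q := by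
        push_cast
        ring
      rw [e]
      refine window_ineq hδ hx1 hhi (by omega) ?_
      have h6 : 1 / δ ≤ n := hn0.trans (by exact_mod_cast hnn0)
      rw [div_le_iff₀ hδ] at h6
      linarith
    · have h6 : ((Finset.Ico (x * 2 ^ q) ((x + 1) * 2 ^ q)).filter
          fun N => ¬ (one N ∈ S ↔ x ∈ L)).card ≤
          {N : ℕ | x * 2 ^ q ≤ N ∧ N < (x + 1) * 2 ^ q ∧
            ¬ (one N ∈ S ↔ one N ∈ blk A ty i d K p)}.ncard := by
        rw [← Set.ncard_coe_finset]
        refine Set.ncard_le_ncard ?_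
          ((Set.finite_lt_nat ((x + 1) * 2 ^ q)).subset fun N hN => hN.2.1)
        intro N hN
        simp only [Finset.coe_filter, Finset.mem_Ico, Set.mem_ofPred_eq] at hN ⊢
        obtain ⟨⟨h7, h8⟩, h9⟩ := hN
        refine ⟨h7, h8, ?_⟩
        rw [hblock N h7 h8]
        exact h9
      have h7 : (x + 1) * 2 ^ q ≤ 2 * {N : ℕ | x * 2 ^ q ≤ N ∧ N < (x + 1) * 2 ^ q ∧
            ¬ (one N ∈ S ↔ one N ∈ blk A ty i d K p)}.ncard + x * 2 ^ q := by
        omega
      have h8 : (((x + 1) * 2 ^ q : ℕ) : ℝ) ≤ 2 * ({N : ℕ | x * 2 ^ q ≤ N ∧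
            N < (x + 1) * 2 ^ q ∧ ¬ (one N ∈ S ↔ one N ∈ blk A ty i d K p)}.ncard : ℝ) +
            ((x * 2 ^ q : ℕ) : ℝ) := by
        exact_mod_cast h7
      linarith

/-- The equivalences. -/
theorem equiv_some (A : Oracle) (j : ℕ) : List.TFAE [
    C (some A) (j + 2) = C (some A) (j + 3),
    ∀ T ∈ C (some A) (j + 1), T ⊆ Tal → T ∈ QC (some A) j,
    ∀ T ∈ C (some A) (j + 1), T ⊆ Tal → ∃ S ∈ QC (some A) j, ¬ FarW S T] := by
  tfae_have 1 → 2 := by
    intro h T hT hTal
    exact tally_QC (le_of_eq h.symm) hT hTal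
  tfae_have 2 → 3 := by
    intro h T hT hTal
    exact ⟨T, h T hT hTal, not_farW_self T⟩
  tfae_have 3 → 1 := by
    intro h
    refine Set.Subset.antisymm (C_sub_succ A _) fun L hL => ?_
    by_contra hnot
    obtain ⟨T, hT, hTal, hfar⟩ := exists_farW hL hnot
    obtain ⟨S, hS, hS'⟩ := h T hT hTal
    exact hS' (hfar S hS)
  tfae_finish

theorem equiv_all (o : Option Oracle) (j : ℕ) : List.TFAE [
    C o (j + 2) = C o (j + 3),
    ∀ T ∈ C o (j + 1), T ⊆ Tal → T ∈ QC o j,
    ∀ T ∈ C o (j + 1), T ⊆ Tal → ∃ S ∈ QC o j, ¬ FarW S T] := by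
  cases o with
  | some A => exact equiv_some A j
  | none =>
    have h := equiv_some (fun _ => false) j
    simp only [C_none, QC_none]
    exact h

end Pool.Agent.J4H22
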