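import Pool.Agent.NPC.Dec
import Pool.Agent.J4H22.Defs

/-!
# A structured programming language for the machines
-/

namespace Pool.Agent.J4H22

open Pool.Agent.NPC
open Function (update)

/-- Structured programs over binary stacks indexed by `K`, with access to the input tape and to the
oracle tape. -/
inductive XC (K : Type) : Type
  | skip : XC K
  | push (k : K) (b : Bool) : XC K
  | pop (k : K) : XC K
  | seq (c d : XC K) : XC K
  | cases (k : K) (c₀ cf ct : XC K) : XC K
  | loop (k : K) (c : XC K) : XC K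
  | inCases (cl cr cf ct : XC K) : XC K
  | inMove (d : Move) : XC K
  | emit (b : Bool) : XC K
  | ask (cf ct : XC K) : XC K

/-- The state of a program: stacks, position of the input head, content of the oracle tape. -/
structure St (K : Type) where
  /-- the stacks -/
  s : K → List Bool
  /-- the position of the input head -/
  h : ℕ
  /-- the content of the oracle tape -/
  w : List Bool

/-- All stacks have height at most `m`. -/
def Bd {K : Type} (m : ℕ) (s : K → List Bool) : Prop := ∀ i, (s i).length ≤ m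

/-- Big-step semantics with the exact number of machine steps; all stacks have height at most `H`
at all times. -/
inductive XR {K : Type} [DecidableEq K] (A : Oracle) (x : List Bool) (H : ℕ) :
    XC K → St K → St K → ℕ → Prop
  | skip (σ) : Bd H σ.s → XR A x H XC.skip σ σ 1
  | push (σ : St K) (k b) : Bd H σ.s → Bd H (update σ.s k (b :: σ.s k)) →
      XR A x H (XC.push k b) σ ⟨update σ.s k (b :: σ.s k), σ.h, σ.w⟩ 2
  | pop (σ : St K) (k) : Bd H σ.s →
      XR A x H (XC.pop k) σ ⟨update σ.s k (σ.s k).tail, σ.h, σ.w⟩ 1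
  | seq {c d σ σ' σ'' t t'} : XR A x H c σ σ' t → XR A x H d σ' σ'' t' →
      XR A x H (XC.seq c d) σ σ'' (t + t')
  | casesNil {k c₀ cf ct} {σ σ' : St K} {t} : σ.s k = [] → XR A x H c₀ σ σ' t →
      XR A x H (XC.cases k c₀ cf ct) σ σ' (t + 1)
  | casesFalse {k c₀ cf ct} {σ σ' : St K} {t l} : σ.s k = false :: l → XR A x H cf σ σ' t →
      XR A x H (XC.cases k c₀ cf ct) σ σ' (t + 1)
  | casesTrue {k c₀ cf ct} {σ σ' : St K} {t l} : σ.s k = true :: l → XR A x H ct σ σ' t →
      XR A x H (XC.cases k c₀ cf ct) σ σ' (t + 1)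
  | loopNil {k c} {σ : St K} : σ.s k = [] → Bd H σ.s → XR A x H (XC.loop k c) σ σ 1
  | loopCons {k c} {σ σ' σ'' : St K} {t t'} : σ.s k ≠ [] → XR A x H c σ σ' t →
      XR A x H (XC.loop k c) σ' σ'' t' → XR A x H (XC.loop k c) σ σ'' (t + t' + 1)
  | inL {cl cr cf ct} {σ σ' : St K} {t} : inSym x σ.h = .lend → XR A x H cl σ σ' t →
      XR A x H (XC.inCases cl cr cf ct) σ σ' (t + 1)
  | inR {cl cr cf ct} {σ σ' : St K} {t} : inSym x σ.h = .rend → XR A x H cr σ σ' t →
      XR A x H (XC.inCases cl cr cf ct) σ σ' (t + 1)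
  | inF {cl cr cf ct} {σ σ' : St K} {t} : inSym x σ.h = .bit false → XR A x H cf σ σ' t →
      XR A x H (XC.inCases cl cr cf ct) σ σ' (t + 1)
  | inT {cl cr cf ct} {σ σ' : St K} {t} : inSym x σ.h = .bit true → XR A x H ct σ σ' t →
      XR A x H (XC.inCases cl cr cf ct) σ σ' (t + 1)
  | inMove (σ : St K) (d) : Bd H σ.s →
      XR A x H (XC.inMove d) σ ⟨σ.s, moveHead x.length σ.h d, σ.w⟩ 1
  | emit (σ : St K) (b) : Bd H σ.s → XR A x H (XC.emit b) σ ⟨σ.s, σ.h, σ.w ++ [b]⟩ 1
  | askF {cf ct} {σ σ' : St K} {t} : A σ.w = false → XR A x H cf ⟨σ.s, σ.h, []⟩ σ' t →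
      XR A x H (XC.ask cf ct) σ σ' (t + 1)
  | askT {cf ct} {σ σ' : St K} {t} : A σ.w = true → XR A x H ct ⟨σ.s, σ.h, []⟩ σ' t →
      XR A x H (XC.ask cf ct) σ σ' (t + 1)

section
variable {K : Type} [DecidableEq K] {A : Oracle} {x : List Bool} {H : ℕ}

theorem Bd.pop {m : ℕ} {s : K → List Bool} (h : Bd m s) (k : K) :
    Bd m (update s k (s k).tail) := by
  intro i
  by_cases hi : i = k
  · subst hi
    have := h i
    rw [Function.update_self, List.length_tail]
    omega
  · rw [Function.update_of_ne hi]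
    exact h i

theorem Bd.mono {K : Type} {m m' : ℕ} {s : K → List Bool} (h : Bd m s) (hm : m ≤ m') : Bd m' s :=
  fun i => (h i).trans hm

theorem XR.left {c : XC K} {σ σ' : St K} {t : ℕ} (h : XR A x H c σ σ' t) : Bd H σ.s := by
  induction h with
  | skip s h => exact h
  | push s k b h h' => exact h
  | pop s k h => exact h
  | seq _ _ ih _ => exact ih
  | casesNil _ _ ih => exact ih
  | casesFalse _ _ ih => exact ih
  | casesTrue _ _ ih => exact ih
  | loopNil _ h => exact h
  | loopCons _ _ _ ih _ => exact ih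
  | inL _ _ ih => exact ih
  | inR _ _ ih => exact ih
  | inF _ _ ih => exact ih
  | inT _ _ ih => exact ih
  | inMove _ _ h => exact h
  | emit _ _ h => exact h
  | askF _ _ ih => exact ih
  | askT _ _ ih => exact ih

theorem XR.right {c : XC K} {σ σ' : St K} {t : ℕ} (h : XR A x H c σ σ' t) : Bd H σ'.s := by
  induction h with
  | skip s h => exact h
  | push s k b h h' => exact h'
  | pop s k h => exact h.pop k
  | seq _ _ _ ih => exact ih
  | casesNil _ _ ih => exact ih
  | casesFalse _ _ ih => exact ih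
  | casesTrue _ _ ih => exact ih
  | loopNil _ h => exact h
  | loopCons _ _ _ _ ih => exact ih
  | inL _ _ ih => exact ih
  | inR _ _ ih => exact ih
  | inF _ _ ih => exact ih
  | inT _ _ ih => exact ih
  | inMove _ _ h => exact h
  | emit _ _ h => exact h
  | askF _ _ ih => exact ih
  | askT _ _ ih => exact ih

theorem XR.mono {c : XC K} {σ σ' : St K} {t : ℕ} (h : XR A x H c σ σ' t) {H' : ℕ} (hH : H ≤ H') :
    XR A x H' c σ σ' t := by
  induction h with
  | skip s h => exact XR.skip _ (h.mono hH)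
  | push s k b h h' => exact XR.push _ _ _ (h.mono hH) (h'.mono hH)
  | pop s k h => exact XR.pop _ _ (h.mono hH)
  | seq _ _ ih ih' => exact XR.seq ih ih'
  | casesNil hk _ ih => exact XR.casesNil hk ih
  | casesFalse hk _ ih => exact XR.casesFalse hk ih
  | casesTrue hk _ ih => exact XR.casesTrue hk ih
  | loopNil hk h => exact XR.loopNil hk (h.mono hH)
  | loopCons hk _ _ ih ih' => exact XR.loopCons hk ih ih'
  | inL hk _ ih => exact XR.inL hk ih
  | inR hk _ ih => exact XR.inR hk ih
  | inF hk _ ih => exact XR.inF hk ih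
  | inT hk _ ih => exact XR.inT hk ih
  | inMove _ _ h => exact XR.inMove _ _ (h.mono hH)
  | emit _ _ h => exact XR.emit _ _ (h.mono hH)
  | askF hk _ ih => exact XR.askF hk ih
  | askT hk _ ih => exact XR.askT hk ih

/-- The programs of the library. -/
def XC.of {K : Type} : Cmd K → XC K
  | .skip => .skip
  | .push k b => .push k b
  | .pop k => .pop k
  | .seq c d => .seq (XC.of c) (XC.of d)
  | .cases k c₀ cf ct => .cases k (XC.of c₀) (XC.of cf) (XC.of ct)
  | .loop k c => .loop k (XC.of c)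

theorem XR.of_run {c : Cmd K} {s s' : K → List Bool} {t : ℕ} (h : Run c s s' t) :
    ∀ (H : ℕ), (∀ i, (s i).length + t ≤ H) → ∀ (hd : ℕ) (w : List Bool),
      ∃ t' ≤ 2 * t, XR A x H (XC.of c) ⟨s, hd, w⟩ ⟨s', hd, w⟩ t' := by
  induction h with
  | skip s =>
    intro H hm hd w
    exact ⟨1, by omega, XR.skip _ fun i => by have := hm i; simp only; omega⟩
  | push s k b =>
    intro H hm hd w
    refine ⟨2, by omega, XR.push ⟨s, hd, w⟩ k b (fun i => by have := hm i; simp only; omega)
      fun i => ?_⟩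
    by_cases hi : i = k
    · subst hi
      have := hm i
      simp only [Function.update_self, List.length_cons]
      omega
    · rw [Function.update_of_ne hi]
      have := hm i
      simp only
      omega
  | pop s k =>
    intro H hm hd w
    exact ⟨1, by omega, XR.pop ⟨s, hd, w⟩ k fun i => by have := hm i; simp only; omega⟩
  | @seq c d s s' s'' t t' h1 _ ih1 ih2 =>
    intro H hm hd w
    obtain ⟨t1, ht1, h1'⟩ := ih1 H (fun i => by have := hm i; omega) hd w
    obtain ⟨t2, ht2, h2'⟩ := ih2 H (fun i => by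
      have h2 := h1.length_le i
      have := hm i
      omega) hd w
    exact ⟨t1 + t2, by omega, XR.seq h1' h2'⟩
  | casesNil hk _ ih =>
    intro H hm hd w
    obtain ⟨t1, ht1, h1'⟩ := ih H (fun i => by have := hm i; omega) hd w
    exact ⟨t1 + 1, by omega, XR.casesNil hk h1'⟩
  | casesFalse hk _ ih =>
    intro H hm hd w
    obtain ⟨t1, ht1, h1'⟩ := ih H (fun i => by have := hm i; omega) hd w
    exact ⟨t1 + 1, by omega, XR.casesFalse hk h1'⟩
  | casesTrue hk _ ih =>
    intro H hm hd w
    obtain ⟨t1, ht1, h1'⟩ := ih H (fun i => by have := hm i; omega) hd w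
    exact ⟨t1 + 1, by omega, XR.casesTrue hk h1'⟩
  | loopNil hk =>
    intro H hm hd w
    exact ⟨1, by omega, XR.loopNil hk fun i => by have := hm i; simp only; omega⟩
  | @loopCons k c s s' s'' t t' hk h1 _ ih1 ih2 =>
    intro H hm hd w
    obtain ⟨t1, ht1, h1'⟩ := ih1 H (fun i => by have := hm i; omega) hd w
    obtain ⟨t2, ht2, h2'⟩ := ih2 H (fun i => by
      have h2 := h1.length_le i
      have := hm i
      omega) hd w
    exact ⟨t1 + t2 + 1, by omega, XR.loopCons hk h1' h2'⟩

end

namespace XC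

/-- Renaming of stacks. -/
def map {K K' : Type} (f : K → K') : XC K → XC K'
  | skip => skip
  | push k b => push (f k) b
  | pop k => pop (f k)
  | seq c d => seq (c.map f) (d.map f)
  | cases k c₀ cf ct => cases (f k) (c₀.map f) (cf.map f) (ct.map f)
  | loop k c => loop (f k) (c.map f)
  | inCases cl cr cf ct => inCases (cl.map f) (cr.map f) (cf.map f) (ct.map f)
  | inMove d => inMove d
  | emit b => emit b
  | ask cf ct => ask (cf.map f) (ct.map f)

/-- A strict bound on the stacks used. -/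
def bd : XC ℕ → ℕ
  | skip => 0
  | push k _ => k + 1
  | pop k => k + 1
  | seq c d => max c.bd d.bd
  | cases k c₀ cf ct => max (k + 1) (max c₀.bd (max cf.bd ct.bd))
  | loop k c => max (k + 1) c.bd
  | inCases cl cr cf ct => max cl.bd (max cr.bd (max cf.bd ct.bd))
  | inMove _ => 0
  | emit _ => 0
  | ask cf ct => max cf.bd ct.bd

end XC

/-- restriction of a state to the first stacks -/
def St.res (n : ℕ) (σ : St ℕ) : St (Fin (n + 1)) := ⟨fun i => σ.s i, σ.h, σ.w⟩

theorem XR.restrict {A : Oracle} {x : List Bool} {H : ℕ} {c : XC ℕ} {σ σ' : St ℕ} {t : ℕ}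
    (h : XR A x H c σ σ' t) {n : ℕ} (hn : c.bd ≤ n + 1) :
    XR A x H (c.map (Fin.ofNat (n + 1))) (σ.res n) (σ'.res n) t := by
  induction h with
  | skip s h => exact XR.skip _ fun i => h i
  | push σ k b h h' =>
    have hk : k < n + 1 := hn
    have e := update_restrict hk σ.s (b :: σ.s k)
    have h4 : (b :: (σ.res n).s (Fin.ofNat (n + 1) k)) = b :: σ.s k := by
      simp [St.res, Nat.mod_eq_of_lt hk]
    have e2 : (St.res n ⟨update σ.s k (b :: σ.s k), σ.h, σ.w⟩) =
        ⟨update (σ.res n).s (Fin.ofNat (n + 1) k) (b :: (σ.res n).s (Fin.ofNat (n + 1) k)),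
          (σ.res n).h, (σ.res n).w⟩ := by
      rw [h4]
      unfold St.res
      rw [← e]
    rw [e2]
    refine XR.push (σ.res n) (Fin.ofNat (n + 1) k) b (fun i => h i) ?_
    intro i
    rw [h4]
    have h2 := h' i
    have h3 := congrFun e i
    unfold St.res
    simp only at h3 ⊢
    rw [← h3]
    exact h2
  | pop σ k h =>
    have hk : k < n + 1 := hn
    have e := update_restrict hk σ.s (σ.s k).tail
    have h4 : ((σ.res n).s (Fin.ofNat (n + 1) k)).tail = (σ.s k).tail := by
      simp [St.res, Nat.mod_eq_of_lt hk]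
    have e2 : (St.res n ⟨update σ.s k (σ.s k).tail, σ.h, σ.w⟩) =
        ⟨update (σ.res n).s (Fin.ofNat (n + 1) k) ((σ.res n).s (Fin.ofNat (n + 1) k)).tail,
          (σ.res n).h, (σ.res n).w⟩ := by
      rw [h4]
      unfold St.res
      rw [← e]
    rw [e2]
    exact XR.pop (σ.res n) (Fin.ofNat (n + 1) k) (fun i => h i)
  | seq _ _ ih₁ ih₂ =>
    simp only [XC.bd, sup_le_iff] at hn
    exact XR.seq (ih₁ hn.1) (ih₂ hn.2)
  | @casesNil k c₀ cf ct s s' t hk _ ih =>
    simp only [XC.bd, sup_le_iff] at hn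
    refine XR.casesNil ?_ (ih hn.2.1)
    simpa [St.res, Nat.mod_eq_of_lt hn.1] using hk
  | @casesFalse k c₀ cf ct s s' t l hk _ ih =>
    simp only [XC.bd, sup_le_iff] at hn
    refine XR.casesFalse (l := l) ?_ (ih hn.2.2.1)
    simpa [St.res, Nat.mod_eq_of_lt hn.1] using hk
  | @casesTrue k c₀ cf ct s s' t l hk _ ih =>
    simp only [XC.bd, sup_le_iff] at hn
    refine XR.casesTrue (l := l) ?_ (ih hn.2.2.2)
    simpa [St.res, Nat.mod_eq_of_lt hn.1] using hk
  | @loopNil k c s hk h =>
    simp only [XC.bd, sup_le_iff] at hn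
    refine XR.loopNil ?_ fun i => h i
    simpa [St.res, Nat.mod_eq_of_lt hn.1] using hk
  | @loopCons k c s s' s'' t t' hk _ _ ih₁ ih₂ =>
    have hn' := hn
    simp only [XC.bd, sup_le_iff] at hn
    refine XR.loopCons ?_ (ih₁ hn.2) (ih₂ hn')
    simpa [St.res, Nat.mod_eq_of_lt hn.1] using hk
  | inL hk _ ih =>
    simp only [XC.bd, sup_le_iff] at hn
    exact XR.inL hk (ih hn.1)
  | inR hk _ ih =>
    simp only [XC.bd, sup_le_iff] at hn
    exact XR.inR hk (ih hn.2.1)
  | inF hk _ ih =>
    simp only [XC.bd, sup_le_iff] at hn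
    exact XR.inF hk (ih hn.2.2.1)
  | inT hk _ ih =>
    simp only [XC.bd, sup_le_iff] at hn
    exact XR.inT hk (ih hn.2.2.2)
  | inMove σ d h => exact XR.inMove (σ.res n) d fun i => h i
  | emit σ b h => exact XR.emit (σ.res n) b fun i => h i
  | askF hk _ ih =>
    simp only [XC.bd, sup_le_iff] at hn
    exact XR.askF hk (ih hn.1)
  | askT hk _ ih =>
    simp only [XC.bd, sup_le_iff] at hn
    exact XR.askT hk (ih hn.2)

end Pool.Agent.J4H22
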