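import Pool.Agent.J4H22.LogProg

/-!
# An oracle with equality of logarithmic space and polynomial time
-/

namespace Pool.Agent.J4H22

open Pool.Agent.NPC

theorem cs0_inj {e e' : Code × ℕ} {x x' : List Bool} {R R' : ℕ}
    (h : cs0 e x R = cs0 e' x' R') : e = e' ∧ x = x' ∧ R = R' := by
  have key : ∀ (x x' : List Bool), x.flatMap (fun b => [true, b]) ++ false :: List.replicate R true
      = x'.flatMap (fun b => [true, b]) ++ false :: List.replicate R' true → x = x' ∧ R = R' := by
    intro x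
    induction x with
    | nil =>
      intro x' h
      cases x' with
      | nil =>
        refine ⟨rfl, ?_⟩
        have := congrArg List.length h
        simpa using this
      | cons b x' =>
        rw [List.flatMap_cons] at h
        exact absurd (List.cons.inj h).1 (by simp)
    | cons b x ih =>
      intro x' h
      cases x' with
      | nil =>
        rw [List.flatMap_cons] at h
        exact absurd (List.cons.inj h).1 (by simp)
      | cons b' x' =>
        rw [List.flatMap_cons, List.flatMap_cons] at h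
        have h1 := (List.cons.inj h).2
        have h2 := List.cons.inj h1
        obtain ⟨h3, h4⟩ := ih x' h2.2
        exact ⟨by rw [h2.1, h3], h4⟩
  unfold cs0 at h
  rw [List.append_assoc, List.append_assoc, List.append_assoc, List.append_assoc] at h
  simp only [List.cons_append, List.cons.injEq, true_and] at h
  obtain ⟨h1, h2⟩ := bits_append_inj h
  obtain ⟨h3, h4⟩ := key _ _ h2
  exact ⟨h1, h3, h4⟩

open Classical in
/-- The kinds of strings. -/
noncomputable def kindZ (w : List Bool) : Kind :=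
  if h : ∃ z : (Code × ℕ) × List Bool × ℕ, w = cs0 z.1 z.2.1 z.2.2 then
    .code h.choose.2.2 (h.choose.1.1, vs h.choose.2.1, params true h.choose.1.2 h.choose.2.2)
  else .free

theorem kindZ_code (d : Code) (K : ℕ) (x : List Bool) (R : ℕ) :
    kindZ (cs0 (d, K) x R) = .code R (d, vs x, params true K R) := by
  have h : ∃ z : (Code × ℕ) × List Bool × ℕ, cs0 (d, K) x R = cs0 z.1 z.2.1 z.2.2 :=
    ⟨((d, K), x, R), rfl⟩
  unfold kindZ
  rw [dif_pos h]
  obtain ⟨h1, h2, h3⟩ := cs0_inj h.choose_spec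
  rw [← h1, ← h2, ← h3]

theorem kindZ_inv {w : List Bool} {l : ℕ} {J : Job} (h : kindZ w = .code l J) :
    ∃ (d : Code) (K : ℕ) (x : List Bool), w = cs0 (d, K) x l ∧ J = (d, vs x, params true K l) := by
  unfold kindZ at h
  split_ifs at h with h1
  · simp only [Kind.code.injEq] at h
    obtain ⟨h2, h3⟩ := h
    subst h2
    exact ⟨h1.choose.1.1, h1.choose.1.2, h1.choose.2.1, h1.choose_spec, h3.symm⟩

theorem kindZ_wf : WF kindZ := by
  intro w l J h w' hw' l' J' h'
  obtain ⟨d, K, x, rfl, rfl⟩ := kindZ_inv h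
  obtain ⟨d', K', x', rfl, rfl⟩ := kindZ_inv h'
  have h1 : (cs0 (d', K') x' l').length < l := QS_length hw'
  unfold cs0 at h1
  rw [List.length_append, List.length_replicate] at h1
  omega

theorem poly_lt_size (p : Polynomial ℕ) : ∃ c : ℕ, ∀ n, 1 ≤ n → p.eval n ≤ 2 ^ (c * n.size) - 1 := by
  obtain ⟨c, hc⟩ := poly_le_pow p
  refine ⟨2 * c + 1, fun n hn => ?_⟩
  have h1 : n + 2 ≤ 2 ^ (n.size + 1) := by
    have h2 : n < 2 ^ n.size := Nat.lt_size_self n
    rw [pow_succ]
    omega
  have h2 : 1 ≤ n.size := Nat.lt_size.2 (by simpa using hn)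
  have h3 : (n + 2) ^ c ≤ 2 ^ ((n.size + 1) * c) := by
    rw [pow_mul]
    exact Nat.pow_le_pow_left h1 c
  have h4 : 2 ^ ((n.size + 1) * c) < 2 ^ ((2 * c + 1) * n.size) := by
    refine Nat.pow_lt_pow_right (by norm_num) ?_
    nlinarith
  have h5 := hc n
  omega

/-- The collapse at the bottom. -/
theorem collapseZ (a : List Bool → Bool) :
    C (some (Af kindZ a)) 1 ⊆ C (some (Af kindZ a)) 0 := by
  intro L hL
  set A := Af kindZ a with hA
  obtain ⟨p, d, K, h⟩ := sim_time (i := 0) hL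
  obtain ⟨c, hc⟩ := poly_lt_size p
  set m := (prog0 (d, K) c).bd with hm
  refine ⟨((prog0 (d, K) c).map (Fin.ofNat (m + 1))).toM, (m + 1) * (2 * c + 8), trivial,
    fun x => ?_⟩
  set n := (bin x).length with hn
  have hn1 : 1 ≤ n := bin_length_pos x
  obtain ⟨h', w', g, t, h1⟩ := prog0_run (A := A) (x := bin x)
    (H := (c + 1) * n.size + 5) (d, K) c le_rfl
  have h2 := h1.restrict (n := m) (by omega)
  have e0 : (St.res m ⟨s5 [] [] [] [] [], 0, []⟩) = ⟨fun _ => [], 0, []⟩ := by
    unfold St.res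
    simp only [St.mk.injEq, and_true]
    funext i
    rcases i with ⟨i, hi⟩
    match i, hi with
    | 0, _ => rfl
    | 1, _ => rfl
    | 2, _ => rfl
    | 3, _ => rfl
    | 4, _ => rfl
    | i + 5, _ => rfl
  rw [e0] at h2
  obtain ⟨⟨t', ht', h3⟩, h4⟩ := toM_halts ((prog0 (d, K) c).map (Fin.ofNat (m + 1)))
    (v := A (cs0 (d, K) (bin x) (2 ^ (c * n.size) - 1))) (g := g) ⟨t, le_rfl, h2⟩ (by rfl)
  refine ⟨⟨t', correct_of_verdict h3 ?_⟩, fun i => (h4 i).trans ?_⟩
  · rw [hA, Af_code kindZ_wf (kindZ_code _ _ _ _), ← hA]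
    exact h K le_rfl x (vs (bin x)) _ (vs_list _) (hc n hn1)
  · show _ ≤ (m + 1) * (2 * c + 8) * Nat.log 2 n + (m + 1) * (2 * c + 8)
    have h5 : n.size ≤ Nat.log 2 n + 1 := Nat.size_le.2 (Nat.lt_pow_succ_log_self (by norm_num) n)
    have h6 : (c + 1) * n.size ≤ (c + 1) * (Nat.log 2 n + 1) := Nat.mul_le_mul_left _ h5
    have h7 : (c + 1) * n.size + 5 + 1 ≤ (2 * c + 8) * (Nat.log 2 n + 1) := by
      have h8 : (c + 7) * 1 ≤ (c + 7) * (Nat.log 2 n + 1) := Nat.mul_le_mul_left _ (by omega)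
      have h9 : (2 * c + 8) * (Nat.log 2 n + 1) =
          (c + 1) * (Nat.log 2 n + 1) + (c + 7) * (Nat.log 2 n + 1) := by ring
      omega
    refine (Nat.mul_le_mul_left (m + 1) h7).trans (le_of_eq ?_)
    ring

end Pool.Agent.J4H22
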